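import Pool.Agent.Lib.MP_b9e19b_mp.Box.Range
import Mathlib.Analysis.Convex.Deriv
import Mathlib.Analysis.Calculus.Deriv.Inv

set_option autoImplicit false

/-!
# Lower bounds on a cell from the values at its corners

The pair function of the linear programming leaf is bounded below on a rectangle by the smallest
of its values at the corners and a bound for its second derivatives (chord bound).
-/

namespace RelEqN.Small.Box

open Set

/-- the pair function -/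
noncomputable def gcell (K a1 a2 k e b1 b2 b3 x y : ℝ) : ℝ :=
  K * W (x ^ 2 + y ^ 2) * (a1 * x + a2 * y + k + e * (x ^ 2 + y ^ 2)) - (b1 * x + b2 * y)
    - b3 * (x ^ 2 + y ^ 2)

/-- the bound of the second derivatives -/
noncomputable def Dcell (K A kp km ep em bm R : ℝ) : ℝ :=
  K * (6 * A / R ^ 4 + (12 * kp + 3 * km) / R ^ 5 + (2 * ep + em) / R ^ 3) + 2 * bm

lemma gcell_swap (K a1 a2 k e b1 b2 b3 x y : ℝ) :
    gcell K a1 a2 k e b1 b2 b3 x y = gcell K a2 a1 k e b2 b1 b3 y x := by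
  unfold gcell
  rw [add_comm (x ^ 2) (y ^ 2)]
  ring

/-! ### the chord bound in one variable -/

lemma chord_bound {f f' f'' : ℝ → ℝ} {a b D : ℝ} (hD : 0 ≤ D)
    (h1 : ∀ x ∈ Icc a b, HasDerivAt f (f' x) x) (h2 : ∀ x ∈ Icc a b, HasDerivAt f' (f'' x) x)
    (h3 : ∀ x ∈ Icc a b, f'' x ≤ D) {x : ℝ} (hx : x ∈ Icc a b) :
    min (f a) (f b) - D * (b - a) ^ 2 / 8 ≤ f x := by
  have hab : a ≤ b := hx.1.trans hx.2
  -- the concave function `f - D x² / 2`
  have hsub : interior (Icc a b) ⊆ Icc a b := interior_subset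
  have hq : ∀ x : ℝ, HasDerivAt (fun x : ℝ => D * x ^ 2 / 2) (D * x) x := by
    intro x
    exact (((hasDerivAt_pow 2 x).const_mul D).div_const 2).congr_deriv (by norm_num; ring)
  have hq' : ∀ x : ℝ, HasDerivAt (fun x : ℝ => D * x) D x := by
    intro x
    simpa using (hasDerivAt_id x).const_mul D
  have hc : ConcaveOn ℝ (Icc a b) (fun x => f x - D * x ^ 2 / 2) := by
    apply concaveOn_of_hasDerivWithinAt2_nonpos (convex_Icc a b)
      (f' := fun x => f' x - D * x) (f'' := fun x => f'' x - D)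
    · intro x hx
      exact ((h1 x hx).sub (hq x)).continuousAt.continuousWithinAt
    · intro x hx
      exact ((h1 x (hsub hx)).sub (hq x)).hasDerivWithinAt
    · intro x hx
      exact ((h2 x (hsub hx)).sub (hq' x)).hasDerivWithinAt
    · intro x hx
      have := h3 x (hsub hx)
      linarith
  rcases eq_or_lt_of_le hab with h | h
  · have : x = a := le_antisymm (h ▸ hx.2) hx.1
    rw [this, ← h]
    simp
  · have hba : 0 < b - a := by linarith
    set l := (b - x) / (b - a) with hl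
    set m := (x - a) / (b - a) with hm
    have hl0 : 0 ≤ l := div_nonneg (by linarith [hx.2]) hba.le
    have hm0 : 0 ≤ m := div_nonneg (by linarith [hx.1]) hba.le
    have hlm : l + m = 1 := by rw [hl, hm, ← add_div]; field_simp; ring
    have hxe : l * a + m * b = x := by rw [hl, hm]; field_simp; ring
    have hcc := hc.2 (left_mem_Icc.2 hab) (right_mem_Icc.2 hab) hl0 hm0 hlm
    simp only [smul_eq_mul] at hcc
    rw [hxe] at hcc
    have hmin : min (f a) (f b) ≤ l * f a + m * f b := by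
      calc min (f a) (f b) = (l + m) * min (f a) (f b) := by rw [hlm, one_mul]
        _ = l * min (f a) (f b) + m * min (f a) (f b) := by ring
        _ ≤ l * f a + m * f b := by
          gcongr
          · exact min_le_left _ _
          · exact min_le_right _ _
    have e1 : l * a ^ 2 + m * b ^ 2 - x ^ 2 = l * m * (b - a) ^ 2 := by
      have hm' : m = 1 - l := by linarith
      rw [← hxe, hm']; ring
    have hlm4 : l * m ≤ 1 / 4 := by
      have hm' : m = 1 - l := by linarith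
      rw [hm']; nlinarith [sq_nonneg (l - 1 / 2)]
    have h5 : l * m * (b - a) ^ 2 ≤ 1 / 4 * (b - a) ^ 2 := by gcongr
    have h6 : D * (l * m * (b - a) ^ 2) ≤ D * (1 / 4 * (b - a) ^ 2) :=
      mul_le_mul_of_nonneg_left h5 hD
    rw [← e1] at h6
    nlinarith

/-! ### derivatives -/

/-- the reciprocal of the distance -/
noncomputable def qq (s x : ℝ) : ℝ := (Real.sqrt (x ^ 2 + s))⁻¹

lemma qq_deriv {s x : ℝ} (h : 0 < x ^ 2 + s) : HasDerivAt (qq s) (-(x * qq s x ^ 3)) x := by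
  have h0 : 0 < Real.sqrt (x ^ 2 + s) := Real.sqrt_pos.2 h
  have h1 : HasDerivAt (fun x : ℝ => x ^ 2 + s) (2 * x) x :=
    ((hasDerivAt_pow 2 x).add_const s).congr_deriv (by norm_num)
  have h2 : HasDerivAt (fun x : ℝ => Real.sqrt (x ^ 2 + s))
      (2 * x / (2 * Real.sqrt (x ^ 2 + s))) x := h1.sqrt h.ne'
  have h3 : HasDerivAt (fun x : ℝ => (Real.sqrt (x ^ 2 + s))⁻¹)
      (-(2 * x / (2 * Real.sqrt (x ^ 2 + s))) / (Real.sqrt (x ^ 2 + s)) ^ 2) x :=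
    HasDerivAt.inv h2 h0.ne'
  refine h3.congr_deriv ?_
  unfold qq
  field_simp

/-- the derivative of the powers of the reciprocal of the distance -/
lemma qq_pow_deriv {s x : ℝ} (h : 0 < x ^ 2 + s) (n : ℕ) :
    HasDerivAt (fun x => qq s x ^ (n + 1)) (-((n + 1 : ℕ) * (x * qq s x ^ (n + 3)))) x := by
  refine ((qq_deriv h).pow (n + 1)).congr_deriv ?_
  rw [Nat.add_sub_cancel]
  ring

lemma W_eq_qq (s x : ℝ) : W (x ^ 2 + s) = qq s x ^ 3 := by
  unfold W qq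
  rw [inv_pow]

lemma qq_sq {s x : ℝ} (h : 0 < x ^ 2 + s) : qq s x ^ 2 * (x ^ 2 + s) = 1 := by
  unfold qq
  rw [inv_pow, Real.sq_sqrt h.le]
  field_simp

lemma qq_pos {s x : ℝ} (h : 0 < x ^ 2 + s) : 0 < qq s x := by
  unfold qq
  have := Real.sqrt_pos.2 h
  positivity

/-- the pair function in terms of the reciprocal of the distance -/
lemma gcell_eq {K a1 a2 k e b1 b2 b3 x y : ℝ} (h : 0 < x ^ 2 + y ^ 2) :
    gcell K a1 a2 k e b1 b2 b3 x y =
      K * (qq (y ^ 2) x ^ 3 * (a1 * x + (a2 * y + k)) + e * qq (y ^ 2) x ^ 1)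
        - (b1 * x + b2 * y) - b3 * (x ^ 2 + y ^ 2) := by
  unfold gcell
  rw [W_eq_qq]
  have h2 := qq_sq h
  have e1 : qq (y ^ 2) x ^ 3 * (e * (x ^ 2 + y ^ 2)) = e * qq (y ^ 2) x ^ 1 := by
    calc qq (y ^ 2) x ^ 3 * (e * (x ^ 2 + y ^ 2))
        = e * qq (y ^ 2) x * (qq (y ^ 2) x ^ 2 * (x ^ 2 + y ^ 2)) := by ring
      _ = e * qq (y ^ 2) x ^ 1 := by rw [h2]; ring
  calc _ = K * (qq (y ^ 2) x ^ 3 * (a1 * x + (a2 * y + k))
        + qq (y ^ 2) x ^ 3 * (e * (x ^ 2 + y ^ 2))) - (b1 * x + b2 * y)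
        - b3 * (x ^ 2 + y ^ 2) := by ring
    _ = _ := by rw [e1]

/-- first derivative in `x` of the formula `gcell_eq` -/
noncomputable def g1 (K a1 c e b1 b3 s x : ℝ) : ℝ :=
  K * (a1 * qq s x ^ 3 - 3 * (a1 * x ^ 2 + c * x) * qq s x ^ 5 - e * (x * qq s x ^ 3))
    - b1 - 2 * b3 * x

/-- second derivative in `x` -/
noncomputable def g2 (K a1 c e b3 s x : ℝ) : ℝ :=
  K * (-(9 * a1 * x + 3 * c) * qq s x ^ 5 + 15 * (a1 * x ^ 3 + c * x ^ 2) * qq s x ^ 7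
      + e * (3 * x ^ 2 * qq s x ^ 5 - qq s x ^ 3)) - 2 * b3

lemma g1_deriv {K a1 c e b1 b2 b3 s y x : ℝ} (h : 0 < x ^ 2 + s) :
    HasDerivAt (fun x => K * (qq s x ^ 3 * (a1 * x + c) + e * qq s x ^ 1)
        - (b1 * x + b2 * y) - b3 * (x ^ 2 + s)) (g1 K a1 c e b1 b3 s x) x := by
  have d3 := qq_pow_deriv h 2
  have d1 := qq_pow_deriv h 0
  have hx : HasDerivAt (fun x : ℝ => a1 * x + c) a1 x := by
    simpa using ((hasDerivAt_id x).const_mul a1).add_const c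
  have hb : HasDerivAt (fun x : ℝ => b1 * x + b2 * y) b1 x := by
    simpa using ((hasDerivAt_id x).const_mul b1).add_const (b2 * y)
  have hs : HasDerivAt (fun x : ℝ => b3 * (x ^ 2 + s)) (b3 * (2 * x)) x :=
    (((hasDerivAt_pow 2 x).add_const s).const_mul b3).congr_deriv (by norm_num)
  refine (((((d3.mul hx).add (d1.const_mul e)).const_mul K).sub hb).sub hs).congr_deriv ?_
  simp only [g1, Nat.cast_add, Nat.cast_ofNat, Nat.cast_one, Nat.cast_zero]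
  ring

lemma g2_deriv {K a1 c e b1 b3 s x : ℝ} (h : 0 < x ^ 2 + s) :
    HasDerivAt (g1 K a1 c e b1 b3 s) (g2 K a1 c e b3 s x) x := by
  have d3 := qq_pow_deriv h 2
  have d5 := qq_pow_deriv h 4
  have hx : HasDerivAt (fun x : ℝ => 3 * (a1 * x ^ 2 + c * x)) (3 * (a1 * (2 * x) + c)) x := by
    have h1 := (hasDerivAt_pow 2 x).const_mul a1
    have h2 : HasDerivAt (fun x : ℝ => c * x) c x := by
      simpa using (hasDerivAt_id x).const_mul c
    exact ((h1.add h2).const_mul 3).congr_deriv (by norm_num)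
  have hid : HasDerivAt (fun x : ℝ => x) 1 x := hasDerivAt_id x
  have hb : HasDerivAt (fun x : ℝ => 2 * b3 * x) (2 * b3) x := by
    simpa using (hasDerivAt_id x).const_mul (2 * b3)
  have h := ((((((d3.const_mul a1).sub (hx.mul d5)).sub ((hid.mul d3).const_mul e)).const_mul
    K).sub_const b1).sub hb)
  refine h.congr_deriv ?_
  simp only [g2, Nat.cast_add, Nat.cast_ofNat, Nat.cast_one]
  ring

/-! ### the bound of the second derivative -/

lemma g2_le {K a1 a2 k e b3 A kp km ep em bm R x y : ℝ} (hK : 0 ≤ K) (hR : 0 < R)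
    (hxy : R ^ 2 ≤ x ^ 2 + y ^ 2) (hA : 0 ≤ A) (hA2 : a1 ^ 2 + a2 ^ 2 ≤ A ^ 2)
    (hkp : 0 ≤ kp) (hkm : 0 ≤ km) (hk1 : -km ≤ k) (hk2 : k ≤ kp)
    (hep : 0 ≤ ep) (hem : 0 ≤ em) (he1 : -em ≤ e) (he2 : e ≤ ep) (hb : -bm ≤ b3) :
    g2 K a1 (a2 * y + k) e b3 (y ^ 2) x ≤ Dcell K A kp km ep em bm R := by
  have hp : 0 < x ^ 2 + y ^ 2 := lt_of_lt_of_le (by positivity) hxy
  set q := qq (y ^ 2) x with hq
  have hq0 : 0 < q := qq_pos hp
  have hq1 : q ^ 2 * (x ^ 2 + y ^ 2) = 1 := qq_sq hp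
  have hqR : q * R ≤ 1 := by
    have h1 : (q * R) ^ 2 ≤ 1 ^ 2 := by
      rw [mul_pow, one_pow, ← hq1]
      gcongr
    exact le_of_sq h1 (by norm_num)
  have hqi : q ≤ 1 / R := by rw [le_div_iff₀ hR]; exact hqR
  -- `u = x² q²`, `v = y² q²`
  set u := x ^ 2 * q ^ 2 with hu
  have hu0 : 0 ≤ u := by positivity
  have hv : y ^ 2 * q ^ 2 = 1 - u := by rw [hu]; linarith [hq1]
  have hu1 : u ≤ 1 := by
    have : 0 ≤ y ^ 2 * q ^ 2 := by positivity
    linarith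
  -- the term with `a`
  have hterm_a : a1 * (x * q * (15 * u - 9)) + a2 * (y * q * (15 * u - 3)) ≤ 6 * A := by
    have h1 : (a1 * (x * q * (15 * u - 9)) + a2 * (y * q * (15 * u - 3))) ^ 2
        ≤ (a1 ^ 2 + a2 ^ 2) * ((x * q * (15 * u - 9)) ^ 2 + (y * q * (15 * u - 3)) ^ 2) := by
      nlinarith [sq_nonneg (a1 * (y * q * (15 * u - 3)) - a2 * (x * q * (15 * u - 9)))]
    have h2 : (x * q * (15 * u - 9)) ^ 2 + (y * q * (15 * u - 3)) ^ 2 = 45 * u ^ 2 - 18 * u + 9 := by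
      have e1 : (x * q * (15 * u - 9)) ^ 2 = u * (15 * u - 9) ^ 2 := by rw [hu]; ring
      have e2 : (y * q * (15 * u - 3)) ^ 2 = (1 - u) * (15 * u - 3) ^ 2 := by rw [← hv]; ring
      rw [e1, e2]; ring
    have h3 : 45 * u ^ 2 - 18 * u + 9 ≤ 36 := by nlinarith
    have h4 : (a1 * (x * q * (15 * u - 9)) + a2 * (y * q * (15 * u - 3))) ^ 2 ≤ (6 * A) ^ 2 := by
      calc _ ≤ _ := h1
        _ ≤ A ^ 2 * 36 := by
          rw [h2]
          have h5 : 0 ≤ 45 * u ^ 2 - 18 * u + 9 := by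
            rw [← h2]; positivity
          exact mul_le_mul hA2 h3 h5 (by positivity)
        _ = (6 * A) ^ 2 := by ring
    exact le_of_sq h4 (by positivity)
  have hterm_k : k * (15 * u - 3) ≤ 12 * kp + 3 * km := by
    rcases le_or_gt 0 k with hk | hk
    · nlinarith
    · nlinarith
  have hterm_e : e * (3 * u - 1) ≤ 2 * ep + em := by
    rcases le_or_gt 0 e with he | he
    · nlinarith
    · nlinarith
  have key : g2 K a1 (a2 * y + k) e b3 (y ^ 2) x =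
      K * ((a1 * (x * q * (15 * u - 9)) + a2 * (y * q * (15 * u - 3))) * q ^ 4
        + k * (15 * u - 3) * q ^ 5 + e * (3 * u - 1) * q ^ 3) - 2 * b3 := by
    unfold g2
    rw [← hq, hu]
    ring
  rw [key]
  unfold Dcell
  have hq4 : q ^ 4 ≤ 1 / R ^ 4 := by
    calc q ^ 4 ≤ (1 / R) ^ 4 := by gcongr
      _ = 1 / R ^ 4 := by rw [div_pow, one_pow]
  have hq5 : q ^ 5 ≤ 1 / R ^ 5 := by
    calc q ^ 5 ≤ (1 / R) ^ 5 := by gcongr
      _ = 1 / R ^ 5 := by rw [div_pow, one_pow]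
  have hq3 : q ^ 3 ≤ 1 / R ^ 3 := by
    calc q ^ 3 ≤ (1 / R) ^ 3 := by gcongr
      _ = 1 / R ^ 3 := by rw [div_pow, one_pow]
  have t1 : (a1 * (x * q * (15 * u - 9)) + a2 * (y * q * (15 * u - 3))) * q ^ 4
      ≤ 6 * A / R ^ 4 := by
    calc _ ≤ 6 * A * q ^ 4 := mul_le_mul_of_nonneg_right hterm_a (by positivity)
      _ ≤ 6 * A * (1 / R ^ 4) := mul_le_mul_of_nonneg_left hq4 (by positivity)
      _ = _ := by ring
  have t2 : k * (15 * u - 3) * q ^ 5 ≤ (12 * kp + 3 * km) / R ^ 5 := by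
    calc _ ≤ (12 * kp + 3 * km) * q ^ 5 := mul_le_mul_of_nonneg_right hterm_k (by positivity)
      _ ≤ (12 * kp + 3 * km) * (1 / R ^ 5) := mul_le_mul_of_nonneg_left hq5 (by positivity)
      _ = _ := by ring
  have t3 : e * (3 * u - 1) * q ^ 3 ≤ (2 * ep + em) / R ^ 3 := by
    calc _ ≤ (2 * ep + em) * q ^ 3 := mul_le_mul_of_nonneg_right hterm_e (by positivity)
      _ ≤ (2 * ep + em) * (1 / R ^ 3) := mul_le_mul_of_nonneg_left hq3 (by positivity)
      _ = _ := by ring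
  have t := mul_le_mul_of_nonneg_left (add_le_add (add_le_add t1 t2) t3) hK
  linarith

lemma Dcell_nonneg {K A kp km ep em bm R : ℝ} (hK : 0 ≤ K) (hR : 0 < R) (hA : 0 ≤ A)
    (hkp : 0 ≤ kp) (hkm : 0 ≤ km) (hep : 0 ≤ ep) (hem : 0 ≤ em) (hbm : 0 ≤ bm) :
    0 ≤ Dcell K A kp km ep em bm R := by
  unfold Dcell; positivity

/-- the chord bound of the pair function in the first variable -/
lemma gcell_chord {K a1 a2 k e b1 b2 b3 A kp km ep em bm R x0 x1 x y : ℝ} (hK : 0 ≤ K)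
    (hR : 0 < R) (hR2 : ∀ x ∈ Icc x0 x1, R ^ 2 ≤ x ^ 2 + y ^ 2) (hA : 0 ≤ A)
    (hA2 : a1 ^ 2 + a2 ^ 2 ≤ A ^ 2)
    (hkp : 0 ≤ kp) (hkm : 0 ≤ km) (hk1 : -km ≤ k) (hk2 : k ≤ kp)
    (hep : 0 ≤ ep) (hem : 0 ≤ em) (he1 : -em ≤ e) (he2 : e ≤ ep) (hbm : 0 ≤ bm) (hb : -bm ≤ b3)
    (hx : x ∈ Icc x0 x1) :
    min (gcell K a1 a2 k e b1 b2 b3 x0 y) (gcell K a1 a2 k e b1 b2 b3 x1 y)
      - Dcell K A kp km ep em bm R * (x1 - x0) ^ 2 / 8 ≤ gcell K a1 a2 k e b1 b2 b3 x y := by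
  have hpos : ∀ x ∈ Icc x0 x1, 0 < x ^ 2 + y ^ 2 := fun x hx =>
    lt_of_lt_of_le (by positivity) (hR2 x hx)
  have h01 : x0 ≤ x1 := hx.1.trans hx.2
  have hD := Dcell_nonneg (bm := bm) hK hR hA hkp hkm hep hem hbm
  have := chord_bound (f := fun x => K * (qq (y ^ 2) x ^ 3 * (a1 * x + (a2 * y + k))
      + e * qq (y ^ 2) x ^ 1) - (b1 * x + b2 * y) - b3 * (x ^ 2 + y ^ 2))
    (f' := g1 K a1 (a2 * y + k) e b1 b3 (y ^ 2)) (f'' := g2 K a1 (a2 * y + k) e b3 (y ^ 2))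
    hD (fun x hx => g1_deriv (hpos x hx)) (fun x hx => g2_deriv (hpos x hx))
    (fun x hx => g2_le hK hR (hR2 x hx) hA hA2 hkp hkm hk1 hk2 hep hem he1 he2 hb) hx
  simp only [← gcell_eq (hpos x hx), ← gcell_eq (hpos x0 (left_mem_Icc.2 h01)),
    ← gcell_eq (hpos x1 (right_mem_Icc.2 h01))] at this
  exact this

/-- **The cell bound.** -/
theorem cell_lower {K a1 a2 k e b1 b2 b3 A kp km ep em bm R x0 x1 y0 y1 x y : ℝ} (hK : 0 ≤ K)
    (hR : 0 < R) (hR2 : ∀ x ∈ Icc x0 x1, ∀ y ∈ Icc y0 y1, R ^ 2 ≤ x ^ 2 + y ^ 2) (hA : 0 ≤ A)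
    (hA2 : a1 ^ 2 + a2 ^ 2 ≤ A ^ 2)
    (hkp : 0 ≤ kp) (hkm : 0 ≤ km) (hk1 : -km ≤ k) (hk2 : k ≤ kp)
    (hep : 0 ≤ ep) (hem : 0 ≤ em) (he1 : -em ≤ e) (he2 : e ≤ ep) (hbm : 0 ≤ bm) (hb : -bm ≤ b3)
    (hx : x ∈ Icc x0 x1) (hy : y ∈ Icc y0 y1) :
    min (min (gcell K a1 a2 k e b1 b2 b3 x0 y0) (gcell K a1 a2 k e b1 b2 b3 x0 y1))
        (min (gcell K a1 a2 k e b1 b2 b3 x1 y0) (gcell K a1 a2 k e b1 b2 b3 x1 y1))
      - Dcell K A kp km ep em bm R * ((x1 - x0) ^ 2 + (y1 - y0) ^ 2) / 8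
      ≤ gcell K a1 a2 k e b1 b2 b3 x y := by
  have h01 : x0 ≤ x1 := hx.1.trans hx.2
  have hA2' : a2 ^ 2 + a1 ^ 2 ≤ A ^ 2 := by linarith
  have hX := gcell_chord (b1 := b1) (b2 := b2) hK hR (fun x hx => hR2 x hx y hy) hA hA2 hkp hkm
    hk1 hk2 hep hem he1 he2 hbm hb hx
  have hY : ∀ z ∈ Icc x0 x1,
      min (gcell K a1 a2 k e b1 b2 b3 z y0) (gcell K a1 a2 k e b1 b2 b3 z y1)
        - Dcell K A kp km ep em bm R * (y1 - y0) ^ 2 / 8 ≤ gcell K a1 a2 k e b1 b2 b3 z y := by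
    intro z hz
    rw [gcell_swap K a1 a2 k e b1 b2 b3 z y0, gcell_swap K a1 a2 k e b1 b2 b3 z y1,
      gcell_swap K a1 a2 k e b1 b2 b3 z y]
    exact gcell_chord (b1 := b2) (b2 := b1) hK hR
      (fun w hw => by rw [add_comm]; exact hR2 z hz w hw) hA hA2' hkp hkm hk1 hk2 hep hem he1 he2
      hbm hb hy
  have hY0 := hY x0 (left_mem_Icc.2 h01)
  have hY1 := hY x1 (right_mem_Icc.2 h01)
  set m0 := min (gcell K a1 a2 k e b1 b2 b3 x0 y0) (gcell K a1 a2 k e b1 b2 b3 x0 y1)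
  set m1 := min (gcell K a1 a2 k e b1 b2 b3 x1 y0) (gcell K a1 a2 k e b1 b2 b3 x1 y1)
  have h3 : min m0 m1 - Dcell K A kp km ep em bm R * (y1 - y0) ^ 2 / 8
      ≤ min (gcell K a1 a2 k e b1 b2 b3 x0 y) (gcell K a1 a2 k e b1 b2 b3 x1 y) := by
    apply le_min
    · exact le_trans (by linarith [min_le_left m0 m1]) hY0
    · exact le_trans (by linarith [min_le_right m0 m1]) hY1
  linarith

end RelEqN.Small.Box
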