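import Mathlib.Analysis.SpecialFunctions.Sqrt
import Mathlib.Tactic

set_option autoImplicit false

/-!
# Real lemmas for the range of `(W (u² + v²) - c) u`

`W t = t^(-3/2)` is the weight as a function of the square `t` of the distance.
-/

namespace RelEqN.Small.Box

/-- the weight as a function of the squared distance -/
noncomputable def W (t : ℝ) : ℝ := (Real.sqrt t ^ 3)⁻¹

lemma W_nonneg (t : ℝ) : 0 ≤ W t := by unfold W; positivity

lemma W_pos {t : ℝ} (ht : 0 < t) : 0 < W t := by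
  unfold W; have := Real.sqrt_pos.2 ht; positivity

lemma W_zero : W 0 = 0 := by simp [W]

lemma sqrt_cube_sq {t : ℝ} (ht : 0 ≤ t) : (Real.sqrt t ^ 3) ^ 2 = t ^ 3 := by
  have h := Real.sq_sqrt ht
  calc (Real.sqrt t ^ 3) ^ 2 = (Real.sqrt t ^ 2) ^ 3 := by ring
    _ = t ^ 3 := by rw [h]

lemma W_sq {t : ℝ} (ht : 0 ≤ t) : W t ^ 2 = (t ^ 3)⁻¹ := by
  unfold W; rw [inv_pow, sqrt_cube_sq ht]

/-- `W` is decreasing -/
lemma W_anti {s t : ℝ} (hs : 0 < s) (h : s ≤ t) : W t ≤ W s := by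
  unfold W
  have h1 : 0 < Real.sqrt s := Real.sqrt_pos.2 hs
  have h2 : Real.sqrt s ≤ Real.sqrt t := Real.sqrt_le_sqrt h
  exact inv_anti₀ (by positivity) (by gcongr)

lemma le_of_sq {a b : ℝ} (h : a ^ 2 ≤ b ^ 2) (hb : 0 ≤ b) : a ≤ b :=
  (le_abs_self a).trans (abs_le_of_sq_le_sq h hb)

/-- verified lower bounds of `W` (scaled) -/
lemma le_W {t y K : ℝ} (ht : 0 < t) (hK : 0 ≤ K) (h : y ^ 2 * t ^ 3 ≤ K ^ 2) :
    y ≤ K * W t := by
  have h1 : 0 < Real.sqrt t := Real.sqrt_pos.2 ht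
  have h3 : y * Real.sqrt t ^ 3 ≤ K := by
    apply le_of_sq ?_ hK
    rw [mul_pow, sqrt_cube_sq ht.le]
    exact h
  unfold W
  rw [← div_eq_mul_inv, le_div_iff₀ (by positivity)]
  exact h3

/-- verified upper bounds of `W` (scaled) -/
lemma W_le {t y K : ℝ} (ht : 0 < t) (hy : 0 ≤ y) (h : K ^ 2 ≤ y ^ 2 * t ^ 3) :
    K * W t ≤ y := by
  have h1 : 0 < Real.sqrt t := Real.sqrt_pos.2 ht
  have h3 : K ≤ y * Real.sqrt t ^ 3 := by
    have hb : 0 ≤ y * Real.sqrt t ^ 3 := by positivity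
    have h' : K ^ 2 ≤ (y * Real.sqrt t ^ 3) ^ 2 := by
      rw [mul_pow, sqrt_cube_sq ht.le]; exact h
    exact le_of_sq h' hb
  unfold W
  rw [← div_eq_mul_inv, div_le_iff₀ (by positivity)]
  exact h3

/-! ### unimodality of `x ↦ (K W (x² + s) - c) x` -/

/-- `p ↦ √(p² + s)` is convex -/
lemma sqrt_convex {s x z l m : ℝ} (hs : 0 ≤ s) (hl : 0 ≤ l) (hm : 0 ≤ m)
    (h1 : l + m = 1) : Real.sqrt ((l * x + m * z) ^ 2 + s)
      ≤ l * Real.sqrt (x ^ 2 + s) + m * Real.sqrt (z ^ 2 + s) := by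
  have hx : 0 ≤ x ^ 2 + s := by positivity
  have hz : 0 ≤ z ^ 2 + s := by positivity
  apply Real.sqrt_le_iff.2
  constructor
  · positivity
  · have e1 := Real.sq_sqrt hx
    have e2 := Real.sq_sqrt hz
    set a := Real.sqrt (x ^ 2 + s)
    set b := Real.sqrt (z ^ 2 + s)
    have ha : 0 ≤ a := Real.sqrt_nonneg _
    have hb : 0 ≤ b := Real.sqrt_nonneg _
    -- x z + s ≤ a b
    have hab : x * z + s ≤ a * b := by
      have : (x * z + s) ^ 2 ≤ (a * b) ^ 2 := by
        rw [mul_pow, e1, e2]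
        nlinarith [mul_nonneg hs (sq_nonneg (x - z))]
      exact le_of_sq this (by positivity)
    have e3 : (l * a + m * b) ^ 2 = l ^ 2 * (x ^ 2 + s) + m ^ 2 * (z ^ 2 + s) + 2 * (l * m) * (a * b) := by
      rw [← e1, ← e2]; ring
    rw [e3]
    have hlm : 0 ≤ l * m := by positivity
    have e4 : s = (l + m) ^ 2 * s := by rw [h1]; ring
    have e5 : (l * x + m * z) ^ 2 + s = (l * x + m * z) ^ 2 + (l + m) ^ 2 * s := by rw [h1]; ring
    rw [e5]
    nlinarith [mul_le_mul_of_nonneg_left hab hlm]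

/-- the function `(K W (x² + s) - c) x` -/
noncomputable def phi (K c s x : ℝ) : ℝ := (K * W (x ^ 2 + s) - c) * x

/-- quasi-concavity on `[0, ∞)` -/
lemma phi_min {K c s x y z τ : ℝ} (hK : 0 ≤ K) (hc : 0 ≤ c) (hs : 0 ≤ s) (hx : 0 ≤ x)
    (hxy : x ≤ y) (hyz : y ≤ z) (h1 : τ ≤ phi K c s x) (h2 : τ ≤ phi K c s z) :
    τ ≤ phi K c s y := by
  rcases eq_or_lt_of_le hxy with rfl | hxy'
  · exact h1
  have hy : 0 < y := lt_of_le_of_lt hx hxy'
  have hys : 0 < y ^ 2 + s := by positivity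
  rcases le_or_gt τ 0 with hτ | hτ
  · -- nonpositive level
    unfold phi at *
    have hW : W (z ^ 2 + s) ≤ W (y ^ 2 + s) := by
      apply W_anti hys
      have : y ^ 2 ≤ z ^ 2 := by gcongr
      linarith
    have hKW : K * W (z ^ 2 + s) ≤ K * W (y ^ 2 + s) := mul_le_mul_of_nonneg_left hW hK
    rcases le_or_gt 0 (K * W (z ^ 2 + s) - c) with hd | hd
    · have : 0 ≤ (K * W (y ^ 2 + s) - c) * y := mul_nonneg (by linarith) hy.le
      linarith
    · calc τ ≤ (K * W (z ^ 2 + s) - c) * z := h2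
        _ ≤ (K * W (z ^ 2 + s) - c) * y := mul_le_mul_of_nonpos_left hyz hd.le
        _ ≤ _ := mul_le_mul_of_nonneg_right (by linarith) hy.le
  · -- positive level
    have hx' : 0 < x := by
      rcases eq_or_lt_of_le hx with h | h
      · exfalso; rw [← h] at h1; simp [phi] at h1; linarith
      · exact h
    have hz : 0 < z := lt_of_lt_of_le hy hyz
    have hxs : 0 < x ^ 2 + s := by positivity
    have hzs : 0 < z ^ 2 + s := by positivity
    -- rewrite the level conditions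
    have key : ∀ u : ℝ, 0 < u → (τ ≤ phi K c s u ↔
        Real.sqrt (u ^ 2 + s) ^ 3 * (c * u + τ) ≤ K * u) := by
      intro u hu
      have hus : 0 < u ^ 2 + s := by positivity
      have hp : 0 < Real.sqrt (u ^ 2 + s) := Real.sqrt_pos.2 hus
      have hp3 : 0 < Real.sqrt (u ^ 2 + s) ^ 3 := by positivity
      unfold phi W
      have e : (K * (Real.sqrt (u ^ 2 + s) ^ 3)⁻¹ - c) * u
          = (K * u) / (Real.sqrt (u ^ 2 + s) ^ 3) - c * u := by
        field_simp
      rw [e, le_sub_iff_add_le, le_div_iff₀ hp3]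
      constructor <;> intro h <;> nlinarith
    rw [key x hx'] at h1
    rw [key z hz] at h2
    rw [key y hy]
    have hzx : 0 < z - x := by linarith
    -- weights
    set l := (z - y) / (z - x) with hl
    set m := (y - x) / (z - x) with hm
    have hl0 : 0 ≤ l := div_nonneg (by linarith) hzx.le
    have hm0 : 0 ≤ m := div_nonneg (by linarith) hzx.le
    have hlm : l + m = 1 := by rw [hl, hm, ← add_div]; field_simp; ring
    have hyc : l * x + m * z = y := by rw [hl, hm]; field_simp; ring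
    have hconv := sqrt_convex (s := s) (x := x) (z := z) hs hl0 hm0 hlm
    rw [hyc] at hconv
    set p := Real.sqrt (x ^ 2 + s) with hp
    set r := Real.sqrt (z ^ 2 + s) with hr
    set t := Real.sqrt (y ^ 2 + s) with ht
    have hp0 : 0 ≤ p := Real.sqrt_nonneg _
    have hr0 : 0 ≤ r := Real.sqrt_nonneg _
    have ht0 : 0 ≤ t := Real.sqrt_nonneg _
    have hpr : p ≤ r := by
      apply Real.sqrt_le_sqrt
      have : x ^ 2 ≤ z ^ 2 := pow_le_pow_left₀ hx (hxy.trans hyz) 2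
      linarith
    have ht3 : t ^ 3 ≤ l * p ^ 3 + m * r ^ 3 := by
      calc t ^ 3 ≤ (l * p + m * r) ^ 3 := by gcongr
        _ ≤ l * p ^ 3 + m * r ^ 3 := by
          have hm' : m = 1 - l := by linarith
          rw [hm']
          have hl1 : l ≤ 1 := by linarith
          have : l * p ^ 3 + (1 - l) * r ^ 3 - (l * p + (1 - l) * r) ^ 3
              = l * (1 - l) * (r - p) ^ 2 * ((1 + l) * p + (2 - l) * r) := by ring
          have h5 : 0 ≤ l * (1 - l) * (r - p) ^ 2 * ((1 + l) * p + (2 - l) * r) := by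
            have : 0 ≤ 1 - l := by linarith
            have : 0 ≤ 2 - l := by linarith
            positivity
          linarith
    have hD : 0 < c * y + τ := by positivity
    have hp3r3 : p ^ 3 ≤ r ^ 3 := by gcongr
    calc t ^ 3 * (c * y + τ) ≤ (l * p ^ 3 + m * r ^ 3) * (c * y + τ) :=
          mul_le_mul_of_nonneg_right ht3 hD.le
      _ = (l * p ^ 3 + m * r ^ 3) * (l * (c * x + τ) + m * (c * z + τ)) := by
          have : c * y + τ = l * (c * x + τ) + m * (c * z + τ) := by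
            have e1 : τ = (l + m) * τ := by rw [hlm]; ring
            rw [← hyc]
            have : l * (c * x + τ) + m * (c * z + τ) = c * (l * x + m * z) + (l + m) * τ := by ring
            rw [this, hlm]; ring
          rw [this]
      _ ≤ l * (p ^ 3 * (c * x + τ)) + m * (r ^ 3 * (c * z + τ)) := by
          have hm' : m = 1 - l := by linarith
          have e : l * (p ^ 3 * (c * x + τ)) + m * (r ^ 3 * (c * z + τ))
              - (l * p ^ 3 + m * r ^ 3) * (l * (c * x + τ) + m * (c * z + τ))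
              = l * m * ((r ^ 3 - p ^ 3) * (c * (z - x))) := by
            rw [hm']; ring
          have : 0 ≤ l * m * ((r ^ 3 - p ^ 3) * (c * (z - x))) := by
            have : 0 ≤ r ^ 3 - p ^ 3 := by linarith
            positivity
          linarith
      _ ≤ l * (K * x) + m * (K * z) := by gcongr
      _ = K * y := by rw [← hyc]; ring

/-- monotonicity beyond the maximum of `x W (x² + s)` -/
lemma phi_anti {K c s x y : ℝ} (hK : 0 ≤ K) (hc : 0 ≤ c) (hs : 0 ≤ s) (hx : 0 ≤ x)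
    (hxy : x ≤ y) (hxs : 0 < x ^ 2 + s) (h2 : s ≤ 2 * x ^ 2) :
    phi K c s y ≤ phi K c s x := by
  have hy : 0 ≤ y := hx.trans hxy
  have hXY : x ^ 2 ≤ y ^ 2 := by gcongr
  have hys : 0 < y ^ 2 + s := by linarith
  have hx0 : 0 < x := by
    rcases eq_or_lt_of_le hx with h | h
    · exfalso; rw [← h] at h2 hxs; nlinarith
    · exact h
  have hy0 : 0 < y := lt_of_lt_of_le hx0 hxy
  -- y W(y² + s) ≤ x W(x² + s)
  have hmain : W (y ^ 2 + s) * y ≤ W (x ^ 2 + s) * x := by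
    have h1 : 0 ≤ W (x ^ 2 + s) * x := mul_nonneg (W_nonneg _) hx
    have hsq : (W (y ^ 2 + s) * y) ^ 2 ≤ (W (x ^ 2 + s) * x) ^ 2 := by
      rw [mul_pow, mul_pow, W_sq hys.le, W_sq hxs.le]
      rw [inv_mul_eq_div, inv_mul_eq_div, div_le_div_iff₀ (by positivity) (by positivity)]
      have hX : 0 < x ^ 2 := by positivity
      set X := x ^ 2
      set Y := y ^ 2
      have hY : 0 < Y := lt_of_lt_of_le hX hXY
      have e : X * (Y + s) ^ 3 - Y * (X + s) ^ 3
          = (Y - X) * (X * Y * (X + Y) + 3 * s * (X * Y) - s ^ 3) := by ring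
      have h4 : s ^ 2 ≤ 4 * (X * Y) := by nlinarith
      have h5 : s ≤ X + Y := by linarith
      have h6 : s ^ 2 * s ≤ (4 * (X * Y)) * (X + Y) :=
        mul_le_mul h4 h5 hs (by positivity)
      have h7 : s * s ^ 2 ≤ s * (4 * (X * Y)) := mul_le_mul_of_nonneg_left h4 hs
      have h8 : 0 ≤ X * Y * (X + Y) + 3 * s * (X * Y) - s ^ 3 := by nlinarith
      have h9 : 0 ≤ (Y - X) * (X * Y * (X + Y) + 3 * s * (X * Y) - s ^ 3) :=
        mul_nonneg (by linarith) h8
      linarith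
    exact le_of_sq hsq h1
  unfold phi
  have : K * (W (y ^ 2 + s) * y) ≤ K * (W (x ^ 2 + s) * x) := mul_le_mul_of_nonneg_left hmain hK
  nlinarith

/-! ### the two bounds used at a leaf -/

/-- lower bound on `[u0, u1]`, `0 ≤ u0` -/
lemma lower_pos {K c u0 u1 v1 u v g0 g1 : ℝ} (hK : 0 ≤ K) (hc : 0 ≤ c) (hu0 : 0 ≤ u0)
    (h0 : u0 ≤ u) (h1 : u ≤ u1) (hv : |v| ≤ v1) (huv : 0 < u ^ 2 + v ^ 2)
    (hg0 : g0 ≤ phi K c (v1 ^ 2) u0) (hg1 : g1 ≤ phi K c (v1 ^ 2) u1) :
    min g0 g1 ≤ (K * W (u ^ 2 + v ^ 2) - c) * u := by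
  have hv2 : v ^ 2 ≤ v1 ^ 2 := by
    rw [← sq_abs v]; gcongr
  have hu : 0 ≤ u := hu0.trans h0
  calc min g0 g1 ≤ phi K c (v1 ^ 2) u := by
        apply phi_min hK hc (by positivity) hu0 h0 h1
        · exact (min_le_left _ _).trans hg0
        · exact (min_le_right _ _).trans hg1
    _ ≤ _ := by
        unfold phi
        apply mul_le_mul_of_nonneg_right _ hu
        have : W (u ^ 2 + v1 ^ 2) ≤ W (u ^ 2 + v ^ 2) := W_anti huv (by linarith)
        nlinarith

/-- upper bound on `[x0, x1]`, `0 ≤ x0`, first form: the weight bound is below `c` -/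
lemma upper_neg {K c x0 u s Wm : ℝ} (h0 : x0 ≤ u) (hx0 : 0 ≤ x0)
    (hW : K * W (u ^ 2 + s) ≤ Wm) (hneg : Wm - c ≤ 0) :
    (K * W (u ^ 2 + s) - c) * u ≤ (Wm - c) * x0 := by
  have hu : 0 ≤ u := hx0.trans h0
  calc (K * W (u ^ 2 + s) - c) * u ≤ (Wm - c) * u :=
        mul_le_mul_of_nonneg_right (by linarith) hu
    _ ≤ (Wm - c) * x0 := mul_le_mul_of_nonpos_left h0 hneg

/-- second form: beyond the maximum -/
lemma upper_anti {K c x0 u s s0 Wm : ℝ} (hK : 0 ≤ K) (hc : 0 ≤ c) (h0 : x0 ≤ u) (hx0 : 0 ≤ x0)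
    (hs0 : 0 ≤ s0) (hs : s0 ≤ s) (ht : 0 < x0 ^ 2 + s0) (h2 : s0 ≤ 2 * x0 ^ 2)
    (hW : K * W (x0 ^ 2 + s0) ≤ Wm) :
    (K * W (u ^ 2 + s) - c) * u ≤ (Wm - c) * x0 := by
  have hu : 0 ≤ u := hx0.trans h0
  have h1 : x0 ^ 2 ≤ u ^ 2 := by gcongr
  have h3 : (K * W (u ^ 2 + s) - c) * u ≤ phi K c s0 u := by
    unfold phi
    apply mul_le_mul_of_nonneg_right _ hu
    have : W (u ^ 2 + s) ≤ W (u ^ 2 + s0) := W_anti (by linarith) (by linarith)
    nlinarith
  have h4 : phi K c s0 u ≤ phi K c s0 x0 := phi_anti hK hc hs0 hx0 h0 ht h2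
  have h5 : phi K c s0 x0 ≤ (Wm - c) * x0 := by
    unfold phi
    exact mul_le_mul_of_nonneg_right (by linarith) hx0
  linarith

/-- third form: the weight bound is above `c` -/
lemma upper_pos {K c x1 u s Wm : ℝ} (hu : 0 ≤ u) (h1 : u ≤ x1)
    (hW : K * W (u ^ 2 + s) ≤ Wm) (hpos : 0 ≤ Wm - c) :
    (K * W (u ^ 2 + s) - c) * u ≤ (Wm - c) * x1 := by
  calc (K * W (u ^ 2 + s) - c) * u ≤ (Wm - c) * u :=
        mul_le_mul_of_nonneg_right (by linarith) hu
    _ ≤ (Wm - c) * x1 := mul_le_mul_of_nonneg_left h1 hpos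

end RelEqN.Small.Box
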