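import Pool.Agent.Lib.MP_b9e19b_mp.Box.Frame
import Pool.Agent.Lib.MP_b9e19b_mp.Box.Range

set_option autoImplicit false

/-!
# Framed configurations in scaled real coordinates

Lengths are multiplied by `4096 = 2^12`, weights by `8192 = 2^13`.
-/

namespace RelEqN.Small.Box

open Finset

/-- squared distance -/
def tt (x y : ℕ → ℝ) (i k : ℕ) : ℝ := (x i - x k) ^ 2 + (y i - y k) ^ 2

/-- scaled weight -/
noncomputable def ww (x y : ℕ → ℝ) (i k : ℕ) : ℝ := 2 ^ 49 * W (tt x y i k)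

/-- scaled trace -/
noncomputable def Th (N : ℕ) (x y : ℕ → ℝ) : ℝ := ∑ i ∈ range N, ∑ k ∈ range N, ww x y i k

/-- `Re (w u²)`, scaled -/
noncomputable def wR (x y : ℕ → ℝ) (i k : ℕ) : ℝ :=
  ww x y i k * (((x i - x k) ^ 2 - (y i - y k) ^ 2) / tt x y i k)

/-- `Im (w u²)`, scaled -/
noncomputable def wI (x y : ℕ → ℝ) (i k : ℕ) : ℝ :=
  ww x y i k * ((2 * ((x i - x k) * (y i - y k))) / tt x y i k)

/-- `2^27 p4` -/
noncomputable def Ph (N : ℕ) (x y : ℕ → ℝ) : ℝ :=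
  2 ^ 27 * (2 * N - 3) - 98304 * Th N x y
    + ∑ i ∈ range N, (∑ k ∈ range N, ww x y i k) ^ 2
    + 9 * ∑ i ∈ range N, ((∑ k ∈ range N, wR x y i k) ^ 2 + (∑ k ∈ range N, wI x y i k) ^ 2)
    + 10 * ∑ i ∈ range N, ∑ k ∈ range N, ww x y i k ^ 2

/-- a framed central configuration of `N` unit masses (scaled coordinates) that satisfies the
necessary conditions of stability -/
structure Cfg (N : ℕ) (x y : ℕ → ℝ) : Prop where
  x0 : x 0 = - x 1
  y0 : y 0 = 0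
  y1 : y 1 = 0
  apos : 0 < x 1
  clo : ∀ i < N, ∀ k < N, i ≠ k → (2 * x 1) ^ 2 ≤ tt x y i k
  fx : ∀ i < N, ∑ k ∈ range N, (N * ww x y i k - 8192) * (x i - x k) = 0
  fy : ∀ i < N, ∑ k ∈ range N, (N * ww x y i k - 8192) * (y i - y k) = 0
  tr : Th N x y ≤ 8192 * (2 * N - 3)
  lo : 2 * (8192 * (2 * N - 3) - Th N x y) ^ 2 ≤ (2 * N - 4) * Ph N x y
  hi : Ph N x y ≤ 2 * (8192 * (2 * N - 3) - Th N x y) ^ 2
  srt : ∀ k, 2 ≤ k → k + 1 < N → y k ≤ y (k + 1)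
  sx : 0 ≤ ∑ k ∈ Ico 2 N, x k
  sy : 0 ≤ ∑ k ∈ Ico 2 N, y k
  bd : ∀ k < N, ∀ l : ℝ, 0 < l →
    x k ^ 2 + y k ^ 2 ≤ 2 ^ 23 * ((2 * N - 3) / (2 * l ^ 2) + l * (N * (N - 1)))

lemma tt_comm (x y : ℕ → ℝ) (i k : ℕ) : tt x y i k = tt x y k i := by unfold tt; ring

lemma ww_comm (x y : ℕ → ℝ) (i k : ℕ) : ww x y i k = ww x y k i := by
  unfold ww; rw [tt_comm]

lemma ww_nonneg (x y : ℕ → ℝ) (i k : ℕ) : 0 ≤ ww x y i k :=
  mul_nonneg (by norm_num) (W_nonneg _)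

lemma ww_self (x y : ℕ → ℝ) (i : ℕ) : ww x y i i = 0 := by
  unfold ww tt; simp [W_zero]

/-! ### from `Pre` to `Cfg` -/

variable {n : ℕ}

/-- midpoint of the closest pair -/
noncomputable def mid (q : Fin (n + 2) → ℂ) : ℂ := (q 0 + q 1) / 2

noncomputable def cx (q : Fin (n + 2) → ℂ) (i : ℕ) : ℝ :=
  if h : i < n + 2 then 4096 * (q ⟨i, h⟩ - mid q).re else 0

noncomputable def cy (q : Fin (n + 2) → ℂ) (i : ℕ) : ℝ :=
  if h : i < n + 2 then 4096 * (q ⟨i, h⟩ - mid q).im else 0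

lemma cx_fin (q : Fin (n + 2) → ℂ) (i : Fin (n + 2)) : cx q i = 4096 * (q i - mid q).re := by
  unfold cx; simp

lemma cy_fin (q : Fin (n + 2) → ℂ) (i : Fin (n + 2)) : cy q i = 4096 * (q i - mid q).im := by
  unfold cy; simp

lemma cx_sub (q : Fin (n + 2) → ℂ) (i k : Fin (n + 2)) :
    cx q i - cx q k = 4096 * (q i - q k).re := by
  rw [cx_fin, cx_fin]; simp only [Complex.sub_re]; ring

lemma cy_sub (q : Fin (n + 2) → ℂ) (i k : Fin (n + 2)) :
    cy q i - cy q k = 4096 * (q i - q k).im := by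
  rw [cy_fin, cy_fin]; simp only [Complex.sub_im]; ring

lemma norm_sq_re_im (z : ℂ) : ‖z‖ ^ 2 = z.re ^ 2 + z.im ^ 2 := by
  rw [← Complex.normSq_eq_norm_sq, Complex.normSq_apply]; ring

lemma tt_fin (q : Fin (n + 2) → ℂ) (i k : Fin (n + 2)) :
    tt (cx q) (cy q) i k = 2 ^ 24 * ‖q i - q k‖ ^ 2 := by
  unfold tt; rw [cx_sub, cy_sub, norm_sq_re_im]; ring

lemma ww_fin (q : Fin (n + 2) → ℂ) (i k : Fin (n + 2)) :
    ww (cx q) (cy q) i k = 8192 * wt q i k := by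
  unfold ww W wt
  rw [tt_fin]
  have : Real.sqrt (2 ^ 24 * ‖q i - q k‖ ^ 2) = 4096 * ‖q i - q k‖ := by
    rw [show (2 : ℝ) ^ 24 * ‖q i - q k‖ ^ 2 = (4096 * ‖q i - q k‖) ^ 2 by ring]
    exact Real.sqrt_sq (by positivity)
  rw [this, mul_pow, mul_inv]
  rw [← mul_assoc]; congr 1; norm_num

lemma sum_fin {N : ℕ} (f : ℕ → ℝ) : ∑ k ∈ range N, f k = ∑ k : Fin N, f k :=
  (Fin.sum_univ_eq_sum_range f N).symm

lemma wR_fin (q : Fin (n + 2) → ℂ) (i k : Fin (n + 2)) :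
    wR (cx q) (cy q) i k = 8192 * (wu q i k).re := by
  unfold wR
  rw [ww_fin, tt_fin, cx_sub, cy_sub]
  unfold wt wu
  rw [Complex.re_ofReal_mul]
  have e : ((q i - q k) ^ 2).re = (q i - q k).re ^ 2 - (q i - q k).im ^ 2 := by
    rw [sq, Complex.mul_re]; ring
  rw [e]
  rcases eq_or_ne (q i - q k) 0 with h | h
  · rw [h]; simp
  · have h0 : ‖q i - q k‖ ≠ 0 := norm_ne_zero_iff.2 h
    field_simp
    ring

lemma wI_fin (q : Fin (n + 2) → ℂ) (i k : Fin (n + 2)) :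
    wI (cx q) (cy q) i k = 8192 * (wu q i k).im := by
  unfold wI
  rw [ww_fin, tt_fin, cx_sub, cy_sub]
  unfold wt wu
  rw [Complex.im_ofReal_mul]
  have e : ((q i - q k) ^ 2).im = 2 * ((q i - q k).re * (q i - q k).im) := by
    rw [sq, Complex.mul_im]; ring
  rw [e]
  rcases eq_or_ne (q i - q k) 0 with h | h
  · rw [h]; simp
  · have h0 : ‖q i - q k‖ ≠ 0 := norm_ne_zero_iff.2 h
    field_simp
    ring

lemma Th_eq (q : Fin (n + 2) → ℂ) : Th (n + 2) (cx q) (cy q) = 8192 * T q := by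
  unfold Th T
  rw [sum_fin, Finset.mul_sum]
  refine Finset.sum_congr rfl fun i _ => ?_
  rw [sum_fin, Finset.mul_sum]
  exact Finset.sum_congr rfl fun k _ => ww_fin q i k

lemma Ph_eq (q : Fin (n + 2) → ℂ) : Ph (n + 2) (cx q) (cy q) = 2 ^ 27 * p4 q := by
  unfold Ph p4
  rw [Th_eq]
  have e1 : ∑ i ∈ range (n + 2), (∑ k ∈ range (n + 2), ww (cx q) (cy q) i k) ^ 2
      = 2 ^ 26 * ∑ i, dd q i ^ 2 := by
    rw [sum_fin, Finset.mul_sum]
    refine Finset.sum_congr rfl fun i _ => ?_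
    have : ∑ k ∈ range (n + 2), ww (cx q) (cy q) i k = 8192 * dd q i := by
      unfold dd
      rw [sum_fin, Finset.mul_sum]
      exact Finset.sum_congr rfl fun k _ => ww_fin q i k
    rw [this]; ring
  have e2 : ∑ i ∈ range (n + 2), ((∑ k ∈ range (n + 2), wR (cx q) (cy q) i k) ^ 2
      + (∑ k ∈ range (n + 2), wI (cx q) (cy q) i k) ^ 2)
      = 2 ^ 26 * ∑ i, ‖cc q i‖ ^ 2 := by
    rw [sum_fin, Finset.mul_sum]
    refine Finset.sum_congr rfl fun i _ => ?_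
    have h1 : ∑ k ∈ range (n + 2), wR (cx q) (cy q) i k = 8192 * (cc q i).re := by
      unfold cc
      rw [sum_fin, Complex.re_sum, Finset.mul_sum]
      exact Finset.sum_congr rfl fun k _ => wR_fin q i k
    have h2 : ∑ k ∈ range (n + 2), wI (cx q) (cy q) i k = 8192 * (cc q i).im := by
      unfold cc
      rw [sum_fin, Complex.im_sum, Finset.mul_sum]
      exact Finset.sum_congr rfl fun k _ => wI_fin q i k
    rw [h1, h2, norm_sq_re_im]; ring
  have e3 : ∑ i ∈ range (n + 2), ∑ k ∈ range (n + 2), ww (cx q) (cy q) i k ^ 2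
      = 2 ^ 26 * ∑ i, ∑ k, wt q i k ^ 2 := by
    rw [sum_fin, Finset.mul_sum]
    refine Finset.sum_congr rfl fun i _ => ?_
    rw [sum_fin, Finset.mul_sum]
    refine Finset.sum_congr rfl fun k _ => ?_
    rw [ww_fin]; ring
  rw [e1, e2, e3]
  push_cast
  ring

/-- the centre of mass is `0` -/
lemma CC_sum {N : ℕ} {q : Fin N → ℂ} (h : CC q) : ∑ j, q j = 0 := by
  have h1 : ∑ j, q j = ∑ j, ∑ k, (wt q j k : ℂ) * (q j - q k) :=
    Finset.sum_congr rfl fun j _ => (h.2 j).symm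
  have h2 : ∑ j, ∑ k, (wt q j k : ℂ) * (q j - q k)
      = - ∑ j, ∑ k, (wt q j k : ℂ) * (q j - q k) := by
    rw [← Finset.sum_neg_distrib]
    conv_lhs => rw [Finset.sum_comm]
    refine Finset.sum_congr rfl fun j _ => ?_
    rw [← Finset.sum_neg_distrib]
    refine Finset.sum_congr rfl fun k _ => ?_
    have : wt q k j = wt q j k := by unfold wt; rw [norm_sub_rev]
    rw [this]; ring
  have h3 : (2 : ℂ) * ∑ j, ∑ k, (wt q j k : ℂ) * (q j - q k) = 0 := by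
    linear_combination h2
  rw [h1]
  exact (mul_eq_zero.1 h3).resolve_left (by norm_num)

/-- the centred equation -/
lemma CC_force {N : ℕ} {q : Fin N → ℂ} (h : CC q) (j : Fin N) :
    ∑ k, ((N * wt q j k - 1 : ℝ) : ℂ) * (q j - q k) = 0 := by
  have h1 : ∀ k, ((N * wt q j k - 1 : ℝ) : ℂ) * (q j - q k)
      = N * ((wt q j k : ℂ) * (q j - q k)) - (q j - q k) := by
    intro k; push_cast; ring
  simp only [h1]
  rw [Finset.sum_sub_distrib, ← Finset.mul_sum, h.2 j, Finset.sum_sub_distrib, CC_sum h]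
  simp

/-- `I = U` -/
lemma CC_inertia {N : ℕ} {q : Fin N → ℂ} (h : CC q) :
    2 * ∑ j, ‖q j‖ ^ 2 = ∑ j, ∑ k, wt q j k * ‖q j - q k‖ ^ 2 := by
  have h1 : ∀ j, ‖q j‖ ^ 2 = ∑ k, wt q j k * (star (q j) * (q j - q k)).re := by
    intro j
    have e : (star (q j) * q j).re = ‖q j‖ ^ 2 := by
      rw [norm_sq_re_im]; simp [Complex.mul_re]; ring
    have e2 : star (q j) * q j = ∑ k, (wt q j k : ℂ) * (star (q j) * (q j - q k)) := by
      calc star (q j) * q j = star (q j) * ∑ k, (wt q j k : ℂ) * (q j - q k) := by rw [h.2 j]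
        _ = _ := by
          rw [Finset.mul_sum]
          exact Finset.sum_congr rfl fun k _ => by ring
    rw [← e, e2, Complex.re_sum]
    exact Finset.sum_congr rfl fun k _ => Complex.re_ofReal_mul _ _
  have h2 : ∑ j, ‖q j‖ ^ 2 = ∑ j, ∑ k, wt q j k * (star (q k) * (q k - q j)).re := by
    rw [Finset.sum_comm]
    refine Finset.sum_congr rfl fun j _ => ?_
    rw [h1 j]
    refine Finset.sum_congr rfl fun k _ => ?_
    have : wt q k j = wt q j k := by unfold wt; rw [norm_sub_rev]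
    rw [this]
  have h3 : ∑ j, ‖q j‖ ^ 2 = ∑ j, ∑ k, wt q j k * (star (q j) * (q j - q k)).re :=
    Finset.sum_congr rfl fun j _ => h1 j
  rw [two_mul]
  nth_rewrite 1 [h3]
  rw [h2, ← Finset.sum_add_distrib]
  refine Finset.sum_congr rfl fun j _ => ?_
  rw [← Finset.sum_add_distrib]
  refine Finset.sum_congr rfl fun k _ => ?_
  rw [← mul_add]
  congr 1
  rw [norm_sq_re_im]
  simp [Complex.mul_re]
  ring

/-- per pair bound of the potential -/
lemma pair_bound {r l : ℝ} (hr : 0 ≤ r) (hl : 0 < l) :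
    (r ^ 3)⁻¹ * r ^ 2 ≤ ((r ^ 3)⁻¹ / l ^ 2 + 2 * l) / 3 := by
  rcases eq_or_lt_of_le hr with h | h
  · rw [← h]; simp; positivity
  · have e : (r ^ 3)⁻¹ * r ^ 2 = 1 / r := by field_simp
    have e2 : ((r ^ 3)⁻¹ / l ^ 2 + 2 * l) / 3 - 1 / r
        = (l * r - 1) ^ 2 * (2 * (l * r) + 1) / (3 * l ^ 2 * r ^ 3) := by
      field_simp; ring
    rw [e]
    have : 0 ≤ (l * r - 1) ^ 2 * (2 * (l * r) + 1) / (3 * l ^ 2 * r ^ 3) := by positivity
    linarith

lemma inertia_le {a : ℝ} {q : Fin (n + 2) → ℂ} (h : Pre a q) (l : ℝ) (hl : 0 < l) :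
    2 * ∑ j, ‖q j‖ ^ 2 ≤
      ((2 * (n + 2 : ℕ) - 3) / l ^ 2 + 2 * l * ((n + 2 : ℕ) * ((n + 2 : ℕ) - 1))) / 3 := by
  rw [CC_inertia h.nec.isCC]
  have h1 : ∀ j k : Fin (n + 2), wt q j k * ‖q j - q k‖ ^ 2
      ≤ (wt q j k / l ^ 2 + 2 * l * (1 - if k = j then 1 else 0)) / 3 := by
    intro j k
    by_cases hjk : k = j
    · subst hjk; simp [wt]
    · rw [if_neg hjk, sub_zero, mul_one]
      exact pair_bound (norm_nonneg _) hl
  have h2 : ∑ j, ∑ k, wt q j k * ‖q j - q k‖ ^ 2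
      ≤ ∑ j : Fin (n + 2), ∑ k : Fin (n + 2),
        (wt q j k / l ^ 2 + 2 * l * (1 - if k = j then 1 else 0)) / 3 :=
    Finset.sum_le_sum fun j _ => Finset.sum_le_sum fun k _ => h1 j k
  have h3 : ∑ j : Fin (n + 2), ∑ k : Fin (n + 2),
        (wt q j k / l ^ 2 + 2 * l * (1 - if k = j then (1 : ℝ) else 0)) / 3
      = (T q / l ^ 2 + 2 * l * ((n + 2 : ℕ) * ((n + 2 : ℕ) - 1))) / 3 := by
    have e : ∀ j : Fin (n + 2), ∑ k : Fin (n + 2),
        (wt q j k / l ^ 2 + 2 * l * (1 - if k = j then (1 : ℝ) else 0)) / 3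
        = ((∑ k, wt q j k) / l ^ 2 + 2 * l * ((n + 2 : ℕ) - 1)) / 3 := by
      intro j
      rw [← Finset.sum_div, Finset.sum_add_distrib, ← Finset.sum_div, ← Finset.mul_sum,
        Finset.sum_sub_distrib]
      simp
    simp only [e]
    rw [← Finset.sum_div, Finset.sum_add_distrib, ← Finset.sum_div]
    unfold T
    simp
    ring
  rw [h3] at h2
  refine h2.trans ?_
  have := h.nec.tr
  gcongr

lemma bound_aux {a : ℝ} {q : Fin (n + 2) → ℂ} (h : Pre a q) (k : Fin (n + 2)) (l : ℝ)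
    (hl : 0 < l) : ‖q k - mid q‖ ^ 2 ≤
      1 / 2 * ((2 * (n + 2 : ℕ) - 3) / (2 * l ^ 2) + l * ((n + 2 : ℕ) * ((n + 2 : ℕ) - 1))) := by
  have hI := inertia_le h l hl
  have h0 : ‖q k - mid q‖ ^ 2 ≤ 3 / 2 * ∑ j, ‖q j‖ ^ 2 := by
    have hk : ‖q k - mid q‖ ^ 2 ≤ 3 / 2 * (‖q 0‖ ^ 2 + ‖q 1‖ ^ 2 + ‖q k‖ ^ 2) := by
      unfold mid
      simp only [norm_sq_re_im, Complex.sub_re, Complex.sub_im, Complex.add_re, Complex.add_im,
        Complex.div_re, Complex.div_im, Complex.normSq_ofNat, Complex.re_ofNat, Complex.im_ofNat]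
      nlinarith [sq_nonneg ((q k).re + (q 0).re + (q 1).re), sq_nonneg ((q k).im + (q 0).im + (q 1).im),
        sq_nonneg ((q 0).re - (q 1).re), sq_nonneg ((q 0).im - (q 1).im)]
    by_cases hk0 : k = 0
    · subst hk0
      have h01 : ‖q 0‖ ^ 2 + ‖q 1‖ ^ 2 ≤ ∑ j, ‖q j‖ ^ 2 := by
        rw [← Finset.sum_pair (f := fun j => ‖q j‖ ^ 2) (show (0 : Fin (n + 2)) ≠ 1 by simp)]
        exact Finset.sum_le_sum_of_subset_of_nonneg (Finset.subset_univ _)
          (fun _ _ _ => by positivity)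
      have : ‖q 0 - mid q‖ ^ 2 ≤ 1 / 2 * (‖q 0‖ ^ 2 + ‖q 1‖ ^ 2) := by
        unfold mid
        simp only [norm_sq_re_im, Complex.sub_re, Complex.sub_im, Complex.add_re, Complex.add_im,
          Complex.div_re, Complex.div_im, Complex.normSq_ofNat, Complex.re_ofNat, Complex.im_ofNat]
        nlinarith [sq_nonneg ((q 0).re + (q 1).re), sq_nonneg ((q 0).im + (q 1).im)]
      have h3 : 0 ≤ ∑ j, ‖q j‖ ^ 2 := by positivity
      linarith
    by_cases hk1 : k = 1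
    · subst hk1
      have h01 : ‖q 0‖ ^ 2 + ‖q 1‖ ^ 2 ≤ ∑ j, ‖q j‖ ^ 2 := by
        rw [← Finset.sum_pair (f := fun j => ‖q j‖ ^ 2) (show (0 : Fin (n + 2)) ≠ 1 by simp)]
        exact Finset.sum_le_sum_of_subset_of_nonneg (Finset.subset_univ _)
          (fun _ _ _ => by positivity)
      have : ‖q 1 - mid q‖ ^ 2 ≤ 1 / 2 * (‖q 0‖ ^ 2 + ‖q 1‖ ^ 2) := by
        unfold mid
        simp only [norm_sq_re_im, Complex.sub_re, Complex.sub_im, Complex.add_re, Complex.add_im,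
          Complex.div_re, Complex.div_im, Complex.normSq_ofNat, Complex.re_ofNat, Complex.im_ofNat]
        nlinarith [sq_nonneg ((q 0).re + (q 1).re), sq_nonneg ((q 0).im + (q 1).im)]
      have h3 : 0 ≤ ∑ j, ‖q j‖ ^ 2 := by positivity
      linarith
    · have h3 : ‖q 0‖ ^ 2 + ‖q 1‖ ^ 2 + ‖q k‖ ^ 2 ≤ ∑ j, ‖q j‖ ^ 2 := by
        have e : ∑ j ∈ ({0, 1, k} : Finset (Fin (n + 2))), ‖q j‖ ^ 2
            = ‖q 0‖ ^ 2 + ‖q 1‖ ^ 2 + ‖q k‖ ^ 2 := by
          rw [Finset.sum_insert, Finset.sum_pair (Ne.symm hk1)]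
          · ring
          · simp [Ne.symm hk0]
        rw [← e]
        exact Finset.sum_le_sum_of_subset_of_nonneg (Finset.subset_univ _)
          (fun _ _ _ => by positivity)
      linarith
  have e2 : (1 : ℝ) / 2 * ((2 * (n + 2 : ℕ) - 3) / (2 * l ^ 2) + l * ((n + 2 : ℕ) * ((n + 2 : ℕ) - 1)))
      = 3 / 4 * (((2 * (n + 2 : ℕ) - 3) / l ^ 2 + 2 * l * ((n + 2 : ℕ) * ((n + 2 : ℕ) - 1))) / 3) := by
    field_simp
    ring
  rw [e2]
  linarith

lemma mid_sub_one {a : ℝ} {q : Fin (n + 2) → ℂ} (h : Pre a q) : q 1 - mid q = (a : ℂ) := by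
  have e : q 1 - mid q = (q 1 - q 0) / 2 := by unfold mid; ring
  rw [e, h.d01]; push_cast; ring

lemma mid_sub_zero {a : ℝ} {q : Fin (n + 2) → ℂ} (h : Pre a q) : q 0 - mid q = -(a : ℂ) := by
  have e : q 0 - mid q = -((q 1 - q 0) / 2) := by unfold mid; ring
  rw [e, h.d01]; push_cast; ring

lemma cx_one {a : ℝ} {q : Fin (n + 2) → ℂ} (h : Pre a q) : cx q 1 = 4096 * a := by
  have := cx_fin q 1
  rw [mid_sub_one h] at this
  simpa using this

lemma cx_zero {a : ℝ} {q : Fin (n + 2) → ℂ} (h : Pre a q) : cx q 0 = -(4096 * a) := by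
  have := cx_fin q 0
  rw [mid_sub_zero h] at this
  simpa using this

lemma cy_one {a : ℝ} {q : Fin (n + 2) → ℂ} (h : Pre a q) : cy q 1 = 0 := by
  have := cy_fin q 1
  rw [mid_sub_one h] at this
  simpa using this

lemma cy_zero {a : ℝ} {q : Fin (n + 2) → ℂ} (h : Pre a q) : cy q 0 = 0 := by
  have := cy_fin q 0
  rw [mid_sub_zero h] at this
  simpa using this

lemma force_fin {a : ℝ} {q : Fin (n + 2) → ℂ} (h : Pre a q) (i : Fin (n + 2)) :
    ∑ k : Fin (n + 2), (((n + 2 : ℕ) * ww (cx q) (cy q) i k - 8192) * (cx q i - cx q k)) = 0 ∧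
    ∑ k : Fin (n + 2), (((n + 2 : ℕ) * ww (cx q) (cy q) i k - 8192) * (cy q i - cy q k)) = 0 := by
  have hf := CC_force h.nec.isCC i
  have hre := congrArg Complex.re hf
  have him := congrArg Complex.im hf
  rw [Complex.re_sum] at hre
  rw [Complex.im_sum] at him
  simp only [Complex.re_ofReal_mul, Complex.im_ofReal_mul, Complex.zero_re, Complex.zero_im]
    at hre him
  constructor
  · have : ∀ k : Fin (n + 2),
        (((n + 2 : ℕ) : ℝ) * ww (cx q) (cy q) i k - 8192) * (cx q i - cx q k)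
        = 8192 * 4096 * ((((n + 2 : ℕ) : ℝ) * wt q i k - 1) * (q i - q k).re) := by
      intro k; rw [ww_fin, cx_sub]; ring
    simp only [this]
    rw [← Finset.mul_sum, hre, mul_zero]
  · have : ∀ k : Fin (n + 2),
        (((n + 2 : ℕ) : ℝ) * ww (cx q) (cy q) i k - 8192) * (cy q i - cy q k)
        = 8192 * 4096 * ((((n + 2 : ℕ) : ℝ) * wt q i k - 1) * (q i - q k).im) := by
      intro k; rw [ww_fin, cy_sub]; ring
    simp only [this]
    rw [← Finset.mul_sum, him, mul_zero]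

lemma rest_sum (q : Fin (n + 2) → ℂ) :
    ∑ k ∈ Ico 2 (n + 2), cx q k = 4096 * (rest q).re ∧
    ∑ k ∈ Ico 2 (n + 2), cy q k = 4096 * (rest q).im := by
  have key : ∀ f : ℕ → ℝ, ∑ k ∈ Ico 2 (n + 2), f k = ∑ k : Fin n, f (k.succ.succ : Fin (n + 2)) := by
    intro f
    rw [Finset.sum_Ico_eq_sum_range]
    rw [show n + 2 - 2 = n by omega, sum_fin]
    refine Finset.sum_congr rfl fun k _ => ?_
    congr 1
    simp; ring
  constructor
  · rw [key]
    unfold rest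
    rw [Complex.re_sum, Finset.mul_sum]
    exact Finset.sum_congr rfl fun k _ => cx_fin q _
  · rw [key]
    unfold rest
    rw [Complex.im_sum, Finset.mul_sum]
    exact Finset.sum_congr rfl fun k _ => cy_fin q _

/-- from the frame to scaled real coordinates -/
theorem cfg_of_pre {a : ℝ} {q : Fin (n + 2) → ℂ} (h : Pre a q) (hre : 0 ≤ (rest q).re)
    (him : 0 ≤ (rest q).im)
    (hs : ∀ j k : Fin n, j ≤ k → (q j.succ.succ).im ≤ (q k.succ.succ).im) :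
    Cfg (n + 2) (cx q) (cy q) where
  x0 := by rw [cx_zero h, cx_one h]
  y0 := cy_zero h
  y1 := cy_one h
  apos := by rw [cx_one h]; have := h.apos; positivity
  clo := by
    intro i hi k hk hik
    have e := tt_fin q ⟨i, hi⟩ ⟨k, hk⟩
    simp only at e
    rw [e, cx_one h]
    have h1 := h.clo ⟨i, hi⟩ ⟨k, hk⟩ (fun hh => hik (by simpa using hh))
    have h2 : 0 ≤ 2 * a := by have := h.apos; linarith
    calc (2 * (4096 * a)) ^ 2 = 2 ^ 24 * (2 * a) ^ 2 := by ring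
      _ ≤ _ := by gcongr
  fx := by
    intro i hi
    rw [sum_fin]
    exact (force_fin h ⟨i, hi⟩).1
  fy := by
    intro i hi
    rw [sum_fin]
    exact (force_fin h ⟨i, hi⟩).2
  tr := by
    rw [Th_eq]
    have := h.nec.tr
    gcongr
  lo := by
    rw [Th_eq, Ph_eq]
    have := h.nec.lo
    unfold sS at this
    have e : 2 * (8192 * (2 * ((n + 2 : ℕ) : ℝ) - 3) - 8192 * T q) ^ 2
        = 2 ^ 27 * (2 * ((n + 2 : ℕ) : ℝ) - 3 - T q) ^ 2 := by ring
    rw [e]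
    calc (2 : ℝ) ^ 27 * (2 * ((n + 2 : ℕ) : ℝ) - 3 - T q) ^ 2
        ≤ 2 ^ 27 * ((2 * ((n + 2 : ℕ) : ℝ) - 4) * p4 q) := by gcongr
      _ = _ := by ring
  hi := by
    rw [Th_eq, Ph_eq]
    have := h.nec.hi
    unfold sS at this
    have e : 2 * (8192 * (2 * ((n + 2 : ℕ) : ℝ) - 3) - 8192 * T q) ^ 2
        = 2 ^ 27 * (2 * ((n + 2 : ℕ) : ℝ) - 3 - T q) ^ 2 := by ring
    rw [e]
    gcongr
  srt := by
    intro k h2 hk
    obtain ⟨j, rfl⟩ : ∃ j, k = j + 2 := ⟨k - 2, by omega⟩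
    have h1 := hs ⟨j, by omega⟩ ⟨j + 1, by omega⟩ (by simp)
    have e1 := cy_fin q (Fin.succ (Fin.succ ⟨j, by omega⟩))
    have e2 := cy_fin q (Fin.succ (Fin.succ ⟨j + 1, by omega⟩))
    simp only [Fin.val_succ] at e1 e2
    rw [show j + 2 = j + 1 + 1 by ring, e1, e2]
    simp only [Complex.sub_im]
    linarith
  sx := by rw [(rest_sum q).1]; positivity
  sy := by rw [(rest_sum q).2]; positivity
  bd := by
    intro k hk l hl
    have h1 := bound_aux h ⟨k, hk⟩ l hl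
    have e1 := cx_fin q ⟨k, hk⟩
    have e2 := cy_fin q ⟨k, hk⟩
    simp only at e1 e2
    rw [e1, e2]
    rw [norm_sq_re_im] at h1
    calc (4096 * (q ⟨k, hk⟩ - mid q).re) ^ 2 + (4096 * (q ⟨k, hk⟩ - mid q).im) ^ 2
        = 2 ^ 24 * ((q ⟨k, hk⟩ - mid q).re ^ 2 + (q ⟨k, hk⟩ - mid q).im ^ 2) := by ring
      _ ≤ 2 ^ 24 * (1 / 2 * ((2 * (n + 2 : ℕ) - 3) / (2 * l ^ 2)
          + l * ((n + 2 : ℕ) * ((n + 2 : ℕ) - 1)))) := by gcongr
      _ = _ := by ring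

theorem exists_cfg (N : ℕ) (hN : 2 ≤ N) {q : Fin N → ℂ} (h : Nec q) :
    ∃ x y : ℕ → ℝ, Cfg N x y := by
  obtain ⟨n, rfl⟩ : ∃ n, N = n + 2 := ⟨N - 2, by omega⟩
  obtain ⟨a, q', h1, h2, h3, h4⟩ := exists_sorted h
  exact ⟨_, _, cfg_of_pre h1 h2 h3 h4⟩

end RelEqN.Small.Box
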