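import Pool.Agent.Lib.MP_b9e19b_mp.Box.PFineK

/-!
# Kernel function of the fine linear programming leaf (natural numbers only)

The certificate contains integer multipliers, and for every pair of bodies the weights at the points
of a grid of `(m + 1)²` points which covers the rectangle of the difference of the two bodies.
-/

set_option autoImplicit false

namespace RelEqN.Small.Box.K

noncomputable section

/-- field of 32 bits at the position `a` -/
def f32 (st a : Nat) : Nat := Nat.land (Nat.shiftRight st a) 4294967295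

/-- position of the records of the pairs -/
def lH (N : Nat) : Nat := Nat.add 64 (Nat.shiftLeft N 6)

/-- length of the record of a pair; `m1` is the number of points in one direction -/
def lR (m1 : Nat) : Nat := Nat.add 192 (Nat.shiftLeft (Nat.mul m1 m1) 5)

/-- position of the record of the pair `(i, k)` -/
def lP (N m1 i k : Nat) : Nat :=
  Nat.add (lH N) (Nat.mul (lR m1) (Nat.add (Nat.shiftRight (Nat.mul i (Nat.sub i 1)) 1) k))

/-- the parts of one coordinate `x - d` of a point: square, positive and negative part of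
`N a (x - d)`, positive and negative part of `(s - 2^31) (x - d)`; here `a = ap - an` -/
def l1 (N ap an s x d : Nat) (f : Nat → Nat → Nat → Nat → Nat → Nat) : Nat :=
  (fun p n =>
    f (Nat.add (Nat.mul p p) (Nat.mul n n))
      (Nat.mul N (Nat.add (Nat.mul ap p) (Nat.mul an n)))
      (Nat.mul N (Nat.add (Nat.mul ap n) (Nat.mul an p)))
      (Nat.add (Nat.mul s p) (Nat.shiftLeft n 31))
      (Nat.add (Nat.mul s n) (Nat.shiftLeft p 31)))
    (Nat.sub x d) (Nat.sub d x)

/-- defect of the bounds of the weight, `w² t³ ≤ 2^120 ≤ (w + 1)² t³` -/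
def lw (w t : Nat) : Nat :=
  (fun t3 w1 =>
    Nat.add (Nat.sub (Nat.mul (Nat.mul w w) t3) 1329227995784915872903807060280344576)
      (Nat.sub 1329227995784915872903807060280344576 (Nat.mul (Nat.mul w1 w1) t3)))
    (Nat.mul t (Nat.mul t t)) (Nat.add w 1)

/-- defect of the lower bound at a point -/
def lv (c w gp gn hp hn : Nat) : Nat :=
  Nat.sub (Nat.add c (Nat.add (Nat.mul (Nat.add w 1) gn) (Nat.shiftLeft hp 23)))
    (Nat.add 39614081257132168796771975168 (Nat.add (Nat.mul w gp) (Nat.shiftLeft hn 23)))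

/-- defect at a point; `c` is the claimed lower bound plus the chord term, `kk = 4096 κ` -/
def lpt (N kk c w ap an bp bn s1 s2 x d y d' : Nat) : Nat :=
  l1 N ap an s1 x d (fun xx gp gn hp hn =>
    l1 N bp bn s2 y d' (fun yy gp' gn' hp' hn' =>
      Nat.add (lw w (Nat.add xx yy))
        (lv c w (Nat.add kk (Nat.add gp gp')) (Nat.add gn gn') (Nat.add hp hp')
          (Nat.add hn hn'))))

/-- the chord term; `a` and `b` are the absolute values of the coordinates of the multiplier -/
def lch (N ka a b r sx sy : Nat) : Nat :=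
  Nat.add (Nat.div
    (Nat.shiftLeft
      (Nat.mul
        (Nat.add (Nat.mul (Nat.mul (Nat.mul 3 N) (Nat.add (mx a b) (Nat.add a b))) r)
          (Nat.mul 49152 ka))
        (Nat.add (Nat.mul sx sx) (Nat.mul sy sy))) 57)
    (Nat.mul r (Nat.mul (Nat.mul r r) (Nat.mul r r)))) 1

/-- distance of `0` from the interval `[x - d, z - d]` -/
def lnx (x z d : Nat) : Nat := Nat.add (Nat.sub x d) (Nat.sub d z)

/-- defect of a pair. `A, B, C, D` are the ends of the coordinate of the first and of the second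
body, `q` is the position of the record -/
def lpr (N m0 st q ka a0 a1 b0 b1 A B C D A' B' C' D' : Nat) : Nat :=
  (fun sx sy r s1 s2 =>
    Nat.add
      (Nat.sub (Nat.mul r r)
        ((fun u v => Nat.add (Nat.mul u u) (Nat.mul v v))
          (lnx A (Nat.add A (Nat.mul (Nat.add m0 1) sx)) D)
          (lnx A' (Nat.add A' (Nat.mul (Nat.add m0 1) sy)) D')))
      ((fun c =>
        sN (Nat.add m0 2) (fun a => sN (Nat.add m0 2) (fun b =>
          lpt N (Nat.shiftLeft ka 12) c
            (f32 st (Nat.add (Nat.add q 192)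
              (Nat.shiftLeft (Nat.add (Nat.mul a (Nat.add m0 2)) b) 5)))
            (Nat.sub a0 a1) (Nat.sub a1 a0) (Nat.sub b0 b1) (Nat.sub b1 b0) s1 s2
            (Nat.add A (Nat.mul a sx)) D (Nat.add A' (Nat.mul b sy)) D')))
        (Nat.add (Nat.land (Nat.shiftRight st (Nat.add q 96)) 79228162514264337593543950335)
          (lch N ka (Nat.add (Nat.sub a0 a1) (Nat.sub a1 a0))
            (Nat.add (Nat.sub b0 b1) (Nat.sub b1 b0)) r sx sy))))
    (Nat.div (Nat.add (Nat.sub (Nat.add B D) (Nat.add A C)) m0) (Nat.add m0 1))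
    (Nat.div (Nat.add (Nat.sub (Nat.add B' D') (Nat.add A' C')) m0) (Nat.add m0 1))
    (Nat.add (f32 st (Nat.add q 64)) 1)
    (f32 st q) (f32 st (Nat.add q 32))

/-- defect of all pairs -/
def lall (N m0 EL EH st : Nat) : Nat :=
  sN N (fun i => sN i (fun k =>
    lpr N m0 st (lP N (Nat.add m0 2) i k) (f32 st 0)
      (f32 st (Nat.add 64 (Nat.shiftLeft i 6))) (f32 st (Nat.add 64 (Nat.shiftLeft k 6)))
      (f32 st (Nat.add 96 (Nat.shiftLeft i 6))) (f32 st (Nat.add 96 (Nat.shiftLeft k 6)))
      (fld EL (Nat.shiftLeft i 5)) (fld EH (Nat.shiftLeft i 5))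
      (fld EL (Nat.shiftLeft k 5)) (fld EH (Nat.shiftLeft k 5))
      (fld EL (Nat.add (Nat.shiftLeft i 5) 16)) (fld EH (Nat.add (Nat.shiftLeft i 5) 16))
      (fld EL (Nat.add (Nat.shiftLeft k 5) 16)) (fld EH (Nat.add (Nat.shiftLeft k 5) 16))))

/-- positive part of the linear coefficient of the body `j`; `c = 0` or `32` for the component -/
def lZp (N m0 st c j : Nat) : Nat :=
  Nat.add (Nat.add
    (sN j (fun k => f32 st (Nat.add (lP N (Nat.add m0 2) j k) c)))
    (sN N (fun i => sel (Nat.ble (Nat.add j 1) i)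
      (Nat.sub 4294967296 (f32 st (Nat.add (lP N (Nat.add m0 2) i j) c))) 0)))
    (Nat.mul 2 (sN N (fun i => f32 st (Nat.add (Nat.add 64 c) (Nat.shiftLeft i 6)))))

/-- negative part of the linear coefficient of the body `j` -/
def lZn (N st c j : Nat) : Nat :=
  Nat.add (Nat.shiftLeft (Nat.sub N 1) 31)
    (Nat.mul (Nat.mul 2 N) (f32 st (Nat.add (Nat.add 64 c) (Nat.shiftLeft j 6))))

/-- positive terms of the lower bound of `(zp - zn) (f - 32768)` for `lo ≤ f ≤ hi` -/
def lLp (zp zn lo : Nat) : Nat :=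
  Nat.add (Nat.mul (Nat.sub zp zn) lo) (Nat.shiftLeft (Nat.sub zn zp) 15)

/-- negative terms of the lower bound -/
def lLn (zp zn hi : Nat) : Nat :=
  Nat.add (Nat.shiftLeft (Nat.sub zp zn) 15) (Nat.mul (Nat.sub zn zp) hi)

/-- positive terms of the linear part -/
def lLP (N m0 EL st : Nat) : Nat :=
  Nat.add
    (lLp (Nat.add (lZp N m0 st 0 1) (lZn N st 0 0)) (Nat.add (lZn N st 0 1) (lZp N m0 st 0 0))
      (fld EL 32))
    (sN (Nat.sub N 2) (fun j => Nat.add
      (lLp (lZp N m0 st 0 (Nat.add j 2)) (lZn N st 0 (Nat.add j 2))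
        (fld EL (Nat.shiftLeft (Nat.add j 2) 5)))
      (lLp (lZp N m0 st 32 (Nat.add j 2)) (lZn N st 32 (Nat.add j 2))
        (fld EL (Nat.add (Nat.shiftLeft (Nat.add j 2) 5) 16)))))

/-- negative terms of the linear part -/
def lLN (N m0 EH st : Nat) : Nat :=
  Nat.add
    (lLn (Nat.add (lZp N m0 st 0 1) (lZn N st 0 0)) (Nat.add (lZn N st 0 1) (lZp N m0 st 0 0))
      (fld EH 32))
    (sN (Nat.sub N 2) (fun j => Nat.add
      (lLn (lZp N m0 st 0 (Nat.add j 2)) (lZn N st 0 (Nat.add j 2))
        (fld EH (Nat.shiftLeft (Nat.add j 2) 5)))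
      (lLn (lZp N m0 st 32 (Nat.add j 2)) (lZn N st 32 (Nat.add j 2))
        (fld EH (Nat.add (Nat.shiftLeft (Nat.add j 2) 5) 16)))))

/-- the sum of the claimed lower bounds -/
def lmu (N m0 st : Nat) : Nat :=
  sN N (fun i => sN i (fun k =>
    Nat.land (Nat.shiftRight st (Nat.add (lP N (Nat.add m0 2) i k) 96))
      79228162514264337593543950335))

/-- the fine linear programming leaf -/
def lfine (N EL EH st : Nat) : Bool :=
  (fun m0 =>
    Bool.and (Nat.beq (lall N m0 EL EH st) 0)
      (Nat.ble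
        (Nat.add (Nat.add (Nat.shiftLeft (Nat.mul (f32 st 0) (Nat.sub (Nat.mul 2 N) 3)) 35)
          (Nat.shiftLeft (Nat.shiftRight (Nat.mul N (Nat.sub N 1)) 1) 95))
          (Nat.add (Nat.shiftLeft (lLN N m0 EH st) 23) 1))
        (Nat.add (lmu N m0 st) (Nat.shiftLeft (lLP N m0 EL st) 23))))
    (f32 st 32)

/-- the length of the leaf (without the code) -/
def llen (N st : Nat) : Nat :=
  lP N (Nat.add (f32 st 32) 2) N 0

end

end RelEqN.Small.Box.K
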