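import Pool.Agent.Lib.MP_b9e19b_mp.Box.Chk

/-!
# Kernel function of the fine leaf with the fourth coefficient (natural numbers only)

The certificate contains for every ordered pair `(j, k)` two numbers of `32` bits at the position
`64 (N j + k)`: a lower bound and an upper bound of `2^24 w`.
-/

set_option autoImplicit false

namespace RelEqN.Small.Box.K

noncomputable section

/-- sum of `f k` over `k < n` -/
def sN (n : Nat) (f : Nat → Nat) : Nat :=
  Nat.rec (motive := fun _ => Nat) 0 (fun k ih => Nat.add (f k) ih) n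

/-- all `k < n` satisfy `f` -/
def aN (n : Nat) (f : Nat → Bool) : Bool :=
  Nat.rec (motive := fun _ => Bool) true (fun k ih => Bool.and (f k) ih) n

/-- the eight parts of the differences of the coordinates of the bodies at the bit positions
`i, k` -/
def df (EL EH i k : Nat) (f : Nat → Nat → Nat → Nat → Nat → Nat → Nat → Nat → Nat) : Nat :=
  (fun A B C D A' B' C' D' =>
    f (Nat.sub A D) (Nat.sub D A) (Nat.sub B C) (Nat.sub C B)
      (Nat.sub A' D') (Nat.sub D' A') (Nat.sub B' C') (Nat.sub C' B'))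
    (fld EL i) (fld EH i) (fld EL k) (fld EH k)
    (fld EL (Nat.add i 16)) (fld EH (Nat.add i 16)) (fld EL (Nat.add k 16)) (fld EH (Nat.add k 16))

/-- lower bound of the squared distance -/
def tn (rho p0 n1 q0 m1 : Nat) : Nat :=
  (fun a b => mx rho (Nat.add (Nat.mul a a) (Nat.mul b b))) (Nat.add p0 n1) (Nat.add q0 m1)

/-- upper bound of the squared distance -/
def tf (n0 p1 m0 q1 : Nat) : Nat :=
  (fun a b => Nat.add (Nat.mul a a) (Nat.mul b b)) (mx n0 p1) (mx m0 q1)

/-- the lower bound of the weight of the pair `(j, k)` -/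
def wL (N st j k : Nat) : Nat :=
  Nat.land (Nat.shiftRight st (Nat.shiftLeft (Nat.add (Nat.mul N j) k) 6)) 4294967295

/-- the upper bound of the weight of the pair `(j, k)` -/
def wH (N st j k : Nat) : Nat :=
  Nat.land (Nat.shiftRight st (Nat.add (Nat.shiftLeft (Nat.add (Nat.mul N j) k) 6) 32)) 4294967295

/-- `1` if the bounds of the weight of the pair are right -/
def wc (N rho EL EH st j k : Nat) : Nat :=
  df EL EH (Nat.shiftLeft j 5) (Nat.shiftLeft k 5) (fun p0 n0 p1 n1 q0 m0 q1 m1 =>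
    sel (Bool.and
      (Nat.ble ((fun a t => Nat.mul (Nat.mul a a) (Nat.mul t (Nat.mul t t)))
        (wL N st j k) (tf n0 p1 m0 q1)) 1329227995784915872903807060280344576)
      (Nat.ble 1329227995784915872903807060280344576
        ((fun a t => Nat.mul (Nat.mul a a) (Nat.mul t (Nat.mul t t)))
        (wH N st j k) (tn rho p0 n1 q0 m1)))) 1 0)

/-- lower bound of `2^48 w / t` -/
def gL (N st j k t : Nat) : Nat := Nat.div (Nat.shiftLeft (wL N st j k) 48) t

/-- upper bound of `2^48 w / t` -/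
def gH (N st j k t : Nat) : Nat := Nat.add (Nat.div (Nat.shiftLeft (wH N st j k) 48) t) 1

/-- square -/
def sq (a : Nat) : Nat := Nat.mul a a

/-- real part, upper bound, positive part -/
def rHP (N rho EL EH st j k : Nat) : Nat :=
  df EL EH (Nat.shiftLeft j 5) (Nat.shiftLeft k 5) (fun p0 n0 p1 n1 q0 _ _ m1 =>
    Nat.add (Nat.shiftRight (Nat.mul (gH N st j k (tn rho p0 n1 q0 m1))
      (Nat.sub (sq (mx n0 p1)) (sq (Nat.add q0 m1)))) 48) 1)

/-- real part, upper bound, negative part -/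
def rHM (N EL EH st j k : Nat) : Nat :=
  df EL EH (Nat.shiftLeft j 5) (Nat.shiftLeft k 5) (fun _ n0 p1 _ q0 m0 q1 m1 =>
    Nat.shiftRight (Nat.mul (gL N st j k (tf n0 p1 m0 q1))
      (Nat.sub (sq (Nat.add q0 m1)) (sq (mx n0 p1)))) 48)

/-- real part, lower bound, positive part -/
def rLP (N EL EH st j k : Nat) : Nat :=
  df EL EH (Nat.shiftLeft j 5) (Nat.shiftLeft k 5) (fun p0 n0 p1 n1 _ m0 q1 _ =>
    Nat.shiftRight (Nat.mul (gL N st j k (tf n0 p1 m0 q1))
      (Nat.sub (sq (Nat.add p0 n1)) (sq (mx m0 q1)))) 48)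

/-- real part, lower bound, negative part -/
def rLM (N rho EL EH st j k : Nat) : Nat :=
  df EL EH (Nat.shiftLeft j 5) (Nat.shiftLeft k 5) (fun p0 _ _ n1 q0 m0 q1 m1 =>
    Nat.add (Nat.shiftRight (Nat.mul (gH N st j k (tn rho p0 n1 q0 m1))
      (Nat.sub (sq (mx m0 q1)) (sq (Nat.add p0 n1)))) 48) 1)

/-- imaginary part, upper bound, positive part -/
def iHP (N rho EL EH st j k : Nat) : Nat :=
  df EL EH (Nat.shiftLeft j 5) (Nat.shiftLeft k 5) (fun p0 n0 p1 n1 q0 m0 q1 m1 =>
    Nat.add (Nat.shiftRight (Nat.mul (gH N st j k (tn rho p0 n1 q0 m1))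
      (mx (Nat.mul p1 q1) (Nat.mul n0 m0))) 47) 1)

/-- imaginary part, upper bound, negative part -/
def iHM (N EL EH st j k : Nat) : Nat :=
  df EL EH (Nat.shiftLeft j 5) (Nat.shiftLeft k 5) (fun p0 n0 p1 n1 q0 m0 q1 m1 =>
    Nat.shiftRight (Nat.mul (gL N st j k (tf n0 p1 m0 q1))
      (Nat.add (Nat.mul p0 m1) (Nat.mul n1 q0))) 47)

/-- imaginary part, lower bound, positive part -/
def iLP (N EL EH st j k : Nat) : Nat :=
  df EL EH (Nat.shiftLeft j 5) (Nat.shiftLeft k 5) (fun p0 n0 p1 n1 q0 m0 q1 m1 =>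
    Nat.shiftRight (Nat.mul (gL N st j k (tf n0 p1 m0 q1))
      (Nat.add (Nat.mul p0 q0) (Nat.mul n1 m1))) 47)

/-- imaginary part, lower bound, negative part -/
def iLM (N rho EL EH st j k : Nat) : Nat :=
  df EL EH (Nat.shiftLeft j 5) (Nat.shiftLeft k 5) (fun p0 n0 p1 n1 q0 m0 q1 m1 =>
    Nat.add (Nat.shiftRight (Nat.mul (gH N st j k (tn rho p0 n1 q0 m1))
      (mx (Nat.mul n0 q1) (Nat.mul p1 m0))) 47) 1)

/-- the sum over the other bodies -/
def so (N j : Nat) (f : Nat → Nat) : Nat := sN N (fun k => sel (Nat.beq j k) 0 (f k))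

/-- sum of the upper bounds of the weights at `j` -/
def dH (N st j : Nat) : Nat := so N j (wH N st j)

/-- the contribution of the body `j` -/
def vj (N rho EL EH st j : Nat) : Nat :=
  Nat.add (sq (dH N st j)) (Nat.add
    (Nat.mul 9 (Nat.add
      (sq (mx (Nat.sub (so N j (rHP N rho EL EH st j)) (so N j (rHM N EL EH st j)))
        (Nat.sub (so N j (rLM N rho EL EH st j)) (so N j (rLP N EL EH st j)))))
      (sq (mx (Nat.sub (so N j (iHP N rho EL EH st j)) (so N j (iHM N EL EH st j)))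
        (Nat.sub (so N j (iLM N rho EL EH st j)) (so N j (iLP N EL EH st j)))))))
    (Nat.mul 10 (so N j (fun k => sq (mx (Nat.sub (wH N st j k) 10066329)
      (Nat.sub 10066330 (wL N st j k)))))))

/-- the fine leaf `p4 < s² / n`; it uses `64 N²` bits of the certificate `st` -/
def pfine (N rho EL EH st : Nat) : Bool :=
  Bool.and (aN N (fun j => aN N (fun k => Bool.or (Nat.beq j k)
      (Nat.ble 1 (wc N rho EL EH st j k)))))
    (Nat.ble (Nat.add (Nat.mul (Nat.sub (Nat.mul 2 N) 4)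
      (Nat.add (Nat.mul 562949953421312 (Nat.sub (Nat.mul 2 N) 3)) (sN N (vj N rho EL EH st)))) 1)
      (Nat.add (Nat.mul 2 (sq (Nat.sub (Nat.mul 16777216 (Nat.sub (Nat.mul 2 N) 3))
        (sN N (dH N st)))))
        (Nat.mul (Nat.mul (Nat.sub (Nat.mul 2 N) 4) (Nat.mul N (Nat.sub N 1))) 1013309916158361)))

end

end RelEqN.Small.Box.K
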