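import Pool.Agent.Lib.MP_b9e19b_mp.Box.Piece
import Pool.Agent.Lib.MP_b9e19b_mp.Box.PFineK
import Pool.Agent.Lib.MP_b9e19b_mp.Box.LFineK

set_option autoImplicit false

/-!
# Kernel checker of the box search with the leaves `9`, `10`, `11`

The same trees as in the file `Chk`, with three more kinds of leaves. The grid leaf (code `9`) is a
parameter `G`: `G N Lo Hi s` is the remaining stream or `0`.
-/

namespace RelEqN.Small.Box.K

noncomputable section

/-- a leaf: remaining stream or `0` -/
def leaf2 (G : Nat → Nat → Nat → Nat → Nat) (N P F w s Lo Hi : Nat) : Nat :=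
  (fun code =>
    Bool.rec (motive := fun _ => Nat)
      (Bool.rec (motive := fun _ => Nat)
        (Bool.rec (motive := fun _ => Nat)
          (leaf N P F w s Lo Hi)
          -- 11: p4 < s² / n, fine
          ((fun st => sel (pfine N (rh Lo) (ext1 Lo Hi) (ext2 Lo Hi) st)
            (Nat.shiftRight st (Nat.shiftLeft (Nat.mul N N) 6)) 0) (Nat.shiftRight s 5))
          (Nat.beq code 11))
        -- 10: fine linear programming leaf
        ((fun st => sel (lfine N (ext1 Lo Hi) (ext2 Lo Hi) st)
          (Nat.shiftRight st (llen N st)) 0) (Nat.shiftRight s 5))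
        (Nat.beq code 10))
      -- 9: grid leaf
      (G N Lo Hi s)
      (Nat.beq code 9))
    (Nat.land s 31)

/-- a tree in prefix order: remaining stream or `0` -/
def go2 (G : Nat → Nat → Nat → Nat → Nat) (N P F w d : Nat) : Nat → Nat → Nat → Nat :=
  Nat.rec (motive := fun _ => Nat → Nat → Nat → Nat) (fun _ _ _ => 0)
    (fun _ ih s Lo Hi =>
      Bool.rec (motive := fun _ => Nat)
        (leaf2 G N P F w s Lo Hi)
        ((fun v c => ih (ih (Nat.shiftRight s 21) Lo (setf Hi v c)) (setf Lo v c) Hi)
          (Nat.shiftLeft (Nat.sub (Nat.land s 31) 16) 4) (Nat.land (Nat.shiftRight s 5) 65535))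
        (Nat.ble 16 (Nat.land s 31))) d

/-- the upper part of the tree; an element `e` is a split (`e % 4 = 0`), a subtree (`e % 4 = 1`) or
a box that is known to contain no configuration (`e % 4 = 2`) -/
def goL2 (G : Nat → Nat → Nat → Nat → Nat) (N P F w d : Nat) :
    List Nat → Nat → Nat → List Nat :=
  Nat.rec (motive := fun _ => List Nat → Nat → Nat → List Nat) (fun _ _ _ => [])
    (fun _ ih l Lo Hi =>
      List.rec (motive := fun _ => List Nat) []
        (fun e rest _ =>
          Bool.rec (motive := fun _ => List Nat)
            (Bool.rec (motive := fun _ => List Nat)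
              (Bool.rec (motive := fun _ => List Nat) []
                (Bool.rec (motive := fun _ => List Nat) [] rest
                  (Nat.beq (Nat.shiftRight e 2) (Nat.add (Nat.shiftLeft Hi 256) (Nat.land Lo
                    115792089237316195423570985008687907853269984665640564039457584007913129639935))))
                (Nat.beq (Nat.land e 3) 2))
              (Bool.rec (motive := fun _ => List Nat) [] rest
                (Nat.beq (go2 G N P F w 100 (Nat.shiftRight e 2) Lo Hi) 1))
              (Nat.beq (Nat.land e 3) 1))
            ((fun v c => ih (ih rest Lo (setf Hi v c)) (setf Lo v c) Hi)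
              (Nat.shiftLeft (Nat.land (Nat.shiftRight e 2) 15) 4)
              (Nat.land (Nat.shiftRight e 6) 65535))
            (Nat.beq (Nat.land e 3) 0)) l) d

/-- certificate for the box `Lo, Hi` -/
def chk2 (G : Nat → Nat → Nat → Nat → Nat) (N P F w : Nat) (l : List Nat) (Lo Hi : Nat) : Bool :=
  ne (goL2 G N P F w 100 l Lo Hi)

end

end RelEqN.Small.Box.K
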