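import Pool.Agent.Lib.MP_b9e19b_mp.Box.Table

set_option autoImplicit false

/-!
# Soundness of the force leaves
-/

namespace RelEqN.Small.Box

open K Finset

lemma natsub (a b : ℕ) : ((a - b : ℕ) : ℝ) = max ((a : ℝ) - b) 0 := by
  rcases le_total b a with h | h
  · rw [Nat.cast_sub h, max_eq_left]
    have : (b : ℝ) ≤ a := by exact_mod_cast h
    linarith
  · rw [Nat.sub_eq_zero_of_le h, max_eq_right]
    · simp
    · have : (a : ℝ) ≤ b := by exact_mod_cast h
      linarith

lemma ble_false {a b : ℕ} (h : Nat.ble a b = false) : b < a := by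
  by_contra h'
  rw [Nat.ble_eq_true_of_le (not_lt.1 h')] at h
  exact absurd h (by simp)

lemma ble_eq_false {a b : ℕ} (h : b < a) : Nat.ble a b = false := by
  rw [Bool.eq_false_iff]
  intro h'
  exact absurd (Nat.le_of_ble_eq_true h') (not_le.2 h)

lemma wlo_lt (t : ℕ) : wlo t < 65536 := by
  unfold wlo; rw [land_65535]; exact Nat.mod_lt _ (by norm_num)

lemma wup_le (t : ℕ) : wup t ≤ 65536 := by
  show Nat.land (lk t) 65535 + 1 ≤ 65536
  rw [land_65535]
  have := Nat.mod_lt (lk t) (show 65536 > 0 by norm_num)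
  omega

variable {N rho A B C D A' B' C' D' : ℕ}

lemma pf_pos (h : D ≤ A) (v1 u0 u1 : ℕ) (hv1 : v1 = max (D' - A') (B' - C')) (hu0 : u0 = A - D)
    (hu1 : u1 = B - C) : pf N rho A B C D A' B' C' D' =
      ((1125899906842624 + (N * wlo (u0 * u0 + v1 * v1)) * u0) - 8192 * u0)
        - (((N * wlo (u0 * u0 + v1 * v1)) * u0 + 8192 * u1)
          - ((N * wlo (u1 * u1 + v1 * v1)) * u1 + 8192 * u0)) := by
  subst hv1 hu0 hu1
  unfold pf
  rw [Nat.ble_eq_true_of_le h]
  simp only [mx_eq]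
  rfl

lemma pf_mix (h1 : A < D) (h2 : C < B) (v0 v1 n0 p1 : ℕ) (hv0 : v0 = (A' - D') + (C' - B'))
    (hv1 : v1 = max (D' - A') (B' - C')) (hn0 : n0 = D - A) (hp1 : p1 = B - C) :
    pf N rho A B C D A' B' C' D' = 1125899906842624 -
      ((N * wup (max rho (v0 * v0)) - 8192) * n0 +
        ((8192 * p1 - (N * wlo (p1 * p1 + v1 * v1)) * p1) -
          ((N * wup (max rho (v0 * v0)) - 8192) * n0))) := by
  subst hv0 hv1 hn0 hp1
  unfold pf
  rw [ble_eq_false h1, ble_eq_false h2]
  simp only [mx_eq]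
  rfl

/-- choice of the end point -/
def xsel (x0 x1 : ℕ) (b1 b2 : Bool) : ℕ :=
  Bool.rec (motive := fun _ => ℕ) (Bool.rec (motive := fun _ => ℕ) x1 x0 b2) x0 b1

lemma pf_neg (h1 : A < D) (h2 : B ≤ C) (v0 x0 x1 Wn x : ℕ) (hv0 : v0 = (A' - D') + (C' - B'))
    (hx0 : x0 = C - B) (hx1 : x1 = D - A)
    (hWn : Wn = N * wup (max rho (x0 * x0 + v0 * v0)))
    (hx : x = xsel x0 x1 (Nat.ble Wn 8191)
      (Nat.ble (((rho - (x0 * x0 + v0 * v0)) <<< 40) + v0 * v0) (2 * (x0 * x0)))) :
    pf N rho A B C D A' B' C' D' = (1125899906842624 + 8192 * x) - Wn * x := by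
  subst hx hWn hv0 hx0 hx1
  unfold pf
  rw [ble_eq_false h1, Nat.ble_eq_true_of_le h2]
  simp only [mx_eq]
  rfl

/-- the bound of a pair -/
theorem pf_sound (hN : N ≤ 16) (hA : A < 65536) (hB : B < 65536)
    (hC : C < 65536) (hD : D < 65536) (hr : 5000000 ≤ rho) {u v : ℝ} (hu0 : (A : ℝ) - D ≤ u)
    (hu1 : u ≤ (B : ℝ) - C) (hv0 : (A' : ℝ) - D' ≤ v) (hv1 : v ≤ (B' : ℝ) - C')
    (hρ : (rho : ℝ) ≤ u ^ 2 + v ^ 2) :
    ((pf N rho A B C D A' B' C' D' : ℕ) : ℝ)
      ≤ 1125899906842624 + (N * (2 ^ 49 * W (u ^ 2 + v ^ 2)) - 8192) * u := by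
  have hpos : 0 < u ^ 2 + v ^ 2 := by
    have : (5000000 : ℝ) ≤ rho := by exact_mod_cast hr
    linarith
  -- the bounds of |v|
  have hv0' : (((A' - D') + (C' - B') : ℕ) : ℝ) ≤ |v| := by
    push_cast [natsub]
    rcases le_total 0 v with h | h
    · rw [abs_of_nonneg h]
      have : (C' : ℝ) - B' ≤ 0 := by linarith
      rw [max_eq_right this, add_zero]
      exact max_le hv0 h
    · rw [abs_of_nonpos h]
      have : (A' : ℝ) - D' ≤ 0 := by linarith
      rw [max_eq_right this, zero_add]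
      exact max_le (by linarith) (by linarith)
  have hv1' : |v| ≤ ((max (D' - A') (B' - C') : ℕ) : ℝ) := by
    push_cast [natsub]
    rcases le_total 0 v with h | h
    · rw [abs_of_nonneg h]
      exact hv1.trans ((le_max_left _ _).trans (le_max_right _ _))
    · rw [abs_of_nonpos h]
      exact le_trans (by linarith) ((le_max_left ((D' : ℝ) - A') 0).trans (le_max_left _ _))
  generalize hv0d : (A' - D') + (C' - B') = v0 at hv0'
  generalize hv1d : max (D' - A') (B' - C') = v1 at hv1'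
  rcases Nat.lt_or_ge A D with h1 | h1
  · rcases Nat.lt_or_ge C B with h2 | h2
    · -- mixed
      obtain ⟨n0, hn0⟩ : ∃ n0, n0 = D - A := ⟨_, rfl⟩
      obtain ⟨p1, hp1⟩ : ∃ p1, p1 = B - C := ⟨_, rfl⟩
      rw [pf_mix h1 h2 v0 v1 n0 p1 hv0d.symm hv1d.symm hn0 hp1]
      obtain ⟨b3, hb3⟩ : ∃ b3, b3 = (N * wup (max rho (v0 * v0)) - 8192) * n0 := ⟨_, rfl⟩
      obtain ⟨a1, ha1⟩ : ∃ a1, a1 = (N * wlo (p1 * p1 + v1 * v1)) * p1 := ⟨_, rfl⟩
      rw [← hb3, ← ha1]
      have hb3le : b3 ≤ 68719476736 := by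
        have e1 : N * wup (max rho (v0 * v0)) - 8192 ≤ 16 * 65536 :=
          (Nat.sub_le _ _).trans (Nat.mul_le_mul hN (wup_le _))
        calc b3 ≤ (16 * 65536) * 65536 := by rw [hb3]; exact Nat.mul_le_mul e1 (by omega)
          _ = 68719476736 := by norm_num
      have hn0r : ((n0 : ℕ) : ℝ) = D - A := by rw [hn0, Nat.cast_sub h1.le]
      have hp1r : ((p1 : ℕ) : ℝ) = B - C := by rw [hp1, Nat.cast_sub h2.le]
      have hval : ((1125899906842624 - (b3 + ((8192 * p1 - a1) - b3)) : ℕ) : ℤ)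
            = 1125899906842624 - ((max b3 (8192 * p1 - a1) : ℕ) : ℤ) := by omega
      have hval' : ((1125899906842624 - (b3 + ((8192 * p1 - a1) - b3)) : ℕ) : ℝ)
          = 1125899906842624 - ((max b3 (8192 * p1 - a1) : ℕ) : ℝ) := by
        have := congrArg (fun z : ℤ => (z : ℝ)) hval
        simp only [Int.cast_natCast, Int.cast_sub, Int.cast_ofNat] at this
        exact this
      rw [hval']
      rcases le_total 0 u with hu | hu
      · have h3 := gl_min (N := N) tab (u0 := 0) (u1 := p1) (v1 := v1) (u := u) (v := v)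
          (by simpa using hu) (by rw [hp1r]; exact hu1) hv1' hpos
        have h4 : (-((max b3 (8192 * p1 - a1) : ℕ) : ℤ)) ≤ min (gl N wlo 0 v1) (gl N wlo p1 v1) := by
          have e0 : gl N wlo 0 v1 = 0 := by unfold gl; simp
          have e1 : gl N wlo p1 v1 = (a1 : ℤ) - 8192 * p1 := by
            unfold gl; rw [ha1]; push_cast; ring
          rw [e0, e1]
          omega
        have h5 : ((-((max b3 (8192 * p1 - a1) : ℕ) : ℤ) : ℤ) : ℝ)
            ≤ ((min (gl N wlo 0 v1) (gl N wlo p1 v1) : ℤ) : ℝ) := Int.cast_le.2 h4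
        rw [Int.cast_neg, Int.cast_natCast] at h5
        linarith
      · have h3 := le_UB (N := N) tab (x0 := 0) (x1 := n0) (v0 := v0) (rho := rho) (u := -u)
          (v := v) (by simpa using hu) (by rw [hn0r]; linarith) hv0' hr
          (by rw [neg_sq]; exact hρ)
        have h4 : UB N wup 0 n0 v0 rho = (b3 : ℤ) := by
          unfold UB
          have e0 : (0 : ℕ) * 0 + v0 * v0 = v0 * v0 := by ring
          rw [e0]
          split_ifs with c1 c2
          · have : N * wup (max rho (v0 * v0)) - 8192 = 0 := by omega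
            rw [hb3, this]; simp
          · exfalso
            have := c2.2
            have h6 : v0 * v0 = 0 := by omega
            have := c2.1
            omega
          · rw [hb3]
            have : 8192 ≤ N * wup (max rho (v0 * v0)) := by omega
            push_cast [Nat.cast_sub this]
            ring
        rw [h4, neg_sq, Int.cast_natCast] at h3
        have h5 : ((b3 : ℕ) : ℝ) ≤ ((max b3 (8192 * p1 - a1) : ℕ) : ℝ) := by
          exact_mod_cast le_max_left _ _
        linarith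
    · -- u ≤ 0
      obtain ⟨x0, hx0⟩ : ∃ x0, x0 = C - B := ⟨_, rfl⟩
      obtain ⟨x1, hx1⟩ : ∃ x1, x1 = D - A := ⟨_, rfl⟩
      obtain ⟨Wn, hWn⟩ : ∃ Wn, Wn = N * wup (max rho (x0 * x0 + v0 * v0)) := ⟨_, rfl⟩
      obtain ⟨x, hx⟩ : ∃ x, x = xsel x0 x1 (Nat.ble Wn 8191)
        (Nat.ble (((rho - (x0 * x0 + v0 * v0)) <<< 40) + v0 * v0) (2 * (x0 * x0))) := ⟨_, rfl⟩
      rw [pf_neg h1 h2 v0 x0 x1 Wn x hv0d.symm hx0 hx1 hWn hx]
      have hx0r : ((x0 : ℕ) : ℝ) = C - B := by rw [hx0, Nat.cast_sub h2]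
      have hx1r : ((x1 : ℕ) : ℝ) = D - A := by rw [hx1, Nat.cast_sub h1.le]
      have h3 := le_UB (N := N) tab (x0 := x0) (x1 := x1) (v0 := v0) (rho := rho) (u := -u)
        (v := v) (by rw [hx0r]; linarith) (by rw [hx1r]; linarith) hv0' hr
        (by rw [neg_sq]; exact hρ)
      rw [neg_sq] at h3
      have hWle : Wn ≤ 1048576 := by
        calc Wn ≤ 16 * 65536 := by rw [hWn]; exact Nat.mul_le_mul hN (wup_le _)
          _ = 1048576 := by norm_num
      have hUB : UB N wup x0 x1 v0 rho = ((Wn : ℤ) - 8192) * x := by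
        unfold UB
        rw [← hWn]
        rcases h3' : Nat.ble Wn 8191 with _ | _
        · have c1 := ble_false h3'
          rw [if_neg (by omega)]
          rcases h4' : Nat.ble (((rho - (x0 * x0 + v0 * v0)) <<< 40) + v0 * v0) (2 * (x0 * x0))
            with _ | _
          · have c2 := ble_false h4'
            rw [if_neg]
            · rw [hx, h3', h4']; rfl
            · rintro ⟨c3, c4⟩
              rw [Nat.sub_eq_zero_of_le c3, Nat.zero_shiftLeft] at c2
              omega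
          · have c2 := Nat.le_of_ble_eq_true h4'
            rw [if_pos]
            · rw [hx, h3', h4']; rfl
            · rw [Nat.shiftLeft_eq] at c2
              have hxx : x0 * x0 ≤ 65536 * 65536 := Nat.mul_le_mul (by omega) (by omega)
              have c3 : rho ≤ x0 * x0 + v0 * v0 := by
                by_contra h5
                have h6 : 1 ≤ rho - (x0 * x0 + v0 * v0) := by omega
                have h7 : 1 * 2 ^ 40 ≤ (rho - (x0 * x0 + v0 * v0)) * 2 ^ 40 :=
                  Nat.mul_le_mul_right _ h6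
                omega
              refine ⟨c3, ?_⟩
              omega
        · have c1 := Nat.le_of_ble_eq_true h3'
          rw [if_pos (by omega), hx, h3']; rfl
      rw [hUB] at h3
      have hxl : x < 65536 := by
        have : x = x0 ∨ x = x1 := by
          rw [hx]; unfold xsel
          rcases Nat.ble Wn 8191 with _ | _
          · rcases Nat.ble (((rho - (x0 * x0 + v0 * v0)) <<< 40) + v0 * v0) (2 * (x0 * x0)) with _ | _
            · right; rfl
            · left; rfl
          · left; rfl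
        omega
      have h6 : Wn * x ≤ 1125899906842624 + 8192 * x := by
        calc Wn * x ≤ 1048576 * 65536 := Nat.mul_le_mul hWle hxl.le
          _ ≤ 1125899906842624 + 8192 * x := by norm_num; omega
      rw [Nat.cast_sub h6]
      push_cast at h3 ⊢
      linarith
  · -- u ≥ 0
    obtain ⟨u0, hu0'⟩ : ∃ u0, u0 = A - D := ⟨_, rfl⟩
    obtain ⟨u1, hu1'⟩ : ∃ u1, u1 = B - C := ⟨_, rfl⟩
    rw [pf_pos h1 v1 u0 u1 hv1d.symm hu0' hu1']
    have hu0r : ((u0 : ℕ) : ℝ) = A - D := by rw [hu0', Nat.cast_sub h1]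
    have hu1r : u ≤ ((u1 : ℕ) : ℝ) := by
      rw [hu1', natsub]; exact hu1.trans (le_max_left _ _)
    have h3 := gl_min (N := N) tab (u0 := u0) (u1 := u1) (v1 := v1) (u := u) (v := v)
      (by rw [hu0r]; exact hu0) hu1r hv1' hpos
    obtain ⟨a0, ha0⟩ : ∃ a0, a0 = (N * wlo (u0 * u0 + v1 * v1)) * u0 := ⟨_, rfl⟩
    obtain ⟨a1, ha1⟩ : ∃ a1, a1 = (N * wlo (u1 * u1 + v1 * v1)) * u1 := ⟨_, rfl⟩
    rw [← ha0, ← ha1]
    have hval : ((((1125899906842624 + a0) - 8192 * u0)
        - ((a0 + 8192 * u1) - (a1 + 8192 * u0)) : ℕ) : ℤ)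
        = 1125899906842624 + min (gl N wlo u0 v1) (gl N wlo u1 v1) := by
      have e0 : gl N wlo u0 v1 = (a0 : ℤ) - 8192 * u0 := by
        unfold gl; rw [ha0]; push_cast; ring
      have e1 : gl N wlo u1 v1 = (a1 : ℤ) - 8192 * u1 := by
        unfold gl; rw [ha1]; push_cast; ring
      rw [e0, e1]
      omega
    have hval' := congrArg (fun z : ℤ => (z : ℝ)) hval
    simp only [Int.cast_natCast, Int.cast_add, Int.cast_ofNat] at hval'
    rw [hval']
    linarith

end RelEqN.Small.Box
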