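import Pool.Agent.Lib.MP_b9e19b_mp.Box.Inv

set_option autoImplicit false

/-!
# The frame of the closest pair
-/

namespace RelEqN.Small.Box

open Finset

variable {n : ℕ}

/-- a configuration whose closest pair is `(0, 1)` with `q 1 - q 0 = 2 a > 0` -/
structure Pre (a : ℝ) (q : Fin (n + 2) → ℂ) : Prop where
  nec : Nec q
  apos : 0 < a
  d01 : q 1 - q 0 = ((2 * a : ℝ) : ℂ)
  clo : ∀ j k, j ≠ k → 2 * a ≤ ‖q j - q k‖

/-- the sum of the positions of the other bodies with respect to the midpoint of `0, 1` -/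
noncomputable def rest (q : Fin (n + 2) → ℂ) : ℂ :=
  ∑ k : Fin n, (q k.succ.succ - (q 0 + q 1) / 2)

/-- permutations that fix `0` and `1` -/
def ext2 (τ : Equiv.Perm (Fin n)) : Equiv.Perm (Fin (n + 2)) :=
  Equiv.Perm.decomposeFin.symm (0, Equiv.Perm.decomposeFin.symm (0, τ))

lemma ext2_zero (τ : Equiv.Perm (Fin n)) : ext2 τ 0 = 0 := by
  unfold ext2; simp

lemma ext2_one (τ : Equiv.Perm (Fin n)) : ext2 τ 1 = 1 := by
  have h : (1 : Fin (n + 2)) = Fin.succ 0 := rfl
  unfold ext2; rw [h, Equiv.Perm.decomposeFin_symm_apply_succ]; simp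

lemma ext2_succ (τ : Equiv.Perm (Fin n)) (k : Fin n) :
    ext2 τ k.succ.succ = (τ k).succ.succ := by
  unfold ext2
  rw [Equiv.Perm.decomposeFin_symm_apply_succ, Equiv.Perm.decomposeFin_symm_apply_succ]
  simp

/-- existence of a permutation sending `0, 1` to two given different elements -/
lemma exists_perm01 {i j : Fin (n + 2)} (hij : i ≠ j) :
    ∃ σ : Equiv.Perm (Fin (n + 2)), σ 0 = i ∧ σ 1 = j := by
  set t := Equiv.swap 0 i j with ht
  have ht0 : t ≠ 0 := by
    intro h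
    have h2 : Equiv.swap 0 i t = j := by rw [ht]; simp
    rw [h, Equiv.swap_apply_left] at h2
    exact hij h2
  refine ⟨Equiv.swap 0 i * Equiv.swap 1 t, ?_, ?_⟩
  · rw [Equiv.Perm.mul_apply, Equiv.swap_apply_of_ne_of_ne (by simp) ht0.symm,
      Equiv.swap_apply_left]
  · rw [Equiv.Perm.mul_apply, Equiv.swap_apply_left, ht]
    simp

lemma exists_pre {q : Fin (n + 2) → ℂ} (h : Nec q) :
    ∃ (a : ℝ) (q' : Fin (n + 2) → ℂ), Pre a q' := by
  -- the closest pair
  have hne : ((univ : Finset (Fin (n + 2) × Fin (n + 2))).filter (fun p => p.1 ≠ p.2)).Nonempty :=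
    ⟨(0, 1), by simp⟩
  obtain ⟨⟨i, j⟩, hp, hmin⟩ := Finset.exists_min_image _ (fun p => ‖q p.1 - q p.2‖) hne
  simp only [mem_filter, mem_univ, true_and] at hp hmin
  obtain ⟨σ, hσ0, hσ1⟩ := exists_perm01 hp
  set q1 : Fin (n + 2) → ℂ := q ∘ σ with hq1
  have hN1 : Nec q1 := Nec_perm h σ
  set d := q1 1 - q1 0 with hd
  have hd0 : d ≠ 0 := by
    intro h0
    have := hN1.isCC.1 (sub_eq_zero.1 h0)
    exact absurd this (by simp)
  have hdn : 0 < ‖d‖ := norm_pos_iff.2 hd0
  set u : ℂ := star d / (‖d‖ : ℂ) with hu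
  have hun : ‖u‖ = 1 := by
    rw [hu, norm_div, norm_star, Complex.norm_real, norm_norm, div_self hdn.ne']
  have hud : u * d = ((‖d‖ : ℝ) : ℂ) := by
    rw [hu, div_mul_eq_mul_div]
    have : star d * d = ((‖d‖ : ℝ) : ℂ) * ((‖d‖ : ℝ) : ℂ) := by
      have h1 : star d * d = ((Complex.normSq d : ℝ) : ℂ) := by
        rw [Complex.normSq_eq_conj_mul_self]; rfl
      rw [h1, Complex.normSq_eq_norm_sq]
      push_cast; ring
    rw [this, mul_div_assoc, div_self (by exact_mod_cast hdn.ne'), mul_one]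
  refine ⟨‖d‖ / 2, fun k => u * q1 k, Nec_rot hN1 u hun, by positivity, ?_, ?_⟩
  · rw [← mul_sub, ← hd, hud]; congr 1; ring
  · intro k l hkl
    rw [← mul_sub, norm_mul, hun, one_mul]
    have := hmin (σ k, σ l) (fun hh => hkl (σ.injective hh))
    simp only at this
    have e : ‖d‖ = ‖q i - q j‖ := by
      rw [hd, hq1, Function.comp_apply, Function.comp_apply, hσ0, hσ1, norm_sub_rev]
    rw [e]
    calc 2 * (‖q i - q j‖ / 2) = ‖q i - q j‖ := by ring
      _ ≤ _ := this

lemma pre_conj {a : ℝ} {q : Fin (n + 2) → ℂ} (h : Pre a q) : Pre a (fun k => star (q k)) where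
  nec := Nec_conj h.nec
  apos := h.apos
  d01 := by rw [← star_sub, h.d01]; exact Complex.conj_ofReal _
  clo := fun j k hjk => by rw [← star_sub, norm_star]; exact h.clo j k hjk

lemma rest_conj (q : Fin (n + 2) → ℂ) : rest (fun k => star (q k)) = star (rest q) := by
  unfold rest
  rw [star_sum]
  refine Finset.sum_congr rfl fun k _ => ?_
  simp

lemma pre_flip {a : ℝ} {q : Fin (n + 2) → ℂ} (h : Pre a q) :
    Pre a (fun k => (-1 : ℂ) * star (q (Equiv.swap 0 1 k))) where
  nec := Nec_rot (Nec_conj (Nec_perm h.nec (Equiv.swap 0 1))) (-1) (by simp)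
  apos := h.apos
  d01 := by
    rw [Equiv.swap_apply_left, Equiv.swap_apply_right]
    have : (-1 : ℂ) * star (q 0) - (-1 : ℂ) * star (q 1) = star (q 1 - q 0) := by
      rw [star_sub]; ring
    rw [this, h.d01]; exact Complex.conj_ofReal _
  clo := fun j k hjk => by
    rw [← mul_sub, norm_mul, ← star_sub, norm_star]
    simp only [norm_neg, norm_one, one_mul]
    exact h.clo _ _ (fun hh => hjk ((Equiv.swap 0 1).injective hh))

lemma rest_flip (q : Fin (n + 2) → ℂ) :
    rest (fun k => (-1 : ℂ) * star (q (Equiv.swap 0 1 k))) = - star (rest q) := by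
  unfold rest
  rw [star_sum, ← Finset.sum_neg_distrib]
  refine Finset.sum_congr rfl fun k _ => ?_
  have e1 : Equiv.swap (0 : Fin (n + 2)) 1 k.succ.succ = k.succ.succ :=
    Equiv.swap_apply_of_ne_of_ne (Fin.succ_ne_zero _)
      (by intro h; exact Fin.succ_ne_zero k (Fin.succ_injective _ (h.trans (Fin.succ_zero_eq_one).symm)))
  simp only [Equiv.swap_apply_left, Equiv.swap_apply_right, e1]
  simp only [star_sub, star_div₀, star_add]
  have : star (2 : ℂ) = 2 := by simp
  rw [this]; ring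

lemma pre_perm {a : ℝ} {q : Fin (n + 2) → ℂ} (h : Pre a q) (τ : Equiv.Perm (Fin n)) :
    Pre a (q ∘ ext2 τ) where
  nec := Nec_perm h.nec _
  apos := h.apos
  d01 := by simp only [Function.comp_apply, ext2_zero, ext2_one]; exact h.d01
  clo := fun j k hjk => h.clo _ _ (fun hh => hjk ((ext2 τ).injective hh))

lemma rest_perm (q : Fin (n + 2) → ℂ) (τ : Equiv.Perm (Fin n)) :
    rest (q ∘ ext2 τ) = rest q := by
  unfold rest
  simp only [Function.comp_apply, ext2_zero, ext2_one, ext2_succ]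
  exact Equiv.sum_comp τ (fun k => q k.succ.succ - (q 0 + q 1) / 2)

/-- the frame: closest pair `(0, 1)`, the other bodies ordered by their second coordinate and
with nonnegative sums of coordinates -/
theorem exists_sorted {q : Fin (n + 2) → ℂ} (h : Nec q) :
    ∃ (a : ℝ) (q' : Fin (n + 2) → ℂ), Pre a q' ∧ 0 ≤ (rest q').re ∧ 0 ≤ (rest q').im ∧
      ∀ j k : Fin n, j ≤ k → (q' j.succ.succ).im ≤ (q' k.succ.succ).im := by
  obtain ⟨a, q1, h1⟩ := exists_pre h
  obtain ⟨q2, h2, hre⟩ : ∃ q2 : Fin (n + 2) → ℂ, Pre a q2 ∧ 0 ≤ (rest q2).re := by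
    rcases le_total 0 (rest q1).re with h0 | h0
    · exact ⟨q1, h1, h0⟩
    · refine ⟨_, pre_flip h1, ?_⟩
      rw [rest_flip]
      simpa using h0
  obtain ⟨q3, h3, hre3, him3⟩ : ∃ q3 : Fin (n + 2) → ℂ, Pre a q3 ∧ 0 ≤ (rest q3).re ∧
      0 ≤ (rest q3).im := by
    rcases le_total 0 (rest q2).im with h0 | h0
    · exact ⟨q2, h2, hre, h0⟩
    · refine ⟨_, pre_conj h2, ?_, ?_⟩
      · rw [rest_conj]; simpa using hre
      · rw [rest_conj]; simpa using h0
  set f : Fin n → ℝ := fun k => (q3 k.succ.succ).im with hf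
  refine ⟨a, q3 ∘ ext2 (Tuple.sort f), pre_perm h3 _, ?_, ?_, ?_⟩
  · rw [rest_perm]; exact hre3
  · rw [rest_perm]; exact him3
  · intro j k hjk
    simp only [Function.comp_apply, ext2_succ]
    exact Tuple.monotone_sort f hjk

end RelEqN.Small.Box
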