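import Pool.Agent.Lib.MP_b9e19b_mp.Box.GLatS

set_option autoImplicit false
set_option maxRecDepth 100000

/-!
# The tables of the lattice leaf are correct
-/

namespace RelEqN.Small.Box

open K

theorem gk1 : onc = true := by decide +kernel

theorem gk2 : lball = true := by decide +kernel

theorem gk3 : ixc = true := by decide +kernel

theorem gk4 : tmc = true := by decide +kernel

theorem gk5 : lxc = true := by decide +kernel

theorem gk6 : gok gn GG = true := by decide +kernel

/-- the strips -/
theorem gk7 : gchk gn gS (2 ^ (32 * gS) - 1) GG GV 5000000 TW TV TX TZ TY TU TR TS TT TQ 0 gn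
    = true := by decide +kernel

lemma strip_of_gchk {n S M G GV rho : ℕ} {T : Tbl}
    (h : gchk n S M G GV rho T.w T.v T.x T.z T.y T.u T.r T.s T.t T.q 0 n = true) :
    ∀ b < n, strip n S M G GV rho T b = true :=
  fun _ hb => gchk_strip h (Nat.zero_le _) (by rw [Nat.zero_add]; exact hb)

theorem gk8 : ∀ b < gn, strip gn gS (2 ^ (32 * gS) - 1) GG GV 5000000 TT10 b = true :=
  strip_of_gchk (T := TT10) gk7

theorem gk9 : 0 < gn ∧ g2n = 2 * gn ∧ gS = g2n + 1 ∧ gS32 = 32 * gS := by decide +kernel

/-- **The tables.** -/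
theorem latA : LatA gn :=
  latA_of gk9.1 gk9.2.1 gk9.2.2.1 gk9.2.2.2 gk6 gk1 gk2 gk3 gk4 gk5 gk8

end RelEqN.Small.Box
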