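/-!
# Kernel check of the lattice tables (natural numbers only)

The grid has the nodes `0 = g 0 < g 1 < … < g n` (unit `1/4096`) and their negatives; node `i` of the
full grid (`0 ≤ i ≤ 2 n`) is `± g |i - n|`. A table has lanes of `32` bits, lane `S j + i` belongs to
the node `(i, j)`. For each of the functions `w`, `x w`, `y w`, `t w`, `t` (`t = x² + y²`) there is a
table for the function and one for its negative (minorants plus an offset, unit `2^-13`). `GV` is the
table of the numbers `⌊2^60 t^(-3/2)⌋` on the quadrant (lanes of `32` bits, stride `n + 1`).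
-/

set_option autoImplicit false

namespace RelEqN.Small.Box.K

noncomputable section

/-- lane of 32 bits -/
def l32 (T p : Nat) : Nat := Nat.land (Nat.shiftRight T (Nat.shiftLeft p 5)) 4294967295

/-- coordinate of a node -/
def gx (G a : Nat) : Nat := Nat.land (Nat.shiftRight G (Nat.shiftLeft a 4)) 65535

/-- `f k` for all `k < n` -/
def al (n : Nat) (f : Nat → Bool) : Bool :=
  Nat.rec (motive := fun _ => Bool) true (fun k ih => Bool.and (f k) ih) n

/-- one node: `p` the lane, `ax, ay` absolute values of the coordinates, `V` the weight, `C.` the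
corrections, `T.` the tables (`TX` for the function with the sign of `|x| w`, `TZ` for the other) -/
def ndc (V ax ay t p Cw Cv Cx Cz Cy Cu Cr Cs Ct TW TV TX TZ TY TU TR TS TT TQ : Nat) : Bool :=
  Bool.and (Nat.ble (Nat.add (Nat.shiftLeft (l32 TW p) 11) Cw) (Nat.add 268435456 V))
  (Bool.and (Nat.ble (Nat.add (Nat.shiftLeft (l32 TV p) 11) (Nat.add Cv (Nat.add V 1))) 268435456)
  (Bool.and (Nat.ble (Nat.shiftLeft (Nat.add (Nat.shiftLeft (l32 TX p) 11) Cx) 12)
    (Nat.add 549755813888 (Nat.mul ax V)))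
  (Bool.and (Nat.ble (Nat.add (Nat.shiftLeft (Nat.add (Nat.shiftLeft (l32 TZ p) 11) Cz) 12)
    (Nat.mul ax (Nat.add V 1))) 549755813888)
  (Bool.and (Nat.ble (Nat.shiftLeft (Nat.add (Nat.shiftLeft (l32 TY p) 11) Cy) 12)
    (Nat.add 549755813888 (Nat.mul ay V)))
  (Bool.and (Nat.ble (Nat.add (Nat.shiftLeft (Nat.add (Nat.shiftLeft (l32 TU p) 11) Cu) 12)
    (Nat.mul ay (Nat.add V 1))) 549755813888)
  (Bool.and (Nat.ble (Nat.shiftLeft (Nat.add (Nat.shiftLeft (l32 TR p) 11) Cr) 24)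
    (Nat.add 1125899906842624 (Nat.mul t V)))
  (Bool.and (Nat.ble (Nat.add (Nat.shiftLeft (Nat.add (Nat.shiftLeft (l32 TS p) 11) Cs) 24)
    (Nat.mul t (Nat.add V 1))) 1125899906842624)
  (Bool.and (Nat.ble (Nat.add (Nat.shiftLeft (l32 TT p) 13) Ct)
    (Nat.add 17179869184 (Nat.shiftLeft t 2)))
  (Nat.ble (Nat.add (Nat.shiftLeft (l32 TQ p) 11) t) 4294967296)))))))))

/-- the weight at a node -/
def vok (V t : Nat) : Bool :=
  (fun t3 => Bool.and (Nat.ble (Nat.mul (Nat.mul V V) t3) 1329227995784915872903807060280344576)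
    (Nat.ble 1329227995784915872903807060280344576
      (Nat.mul (Nat.mul (Nat.add V 1) (Nat.add V 1)) t3)))
  (Nat.mul t (Nat.mul t t))

/-- the two nodes `(± a', b')` of a row for the corrections of one cell -/
def nd2 (n V ax ay a Cw Cv Cx Cz Cy Cu Cr Cs Ct TW TV TX TZ TY TU TR TS TT TQ : Nat) : Bool :=
  (fun t => Bool.and (vok V t)
    (Bool.and (ndc V ax ay t (Nat.add n a) Cw Cv Cx Cz Cy Cu Cr Cs Ct TW TV TX TZ TY TU TR TS TT TQ)
      (ndc V ax ay t (Nat.sub n a) Cw Cv Cx Cz Cy Cu Cr Cs Ct TW TV TZ TX TY TU TR TS TT TQ)))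
  (Nat.add (Nat.mul ax ax) (Nat.mul ay ay))

/-- the positive part sums of the corrections: `hx² (k B - l C)⁺ + hy² (k' D - l' A)⁺` -/
def pp (h B C k l h' D A k' l' : Nat) : Nat :=
  Nat.add (Nat.mul h (Nat.sub (Nat.mul k B) (Nat.mul l C)))
    (Nat.mul h' (Nat.sub (Nat.mul k' D) (Nat.mul l' A)))

/-- the quotient rounded up -/
def dv (P V R : Nat) : Nat := Nat.add (Nat.div (Nat.mul P V) R) 1

/-- one cell `(a, b)`, the row `b'` (`= b` or `b + 1`), both signs of `x` -/
def crow (n G GV rho b b' TW TV TX TZ TY TU TR TS TT TQ a : Nat) : Bool :=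
  (fun X0 X1 Y0 Y1 =>
    (fun A B C D h h' =>
      Bool.rec (motive := fun _ => Bool)
        ((fun R V1 =>
          (fun R4 =>
            (fun Cw Cv Cx Cz Cy Cu Cr Cs Ct =>
              Bool.and (Nat.ble 1 R)
              (Bool.and (vok (Nat.sub V1 1) R)
              (Bool.and (nd2 n (l32 GV (Nat.add a (Nat.mul (Nat.add n 1) b'))) X0 (gx G b') a
                  Cw Cv Cx Cz Cy Cu Cr Cs Ct TW TV TX TZ TY TU TR TS TT TQ)
                (nd2 n (l32 GV (Nat.add (Nat.add a 1) (Nat.mul (Nat.add n 1) b'))) X1 (gx G b')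
                  (Nat.add a 1) Cw Cv Cx Cz Cy Cu Cr Cs Ct TW TV TX TZ TY TU TR TS TT TQ))))
            (dv (pp h B C 12 3 h' D A 12 3) V1 (Nat.shiftLeft R4 3))
            (dv (pp h D A 3 12 h' B C 3 12) V1 (Nat.shiftLeft R4 3))
            (dv (Nat.mul X1 (pp h B C 6 9 h' D A 12 3)) V1 (Nat.shiftLeft R4 15))
            (dv (Nat.mul X1 (pp h D A 9 6 h' B C 3 12)) V1 (Nat.shiftLeft R4 15))
            (dv (Nat.mul Y1 (pp h' D A 6 9 h B C 12 3)) V1 (Nat.shiftLeft R4 15))
            (dv (Nat.mul Y1 (pp h' B C 9 6 h D A 3 12)) V1 (Nat.shiftLeft R4 15))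
            (dv (pp h B C 2 1 h' D A 2 1) V1 (Nat.shiftLeft R 27))
            (dv (pp h D A 1 2 h' B C 1 2) V1 (Nat.shiftLeft R 27))
            (Nat.add h h'))
          (Nat.mul R R))
         (Nat.add A C) (Nat.add (l32 GV (Nat.add a (Nat.mul (Nat.add n 1) b))) 1))
        true
        (Nat.ble (Nat.add (Nat.add B D) 1) rho))
    (Nat.mul X0 X0) (Nat.mul X1 X1) (Nat.mul Y0 Y0) (Nat.mul Y1 Y1)
    ((fun d => Nat.mul d d) (Nat.sub X1 X0)) ((fun d => Nat.mul d d) (Nat.sub Y1 Y0)))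
  (gx G a) (gx G (Nat.add a 1)) (gx G b) (gx G (Nat.add b 1))

/-- row `j` of a table -/
def rw32 (S M T j : Nat) : Nat :=
  Nat.land (Nat.shiftRight T (Nat.shiftLeft (Nat.mul S j) 5)) M

/-- the row `b'` at the height `j` of the full grid, all cells of the strip `b` -/
def rowc (n S M G GV rho TW TV TX TZ TY TU TR TS TT TQ b b' j : Nat) : Bool :=
  (fun RW RV RX RZ RY RU RR RS RT RQ => al n (crow n G GV rho b b' RW RV RX RZ RY RU RR RS RT RQ))
    (rw32 S M TW j) (rw32 S M TV j) (rw32 S M TX j) (rw32 S M TZ j) (rw32 S M TY j)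
    (rw32 S M TU j) (rw32 S M TR j) (rw32 S M TS j) (rw32 S M TT j) (rw32 S M TQ j)

/-- the strips `b0 ≤ b < b0 + m` -/
def gchk (n S M G GV rho TW TV TX TZ TY TU TR TS TT TQ b0 m : Nat) : Bool :=
  al m (fun k => (fun b =>
    Bool.and (rowc n S M G GV rho TW TV TX TZ TY TU TR TS TT TQ b b (Nat.add n b))
    (Bool.and (rowc n S M G GV rho TW TV TX TZ TY TU TR TS TT TQ b (Nat.add b 1)
      (Nat.add n (Nat.add b 1)))
    (Bool.and (rowc n S M G GV rho TW TV TX TZ TU TY TR TS TT TQ b b (Nat.sub n b))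
      (rowc n S M G GV rho TW TV TX TZ TU TY TR TS TT TQ b (Nat.add b 1)
        (Nat.sub n (Nat.add b 1))))))
    (Nat.add b0 k))

/-- the grid is increasing and starts with `0` -/
def gok (n G : Nat) : Bool :=
  Bool.and (Nat.beq (gx G 0) 0) (al n fun a => Nat.ble (Nat.add (gx G a) 1) (gx G (Nat.add a 1)))

end

end RelEqN.Small.Box.K
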