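import Pool.Agent.Lib.MP_b9e19b_mp.Box.GLeafK
import Pool.Agent.Lib.MP_b9e19b_mp.Box.GTabK

/-!
# Kernel checks of the tables of the lattice leaf (natural numbers only)
-/

set_option autoImplicit false

namespace RelEqN.Small.Box.K

noncomputable section

/-- all lanes of `T` (`gS * gS` of them) are less than `2 ^ b`, `c = 2 ^ 32 - 2 ^ b` -/
def lbc (T c : Nat) : Bool :=
  Bool.and (Nat.beq (Nat.land T (Nat.mul (Nat.mul ONR REP) c)) 0)
    (Nat.beq (Nat.shiftRight T (Nat.mul 32 (Nat.mul gS gS))) 0)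

/-- the four tables of the coordinates -/
def lxc : Bool :=
  al gS (fun i => al gS (fun j =>
    (fun p ip im jp jm =>
      Bool.and (Nat.beq (Nat.add (l32 LXP p) im) (Nat.add 131072 ip))
      (Bool.and (Nat.beq (Nat.add (l32 LXN p) ip) (Nat.add 131072 im))
      (Bool.and (Nat.beq (Nat.add (l32 LYP p) jm) (Nat.add 131072 jp))
      (Nat.beq (Nat.add (l32 LYN p) jp) (Nat.add 131072 jm)))))
    (Nat.add (Nat.mul gS j) i)
    (Nat.mul 2 (gx GG (Nat.sub i gn))) (Nat.mul 2 (gx GG (Nat.sub gn i)))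
    (Nat.mul 2 (gx GG (Nat.sub j gn))) (Nat.mul 2 (gx GG (Nat.sub gn j)))))

/-- the table of the mask -/
def tmc : Bool :=
  al g2n (fun i => al g2n (fun j =>
    (fun f =>
      Bool.and (Nat.ble f (Nat.mul 16 (l32 TM (Nat.add (Nat.mul gS j) i))))
      (Bool.and (Nat.ble f (Nat.mul 16 (l32 TM (Nat.add (Nat.mul gS j) (Nat.add i 1)))))
      (Bool.and (Nat.ble f (Nat.mul 16 (l32 TM (Nat.add (Nat.mul gS (Nat.add j 1)) i))))
      (Nat.ble f (Nat.mul 16 (l32 TM (Nat.add (Nat.mul gS (Nat.add j 1)) (Nat.add i 1))))))))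
    ((fun a b => Nat.add (Nat.mul a a) (Nat.mul b b))
      (gx GG (Nat.add (Nat.add (Nat.sub (Nat.sub gn 1) i) (Nat.sub i gn)) 1))
      (gx GG (Nat.add (Nat.add (Nat.sub (Nat.sub gn 1) j) (Nat.sub j gn)) 1)))))

/-- the index tables -/
def ixc : Bool :=
  al 2049 (fun z =>
    Bool.and
      ((fun i => Bool.or (Nat.ble (Nat.add g2n 1) i)
        (Nat.ble (Nat.add (gx GG (Nat.sub i gn)) 65536)
          (Nat.add (Nat.mul 64 z) (gx GG (Nat.sub gn i))))) (ix8 IXF z))
      ((fun i => Bool.or (Nat.ble (Nat.add g2n 1) i)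
        (Nat.ble (Nat.add (Nat.mul 64 z) (gx GG (Nat.sub gn i)))
          (Nat.add (gx GG (Nat.sub i gn)) 65536))) (ix8 IXC z)))

/-- ones at the distances `32` and `s` -/
def onp (O R s t : Nat) : Bool :=
  Bool.and (Nat.beq (Nat.mul O 4294967295) (Nat.sub (Nat.shiftLeft 1 s) 1))
    (Nat.beq (Nat.mul R (Nat.sub (Nat.shiftLeft 1 s) 1)) (Nat.sub (Nat.shiftLeft 1 t) 1))

/-- the ones -/
def onc : Bool := onp ONR REP gS32 (Nat.mul gS32 gS)

/-- all bounds of lanes -/
def lball : Bool :=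
  Bool.and (lbc TW 4294705152)
  (Bool.and (lbc TV 4294705152)
  (Bool.and (lbc TX 4294836224)
  (Bool.and (lbc TZ 4294836224)
  (Bool.and (lbc TY 4294836224)
  (Bool.and (lbc TU 4294836224)
  (Bool.and (lbc TR 4294901760)
  (Bool.and (lbc TS 4294901760)
  (Bool.and (lbc TT 4290772992)
  (Bool.and (lbc TQ 4290772992)
  (Bool.and (lbc LXP 4294705152)
  (Bool.and (lbc LXN 4294705152)
  (Bool.and (lbc LYP 4294705152)
  (Bool.and (lbc LYN 4294705152)
  (lbc TM 3221225472))))))))))))))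

end

end RelEqN.Small.Box.K
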