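import Pool.Agent.Lib.MP_b9e19b_mp.Box.Cfg

set_option autoImplicit false

/-!
# Leaf tests of the box search: integer bounds
-/

namespace RelEqN.Small.Box

open Finset

/-- integer tables of the weights: `wlo` bounds from below on `(0, t]`, `wup` bounds from above
on `[t, ∞)` for `t ≥ tmin` -/
structure Tab (wlo wup : ℕ → ℕ) (tmin : ℕ) : Prop where
  lo : ∀ (t : ℕ) (τ : ℝ), 0 < τ → τ ≤ t → (wlo t : ℝ) ≤ 2 ^ 49 * W τ
  up : ∀ (t : ℕ) (τ : ℝ), tmin ≤ t → (t : ℝ) ≤ τ → 2 ^ 49 * W τ ≤ (wup t : ℝ)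
  tpos : 0 < tmin

/-- value of `(N W - 8192) x` with the lower bound of the weight -/
def gl (N : ℕ) (wlo : ℕ → ℕ) (x v1 : ℕ) : ℤ := ((N * wlo (x * x + v1 * v1) : ℕ) - 8192 : ℤ) * x

/-- upper bound of `(N W - 8192) x` on `[x0, x1]` -/
def UB (N : ℕ) (wup : ℕ → ℕ) (x0 x1 v0 rho : ℕ) : ℤ :=
  if N * wup (max rho (x0 * x0 + v0 * v0)) < 8192 then
    ((N * wup (max rho (x0 * x0 + v0 * v0)) : ℕ) - 8192 : ℤ) * x0
  else if rho ≤ x0 * x0 + v0 * v0 ∧ v0 * v0 ≤ 2 * (x0 * x0) then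
    ((N * wup (max rho (x0 * x0 + v0 * v0)) : ℕ) - 8192 : ℤ) * x0
  else ((N * wup (max rho (x0 * x0 + v0 * v0)) : ℕ) - 8192 : ℤ) * x1

variable {wlo wup : ℕ → ℕ} {tmin N : ℕ}

/-- `u ≥ 0`: the lower bound -/
lemma gl_min (hT : Tab wlo wup tmin) {u0 u1 v1 : ℕ} {u v : ℝ} (h0 : (u0 : ℝ) ≤ u)
    (h1 : u ≤ u1) (hv : |v| ≤ v1) (huv : 0 < u ^ 2 + v ^ 2) :
    ((min (gl N wlo u0 v1) (gl N wlo u1 v1) : ℤ) : ℝ)
      ≤ (N * (2 ^ 49 * W (u ^ 2 + v ^ 2)) - 8192) * u := by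
  have key : ∀ x : ℕ, 0 < u ^ 2 + v ^ 2 → ((gl N wlo x v1 : ℤ) : ℝ)
      ≤ phi (N * 2 ^ 49) 8192 ((v1 : ℝ) ^ 2) x := by
    intro x _
    unfold gl phi
    push_cast
    rcases Nat.eq_zero_or_pos x with hx | hx
    · subst hx; simp
    · apply mul_le_mul_of_nonneg_right _ (by positivity)
      have hp : (0 : ℝ) < (x : ℝ) ^ 2 + (v1 : ℝ) ^ 2 := by positivity
      have := hT.lo (x * x + v1 * v1) ((x : ℝ) ^ 2 + (v1 : ℝ) ^ 2) hp (by push_cast; nlinarith)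
      have h2 : (N : ℝ) * (wlo (x * x + v1 * v1) : ℝ)
          ≤ N * (2 ^ 49 * W ((x : ℝ) ^ 2 + (v1 : ℝ) ^ 2)) :=
        mul_le_mul_of_nonneg_left this (by positivity)
      linarith
  push_cast
  have := lower_pos (K := N * 2 ^ 49) (c := 8192) (v := v) (by positivity) (by norm_num)
    (Nat.cast_nonneg u0) h0 h1 hv huv (key u0 huv) (key u1 huv)
  calc _ ≤ _ := this
    _ = _ := by ring

/-- `u ≥ 0`: the upper bound -/
lemma le_UB (hT : Tab wlo wup tmin) {x0 x1 v0 rho : ℕ} {u v : ℝ} (h0 : (x0 : ℝ) ≤ u)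
    (h1 : u ≤ x1) (hv : (v0 : ℝ) ≤ |v|) (hr : tmin ≤ rho) (hρ : (rho : ℝ) ≤ u ^ 2 + v ^ 2) :
    (N * (2 ^ 49 * W (u ^ 2 + v ^ 2)) - 8192) * u ≤ ((UB N wup x0 x1 v0 rho : ℤ) : ℝ) := by
  have hu : 0 ≤ u := le_trans (Nat.cast_nonneg _) h0
  have hv2 : (v0 : ℝ) ^ 2 ≤ v ^ 2 := by rw [← sq_abs v]; gcongr
  have hx2 : (x0 : ℝ) ^ 2 ≤ u ^ 2 := by gcongr
  have hm1 : ((max rho (x0 * x0 + v0 * v0) : ℕ) : ℝ) ≤ u ^ 2 + v ^ 2 := by
    push_cast
    apply max_le hρ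
    nlinarith
  have hW := hT.up (max rho (x0 * x0 + v0 * v0)) (u ^ 2 + v ^ 2)
    (hr.trans (le_max_left _ _)) hm1
  have hNW : (N * 2 ^ 49 : ℝ) * W (u ^ 2 + v ^ 2)
      ≤ ((N * wup (max rho (x0 * x0 + v0 * v0)) : ℕ) : ℝ) := by
    push_cast
    have := mul_le_mul_of_nonneg_left hW (Nat.cast_nonneg (α := ℝ) N)
    push_cast at this
    linarith
  have e : (N * (2 ^ 49 * W (u ^ 2 + v ^ 2)) - 8192) * u
      = ((N * 2 ^ 49 : ℝ) * W (u ^ 2 + v ^ 2) - 8192) * u := by ring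
  rw [e]
  unfold UB
  split_ifs with c1 c2
  · push_cast
    have := upper_neg (c := 8192) h0 (Nat.cast_nonneg x0) hNW (by
      have : ((N * wup (max rho (x0 * x0 + v0 * v0)) : ℕ) : ℝ) < 8192 := by exact_mod_cast c1
      linarith)
    push_cast at this
    exact this
  · push_cast
    have hmax : max rho (x0 * x0 + v0 * v0) = x0 * x0 + v0 * v0 := max_eq_right c2.1
    have hW2 := hT.up (max rho (x0 * x0 + v0 * v0)) ((x0 : ℝ) ^ 2 + (v0 : ℝ) ^ 2)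
      (hr.trans (le_max_left _ _)) (by rw [hmax]; push_cast; nlinarith)
    have hNW2 : (N * 2 ^ 49 : ℝ) * W ((x0 : ℝ) ^ 2 + (v0 : ℝ) ^ 2)
        ≤ ((N * wup (max rho (x0 * x0 + v0 * v0)) : ℕ) : ℝ) := by
      push_cast
      have := mul_le_mul_of_nonneg_left hW2 (Nat.cast_nonneg (α := ℝ) N)
      push_cast at this
      linarith
    have hpos : (0 : ℝ) < (x0 : ℝ) ^ 2 + (v0 : ℝ) ^ 2 := by
      have h3 : 0 < tmin := hT.tpos
      have h4 : tmin ≤ x0 * x0 + v0 * v0 := hr.trans c2.1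
      have h5 : 0 < x0 * x0 + v0 * v0 := by omega
      have : (0 : ℝ) < ((x0 * x0 + v0 * v0 : ℕ) : ℝ) := by exact_mod_cast h5
      push_cast at this
      nlinarith
    have h2 : ((v0 : ℝ)) ^ 2 ≤ 2 * (x0 : ℝ) ^ 2 := by
      have : ((v0 * v0 : ℕ) : ℝ) ≤ ((2 * (x0 * x0) : ℕ) : ℝ) := by exact_mod_cast c2.2
      push_cast at this
      nlinarith
    have := upper_anti (K := N * 2 ^ 49) (c := 8192) (by positivity) (by norm_num) h0
      (Nat.cast_nonneg x0) (by positivity) hv2 hpos h2 hNW2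
    push_cast at this
    exact this
  · push_cast
    have := upper_pos (c := 8192) hu h1 hNW (by
      have : (8192 : ℝ) ≤ ((N * wup (max rho (x0 * x0 + v0 * v0)) : ℕ) : ℝ) := by
        exact_mod_cast not_lt.1 c1
      linarith)
    push_cast at this
    exact this

/-- the sum of the forces on a set of bodies -/
lemma force_set {N : ℕ} {x y : ℕ → ℝ} {z : ℕ → ℝ}
    (hf : ∀ i < N, ∑ k ∈ range N, (N * ww x y i k - 8192) * (z i - z k) = 0)
    (S : Finset ℕ) (hS : S ⊆ range N) :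
    ∑ i ∈ S, ∑ k ∈ range N \ S, (N * ww x y i k - 8192) * (z i - z k) = 0 := by
  have h1 : ∑ i ∈ S, ∑ k ∈ range N, (N * ww x y i k - 8192) * (z i - z k) = 0 :=
    Finset.sum_eq_zero fun i hi => hf i (mem_range.1 (hS hi))
  have h2 : ∀ i ∈ S, ∑ k ∈ range N, (N * ww x y i k - 8192) * (z i - z k)
      = ∑ k ∈ range N \ S, (N * ww x y i k - 8192) * (z i - z k)
        + ∑ k ∈ S, (N * ww x y i k - 8192) * (z i - z k) := fun i _ =>
    (Finset.sum_sdiff hS).symm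
  rw [Finset.sum_congr rfl h2, Finset.sum_add_distrib] at h1
  have h3 : ∑ i ∈ S, ∑ k ∈ S, (N * ww x y i k - 8192) * (z i - z k) = 0 := by
    have h4 : ∑ i ∈ S, ∑ k ∈ S, (N * ww x y i k - 8192) * (z i - z k)
        = - ∑ i ∈ S, ∑ k ∈ S, (N * ww x y i k - 8192) * (z i - z k) := by
      rw [← Finset.sum_neg_distrib]
      conv_lhs => rw [Finset.sum_comm]
      refine Finset.sum_congr rfl fun i _ => ?_
      rw [← Finset.sum_neg_distrib]
      refine Finset.sum_congr rfl fun k _ => ?_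
      rw [ww_comm]; ring
    linarith
  linarith

/-- the force test: lower bounds of the terms have a nonpositive sum -/
lemma force_test {N : ℕ} {x y : ℕ → ℝ} {z : ℕ → ℝ}
    (hf : ∀ i < N, ∑ k ∈ range N, (N * ww x y i k - 8192) * (z i - z k) = 0)
    (S : Finset ℕ) (hS : S ⊆ range N) (b : ℕ → ℕ → ℝ)
    (hb : ∀ i ∈ S, ∀ k ∈ range N \ S, b i k ≤ (N * ww x y i k - 8192) * (z i - z k)) :
    ∑ i ∈ S, ∑ k ∈ range N \ S, b i k ≤ 0 := by
  rw [← force_set hf S hS]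
  exact Finset.sum_le_sum fun i hi => Finset.sum_le_sum fun k hk => hb i hi k hk

/-- the same with the opposite sign -/
lemma force_test_neg {N : ℕ} {x y : ℕ → ℝ} {z : ℕ → ℝ}
    (hf : ∀ i < N, ∑ k ∈ range N, (N * ww x y i k - 8192) * (z i - z k) = 0)
    (S : Finset ℕ) (hS : S ⊆ range N) (b : ℕ → ℕ → ℝ)
    (hb : ∀ i ∈ S, ∀ k ∈ range N \ S, b i k ≤ (N * ww x y i k - 8192) * (z k - z i)) :
    ∑ i ∈ S, ∑ k ∈ range N \ S, b i k ≤ 0 := by
  have h := force_set hf S hS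
  have h2 : ∑ i ∈ S, ∑ k ∈ range N \ S, (N * ww x y i k - 8192) * (z k - z i) = 0 := by
    rw [← neg_eq_zero, ← Finset.sum_neg_distrib, ← h]
    refine Finset.sum_congr rfl fun i _ => ?_
    rw [← Finset.sum_neg_distrib]
    exact Finset.sum_congr rfl fun k _ => by ring
  rw [← h2]
  exact Finset.sum_le_sum fun i hi => Finset.sum_le_sum fun k hk => hb i hi k hk

end RelEqN.Small.Box
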