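import Pool.Agent.Lib.MP_b9e19b_mp.Box.Chk
import Pool.Agent.Lib.MP_b9e19b_mp.Box.Leaf

set_option autoImplicit false

/-!
# Semantics of the kernel functions: basic lemmas
-/

namespace RelEqN.Small.Box

open K

lemma sel_true (t f : ℕ) : sel true t f = t := rfl
lemma sel_false (t f : ℕ) : sel false t f = f := rfl

lemma sel_ne_zero {b : Bool} {t : ℕ} (h : sel b t 0 ≠ 0) : b = true ∧ t ≠ 0 := by
  cases b
  · exact absurd rfl h
  · exact ⟨rfl, h⟩

lemma mx_eq (a b : ℕ) : mx a b = max a b := by
  show a + (b - a) = max a b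
  omega

lemma mn_eq (a b : ℕ) : mn a b = min a b := by
  show a - (a - b) = min a b
  omega

lemma land_65535 (x : ℕ) : Nat.land x 65535 = x % 65536 :=
  Nat.and_two_pow_sub_one_eq_mod x 16

lemma land_255 (x : ℕ) : Nat.land x 255 = x % 256 :=
  Nat.and_two_pow_sub_one_eq_mod x 8

lemma fld_eq (B v : ℕ) : fld B v = (B >>> v) % 65536 := by
  show Nat.land (Nat.shiftRight B v) 65535 = _
  rw [land_65535]; rfl

lemma fld_lt (B v : ℕ) : fld B v < 65536 := by
  rw [fld_eq]; exact Nat.mod_lt _ (by norm_num)

lemma testBit_fld (B v i : ℕ) : (fld B v).testBit i = (decide (i < 16) && B.testBit (v + i)) := by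
  rw [fld_eq, show (65536 : ℕ) = 2 ^ 16 by norm_num, Nat.testBit_mod_two_pow,
    Nat.testBit_shiftRight]

lemma testBit_setf (B v c j : ℕ) : (setf B v c).testBit j =
    (B.testBit j ^^ (decide (v ≤ j) && ((fld B v).testBit (j - v) ^^ c.testBit (j - v)))) := by
  show (B ^^^ ((fld B v ^^^ c) <<< v)).testBit j = _
  rw [Nat.testBit_xor, Nat.testBit_shiftLeft, Nat.testBit_xor]

/-- reading a field after an update; positions are multiples of `16` -/
lemma fld_setf (B c : ℕ) (hc : c < 65536) (v w : ℕ) :
    fld (setf B (16 * v) c) (16 * w) = if w = v then c else fld B (16 * w) := by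
  apply Nat.eq_of_testBit_eq
  intro i
  rw [testBit_fld (setf B (16 * v) c), testBit_setf]
  by_cases hi : i < 16
  · by_cases hvw : w = v
    · subst hvw
      rw [if_pos rfl]
      have e : 16 * w + i - 16 * w = i := by omega
      rw [e, testBit_fld]
      simp [hi]
    · rw [if_neg hvw, testBit_fld B (16 * w)]
      rcases lt_or_gt_of_ne hvw with h | h
      · have : ¬ (16 * v ≤ 16 * w + i) := by omega
        simp [this]
      · have h1 : 16 ≤ 16 * w + i - 16 * v := by omega
        have h2 : ¬ (16 * w + i - 16 * v < 16) := by omega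
        have h3 : c.testBit (16 * w + i - 16 * v) = false := by
          apply Nat.testBit_lt_two_pow
          calc c < 2 ^ 16 := by simpa using hc
            _ ≤ 2 ^ (16 * w + i - 16 * v) := Nat.pow_le_pow_right (by norm_num) h1
        rw [testBit_fld, h3]
        simp [h2]
  · have : c.testBit i = false := by
      apply Nat.testBit_lt_two_pow
      calc c < 2 ^ 16 := by simpa using hc
        _ ≤ 2 ^ i := Nat.pow_le_pow_right (by norm_num) (by omega)
    by_cases hvw : w = v
    · rw [if_pos hvw, this]; simp [hi]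
    · rw [if_neg hvw, testBit_fld B (16 * w)]; simp [hi]

/-! ### lists of pairs -/

/-- the first `m` pairs of the packed list `w` -/
def prs : ℕ → ℕ → List (ℕ × ℕ)
  | 0, _ => []
  | m + 1, w => (Nat.land w 255, Nat.land (Nat.shiftRight w 8) 255) :: prs m (Nat.shiftRight w 16)

/-- all pairs `i < k < N` (bit positions) -/
def allPairs (N : ℕ) : List (ℕ × ℕ) :=
  (List.range N).flatMap fun i => ((List.range N).filter fun k => i < k).map fun k =>
    (32 * i, 32 * k)

lemma fs_eq (N rho EL EH c m w : ℕ) :
    fs N rho EL EH c m w = ((prs m w).map fun p => pe N rho EL EH c p.1 p.2).sum := by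
  induction m generalizing w with
  | zero => rfl
  | succ m ih =>
    show Nat.add (pe N rho EL EH c (Nat.land w 255) (Nat.land (Nat.shiftRight w 8) 255))
      (fs N rho EL EH c m (Nat.shiftRight w 16)) = _
    rw [ih]; rfl

lemma ts_eq (EL EH m w : ℕ) :
    ts EL EH m w = ((prs m w).map fun p => wlo (th EL EH p.1 p.2)).sum := by
  induction m generalizing w with
  | zero => rfl
  | succ m ih =>
    show Nat.add (wlo (th EL EH (Nat.land w 255) (Nat.land (Nat.shiftRight w 8) 255)))
      (ts EL EH m (Nat.shiftRight w 16)) = _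
    rw [ih]; rfl

/-- the box of all bodies: the coordinates plus `32768` lie between the fields of `EL`, `EH` -/
structure Ext (N : ℕ) (x y : ℕ → ℝ) (EL EH : ℕ) : Prop where
  xl : ∀ i < N, (fld EL (32 * i) : ℝ) ≤ x i + 32768
  xh : ∀ i < N, x i + 32768 ≤ (fld EH (32 * i) : ℝ)
  yl : ∀ i < N, (fld EL (32 * i + 16) : ℝ) ≤ y i + 32768
  yh : ∀ i < N, y i + 32768 ≤ (fld EH (32 * i + 16) : ℝ)

end RelEqN.Small.Box
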