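import Pool.Agent.Lib.MP_b9e19b_mp.Box.P4
import Pool.Agent.Lib.MP_b9e19b_mp.Box.Sem

set_option autoImplicit false

/-!
# Soundness of the kernel functions of the `p4` leaves
-/

namespace RelEqN.Small.Box.P4K

open Finset

/-! ### one lane -/

lemma shiftRight_le (a s : ℕ) : ((a >>> s : ℕ) : ℝ) ≤ (a : ℝ) / 2 ^ s := by
  rw [Nat.shiftRight_eq_div_pow]
  have := @Nat.cast_div_le ℝ _ _ _ a (2 ^ s)
  calc ((a / 2 ^ s : ℕ) : ℝ) ≤ (a : ℝ) / ((2 ^ s : ℕ) : ℝ) := Nat.cast_div_le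
    _ = _ := by push_cast; ring

lemma le_shiftRight (a s : ℕ) : (a : ℝ) / 2 ^ s ≤ ((a >>> s + 1 : ℕ) : ℝ) := by
  rw [Nat.shiftRight_eq_div_pow, div_le_iff₀ (by positivity)]
  have h : a < (a / 2 ^ s + 1) * 2 ^ s := by
    have := Nat.lt_div_mul_add (show 0 < 2 ^ s by positivity) (a := a)
    calc a < a / 2 ^ s * 2 ^ s + 2 ^ s := this
      _ = _ := by ring
  have h2 : (a : ℝ) < (((a / 2 ^ s + 1) * 2 ^ s : ℕ) : ℝ) := by exact_mod_cast h
  push_cast at h2 ⊢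
  linarith

lemma lane_aux {A m wh : ℕ} (hA : A ≤ wh) (hm : m ≤ wh) (hwh : wh ≤ 65536) :
    131072 + A - m < 2 ^ 18 ∧ m ≤ 131072 + A ∧ A ≤ 131072 + m ∧ 131072 + m - A < 2 ^ 18 := by
  omega

/-- the lower bound of `ρ D` -/
lemma lane_lo (s : ℕ) {ρ D : ℝ} {a5 b5 pos neg wh : ℕ} (h1 : (a5 : ℝ) / 2 ^ s ≤ ρ)
    (h2 : ρ ≤ (b5 : ℝ) / 2 ^ s) (hD : (pos : ℝ) - neg ≤ D) (hz : pos = 0 ∨ neg = 0)
    (hc : |ρ * D| ≤ wh) (hwh : wh ≤ 65536) :
    131072 + (a5 * pos) >>> s - min ((b5 * neg) >>> s + 1) wh < 2 ^ 18 ∧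
      ((131072 + (a5 * pos) >>> s - min ((b5 * neg) >>> s + 1) wh : ℕ) : ℝ) - 131072 ≤ ρ * D := by
  have hρ : 0 ≤ ρ := le_trans (by positivity) h1
  have hs : (0 : ℝ) < 2 ^ s := by positivity
  obtain ⟨hc1, hc2⟩ := abs_le.1 hc
  have hA := shiftRight_le (a5 * pos) s
  have hB := le_shiftRight (b5 * neg) s
  have hA2 : ((a5 * pos : ℕ) : ℝ) / 2 ^ s ≤ ρ * pos := by
    push_cast
    calc (a5 : ℝ) * pos / 2 ^ s = (a5 : ℝ) / 2 ^ s * pos := by ring
      _ ≤ ρ * pos := mul_le_mul_of_nonneg_right h1 (Nat.cast_nonneg _)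
  have hB2 : ρ * neg ≤ ((b5 * neg : ℕ) : ℝ) / 2 ^ s := by
    push_cast
    calc ρ * neg ≤ (b5 : ℝ) / 2 ^ s * neg := mul_le_mul_of_nonneg_right h2 (Nat.cast_nonneg _)
      _ = _ := by ring
  set A := (a5 * pos) >>> s with hAdef
  set B := (b5 * neg) >>> s + 1 with hBdef
  have hAw : A ≤ wh := by
    rcases hz with h | h
    · rw [hAdef, h, Nat.mul_zero, Nat.zero_shiftRight]; exact Nat.zero_le _
    · have hDp : (pos : ℝ) ≤ D := by rw [h] at hD; push_cast at hD; linarith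
      have : (A : ℝ) ≤ wh := by
        calc (A : ℝ) ≤ ρ * pos := hA.trans hA2
          _ ≤ ρ * D := mul_le_mul_of_nonneg_left hDp hρ
          _ ≤ wh := hc2
      exact_mod_cast this
  have hm := lane_aux hAw (min_le_right B wh) hwh
  constructor
  · exact hm.1
  · have e : ((131072 + A - min B wh : ℕ) : ℝ) = 131072 + A - (min B wh : ℕ) := by
      rw [Nat.cast_sub hm.2.1]; push_cast; ring
    rw [e]
    rcases hz with h | h
    · -- no positive part
      have hA0 : A = 0 := by rw [hAdef, h, Nat.mul_zero, Nat.zero_shiftRight]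
      rw [hA0]
      have h3 : -(ρ * D) ≤ (min B wh : ℕ) := by
        push_cast
        apply le_min
        · have hDn : -(neg : ℝ) ≤ D := by rw [h] at hD; push_cast at hD; linarith
          have h4 : ρ * (-(neg : ℝ)) ≤ ρ * D := mul_le_mul_of_nonneg_left hDn hρ
          linarith
        · linarith
      push_cast at h3 ⊢
      linarith
    · have hDp : (pos : ℝ) ≤ D := by rw [h] at hD; push_cast at hD; linarith
      have h4 : ρ * pos ≤ ρ * D := mul_le_mul_of_nonneg_left hDp hρ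
      have h5 : (0 : ℝ) ≤ (min B wh : ℕ) := Nat.cast_nonneg _
      linarith

/-- the upper bound of `ρ D` -/
lemma lane_hi (s : ℕ) {ρ D : ℝ} {a5 b5 pos neg wh : ℕ} (h1 : (a5 : ℝ) / 2 ^ s ≤ ρ)
    (h2 : ρ ≤ (b5 : ℝ) / 2 ^ s) (hD : D ≤ (pos : ℝ) - neg) (hz : pos = 0 ∨ neg = 0)
    (hc : |ρ * D| ≤ wh) (hwh : wh ≤ 65536) :
    131072 + min ((b5 * pos) >>> s + 1) wh - (a5 * neg) >>> s < 2 ^ 18 ∧
      ρ * D ≤ ((131072 + min ((b5 * pos) >>> s + 1) wh - (a5 * neg) >>> s : ℕ) : ℝ) - 131072 := by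
  have hρ : 0 ≤ ρ := le_trans (by positivity) h1
  obtain ⟨hc1, hc2⟩ := abs_le.1 hc
  have hA := shiftRight_le (a5 * neg) s
  have hB := le_shiftRight (b5 * pos) s
  have hA2 : ((a5 * neg : ℕ) : ℝ) / 2 ^ s ≤ ρ * neg := by
    push_cast
    calc (a5 : ℝ) * neg / 2 ^ s = (a5 : ℝ) / 2 ^ s * neg := by ring
      _ ≤ ρ * neg := mul_le_mul_of_nonneg_right h1 (Nat.cast_nonneg _)
  have hB2 : ρ * pos ≤ ((b5 * pos : ℕ) : ℝ) / 2 ^ s := by
    push_cast
    calc ρ * pos ≤ (b5 : ℝ) / 2 ^ s * pos := mul_le_mul_of_nonneg_right h2 (Nat.cast_nonneg _)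
      _ = _ := by ring
  set A := (a5 * neg) >>> s with hAdef
  set B := (b5 * pos) >>> s + 1 with hBdef
  have hAw : A ≤ wh := by
    rcases hz with h | h
    · have hDn : (neg : ℝ) ≤ -D := by rw [h] at hD; push_cast at hD; linarith
      have : (A : ℝ) ≤ wh := by
        calc (A : ℝ) ≤ ρ * neg := hA.trans hA2
          _ ≤ ρ * (-D) := mul_le_mul_of_nonneg_left hDn hρ
          _ ≤ wh := by linarith
      exact_mod_cast this
    · rw [hAdef, h, Nat.mul_zero, Nat.zero_shiftRight]; exact Nat.zero_le _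
  have hm := lane_aux hAw (min_le_right B wh) hwh
  constructor
  · exact hm.2.2.2
  · have e : ((131072 + min B wh - A : ℕ) : ℝ) = 131072 + (min B wh : ℕ) - A := by
      rw [Nat.cast_sub hm.2.2.1]; push_cast; ring
    rw [e]
    rcases hz with h | h
    · have hDn : (neg : ℝ) ≤ -D := by rw [h] at hD; push_cast at hD; linarith
      have h4 : ρ * neg ≤ ρ * (-D) := mul_le_mul_of_nonneg_left hDn hρ
      have h5 : (0 : ℝ) ≤ (min B wh : ℕ) := Nat.cast_nonneg _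
      linarith
    · have hA0 : A = 0 := by rw [hAdef, h, Nat.mul_zero, Nat.zero_shiftRight]
      rw [hA0]
      have h3 : ρ * D ≤ (min B wh : ℕ) := by
        push_cast
        apply le_min
        · have hDp : D ≤ (pos : ℝ) := by rw [h] at hD; push_cast at hD; linarith
          have h4 : ρ * D ≤ ρ * pos := mul_le_mul_of_nonneg_left hDp hρ
          linarith
        · linarith
      push_cast at h3 ⊢
      linarith

/-! ### one pair -/

/-- the interval `[p0 - n0, p1 - n1]` of a coordinate of a difference -/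
structure Iv (X : ℝ) (p0 n0 p1 n1 : ℕ) : Prop where
  lo : (p0 : ℝ) - n0 ≤ X
  hi : X ≤ (p1 : ℝ) - n1
  z0 : p0 = 0 ∨ n0 = 0
  z1 : p1 = 0 ∨ n1 = 0

lemma Iv.z01 {X : ℝ} {p0 n0 p1 n1 : ℕ} (h : Iv X p0 n0 p1 n1) : p0 = 0 ∨ n1 = 0 := by
  by_contra hc
  rw [not_or] at hc
  have h0 : n0 = 0 := h.z0.resolve_left hc.1
  have h1 : p1 = 0 := h.z1.resolve_right hc.2
  have ha := h.lo
  have hb := h.hi
  rw [h0] at ha
  rw [h1] at hb
  have hp : (0 : ℝ) < p0 := by exact_mod_cast Nat.pos_of_ne_zero hc.1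
  have hn : (0 : ℝ) < n1 := by exact_mod_cast Nat.pos_of_ne_zero hc.2
  push_cast at ha hb
  linarith

lemma Iv.abs_ge {X : ℝ} {p0 n0 p1 n1 : ℕ} (h : Iv X p0 n0 p1 n1) : ((p0 + n1 : ℕ) : ℝ) ≤ |X| := by
  have ha := h.lo
  have hb := h.hi
  rcases h.z01 with h0 | h0
  · rw [h0, Nat.zero_add]
    rcases h.z1 with h1 | h1
    · rw [h1] at hb; push_cast at hb
      exact le_trans (by linarith) (neg_le_abs X)
    · rw [h1]; push_cast; exact abs_nonneg X
  · rw [h0, Nat.add_zero]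
    rcases h.z0 with h1 | h1
    · rw [h1]; push_cast; exact abs_nonneg X
    · rw [h1] at ha; push_cast at ha
      exact le_trans (by linarith) (le_abs_self X)

lemma Iv.abs_le {X : ℝ} {p0 n0 p1 n1 : ℕ} (h : Iv X p0 n0 p1 n1) : |X| ≤ ((max n0 p1 : ℕ) : ℝ) := by
  have ha := h.lo
  have hb := h.hi
  have h0 : (0 : ℝ) ≤ p0 := Nat.cast_nonneg _
  have h1 : (0 : ℝ) ≤ n1 := Nat.cast_nonneg _
  push_cast
  rw [_root_.abs_le]
  constructor
  · have := le_max_left (n0 : ℝ) p1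
    linarith
  · have := le_max_right (n0 : ℝ) p1
    linarith

lemma Iv.neg {X : ℝ} {p0 n0 p1 n1 : ℕ} (h : Iv X p0 n0 p1 n1) : Iv (-X) n1 p1 n0 p0 where
  lo := by have := h.hi; linarith
  hi := by have := h.lo; linarith
  z0 := h.z1.symm
  z1 := h.z0.symm

/-- the upper bound of a product -/
lemma Iv.mul_le {X Y : ℝ} {p0 n0 p1 n1 q0 m0 q1 m1 : ℕ} (hX : Iv X p0 n0 p1 n1)
    (hY : Iv Y q0 m0 q1 m1) :
    X * Y ≤ ((max (p1 * q1) (n0 * m0) : ℕ) : ℝ) - ((p0 * m1 + n1 * q0 : ℕ) : ℝ) := by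
  have hp0 : (0 : ℝ) ≤ p0 := Nat.cast_nonneg _
  have hn0 : (0 : ℝ) ≤ n0 := Nat.cast_nonneg _
  have hp1 : (0 : ℝ) ≤ p1 := Nat.cast_nonneg _
  have hn1 : (0 : ℝ) ≤ n1 := Nat.cast_nonneg _
  have hq0 : (0 : ℝ) ≤ q0 := Nat.cast_nonneg _
  have hm0 : (0 : ℝ) ≤ m0 := Nat.cast_nonneg _
  have hq1 : (0 : ℝ) ≤ q1 := Nat.cast_nonneg _
  have hm1 : (0 : ℝ) ≤ m1 := Nat.cast_nonneg _
  have ha := hX.lo
  have hb := hX.hi
  have hc := hY.lo
  have hd := hY.hi
  have hmax : (0 : ℝ) ≤ ((max (p1 * q1) (n0 * m0) : ℕ) : ℝ) := Nat.cast_nonneg _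
  by_cases h1 : 0 < p0 ∧ 0 < m1
  · have e1 : n0 = 0 := hX.z0.resolve_left (by omega)
    have e2 : n1 = 0 := hX.z01.resolve_left (by omega)
    have e3 : q1 = 0 := hY.z1.resolve_right (by omega)
    rw [e1] at ha
    rw [e3] at hd
    push_cast at ha hd
    have : X * Y ≤ -((p0 : ℝ) * m1) := by nlinarith
    rw [e2, Nat.zero_mul, Nat.add_zero]
    push_cast at hmax ⊢
    linarith
  by_cases h2 : 0 < n1 ∧ 0 < q0
  · have e1 : p1 = 0 := hX.z1.resolve_right (by omega)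
    have e2 : p0 = 0 := hX.z01.resolve_right (by omega)
    have e3 : m0 = 0 := hY.z0.resolve_left (by omega)
    rw [e1] at hb
    rw [e3] at hc
    push_cast at hb hc
    have : X * Y ≤ -((n1 : ℝ) * q0) := by nlinarith
    rw [e2, Nat.zero_mul, Nat.zero_add]
    push_cast at hmax ⊢
    linarith
  have e0 : p0 * m1 + n1 * q0 = 0 := by
    have : p0 * m1 = 0 := by
      rcases Nat.eq_zero_or_pos p0 with h | h
      · rw [h, Nat.zero_mul]
      · have : m1 = 0 := by omega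
        rw [this, Nat.mul_zero]
    have : n1 * q0 = 0 := by
      rcases Nat.eq_zero_or_pos n1 with h | h
      · rw [h, Nat.zero_mul]
      · have : q0 = 0 := by omega
        rw [this, Nat.mul_zero]
    omega
  rw [e0]
  push_cast
  rw [sub_zero]
  rcases le_total 0 X with hX0 | hX0
  · rcases le_total 0 Y with hY0 | hY0
    · refine le_trans ?_ (le_max_left _ _)
      have : X ≤ p1 := by linarith
      have : Y ≤ q1 := by linarith
      nlinarith
    · refine le_trans (mul_nonpos_of_nonneg_of_nonpos hX0 hY0) ?_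
      exact le_trans (by positivity) (le_max_left _ _)
  · rcases le_total 0 Y with hY0 | hY0
    · refine le_trans (mul_nonpos_of_nonpos_of_nonneg hX0 hY0) ?_
      exact le_trans (by positivity) (le_max_left _ _)
    · refine le_trans ?_ (le_max_right _ _)
      have : -X ≤ n0 := by linarith
      have : -Y ≤ m0 := by linarith
      nlinarith

lemma Iv.mul_z {X Y : ℝ} {p0 n0 p1 n1 q0 m0 q1 m1 : ℕ} (hX : Iv X p0 n0 p1 n1)
    (hY : Iv Y q0 m0 q1 m1) : max (p1 * q1) (n0 * m0) = 0 ∨ p0 * m1 + n1 * q0 = 0 := by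
  by_cases h1 : 0 < p0 ∧ 0 < m1
  · have e1 : n0 = 0 := hX.z0.resolve_left (by omega)
    have e3 : q1 = 0 := hY.z1.resolve_right (by omega)
    left; rw [e1, e3]; simp
  by_cases h2 : 0 < n1 ∧ 0 < q0
  · have e1 : p1 = 0 := hX.z1.resolve_right (by omega)
    have e3 : m0 = 0 := hY.z0.resolve_left (by omega)
    left; rw [e1, e3]; simp
  right
  have h3 : p0 * m1 = 0 := by
    rcases Nat.eq_zero_or_pos p0 with h | h
    · rw [h, Nat.zero_mul]
    · have : m1 = 0 := by omega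
      rw [this, Nat.mul_zero]
  have h4 : n1 * q0 = 0 := by
    rcases Nat.eq_zero_or_pos n1 with h | h
    · rw [h, Nat.zero_mul]
    · have : q0 = 0 := by omega
      rw [this, Nat.mul_zero]
  omega

/-- the lower bound of a product -/
lemma Iv.le_mul {X Y : ℝ} {p0 n0 p1 n1 q0 m0 q1 m1 : ℕ} (hX : Iv X p0 n0 p1 n1)
    (hY : Iv Y q0 m0 q1 m1) :
    ((p0 * q0 + n1 * m1 : ℕ) : ℝ) - ((max (n0 * q1) (p1 * m0) : ℕ) : ℝ) ≤ X * Y := by
  have h := hX.mul_le hY.neg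
  have e : max (p1 * m0) (n0 * q1) = max (n0 * q1) (p1 * m0) := max_comm _ _
  rw [e] at h
  linarith

lemma Iv.mul_z' {X Y : ℝ} {p0 n0 p1 n1 q0 m0 q1 m1 : ℕ} (hX : Iv X p0 n0 p1 n1)
    (hY : Iv Y q0 m0 q1 m1) : p0 * q0 + n1 * m1 = 0 ∨ max (n0 * q1) (p1 * m0) = 0 := by
  have h := hX.mul_z hY.neg
  have e : max (p1 * m0) (n0 * q1) = max (n0 * q1) (p1 * m0) := max_comm _ _
  rw [e] at h
  exact h.symm

/-! ### the function `qd` -/

/-- lower bound of the squared distance -/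
def tL (rho p0 n1 q0 m1 : ℕ) : ℕ := K.mx rho ((p0 + n1) * (p0 + n1) + (q0 + m1) * (q0 + m1))

/-- upper bound of the squared distance -/
def tH (n0 p1 m0 q1 : ℕ) : ℕ := K.mx n0 p1 * K.mx n0 p1 + K.mx m0 q1 * K.mx m0 q1

/-- upper bound of `2^24 w / t` -/
noncomputable def c5h (rho p0 n1 q0 m1 : ℕ) : ℕ :=
  (K.wup (tL rho p0 n1 q0 m1) <<< 24) / tL rho p0 n1 q0 m1 + 1

/-- lower bound of `2^24 w / t` -/
noncomputable def c5l (n0 p1 m0 q1 : ℕ) : ℕ := (K.wlo (tH n0 p1 m0 q1) <<< 24) / tH n0 p1 m0 q1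

/-- the lanes of `qd` -/
noncomputable def lC (rho p0 n0 p1 n1 q0 m0 q1 m1 : ℕ) : ℕ :=
  131072 + (c5l n0 p1 m0 q1 * ((p0 + n1) * (p0 + n1) - K.mx m0 q1 * K.mx m0 q1)) >>> 24
    - K.mn ((c5h rho p0 n1 q0 m1 * (K.mx m0 q1 * K.mx m0 q1 - (p0 + n1) * (p0 + n1))) >>> 24 + 1)
      (K.wup (tL rho p0 n1 q0 m1))

noncomputable def lD (rho p0 n0 p1 n1 q0 m0 q1 m1 : ℕ) : ℕ :=
  131072 + K.mn ((c5h rho p0 n1 q0 m1
      * (K.mx n0 p1 * K.mx n0 p1 - (q0 + m1) * (q0 + m1))) >>> 24 + 1)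
      (K.wup (tL rho p0 n1 q0 m1))
    - (c5l n0 p1 m0 q1 * ((q0 + m1) * (q0 + m1) - K.mx n0 p1 * K.mx n0 p1)) >>> 24

noncomputable def lE (rho p0 n0 p1 n1 q0 m0 q1 m1 : ℕ) : ℕ :=
  131072 + (c5l n0 p1 m0 q1 * (p0 * q0 + n1 * m1)) >>> 23
    - K.mn ((c5h rho p0 n1 q0 m1 * K.mx (n0 * q1) (p1 * m0)) >>> 23 + 1)
      (K.wup (tL rho p0 n1 q0 m1))

noncomputable def lF (rho p0 n0 p1 n1 q0 m0 q1 m1 : ℕ) : ℕ :=
  131072 + K.mn ((c5h rho p0 n1 q0 m1 * K.mx (p1 * q1) (n0 * m0)) >>> 23 + 1)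
      (K.wup (tL rho p0 n1 q0 m1))
    - (c5l n0 p1 m0 q1 * (p0 * m1 + n1 * q0)) >>> 23

lemma qd_eq (rho p0 n0 p1 n1 q0 m0 q1 m1 : ℕ) : K.qd rho p0 n0 p1 n1 q0 m0 q1 m1 =
    K.wlo (tH n0 p1 m0 q1) + (K.wup (tL rho p0 n1 q0 m1) <<< 32 +
      (lC rho p0 n0 p1 n1 q0 m0 q1 m1 <<< 64 + (lD rho p0 n0 p1 n1 q0 m0 q1 m1 <<< 96 +
        (lE rho p0 n0 p1 n1 q0 m0 q1 m1 <<< 128 + lF rho p0 n0 p1 n1 q0 m0 q1 m1 <<< 160)))) :=
  rfl

lemma wlo_lt (t : ℕ) : K.wlo t < 65536 := by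
  show Nat.land _ 65535 < 65536
  rw [land_65535]; exact Nat.mod_lt _ (by norm_num)

lemma wup_le (t : ℕ) : K.wup t ≤ 65536 := by
  show Nat.land _ 65535 + 1 ≤ 65536
  rw [land_65535]
  have := Nat.mod_lt (K.lk t) (show 0 < 65536 by norm_num)
  omega

/-- the six bounds of a pair -/
structure Six (w R I : ℝ) (a b c d e f : ℕ) : Prop where
  ha : a < 2 ^ 18
  hb : b < 2 ^ 18
  hc : c < 2 ^ 18
  hd : d < 2 ^ 18
  he : e < 2 ^ 18
  hf : f < 2 ^ 18
  wl : (a : ℝ) ≤ w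
  wh : w ≤ b
  bb : b ≤ 65536
  rl : (c : ℝ) - 131072 ≤ R
  rh : R ≤ (d : ℝ) - 131072
  il : (e : ℝ) - 131072 ≤ I
  ih : I ≤ (f : ℝ) - 131072

lemma qd_spec (hT : Tab K.wlo K.wup 5000000) {rho p0 n0 p1 n1 q0 m0 q1 m1 : ℕ} {X Y : ℝ}
    (hX : Iv X p0 n0 p1 n1) (hY : Iv Y q0 m0 q1 m1) (hr0 : 5000000 ≤ rho)
    (hr : (rho : ℝ) ≤ X ^ 2 + Y ^ 2) :
    Six (2 ^ 49 * W (X ^ 2 + Y ^ 2))
      (2 ^ 49 * W (X ^ 2 + Y ^ 2) * ((X ^ 2 - Y ^ 2) / (X ^ 2 + Y ^ 2)))
      (2 ^ 49 * W (X ^ 2 + Y ^ 2) * (2 * (X * Y) / (X ^ 2 + Y ^ 2)))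
      (K.wlo (tH n0 p1 m0 q1)) (K.wup (tL rho p0 n1 q0 m1))
      (lC rho p0 n0 p1 n1 q0 m0 q1 m1) (lD rho p0 n0 p1 n1 q0 m0 q1 m1)
      (lE rho p0 n0 p1 n1 q0 m0 q1 m1) (lF rho p0 n0 p1 n1 q0 m0 q1 m1) := by
  set t := X ^ 2 + Y ^ 2 with ht
  set w := 2 ^ 49 * W t with hw
  have hr0' : (5000000 : ℝ) ≤ rho := by exact_mod_cast hr0
  have ht0 : 0 < t := by linarith
  have hw0 : 0 ≤ w := mul_nonneg (by norm_num) (W_nonneg _)
  -- squares
  have hx0 := hX.abs_ge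
  have hx1 := hX.abs_le
  have hy0 := hY.abs_ge
  have hy1 := hY.abs_le
  have sx0 : (((p0 + n1) * (p0 + n1) : ℕ) : ℝ) ≤ X ^ 2 := by
    rw [← sq_abs X]
    calc (((p0 + n1) * (p0 + n1) : ℕ) : ℝ) = ((p0 + n1 : ℕ) : ℝ) ^ 2 := by push_cast; ring
      _ ≤ |X| ^ 2 := by gcongr
  have sy0 : (((q0 + m1) * (q0 + m1) : ℕ) : ℝ) ≤ Y ^ 2 := by
    rw [← sq_abs Y]
    calc (((q0 + m1) * (q0 + m1) : ℕ) : ℝ) = ((q0 + m1 : ℕ) : ℝ) ^ 2 := by push_cast; ring
      _ ≤ |Y| ^ 2 := by gcongr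
  have sx1 : X ^ 2 ≤ ((K.mx n0 p1 * K.mx n0 p1 : ℕ) : ℝ) := by
    rw [← sq_abs X, mx_eq]
    calc |X| ^ 2 ≤ ((max n0 p1 : ℕ) : ℝ) ^ 2 := by gcongr
      _ = _ := by push_cast; ring
  have sy1 : Y ^ 2 ≤ ((K.mx m0 q1 * K.mx m0 q1 : ℕ) : ℝ) := by
    rw [← sq_abs Y, mx_eq]
    calc |Y| ^ 2 ≤ ((max m0 q1 : ℕ) : ℝ) ^ 2 := by gcongr
      _ = _ := by push_cast; ring
  have htL : ((tL rho p0 n1 q0 m1 : ℕ) : ℝ) ≤ t := by
    unfold tL
    rw [mx_eq]
    have : (((p0 + n1) * (p0 + n1) + (q0 + m1) * (q0 + m1) : ℕ) : ℝ) ≤ t := by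
      rw [Nat.cast_add]; linarith
    rcases le_total rho ((p0 + n1) * (p0 + n1) + (q0 + m1) * (q0 + m1)) with h | h
    · rw [max_eq_right h]; exact this
    · rw [max_eq_left h]; exact hr
  have htH : t ≤ ((tH n0 p1 m0 q1 : ℕ) : ℝ) := by
    unfold tH
    rw [Nat.cast_add]; linarith
  have htL0 : 5000000 ≤ tL rho p0 n1 q0 m1 := by
    unfold tL; rw [mx_eq]; exact hr0.trans (le_max_left _ _)
  have hwl : ((K.wlo (tH n0 p1 m0 q1) : ℕ) : ℝ) ≤ w := hT.lo _ _ ht0 htH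
  have hwh : w ≤ ((K.wup (tL rho p0 n1 q0 m1) : ℕ) : ℝ) := hT.up _ _ htL0 htL
  have hwh2 := wup_le (tL rho p0 n1 q0 m1)
  have hwl2 := wlo_lt (tH n0 p1 m0 q1)
  have h5l : ((c5l n0 p1 m0 q1 : ℕ) : ℝ) ≤ 2 ^ 24 * w / t := by
    unfold c5l
    rw [Nat.shiftLeft_eq]
    exact w5_lo ht0 hwl htH
  have h5h : 2 ^ 24 * w / t ≤ ((c5h rho p0 n1 q0 m1 : ℕ) : ℝ) := by
    unfold c5h
    rw [Nat.shiftLeft_eq]
    exact w5_hi (by omega) hwh htL
  have a24 : ((c5l n0 p1 m0 q1 : ℕ) : ℝ) / 2 ^ 24 ≤ w / t := by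
    have e : w / t = 2 ^ 24 * w / t / 2 ^ 24 := by ring
    rw [e]; exact div_le_div_of_nonneg_right h5l (by norm_num)
  have b24 : w / t ≤ ((c5h rho p0 n1 q0 m1 : ℕ) : ℝ) / 2 ^ 24 := by
    have e : w / t = 2 ^ 24 * w / t / 2 ^ 24 := by ring
    rw [e]; exact div_le_div_of_nonneg_right h5h (by norm_num)
  have a23 : ((c5l n0 p1 m0 q1 : ℕ) : ℝ) / 2 ^ 23 ≤ 2 * w / t := by
    have e : 2 * w / t = 2 ^ 24 * w / t / 2 ^ 23 := by ring
    rw [e]; exact div_le_div_of_nonneg_right h5l (by norm_num)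
  have b23 : 2 * w / t ≤ ((c5h rho p0 n1 q0 m1 : ℕ) : ℝ) / 2 ^ 23 := by
    have e : 2 * w / t = 2 ^ 24 * w / t / 2 ^ 23 := by ring
    rw [e]; exact div_le_div_of_nonneg_right h5h (by norm_num)
  -- the real and imaginary parts
  have hR : |w / t * (X ^ 2 - Y ^ 2)| ≤ ((K.wup (tL rho p0 n1 q0 m1) : ℕ) : ℝ) := by
    refine le_trans ?_ hwh
    rw [abs_mul, abs_of_nonneg (div_nonneg hw0 ht0.le)]
    have : |X ^ 2 - Y ^ 2| ≤ t := by
      rw [abs_le]; constructor <;> nlinarith [sq_nonneg X, sq_nonneg Y]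
    calc w / t * |X ^ 2 - Y ^ 2| ≤ w / t * t :=
          mul_le_mul_of_nonneg_left this (div_nonneg hw0 ht0.le)
      _ = w := div_mul_cancel₀ w ht0.ne'
  have hI : |2 * w / t * (X * Y)| ≤ ((K.wup (tL rho p0 n1 q0 m1) : ℕ) : ℝ) := by
    refine le_trans ?_ hwh
    rw [abs_mul, abs_of_nonneg (div_nonneg (by linarith) ht0.le)]
    have : |X * Y| ≤ t / 2 := by
      rw [abs_le]; constructor <;> nlinarith [sq_nonneg (X + Y), sq_nonneg (X - Y)]
    calc 2 * w / t * |X * Y| ≤ 2 * w / t * (t / 2) :=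
          mul_le_mul_of_nonneg_left this (div_nonneg (by linarith) ht0.le)
      _ = w / t * t := by ring
      _ = w := div_mul_cancel₀ w ht0.ne'
  have eR : w * ((X ^ 2 - Y ^ 2) / t) = w / t * (X ^ 2 - Y ^ 2) := by ring
  have eI : w * (2 * (X * Y) / t) = 2 * w / t * (X * Y) := by ring
  rw [eR, eI]
  have natz : ∀ a b : ℕ, a - b = 0 ∨ b - a = 0 := by intro a b; omega
  have natd : ∀ a b : ℕ, ((a - b : ℕ) : ℝ) - ((b - a : ℕ) : ℝ) = (a : ℝ) - b := by
    intro a b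
    rcases le_total a b with h | h
    · rw [Nat.sub_eq_zero_of_le h, Nat.cast_sub h]; push_cast; ring
    · rw [Nat.sub_eq_zero_of_le h, Nat.cast_sub h]; push_cast; ring
  have hC := lane_lo 24 (D := X ^ 2 - Y ^ 2) a24 b24
    (pos := (p0 + n1) * (p0 + n1) - K.mx m0 q1 * K.mx m0 q1)
    (neg := K.mx m0 q1 * K.mx m0 q1 - (p0 + n1) * (p0 + n1))
    (by rw [natd]; linarith) (natz _ _) hR hwh2
  have hD := lane_hi 24 (D := X ^ 2 - Y ^ 2) a24 b24
    (pos := K.mx n0 p1 * K.mx n0 p1 - (q0 + m1) * (q0 + m1))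
    (neg := (q0 + m1) * (q0 + m1) - K.mx n0 p1 * K.mx n0 p1)
    (by rw [natd]; linarith) (natz _ _) hR hwh2
  have hE := lane_lo 23 (D := X * Y) a23 b23 (hX.le_mul hY) (hX.mul_z' hY) hI hwh2
  have hF := lane_hi 23 (D := X * Y) a23 b23 (hX.mul_le hY) (hX.mul_z hY) hI hwh2
  constructor
  · omega
  · omega
  · unfold lC; rw [mn_eq]; exact hC.1
  · unfold lD; rw [mn_eq]; exact hD.1
  · unfold lE; rw [mn_eq, mx_eq]; exact hE.1
  · unfold lF; rw [mn_eq, mx_eq]; exact hF.1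
  · exact hwl
  · exact hwh
  · exact hwh2
  · unfold lC; rw [mn_eq]; exact hC.2
  · unfold lD; rw [mn_eq]; exact hD.2
  · unfold lE; rw [mn_eq, mx_eq]; exact hE.2
  · unfold lF; rw [mn_eq, mx_eq]; exact hF.2

/-! ### the function `qp` -/

/-- interval of a difference of two coordinates -/
lemma iv_sub {a b : ℝ} {A B C D : ℕ} (h1 : (A : ℝ) ≤ a) (h2 : a ≤ B) (h3 : (C : ℝ) ≤ b)
    (h4 : b ≤ D) : Iv (a - b) (A - D) (D - A) (B - C) (C - B) := by
  have natd : ∀ a b : ℕ, ((a - b : ℕ) : ℝ) - ((b - a : ℕ) : ℝ) = (a : ℝ) - b := by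
    intro a b
    rcases le_total a b with h | h
    · rw [Nat.sub_eq_zero_of_le h, Nat.cast_sub h]; push_cast; ring
    · rw [Nat.sub_eq_zero_of_le h, Nat.cast_sub h]; push_cast; ring
  refine ⟨?_, ?_, ?_, ?_⟩
  · rw [natd]; linarith
  · rw [natd]; linarith
  · omega
  · omega

lemma qp_eq (rho EL EH i k : ℕ) : K.qp rho EL EH i k =
    K.qd rho (K.fld EL i - K.fld EH k) (K.fld EH k - K.fld EL i) (K.fld EH i - K.fld EL k)
      (K.fld EL k - K.fld EH i) (K.fld EL (i + 16) - K.fld EH (k + 16))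
      (K.fld EH (k + 16) - K.fld EL (i + 16)) (K.fld EH (i + 16) - K.fld EL (k + 16))
      (K.fld EL (k + 16) - K.fld EH (i + 16)) := rfl

lemma qp_spec (hT : Tab K.wlo K.wup 5000000) {N : ℕ} {x y : ℕ → ℝ} {EL EH rho : ℕ}
    (he : Ext N x y EL EH) (hr0 : 5000000 ≤ rho) {i k : ℕ} (hi : i < N) (hk : k < N)
    (hr : (rho : ℝ) ≤ tt x y i k) :
    ∃ a b c d e f : ℕ, K.qp rho EL EH (32 * i) (32 * k)
        = a + 2 ^ 32 * b + 2 ^ 64 * c + 2 ^ 96 * d + 2 ^ 128 * e + 2 ^ 160 * f ∧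
      Six (ww x y i k) (wR x y i k) (wI x y i k) a b c d e f := by
  have hX := iv_sub (he.xl i hi) (he.xh i hi) (he.xl k hk) (he.xh k hk)
  have hY := iv_sub (he.yl i hi) (he.yh i hi) (he.yl k hk) (he.yh k hk)
  have eX : x i + 32768 - (x k + 32768) = x i - x k := by ring
  have eY : y i + 32768 - (y k + 32768) = y i - y k := by ring
  rw [eX] at hX
  rw [eY] at hY
  have h := qd_spec hT hX hY hr0 hr
  refine ⟨_, _, _, _, _, _, ?_, h⟩
  rw [qp_eq, qd_eq]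
  simp only [Nat.shiftLeft_eq]
  ring

/-! ### digits -/

/-- lane `c` of a number -/
def lane (q c : ℕ) : ℕ := q / 2 ^ (32 * c) % 2 ^ 32

lemma lane_six {a b c d e f : ℕ} (ha : a < 2 ^ 32) (hb : b < 2 ^ 32) (hc : c < 2 ^ 32)
    (hd : d < 2 ^ 32) (he : e < 2 ^ 32) (hf : f < 2 ^ 32) :
    lane (a + 2 ^ 32 * b + 2 ^ 64 * c + 2 ^ 96 * d + 2 ^ 128 * e + 2 ^ 160 * f) 0 = a ∧
    lane (a + 2 ^ 32 * b + 2 ^ 64 * c + 2 ^ 96 * d + 2 ^ 128 * e + 2 ^ 160 * f) 1 = b ∧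
    lane (a + 2 ^ 32 * b + 2 ^ 64 * c + 2 ^ 96 * d + 2 ^ 128 * e + 2 ^ 160 * f) 2 = c ∧
    lane (a + 2 ^ 32 * b + 2 ^ 64 * c + 2 ^ 96 * d + 2 ^ 128 * e + 2 ^ 160 * f) 3 = d ∧
    lane (a + 2 ^ 32 * b + 2 ^ 64 * c + 2 ^ 96 * d + 2 ^ 128 * e + 2 ^ 160 * f) 4 = e ∧
    lane (a + 2 ^ 32 * b + 2 ^ 64 * c + 2 ^ 96 * d + 2 ^ 128 * e + 2 ^ 160 * f) 5 = f := by
  unfold lane
  norm_num only at ha hb hc hd he hf ⊢
  refine ⟨?_, ?_, ?_, ?_, ?_, ?_⟩ <;> omega

lemma ln_eq (q c : ℕ) : K.ln q (32 * c) = lane q c := by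
  show Nat.land (q >>> (32 * c)) 4294967295 = _
  have : Nat.land (q >>> (32 * c)) 4294967295 = (q >>> (32 * c)) % 2 ^ 32 :=
    Nat.and_two_pow_sub_one_eq_mod _ 32
  rw [this, Nat.shiftRight_eq_div_pow]
  rfl

/-- a lane of a number with a high part -/
lemma lane_low (v r c : ℕ) (hc : c < 6) : lane (v + 2 ^ 192 * r) c = lane v c := by
  unfold lane
  interval_cases c <;> norm_num only <;> omega

/-- the general form of the sums over the vertices -/
lemma rec_sum {f : ℕ → ℕ} (hf : ∀ v r, f (v + 2 ^ 192 * r) = f v) {g : ℕ → ℕ → ℕ}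
    (hg0 : ∀ q, g 0 q = 0) (hgs : ∀ m q, g (m + 1) q = f q + g m (q >>> 192)) (m : ℕ) :
    ∀ (V : ℕ → ℕ) (R : ℕ), (∀ j < m, V j < 2 ^ 192) →
      g m (∑ j ∈ range m, V j * 2 ^ (192 * j) + R * 2 ^ (192 * m)) = ∑ j ∈ range m, f (V j) := by
  induction m with
  | zero => intro V R _; rw [hg0]; simp
  | succ m ih =>
    intro V R hV
    have e : ∑ j ∈ range (m + 1), V j * 2 ^ (192 * j) + R * 2 ^ (192 * (m + 1))
        = V 0 + 2 ^ 192 * (∑ j ∈ range m, V (j + 1) * 2 ^ (192 * j) + R * 2 ^ (192 * m)) := by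
      have e1 : ∀ j, V (j + 1) * 2 ^ (192 * (j + 1)) = 2 ^ 192 * (V (j + 1) * 2 ^ (192 * j)) := by
        intro j; rw [mul_add 192 j 1, pow_add]; ring
      have e2 : R * 2 ^ (192 * (m + 1)) = 2 ^ 192 * (R * 2 ^ (192 * m)) := by
        rw [mul_add 192 m 1, pow_add]; ring
      rw [Finset.sum_range_succ']
      simp only [e1]
      rw [← Finset.mul_sum, e2]
      simp only [mul_zero, pow_zero, mul_one]
      ring
    rw [e, hgs, hf]
    have e3 : (V 0 + 2 ^ 192 * (∑ j ∈ range m, V (j + 1) * 2 ^ (192 * j) + R * 2 ^ (192 * m)))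
        >>> 192 = ∑ j ∈ range m, V (j + 1) * 2 ^ (192 * j) + R * 2 ^ (192 * m) := by
      rw [Nat.shiftRight_eq_div_pow, Nat.add_mul_div_left _ _ (by positivity),
        Nat.div_eq_of_lt (hV 0 (by omega)), zero_add]
    rw [e3, ih (fun j => V (j + 1)) R (fun j hj => hV (j + 1) (by omega))]
    rw [Finset.sum_range_succ' (fun j => f (V j)), add_comm]

lemma sum_digits_lt (m : ℕ) (V : ℕ → ℕ) (hV : ∀ j < m, V j < 2 ^ 192) :
    ∑ j ∈ range m, V j * 2 ^ (192 * j) < 2 ^ (192 * m) := by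
  induction m with
  | zero => simp
  | succ m ih =>
    rw [Finset.sum_range_succ]
    have h1 := ih (fun j hj => hV j (by omega))
    have h2 : V m + 1 ≤ 2 ^ 192 := hV m (by omega)
    calc ∑ j ∈ range m, V j * 2 ^ (192 * j) + V m * 2 ^ (192 * m)
        < 2 ^ (192 * m) + V m * 2 ^ (192 * m) := by omega
      _ = (V m + 1) * 2 ^ (192 * m) := by ring
      _ ≤ 2 ^ 192 * 2 ^ (192 * m) := Nat.mul_le_mul_right _ h2
      _ = 2 ^ (192 * (m + 1)) := by rw [← pow_add]; congr 1; ring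

/-! ### sums over pairs -/

lemma sum_all_pairs {M : Type} [AddCommMonoid M] (N : ℕ) (f : ℕ → ℕ → M) :
    ∑ i ∈ range N, ∑ k ∈ range N, f i k
      = ∑ i ∈ range N, ∑ k ∈ range i, (f i k + f k i) + ∑ i ∈ range N, f i i := by
  induction N with
  | zero => simp
  | succ N ih =>
    have h1 : ∑ i ∈ range N, ∑ k ∈ range (N + 1), f i k
        = ∑ i ∈ range N, ∑ k ∈ range N, f i k + ∑ i ∈ range N, f i N := by
      rw [← Finset.sum_add_distrib]
      exact Finset.sum_congr rfl fun i _ => Finset.sum_range_succ _ _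
    have h2 : ∑ k ∈ range N, (f N k + f k N)
        = ∑ k ∈ range N, f N k + ∑ k ∈ range N, f k N := Finset.sum_add_distrib
    rw [Finset.sum_range_succ, h1, ih, Finset.sum_range_succ (fun k => f N k),
      Finset.sum_range_succ (fun i => ∑ k ∈ range i, (f i k + f k i)),
      Finset.sum_range_succ (fun i => f i i), h2]
    abel

lemma list_sum_range (n : ℕ) (f : ℕ → ℕ) : ((List.range n).map f).sum = ∑ i ∈ range n, f i := by
  induction n with
  | zero => simp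
  | succ n ih => rw [List.range_succ, List.map_append, List.sum_append, ih,
      Finset.sum_range_succ]; simp

lemma list_sum_filter (n i : ℕ) (f : ℕ → ℕ) :
    (((List.range n).filter fun k => i < k).map f).sum
      = ∑ k ∈ (range n).filter (fun k => i < k), f k := by
  induction n with
  | zero => simp
  | succ n ih =>
    rw [List.range_succ, List.filter_append, List.map_append, List.sum_append, ih,
      Finset.range_add_one, Finset.filter_insert]
    by_cases h : i < n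
    · rw [if_pos h, Finset.sum_insert (by simp)]
      simp [h, add_comm]
    · rw [if_neg h]
      simp [h]

lemma sum_allPairs (N : ℕ) (g : ℕ → ℕ → ℕ) :
    ((allPairs N).map fun p => g p.1 p.2).sum
      = ∑ k ∈ range N, ∑ i ∈ range k, g (32 * i) (32 * k) := by
  have h1 : ((allPairs N).map fun p => g p.1 p.2).sum
      = ∑ i ∈ range N, ∑ k ∈ (range N).filter (fun k => i < k), g (32 * i) (32 * k) := by
    unfold allPairs
    rw [List.map_flatMap, List.flatMap_def, List.sum_flatten, List.map_map, list_sum_range]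
    refine Finset.sum_congr rfl fun i _ => ?_
    simp only [Function.comp_apply, List.map_map]
    rw [← list_sum_filter]
    rfl
  rw [h1]
  exact Finset.sum_comm' (by
    intro i k
    simp only [mem_range, mem_filter]
    omega)

lemma qs_eq (rho EL EH m w : ℕ) :
    K.qs rho EL EH m w = ((prs m w).map fun p =>
      K.qp rho EL EH p.1 p.2 * ((1 <<< (6 * p.1)) + (1 <<< (6 * p.2)))
        + K.qe (K.qp rho EL EH p.1 p.2) <<< 1344).sum := by
  induction m generalizing w with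
  | zero => rfl
  | succ m ih =>
    have e : K.qs rho EL EH (m + 1) w =
      (K.qp rho EL EH (Nat.land w 255) (Nat.land (Nat.shiftRight w 8) 255)
        * ((1 <<< (6 * (Nat.land w 255))) + (1 <<< (6 * (Nat.land (Nat.shiftRight w 8) 255))))
        + K.qe (K.qp rho EL EH (Nat.land w 255) (Nat.land (Nat.shiftRight w 8) 255)) <<< 1344)
      + K.qs rho EL EH m (Nat.shiftRight w 16) := rfl
    rw [e, ih]
    rfl


/-! ### the packed sum -/

section packed

variable (rho EL EH : ℕ)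

/-- data of a pair, symmetric, `0` on the diagonal -/
noncomputable def qq2 (j k : ℕ) : ℕ :=
  if j < k then K.qp rho EL EH (32 * j) (32 * k)
  else if k < j then K.qp rho EL EH (32 * k) (32 * j) else 0

lemma qq2_comm (j k : ℕ) : qq2 rho EL EH j k = qq2 rho EL EH k j := by
  unfold qq2
  rcases lt_trichotomy j k with h | h | h
  · rw [if_pos h, if_neg (by omega), if_pos h]
  · rw [h]
  · rw [if_neg (by omega), if_pos h, if_pos h]

lemma qq2_self (j : ℕ) : qq2 rho EL EH j j = 0 := by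
  unfold qq2; rw [if_neg (lt_irrefl _), if_neg (lt_irrefl _)]

/-- vertex total -/
noncomputable def VV (N j : ℕ) : ℕ := ∑ k ∈ range N, qq2 rho EL EH j k

/-- the packed sum -/
lemma qs_packed {N P w : ℕ} (hw : prs P w = allPairs N) :
    K.qs rho EL EH P w = ∑ j ∈ range N, VV rho EL EH N j * 2 ^ (192 * j)
      + (∑ k ∈ range N, ∑ i ∈ range k, K.qe (qq2 rho EL EH k i)) * 2 ^ 1344 := by
  rw [qs_eq, hw, sum_allPairs N (fun a b =>
      K.qp rho EL EH a b * ((1 <<< (6 * a)) + (1 <<< (6 * b)))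
        + K.qe (K.qp rho EL EH a b) <<< 1344)]
  have h1 : ∀ k ∈ range N, ∑ i ∈ range k,
      (K.qp rho EL EH (32 * i) (32 * k) * ((1 <<< (6 * (32 * i))) + (1 <<< (6 * (32 * k))))
        + K.qe (K.qp rho EL EH (32 * i) (32 * k)) <<< 1344)
      = ∑ i ∈ range k, (qq2 rho EL EH k i * 2 ^ (192 * k) + qq2 rho EL EH i k * 2 ^ (192 * i))
        + (∑ i ∈ range k, K.qe (qq2 rho EL EH k i)) * 2 ^ 1344 := by
    intro k _
    rw [Finset.sum_mul, ← Finset.sum_add_distrib]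
    refine Finset.sum_congr rfl fun i hi => ?_
    have hik := mem_range.1 hi
    have e1 : qq2 rho EL EH k i = K.qp rho EL EH (32 * i) (32 * k) := by
      unfold qq2; rw [if_neg (by omega), if_pos hik]
    have e2 : qq2 rho EL EH i k = K.qp rho EL EH (32 * i) (32 * k) := by
      rw [qq2_comm, e1]
    rw [e1, e2, Nat.shiftLeft_eq, Nat.shiftLeft_eq, Nat.shiftLeft_eq]
    have e3 : 6 * (32 * i) = 192 * i := by ring
    have e4 : 6 * (32 * k) = 192 * k := by ring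
    rw [e3, e4]
    ring
  rw [Finset.sum_congr rfl h1, Finset.sum_add_distrib, ← Finset.sum_mul]
  congr 1
  have h2 := sum_all_pairs N (fun j k => qq2 rho EL EH j k * 2 ^ (192 * j))
  simp only [qq2_self, zero_mul, Finset.sum_const_zero, add_zero] at h2
  rw [← h2]
  refine Finset.sum_congr rfl fun j _ => ?_
  unfold VV
  rw [Finset.sum_mul]

lemma card_pairs {N P w : ℕ} (hw : prs P w = allPairs N) :
    P = ∑ k ∈ range N, ∑ _i ∈ range k, 1 := by
  have h1 : ∀ m w, (prs m w).length = m := by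
    intro m
    induction m with
    | zero => intro w; rfl
    | succ m ih => intro w; show (prs m _).length + 1 = m + 1; rw [ih]
  have h2 := sum_allPairs N (fun _ _ => 1)
  rw [← hw] at h2
  have h3 : ((prs P w).map fun _ => 1).sum = P := by
    rw [List.map_const', List.sum_replicate, h1]; simp
  rw [h3] at h2
  exact h2

end packed


/-! ### the lanes of a pair and of a vertex -/

section vertex

variable {N : ℕ} {x y : ℕ → ℝ} {EL EH rho : ℕ}

lemma Six.symm {i k : ℕ} {a b c d e f : ℕ} (h : Six (ww x y i k) (wR x y i k) (wI x y i k)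
    a b c d e f) : Six (ww x y k i) (wR x y k i) (wI x y k i) a b c d e f := by
  rw [ww_comm x y k i, wR_comm x y k i, wI_comm x y k i]; exact h

/-- all the data of a pair -/
lemma qq2_spec (hT : Tab K.wlo K.wup 5000000) (he : Ext N x y EL EH) (hr0 : 5000000 ≤ rho)
    (hr : ∀ i < N, ∀ k < N, i ≠ k → (rho : ℝ) ≤ tt x y i k) {i k : ℕ} (hi : i < N) (hk : k < N)
    (hik : i ≠ k) :
    qq2 rho EL EH i k = lane (qq2 rho EL EH i k) 0 + 2 ^ 32 * lane (qq2 rho EL EH i k) 1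
      + 2 ^ 64 * lane (qq2 rho EL EH i k) 2 + 2 ^ 96 * lane (qq2 rho EL EH i k) 3
      + 2 ^ 128 * lane (qq2 rho EL EH i k) 4 + 2 ^ 160 * lane (qq2 rho EL EH i k) 5 ∧
    Six (ww x y i k) (wR x y i k) (wI x y i k) (lane (qq2 rho EL EH i k) 0)
      (lane (qq2 rho EL EH i k) 1) (lane (qq2 rho EL EH i k) 2) (lane (qq2 rho EL EH i k) 3)
      (lane (qq2 rho EL EH i k) 4) (lane (qq2 rho EL EH i k) 5) := by
  have key : ∃ a b c d e f : ℕ, qq2 rho EL EH i k
        = a + 2 ^ 32 * b + 2 ^ 64 * c + 2 ^ 96 * d + 2 ^ 128 * e + 2 ^ 160 * f ∧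
      Six (ww x y i k) (wR x y i k) (wI x y i k) a b c d e f := by
    rcases lt_or_gt_of_ne hik with h | h
    · have e1 : qq2 rho EL EH i k = K.qp rho EL EH (32 * i) (32 * k) := by
        unfold qq2; rw [if_pos h]
      rw [e1]
      exact qp_spec hT he hr0 hi hk (hr i hi k hk hik)
    · have e1 : qq2 rho EL EH i k = K.qp rho EL EH (32 * k) (32 * i) := by
        unfold qq2; rw [if_neg (by omega), if_pos h]
      rw [e1]
      obtain ⟨a, b, c, d, e, f, h1, h2⟩ := qp_spec hT he hr0 hk hi (hr k hk i hi (Ne.symm hik))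
      exact ⟨a, b, c, d, e, f, h1, h2.symm⟩
  obtain ⟨a, b, c, d, e, f, h1, h2⟩ := key
  have l18 : ∀ n : ℕ, n < 2 ^ 18 → n < 2 ^ 32 := fun n hn => lt_trans hn (by norm_num)
  obtain ⟨e0, e1, e2, e3, e4, e5⟩ := lane_six (l18 a h2.ha) (l18 b h2.hb) (l18 c h2.hc)
    (l18 d h2.hd) (l18 e h2.he) (l18 f h2.hf)
  rw [← h1] at e0 e1 e2 e3 e4 e5
  rw [e0, e1, e2, e3, e4, e5]
  exact ⟨h1, h2⟩

/-- sum of a lane at a vertex -/
noncomputable def Sl (rho EL EH N j c : ℕ) : ℕ := ∑ k ∈ range N, lane (qq2 rho EL EH j k) c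

lemma lane_zero (c : ℕ) : lane 0 c = 0 := by unfold lane; simp

lemma VV_lanes (hN7 : N ≤ 7) (hT : Tab K.wlo K.wup 5000000) (he : Ext N x y EL EH)
    (hr0 : 5000000 ≤ rho) (hr : ∀ i < N, ∀ k < N, i ≠ k → (rho : ℝ) ≤ tt x y i k)
    {j : ℕ} (hj : j < N) :
    VV rho EL EH N j < 2 ^ 192 ∧ ∀ c < 6, lane (VV rho EL EH N j) c = Sl rho EL EH N j c := by
  have hb : ∀ k < N, ∀ c < 6, lane (qq2 rho EL EH j k) c < 2 ^ 18 := by
    intro k hk c hc
    by_cases hjk : j = k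
    · subst hjk; rw [qq2_self, lane_zero]; norm_num
    · have h := (qq2_spec hT he hr0 hr hj hk hjk).2
      interval_cases c
      · exact h.ha
      · exact h.hb
      · exact h.hc
      · exact h.hd
      · exact h.he
      · exact h.hf
  have hS : ∀ c < 6, Sl rho EL EH N j c < 2 ^ 32 := by
    intro c hc
    have h1 : Sl rho EL EH N j c ≤ ∑ k ∈ range N, 2 ^ 18 :=
      Finset.sum_le_sum fun k hk => (hb k (mem_range.1 hk) c hc).le
    rw [Finset.sum_const, card_range, smul_eq_mul] at h1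
    calc Sl rho EL EH N j c ≤ N * 2 ^ 18 := h1
      _ ≤ 7 * 2 ^ 18 := Nat.mul_le_mul_right _ hN7
      _ < 2 ^ 32 := by norm_num
  have hV : VV rho EL EH N j = Sl rho EL EH N j 0 + 2 ^ 32 * Sl rho EL EH N j 1
      + 2 ^ 64 * Sl rho EL EH N j 2 + 2 ^ 96 * Sl rho EL EH N j 3
      + 2 ^ 128 * Sl rho EL EH N j 4 + 2 ^ 160 * Sl rho EL EH N j 5 := by
    unfold VV Sl
    simp only [Finset.mul_sum]
    rw [← Finset.sum_add_distrib, ← Finset.sum_add_distrib, ← Finset.sum_add_distrib,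
      ← Finset.sum_add_distrib, ← Finset.sum_add_distrib]
    refine Finset.sum_congr rfl fun k hk => ?_
    by_cases hjk : j = k
    · subst hjk; rw [qq2_self]; simp [lane_zero]
    · exact (qq2_spec hT he hr0 hr hj (mem_range.1 hk) hjk).1
  have s0 := hS 0 (by norm_num)
  have s1 := hS 1 (by norm_num)
  have s2 := hS 2 (by norm_num)
  have s3 := hS 3 (by norm_num)
  have s4 := hS 4 (by norm_num)
  have s5 := hS 5 (by norm_num)
  constructor
  · rw [hV]
    generalize Sl rho EL EH N j 0 = a at *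
    generalize Sl rho EL EH N j 1 = b at *
    generalize Sl rho EL EH N j 2 = c at *
    generalize Sl rho EL EH N j 3 = d at *
    generalize Sl rho EL EH N j 4 = e at *
    generalize Sl rho EL EH N j 5 = f at *
    norm_num only at s0 s1 s2 s3 s4 s5 ⊢
    omega
  · obtain ⟨e0, e1, e2, e3, e4, e5⟩ := lane_six s0 s1 s2 s3 s4 s5
    intro c hc
    rw [hV]
    interval_cases c
    · exact e0
    · exact e1
    · exact e2
    · exact e3
    · exact e4
    · exact e5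

/-- sum with one missing term -/
lemma sum_off {N j : ℕ} (hj : j < N) (c : ℝ) :
    ∑ k ∈ range N, (if k = j then (0 : ℝ) else c) = (N - 1) * c := by
  have h : ∀ k ∈ range N, (if k = j then (0 : ℝ) else c) = c - (if k = j then c else 0) := by
    intro k _; split_ifs <;> ring
  rw [Finset.sum_congr rfl h, Finset.sum_sub_distrib, Finset.sum_const, card_range,
    Finset.sum_ite_eq' (range N) j (fun _ => c), if_pos (mem_range.2 hj), nsmul_eq_mul]
  ring

/-- real bounds of the vertex sums -/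
lemma vertex_bounds (hT : Tab K.wlo K.wup 5000000) (he : Ext N x y EL EH)
    (hr0 : 5000000 ≤ rho) (hr : ∀ i < N, ∀ k < N, i ≠ k → (rho : ℝ) ≤ tt x y i k)
    {j : ℕ} (hj : j < N) :
    (Sl rho EL EH N j 0 : ℝ) ≤ dS N x y j ∧ dS N x y j ≤ Sl rho EL EH N j 1 ∧
    (Sl rho EL EH N j 2 : ℝ) - (N - 1) * 131072 ≤ cRS N x y j ∧
    cRS N x y j ≤ (Sl rho EL EH N j 3 : ℝ) - (N - 1) * 131072 ∧
    (Sl rho EL EH N j 4 : ℝ) - (N - 1) * 131072 ≤ cIS N x y j ∧
    cIS N x y j ≤ (Sl rho EL EH N j 5 : ℝ) - (N - 1) * 131072 := by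
  unfold dS cRS cIS Sl
  rw [← sum_off hj]
  push_cast
  simp only [← Finset.sum_sub_distrib]
  refine ⟨?_, ?_, ?_, ?_, ?_, ?_⟩
  · refine Finset.sum_le_sum fun k hk => ?_
    by_cases hjk : k = j
    · subst hjk
      rw [qq2_self, lane_zero]
      simp [ww_self]
    · exact (qq2_spec hT he hr0 hr hj (mem_range.1 hk) (Ne.symm hjk)).2.wl
  · refine Finset.sum_le_sum fun k hk => ?_
    by_cases hjk : k = j
    · subst hjk
      rw [qq2_self, lane_zero]
      simp [ww_self]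
    · exact (qq2_spec hT he hr0 hr hj (mem_range.1 hk) (Ne.symm hjk)).2.wh
  · refine Finset.sum_le_sum fun k hk => ?_
    by_cases hjk : k = j
    · subst hjk
      rw [qq2_self, lane_zero]
      simp [wR_self]
    · rw [if_neg hjk]
      exact (qq2_spec hT he hr0 hr hj (mem_range.1 hk) (Ne.symm hjk)).2.rl
  · refine Finset.sum_le_sum fun k hk => ?_
    by_cases hjk : k = j
    · subst hjk
      rw [qq2_self, lane_zero]
      simp [wR_self]
    · rw [if_neg hjk]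
      exact (qq2_spec hT he hr0 hr hj (mem_range.1 hk) (Ne.symm hjk)).2.rh
  · refine Finset.sum_le_sum fun k hk => ?_
    by_cases hjk : k = j
    · subst hjk
      rw [qq2_self, lane_zero]
      simp [wI_self]
    · rw [if_neg hjk]
      exact (qq2_spec hT he hr0 hr hj (mem_range.1 hk) (Ne.symm hjk)).2.il
  · refine Finset.sum_le_sum fun k hk => ?_
    by_cases hjk : k = j
    · subst hjk
      rw [qq2_self, lane_zero]
      simp [wI_self]
    · rw [if_neg hjk]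
      exact (qq2_spec hT he hr0 hr hj (mem_range.1 hk) (Ne.symm hjk)).2.ih

end vertex

/-! ### the quadratic part -/

/-- the function `qe` -/
lemma qe_eq (q : ℕ) : K.qe q =
    (max (lane q 1 - 4915) (4916 - lane q 0)) * (max (lane q 1 - 4915) (4916 - lane q 0))
      + ((lane q 0 - 4916 + (4915 - lane q 1)) * (lane q 0 - 4916 + (4915 - lane q 1)))
        * 2 ^ 64 := by
  have h0 : Nat.land q 4294967295 = lane q 0 := by
    have := ln_eq q 0
    rw [← this]; rfl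
  have h1 : Nat.land (Nat.shiftRight q 32) 4294967295 = lane q 1 := by
    have := ln_eq q 1
    rw [← this]; rfl
  have h2 : K.qe q = (fun wl wh => (fun e d => e * e + (d * d) <<< 64)
      (K.mx (wh - 4915) (4916 - wl)) (wl - 4916 + (4915 - wh)))
      (Nat.land q 4294967295) (Nat.land (Nat.shiftRight q 32) 4294967295) := rfl
  rw [h2, h0, h1]
  simp only [mx_eq, Nat.shiftLeft_eq]

lemma ff_le_aux {e w : ℝ} (h1 : w - 4915.2 ≤ e) (h2 : -e ≤ w - 4915.2) :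
    ff w ≤ 20 * (e * e) - 483183820 := by
  have h5 : (w - 4915.2) ^ 2 ≤ e ^ 2 := sq_le_sq' h2 h1
  unfold ff
  nlinarith

lemma ff_ge_aux {d w : ℝ} (h0 : 0 ≤ d) (h : d ≤ w - 4915.2 ∨ d ≤ 4915.2 - w) :
    20 * (d * d) - 483183821 ≤ ff w := by
  have h5 : d ^ 2 ≤ (w - 4915.2) ^ 2 := by
    rcases h with h | h
    · exact pow_le_pow_left₀ h0 h 2
    · have e2 : (w - 4915.2) ^ 2 = (4915.2 - w) ^ 2 := by ring
      rw [e2]
      exact pow_le_pow_left₀ h0 h 2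
  unfold ff
  nlinarith

lemma ff_ge_aux0 (w : ℝ) : 20 * ((0 : ℝ) * 0) - 483183821 ≤ ff w := by
  unfold ff
  nlinarith [sq_nonneg (w - 4915.2)]

lemma nat_e (wl wh : ℕ) : wh ≤ max (wh - 4915) (4916 - wl) + 4915 ∧
    4916 ≤ max (wh - 4915) (4916 - wl) + wl := by
  constructor
  · have := le_max_left (wh - 4915) (4916 - wl)
    omega
  · have := le_max_right (wh - 4915) (4916 - wl)
    omega

lemma nat_d (wl wh : ℕ) (h : wl ≤ wh) : wl = (wl - 4916 + (4915 - wh)) + 4916 ∨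
    wh + (wl - 4916 + (4915 - wh)) = 4915 ∨ wl - 4916 + (4915 - wh) = 0 := by
  omega

lemma ff_le_e {wl wh : ℕ} {w : ℝ} (h1 : (wl : ℝ) ≤ w) (h2 : w ≤ wh) :
    ff w ≤ 20 * (((max (wh - 4915) (4916 - wl)) * (max (wh - 4915) (4916 - wl)) : ℕ) : ℝ)
      - 483183820 := by
  obtain ⟨h3, h4⟩ := nat_e wl wh
  generalize max (wh - 4915) (4916 - wl) = e at h3 h4 ⊢
  have h3' : (wh : ℝ) ≤ e + 4915 := by exact_mod_cast h3
  have h4' : (4916 : ℝ) ≤ e + wl := by exact_mod_cast h4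
  rw [Nat.cast_mul]
  exact ff_le_aux (by linarith) (by linarith)

lemma d_le_ff {wl wh : ℕ} {w : ℝ} (h1 : (wl : ℝ) ≤ w) (h2 : w ≤ wh) :
    20 * (((wl - 4916 + (4915 - wh)) * (wl - 4916 + (4915 - wh)) : ℕ) : ℝ)
      - 483183821 ≤ ff w := by
  have h12 : wl ≤ wh := by exact_mod_cast h1.trans h2
  have h3 := nat_d wl wh h12
  generalize wl - 4916 + (4915 - wh) = d at h3 ⊢
  rw [Nat.cast_mul]
  rcases h3 with h | h | h
  · have h' : (wl : ℝ) = d + 4916 := by exact_mod_cast h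
    exact ff_ge_aux (Nat.cast_nonneg _) (Or.inl (by linarith))
  · have h' : (wh : ℝ) + d = 4915 := by exact_mod_cast h
    exact ff_ge_aux (Nat.cast_nonneg _) (Or.inr (by linarith))
  · rw [h, Nat.cast_zero]
    exact ff_ge_aux0 w


/-! ### the parts of the packed sum -/

/-- contribution of a vertex to `vu` -/
noncomputable def fu (o q : ℕ) : ℕ :=
  lane q 1 * lane q 1 + 9 * (max (o - lane q 2) (lane q 3 - o) * max (o - lane q 2) (lane q 3 - o)
    + max (o - lane q 4) (lane q 5 - o) * max (o - lane q 4) (lane q 5 - o))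

/-- contribution of a vertex to `vl` -/
noncomputable def fl (o q : ℕ) : ℕ :=
  lane q 0 * lane q 0 + 9 * ((lane q 2 - o + (o - lane q 3)) * (lane q 2 - o + (o - lane q 3))
    + (lane q 4 - o + (o - lane q 5)) * (lane q 4 - o + (o - lane q 5)))

lemma vu_succ (o m q : ℕ) : K.vu o (m + 1) q = fu o q + K.vu o m (q >>> 192) := by
  have h : K.vu o (m + 1) q = (fun d a b => d * d + 9 * (a * a + b * b)) (K.ln q (32 * 1))
      (K.mx (o - K.ln q (32 * 2)) (K.ln q (32 * 3) - o))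
      (K.mx (o - K.ln q (32 * 4)) (K.ln q (32 * 5) - o)) + K.vu o m (q >>> 192) := rfl
  rw [h]
  simp only [ln_eq, mx_eq]
  rfl

lemma vl_succ (o m q : ℕ) : K.vl o (m + 1) q = fl o q + K.vl o m (q >>> 192) := by
  have h : K.vl o (m + 1) q = (fun d a b => d * d + 9 * (a * a + b * b)) (K.ln q (32 * 0))
      (K.ln q (32 * 2) - o + (o - K.ln q (32 * 3)))
      (K.ln q (32 * 4) - o + (o - K.ln q (32 * 5))) + K.vl o m (q >>> 192) := rfl
  rw [h]
  simp only [ln_eq]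
  rfl

lemma vd_succ (c m q : ℕ) : K.vd (32 * c) (m + 1) q = lane q c + K.vd (32 * c) m (q >>> 192) := by
  have h : K.vd (32 * c) (m + 1) q = K.ln q (32 * c) + K.vd (32 * c) m (q >>> 192) := rfl
  rw [h, ln_eq]

lemma fu_low (o v r : ℕ) : fu o (v + 2 ^ 192 * r) = fu o v := by
  unfold fu
  rw [lane_low v r 1 (by norm_num), lane_low v r 2 (by norm_num), lane_low v r 3 (by norm_num),
    lane_low v r 4 (by norm_num), lane_low v r 5 (by norm_num)]

lemma fl_low (o v r : ℕ) : fl o (v + 2 ^ 192 * r) = fl o v := by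
  unfold fl
  rw [lane_low v r 0 (by norm_num), lane_low v r 2 (by norm_num), lane_low v r 3 (by norm_num),
    lane_low v r 4 (by norm_num), lane_low v r 5 (by norm_num)]

section parts

variable {N : ℕ} {x y : ℕ → ℝ} {EL EH rho P w : ℕ}

/-- the squares for the upper bound of a pair -/
noncomputable def e2 (q : ℕ) : ℕ :=
  (max (lane q 1 - 4915) (4916 - lane q 0)) * (max (lane q 1 - 4915) (4916 - lane q 0))

/-- the squares for the lower bound of a pair -/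
noncomputable def d2 (q : ℕ) : ℕ :=
  (lane q 0 - 4916 + (4915 - lane q 1)) * (lane q 0 - 4916 + (4915 - lane q 1))

lemma pow_1344 (hN7 : N ≤ 7) : 2 ^ 1344 = 2 ^ (1344 - 192 * N) * 2 ^ (192 * N) := by
  rw [← pow_add]; congr 1; omega

lemma qs_packed2 (hN7 : N ≤ 7) (hw : prs P w = allPairs N) :
    K.qs rho EL EH P w = ∑ j ∈ range N, VV rho EL EH N j * 2 ^ (192 * j)
      + ((∑ k ∈ range N, ∑ i ∈ range k, K.qe (qq2 rho EL EH k i)) * 2 ^ (1344 - 192 * N))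
        * 2 ^ (192 * N) := by
  rw [qs_packed rho EL EH hw, mul_assoc, ← pow_1344 hN7]

lemma vu_packed (hN7 : N ≤ 7) (hT : Tab K.wlo K.wup 5000000) (he : Ext N x y EL EH)
    (hr0 : 5000000 ≤ rho) (hr : ∀ i < N, ∀ k < N, i ≠ k → (rho : ℝ) ≤ tt x y i k)
    (hw : prs P w = allPairs N) (o : ℕ) :
    K.vu o N (K.qs rho EL EH P w) = ∑ j ∈ range N, fu o (VV rho EL EH N j) := by
  rw [qs_packed2 hN7 hw]
  exact rec_sum (fu_low o) (fun q => rfl) (vu_succ o) N _ _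
    (fun j hj => (VV_lanes hN7 hT he hr0 hr hj).1)

lemma vl_packed (hN7 : N ≤ 7) (hT : Tab K.wlo K.wup 5000000) (he : Ext N x y EL EH)
    (hr0 : 5000000 ≤ rho) (hr : ∀ i < N, ∀ k < N, i ≠ k → (rho : ℝ) ≤ tt x y i k)
    (hw : prs P w = allPairs N) (o : ℕ) :
    K.vl o N (K.qs rho EL EH P w) = ∑ j ∈ range N, fl o (VV rho EL EH N j) := by
  rw [qs_packed2 hN7 hw]
  exact rec_sum (fl_low o) (fun q => rfl) (vl_succ o) N _ _
    (fun j hj => (VV_lanes hN7 hT he hr0 hr hj).1)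

lemma vd_packed (hN7 : N ≤ 7) (hT : Tab K.wlo K.wup 5000000) (he : Ext N x y EL EH)
    (hr0 : 5000000 ≤ rho) (hr : ∀ i < N, ∀ k < N, i ≠ k → (rho : ℝ) ≤ tt x y i k)
    (hw : prs P w = allPairs N) (c : ℕ) (hc : c < 6) :
    K.vd (32 * c) N (K.qs rho EL EH P w) = ∑ j ∈ range N, Sl rho EL EH N j c := by
  rw [qs_packed2 hN7 hw]
  have h := rec_sum (f := fun q => lane q c) (fun v r => lane_low v r c hc)
    (g := K.vd (32 * c)) (fun q => rfl) (vd_succ c) N (VV rho EL EH N)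
    ((∑ k ∈ range N, ∑ i ∈ range k, K.qe (qq2 rho EL EH k i)) * 2 ^ (1344 - 192 * N))
    (fun j hj => (VV_lanes hN7 hT he hr0 hr hj).1)
  rw [h]
  exact Finset.sum_congr rfl fun j hj =>
    (VV_lanes hN7 hT he hr0 hr (mem_range.1 hj)).2 c hc

/-- the top part -/
lemma qs_top (hN7 : N ≤ 7) (hT : Tab K.wlo K.wup 5000000) (he : Ext N x y EL EH)
    (hr0 : 5000000 ≤ rho) (hr : ∀ i < N, ∀ k < N, i ≠ k → (rho : ℝ) ≤ tt x y i k)
    (hw : prs P w = allPairs N) :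
    K.qs rho EL EH P w >>> 1344 = ∑ k ∈ range N, ∑ i ∈ range k, e2 (qq2 rho EL EH k i)
      + 2 ^ 64 * ∑ k ∈ range N, ∑ i ∈ range k, d2 (qq2 rho EL EH k i) ∧
    ∑ k ∈ range N, ∑ i ∈ range k, e2 (qq2 rho EL EH k i) < 2 ^ 64 := by
  constructor
  · rw [qs_packed rho EL EH hw, Nat.shiftRight_eq_div_pow,
      Nat.add_mul_div_right _ _ (Nat.two_pow_pos 1344), Nat.div_eq_of_lt, zero_add]
    · rw [Finset.mul_sum, ← Finset.sum_add_distrib]
      refine Finset.sum_congr rfl fun k _ => ?_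
      rw [Finset.mul_sum, ← Finset.sum_add_distrib]
      refine Finset.sum_congr rfl fun i _ => ?_
      rw [qe_eq]
      unfold e2 d2
      ring
    · refine lt_of_lt_of_le (sum_digits_lt N _ fun j hj => (VV_lanes hN7 hT he hr0 hr hj).1) ?_
      exact Nat.pow_le_pow_right (by norm_num) (by omega)
  · have h1 : ∀ k ∈ range N, ∀ i ∈ range k, e2 (qq2 rho EL EH k i) ≤ 2 ^ 32 := by
      intro k hk i hi
      have hk := mem_range.1 hk
      have hi := mem_range.1 hi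
      have h := (qq2_spec hT he hr0 hr hk (by omega : i < N) (by omega : k ≠ i)).2
      have hbb := h.bb
      have : max (lane (qq2 rho EL EH k i) 1 - 4915) (4916 - lane (qq2 rho EL EH k i) 0)
          ≤ 65536 := by
        apply max_le <;> omega
      unfold e2
      calc _ ≤ 65536 * 65536 := Nat.mul_le_mul this this
        _ = 2 ^ 32 := by norm_num
    have h2 : ∑ k ∈ range N, ∑ i ∈ range k, e2 (qq2 rho EL EH k i)
        ≤ ∑ k ∈ range N, 7 * 2 ^ 32 := by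
      refine Finset.sum_le_sum fun k hk => ?_
      calc ∑ i ∈ range k, e2 (qq2 rho EL EH k i) ≤ ∑ i ∈ range k, 2 ^ 32 :=
            Finset.sum_le_sum fun i hi => h1 k hk i hi
        _ = k * 2 ^ 32 := by rw [Finset.sum_const, card_range, smul_eq_mul]
        _ ≤ 7 * 2 ^ 32 := Nat.mul_le_mul_right _ (by have := mem_range.1 hk; omega)
    rw [Finset.sum_const, card_range, smul_eq_mul] at h2
    calc _ ≤ N * (7 * 2 ^ 32) := h2
      _ ≤ 7 * (7 * 2 ^ 32) := Nat.mul_le_mul_right _ hN7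
      _ < 2 ^ 64 := by norm_num

/-- the upper bound of `Ph` -/
lemma Ph_le_kernel (hN : 3 ≤ N) (hN7 : N ≤ 7) (hT : Tab K.wlo K.wup 5000000)
    (he : Ext N x y EL EH)
    (hr0 : 5000000 ≤ rho) (hr : ∀ i < N, ∀ k < N, i ≠ k → (rho : ℝ) ≤ tt x y i k)
    (hw : prs P w = allPairs N) :
    Ph N x y ≤ 2 ^ 27 * (2 * N - 3)
      + (20 * ((∑ k ∈ range N, ∑ i ∈ range k, e2 (qq2 rho EL EH k i) : ℕ) : ℝ)
        - 483183820 * P)
      + ((∑ j ∈ range N, fu ((N - 1) * 2 ^ 17) (VV rho EL EH N j) : ℕ) : ℝ) := by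
  rw [Ph_pairs]
  have hA : ∑ k ∈ range N, ∑ i ∈ range k, ff (ww x y k i)
      ≤ 20 * ((∑ k ∈ range N, ∑ i ∈ range k, e2 (qq2 rho EL EH k i) : ℕ) : ℝ)
        - 483183820 * P := by
    have hP := card_pairs hw
    have hP' : (P : ℝ) = ∑ k ∈ range N, ∑ _i ∈ range k, (1 : ℝ) := by
      rw [hP]; push_cast; rfl
    rw [hP']
    push_cast
    simp only [Finset.mul_sum, ← Finset.sum_sub_distrib]
    refine Finset.sum_le_sum fun k hk => Finset.sum_le_sum fun i hi => ?_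
    have hk := mem_range.1 hk
    have hi := mem_range.1 hi
    have h := (qq2_spec hT he hr0 hr hk (by omega : i < N) (by omega : k ≠ i)).2
    have := ff_le_e h.wl h.wh
    rw [mul_one]
    exact this
  have hB : ∑ j ∈ range N, (dS N x y j ^ 2 + 9 * (cRS N x y j ^ 2 + cIS N x y j ^ 2))
      ≤ ((∑ j ∈ range N, fu ((N - 1) * 2 ^ 17) (VV rho EL EH N j) : ℕ) : ℝ) := by
    rw [Nat.cast_sum]
    refine Finset.sum_le_sum fun j hj => ?_
    have hj := mem_range.1 hj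
    obtain ⟨b0, b1, b2, b3, b4, b5⟩ := vertex_bounds hT he hr0 hr hj
    obtain ⟨_, hl⟩ := VV_lanes hN7 hT he hr0 hr hj
    have e1 : (((N - 1) * 2 ^ 17 : ℕ) : ℝ) = (N - 1) * 131072 := by
      rw [Nat.cast_mul, Nat.cast_sub (by omega)]; norm_num
    rw [← e1] at b2 b3 b4 b5
    unfold fu
    rw [hl 1 (by norm_num), hl 2 (by norm_num), hl 3 (by norm_num), hl 4 (by norm_num),
      hl 5 (by norm_num)]
    generalize (N - 1) * 2 ^ 17 = o at b2 b3 b4 b5 ⊢
    have key : ∀ (c : ℝ) (l h : ℕ), (l : ℝ) - o ≤ c → c ≤ (h : ℝ) - o →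
        c ^ 2 ≤ ((max (o - l) (h - o) * max (o - l) (h - o) : ℕ) : ℝ) := by
      intro c l h hl hh
      have h1 : o ≤ max (o - l) (h - o) + l := by
        have := le_max_left (o - l) (h - o); omega
      have h2 : h ≤ max (o - l) (h - o) + o := by
        have := le_max_right (o - l) (h - o); omega
      generalize max (o - l) (h - o) = m at h1 h2 ⊢
      have h1' : (o : ℝ) ≤ m + l := by exact_mod_cast h1
      have h2' : (h : ℝ) ≤ m + o := by exact_mod_cast h2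
      rw [Nat.cast_mul, ← sq]
      exact sq_le_sq' (by linarith) (by linarith)
    have k1 := key _ _ _ b2 b3
    have k2 := key _ _ _ b4 b5
    have hd0 : 0 ≤ dS N x y j := Finset.sum_nonneg fun k _ => ww_nonneg x y j k
    have k3 : dS N x y j ^ 2 ≤ ((Sl rho EL EH N j 1 * Sl rho EL EH N j 1 : ℕ) : ℝ) := by
      rw [Nat.cast_mul, ← sq]
      exact pow_le_pow_left₀ hd0 b1 2
    rw [Nat.cast_add, Nat.cast_mul 9, Nat.cast_add]
    have e9 : ((9 : ℕ) : ℝ) = 9 := by norm_num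
    rw [e9]
    linarith
  linarith

/-- the lower bound of `Ph` -/
lemma kernel_le_Ph (hN : 3 ≤ N) (hN7 : N ≤ 7) (hT : Tab K.wlo K.wup 5000000)
    (he : Ext N x y EL EH)
    (hr0 : 5000000 ≤ rho) (hr : ∀ i < N, ∀ k < N, i ≠ k → (rho : ℝ) ≤ tt x y i k)
    (hw : prs P w = allPairs N) :
    2 ^ 27 * (2 * N - 3)
      + (20 * ((∑ k ∈ range N, ∑ i ∈ range k, d2 (qq2 rho EL EH k i) : ℕ) : ℝ)
        - 483183821 * P)
      + ((∑ j ∈ range N, fl ((N - 1) * 2 ^ 17) (VV rho EL EH N j) : ℕ) : ℝ) ≤ Ph N x y := by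
  rw [Ph_pairs]
  have hA : 20 * ((∑ k ∈ range N, ∑ i ∈ range k, d2 (qq2 rho EL EH k i) : ℕ) : ℝ)
        - 483183821 * P ≤ ∑ k ∈ range N, ∑ i ∈ range k, ff (ww x y k i) := by
    have hP := card_pairs hw
    have hP' : (P : ℝ) = ∑ k ∈ range N, ∑ _i ∈ range k, (1 : ℝ) := by
      rw [hP]; push_cast; rfl
    rw [hP']
    push_cast
    simp only [Finset.mul_sum, ← Finset.sum_sub_distrib]
    refine Finset.sum_le_sum fun k hk => Finset.sum_le_sum fun i hi => ?_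
    have hk := mem_range.1 hk
    have hi := mem_range.1 hi
    have h := (qq2_spec hT he hr0 hr hk (by omega : i < N) (by omega : k ≠ i)).2
    have := d_le_ff h.wl h.wh
    rw [mul_one]
    exact this
  have hB : ((∑ j ∈ range N, fl ((N - 1) * 2 ^ 17) (VV rho EL EH N j) : ℕ) : ℝ)
      ≤ ∑ j ∈ range N, (dS N x y j ^ 2 + 9 * (cRS N x y j ^ 2 + cIS N x y j ^ 2)) := by
    rw [Nat.cast_sum]
    refine Finset.sum_le_sum fun j hj => ?_
    have hj := mem_range.1 hj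
    obtain ⟨b0, b1, b2, b3, b4, b5⟩ := vertex_bounds hT he hr0 hr hj
    obtain ⟨_, hl⟩ := VV_lanes hN7 hT he hr0 hr hj
    have e1 : (((N - 1) * 2 ^ 17 : ℕ) : ℝ) = (N - 1) * 131072 := by
      rw [Nat.cast_mul, Nat.cast_sub (by omega)]; norm_num
    rw [← e1] at b2 b3 b4 b5
    unfold fl
    rw [hl 0 (by norm_num), hl 2 (by norm_num), hl 3 (by norm_num), hl 4 (by norm_num),
      hl 5 (by norm_num)]
    generalize (N - 1) * 2 ^ 17 = o at b2 b3 b4 b5 ⊢
    have key : ∀ (c : ℝ) (l h : ℕ), (l : ℝ) - o ≤ c → c ≤ (h : ℝ) - o →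
        (((l - o + (o - h)) * (l - o + (o - h)) : ℕ) : ℝ) ≤ c ^ 2 := by
      intro c l h hl hh
      have hlh : l ≤ h := by
        have : (l : ℝ) ≤ h := by linarith
        exact_mod_cast this
      have h1 : l = (l - o + (o - h)) + o ∨ h + (l - o + (o - h)) = o
          ∨ l - o + (o - h) = 0 := by omega
      generalize l - o + (o - h) = m at h1 ⊢
      rw [Nat.cast_mul, ← sq]
      rcases h1 with h1 | h1 | h1
      · have h1' : (l : ℝ) = m + o := by exact_mod_cast h1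
        exact pow_le_pow_left₀ (Nat.cast_nonneg _) (by linarith) 2
      · have h1' : (h : ℝ) + m = o := by exact_mod_cast h1
        have e2 : c ^ 2 = (-c) ^ 2 := by ring
        rw [e2]
        exact pow_le_pow_left₀ (Nat.cast_nonneg _) (by linarith) 2
      · rw [h1, Nat.cast_zero, zero_pow two_ne_zero]; exact sq_nonneg c
    have k1 := key _ _ _ b2 b3
    have k2 := key _ _ _ b4 b5
    have k3 : ((Sl rho EL EH N j 0 * Sl rho EL EH N j 0 : ℕ) : ℝ) ≤ dS N x y j ^ 2 := by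
      rw [Nat.cast_mul, ← sq]
      exact pow_le_pow_left₀ (Nat.cast_nonneg _) b0 2
    rw [Nat.cast_add, Nat.cast_mul 9, Nat.cast_add]
    have e9 : ((9 : ℕ) : ℝ) = 9 := by norm_num
    rw [e9]
    linarith
  linarith

end parts


/-! ### soundness -/

section sound

variable {N : ℕ} {x y : ℕ → ℝ} {EL EH rho P w : ℕ}

lemma pneg_unfold (N rho EL EH P w : ℕ) : K.pneg N rho EL EH P w =
    Nat.ble ((2 * N - 4) * ((2 * N - 3) <<< 27
        + (20 * Nat.land (K.qs rho EL EH P w >>> 1344) 18446744073709551615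
          + K.vu ((N - 1) <<< 17) N (K.qs rho EL EH P w))) + 1)
      (2 * (((2 * N - 3) <<< 13 - K.vd (32 * 1) N (K.qs rho EL EH P w))
          * ((2 * N - 3) <<< 13 - K.vd (32 * 1) N (K.qs rho EL EH P w)))
        + (2 * N - 4) * P * 483183820) := rfl

lemma pbig_unfold (N rho EL EH P w : ℕ) : K.pbig N rho EL EH P w =
    Nat.ble (2 * (((2 * N - 3) <<< 13 - K.vd (32 * 0) N (K.qs rho EL EH P w))
          * ((2 * N - 3) <<< 13 - K.vd (32 * 0) N (K.qs rho EL EH P w)))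
        + P * 483183821 + 1)
      ((2 * N - 3) <<< 27 + (20 * (K.qs rho EL EH P w >>> 1408)
          + K.vl ((N - 1) <<< 17) N (K.qs rho EL EH P w))) := rfl

theorem pneg_sound (hN : 3 ≤ N) (hN7 : N ≤ 7) (hT : Tab K.wlo K.wup 5000000)
    (hc : Cfg N x y) (he : Ext N x y EL EH) (hr0 : 5000000 ≤ rho)
    (hr : ∀ i < N, ∀ k < N, i ≠ k → (rho : ℝ) ≤ tt x y i k) (hw : prs P w = allPairs N) :
    K.pneg N rho EL EH P w = false := by
  by_contra hcon
  rw [Bool.not_eq_false, pneg_unfold] at hcon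
  have h1 := Nat.le_of_ble_eq_true hcon
  obtain ⟨hq1, hq2⟩ := qs_top hN7 hT he hr0 hr hw
  have hland : Nat.land (K.qs rho EL EH P w >>> 1344) 18446744073709551615
      = ∑ k ∈ range N, ∑ i ∈ range k, e2 (qq2 rho EL EH k i) := by
    have h := Nat.and_two_pow_sub_one_eq_mod (K.qs rho EL EH P w >>> 1344) 64
    have e : Nat.land (K.qs rho EL EH P w >>> 1344) 18446744073709551615
        = (K.qs rho EL EH P w >>> 1344) % 2 ^ 64 := h
    rw [e, hq1, Nat.add_mul_mod_self_left, Nat.mod_eq_of_lt hq2]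
  rw [hland, vu_packed hN7 hT he hr0 hr hw, vd_packed hN7 hT he hr0 hr hw 1 (by norm_num),
    Nat.shiftLeft_eq, Nat.shiftLeft_eq, Nat.shiftLeft_eq] at h1
  have hPh := Ph_le_kernel hN hN7 hT he hr0 hr hw
  have hTh : Th N x y ≤ ((∑ j ∈ range N, Sl rho EL EH N j 1 : ℕ) : ℝ) := by
    rw [Nat.cast_sum]
    exact Finset.sum_le_sum fun j hj => (vertex_bounds hT he hr0 hr (mem_range.1 hj)).2.1
  have hlo := hc.lo
  have htr := hc.tr
  generalize ∑ k ∈ range N, ∑ i ∈ range k, e2 (qq2 rho EL EH k i) = E at h1 hPh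
  generalize ∑ j ∈ range N, fu ((N - 1) * 2 ^ 17) (VV rho EL EH N j) = V at h1 hPh
  generalize ∑ j ∈ range N, Sl rho EL EH N j 1 = S at h1 hTh
  have eM : ((2 * N - 3 : ℕ) : ℝ) = 2 * N - 3 := by
    rw [Nat.cast_sub (by omega)]; push_cast; ring
  have en : ((2 * N - 4 : ℕ) : ℝ) = 2 * N - 4 := by
    rw [Nat.cast_sub (by omega)]; push_cast; ring
  have hN' : (3 : ℝ) ≤ N := by exact_mod_cast hN
  have hs : (((2 * N - 3) * 2 ^ 13 - S : ℕ) : ℝ) ≤ 8192 * (2 * N - 3) - Th N x y := by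
    rcases le_total S ((2 * N - 3) * 2 ^ 13) with h | h
    · rw [Nat.cast_sub h, Nat.cast_mul, eM]
      push_cast
      linarith
    · rw [Nat.sub_eq_zero_of_le h]
      push_cast
      linarith
  generalize (2 * N - 3) * 2 ^ 13 - S = s at h1 hs
  have h2 : (((2 * N - 4) * ((2 * N - 3) * 2 ^ 27 + (20 * E + V)) + 1 : ℕ) : ℝ)
      ≤ ((2 * (s * s) + (2 * N - 4) * P * 483183820 : ℕ) : ℝ) := by exact_mod_cast h1
  rw [Nat.cast_add, Nat.cast_mul, en, Nat.cast_add, Nat.cast_mul, eM, Nat.cast_add,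
    Nat.cast_mul 20, Nat.cast_add, Nat.cast_mul 2, Nat.cast_mul s, Nat.cast_mul, Nat.cast_mul,
    en] at h2
  push_cast at h2
  have h3 : (s : ℝ) * s ≤ (8192 * (2 * N - 3) - Th N x y) ^ 2 := by
    rw [← sq]
    exact pow_le_pow_left₀ (Nat.cast_nonneg _) hs 2
  have h4 : (2 * (N : ℝ) - 4) * Ph N x y ≤ (2 * N - 4) * (2 ^ 27 * (2 * N - 3)
      + (20 * E - 483183820 * P) + V) := mul_le_mul_of_nonneg_left hPh (by linarith)
  nlinarith

theorem pbig_sound (hN : 3 ≤ N) (hN7 : N ≤ 7) (hT : Tab K.wlo K.wup 5000000)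
    (hc : Cfg N x y) (he : Ext N x y EL EH) (hr0 : 5000000 ≤ rho)
    (hr : ∀ i < N, ∀ k < N, i ≠ k → (rho : ℝ) ≤ tt x y i k) (hw : prs P w = allPairs N) :
    K.pbig N rho EL EH P w = false := by
  by_contra hcon
  rw [Bool.not_eq_false, pbig_unfold] at hcon
  have h1 := Nat.le_of_ble_eq_true hcon
  obtain ⟨hq1, hq2⟩ := qs_top hN7 hT he hr0 hr hw
  have hsh : K.qs rho EL EH P w >>> 1408
      = ∑ k ∈ range N, ∑ i ∈ range k, d2 (qq2 rho EL EH k i) := by
    have e : K.qs rho EL EH P w >>> 1408 = (K.qs rho EL EH P w >>> 1344) >>> 64 := by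
      rw [← Nat.shiftRight_add]
    rw [e, hq1, Nat.shiftRight_eq_div_pow, Nat.add_mul_div_left _ _ (Nat.two_pow_pos 64),
      Nat.div_eq_of_lt hq2, zero_add]
  rw [hsh, vl_packed hN7 hT he hr0 hr hw, vd_packed hN7 hT he hr0 hr hw 0 (by norm_num),
    Nat.shiftLeft_eq, Nat.shiftLeft_eq, Nat.shiftLeft_eq] at h1
  have hPh := kernel_le_Ph hN hN7 hT he hr0 hr hw
  have hTh : ((∑ j ∈ range N, Sl rho EL EH N j 0 : ℕ) : ℝ) ≤ Th N x y := by
    rw [Nat.cast_sum]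
    exact Finset.sum_le_sum fun j hj => (vertex_bounds hT he hr0 hr (mem_range.1 hj)).1
  have hhi := hc.hi
  have htr := hc.tr
  generalize ∑ k ∈ range N, ∑ i ∈ range k, d2 (qq2 rho EL EH k i) = E at h1 hPh
  generalize ∑ j ∈ range N, fl ((N - 1) * 2 ^ 17) (VV rho EL EH N j) = V at h1 hPh
  generalize ∑ j ∈ range N, Sl rho EL EH N j 0 = S at h1 hTh
  have eM : ((2 * N - 3 : ℕ) : ℝ) = 2 * N - 3 := by
    rw [Nat.cast_sub (by omega)]; push_cast; ring
  have hs : 8192 * (2 * N - 3) - Th N x y ≤ (((2 * N - 3) * 2 ^ 13 - S : ℕ) : ℝ) := by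
    have hle : S ≤ (2 * N - 3) * 2 ^ 13 := by
      have : (S : ℝ) ≤ (((2 * N - 3) * 2 ^ 13 : ℕ) : ℝ) := by
        rw [Nat.cast_mul, eM]
        push_cast
        linarith
      exact_mod_cast this
    rw [Nat.cast_sub hle, Nat.cast_mul, eM]
    push_cast
    linarith
  generalize (2 * N - 3) * 2 ^ 13 - S = s at h1 hs
  have h2 : ((2 * (s * s) + P * 483183821 + 1 : ℕ) : ℝ)
      ≤ (((2 * N - 3) * 2 ^ 27 + (20 * E + V) : ℕ) : ℝ) := by exact_mod_cast h1
  rw [Nat.cast_add _ (20 * E + V), Nat.cast_mul (2 * N - 3), eM] at h2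
  push_cast at h2
  have h3 : (8192 * (2 * N - 3) - Th N x y) ^ 2 ≤ (s : ℝ) * s := by
    rw [← sq]
    exact pow_le_pow_left₀ (by linarith) hs 2
  linarith

end sound

end RelEqN.Small.Box.P4K

namespace RelEqN.Small.Box

/-- soundness of the leaf `p4 < s² / n` -/
theorem pneg_sound {N : ℕ} {x y : ℕ → ℝ} {EL EH rho P w : ℕ} (hN : 3 ≤ N) (hN7 : N ≤ 7)
    (hT : Tab K.wlo K.wup 5000000) (hc : Cfg N x y) (he : Ext N x y EL EH)
    (hr0 : 5000000 ≤ rho) (hr : ∀ i < N, ∀ k < N, i ≠ k → (rho : ℝ) ≤ tt x y i k)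
    (hw : prs P w = allPairs N) : K.pneg N rho EL EH P w = false :=
  P4K.pneg_sound hN hN7 hT hc he hr0 hr hw

/-- soundness of the leaf `p4 > s²` -/
theorem pbig_sound {N : ℕ} {x y : ℕ → ℝ} {EL EH rho P w : ℕ} (hN : 3 ≤ N) (hN7 : N ≤ 7)
    (hT : Tab K.wlo K.wup 5000000) (hc : Cfg N x y) (he : Ext N x y EL EH)
    (hr0 : 5000000 ≤ rho) (hr : ∀ i < N, ∀ k < N, i ≠ k → (rho : ℝ) ≤ tt x y i k)
    (hw : prs P w = allPairs N) : K.pbig N rho EL EH P w = false :=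
  P4K.pbig_sound hN hN7 hT hc he hr0 hr hw

end RelEqN.Small.Box
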