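import Pool.Agent.Lib.MP_b9e19b_mp.Box.Root
import Pool.Agent.Lib.MP_b9e19b_mp.Box.P4K
import Pool.Agent.Lib.MP_b9e19b_mp.Box.Cell

set_option autoImplicit false

/-!
# The linear programming leaf: the inequality between pair minima

Multipliers: `u_i` (a vector for every body, equation of the central configuration), `e` (virial
identity, any sign), `κ ≥ 0` (trace inequality), slopes `β_ik` (antisymmetric information is not
needed: only pairs `k < i` are used). The pair function is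
`N w (α · d + e t) + κ w - (8192 α + β) · d - 8192 e t`, `α = u_i - u_k`, `d = q_i - q_k`, `t = |d|²`.
-/

namespace RelEqN.Small.Box

open Finset

namespace LPM

/-- the combination of the equations of the central configuration, as a sum over pairs -/
lemma force_pairs {N : ℕ} {x y z : ℕ → ℝ}
    (hf : ∀ i < N, ∑ k ∈ range N, (N * ww x y i k - 8192) * (z i - z k) = 0) (u : ℕ → ℝ) :
    ∑ i ∈ range N, ∑ k ∈ range i, (N * ww x y i k - 8192) * ((u i - u k) * (z i - z k)) = 0 := by
  have h1 : ∑ i ∈ range N, ∑ k ∈ range N, (N * ww x y i k - 8192) * (u i * (z i - z k)) = 0 := by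
    refine Finset.sum_eq_zero fun i hi => ?_
    calc ∑ k ∈ range N, (N * ww x y i k - 8192) * (u i * (z i - z k))
        = u i * ∑ k ∈ range N, (N * ww x y i k - 8192) * (z i - z k) := by
          rw [Finset.mul_sum]
          exact Finset.sum_congr rfl fun k _ => by ring
      _ = 0 := by rw [hf i (mem_range.1 hi), mul_zero]
  rw [P4K.sum_all_pairs] at h1
  have h2 : ∑ i ∈ range N, (N * ww x y i i - 8192) * (u i * (z i - z i)) = 0 :=
    Finset.sum_eq_zero fun i _ => by ring
  rw [h2, add_zero] at h1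
  rw [← h1]
  refine Finset.sum_congr rfl fun i _ => Finset.sum_congr rfl fun k _ => ?_
  rw [ww_comm x y k i]
  ring

lemma tt_self (x y : ℕ → ℝ) (i : ℕ) : tt x y i i = 0 := by unfold tt; ring

/-- the virial identity as a sum over pairs -/
lemma virial_pairs {N : ℕ} {x y : ℕ → ℝ} (h : Cfg N x y) :
    ∑ i ∈ range N, ∑ k ∈ range i, (N * ww x y i k - 8192) * tt x y i k = 0 := by
  have h1 := RootM.virial h
  rw [P4K.sum_all_pairs] at h1
  have h2 : ∑ i ∈ range N, (N * ww x y i i - 8192) * tt x y i i = 0 :=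
    Finset.sum_eq_zero fun i _ => by rw [tt_self, mul_zero]
  rw [h2, add_zero] at h1
  have h3 : ∑ i ∈ range N, ∑ k ∈ range i, ((N * ww x y i k - 8192) * tt x y i k
      + (N * ww x y k i - 8192) * tt x y k i)
      = 2 * ∑ i ∈ range N, ∑ k ∈ range i, (N * ww x y i k - 8192) * tt x y i k := by
    rw [Finset.mul_sum]
    refine Finset.sum_congr rfl fun i _ => ?_
    rw [Finset.mul_sum]
    refine Finset.sum_congr rfl fun k _ => ?_
    rw [ww_comm x y k i, tt_comm x y k i]
    ring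
  rw [h3] at h1
  linarith

end LPM

/-- the pair function of the leaf -/
noncomputable def lpf (N : ℕ) (a1 a2 κ e b1 b2 X Y : ℝ) : ℝ :=
  2 ^ 49 * W (X ^ 2 + Y ^ 2) * (N * (a1 * X + a2 * Y + e * (X ^ 2 + Y ^ 2)) + κ)
    - ((8192 * a1 + b1) * X + (8192 * a2 + b2) * Y) - 8192 * e * (X ^ 2 + Y ^ 2)

/-- **The inequality of the linear programming leaf.** -/
theorem lp_le {N : ℕ} {x y : ℕ → ℝ} (h : Cfg N x y) (ux uy : ℕ → ℝ) {κ e : ℝ} (hκ : 0 ≤ κ)
    (b1 b2 : ℕ → ℕ → ℝ) :
    ∑ i ∈ range N, ∑ k ∈ range i,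
        lpf N (ux i - ux k) (uy i - uy k) κ e (b1 i k) (b2 i k) (x i - x k) (y i - y k)
      + ∑ i ∈ range N, ∑ k ∈ range i, (b1 i k * (x i - x k) + b2 i k * (y i - y k))
      ≤ κ * (4096 * (2 * N - 3)) := by
  have hx := LPM.force_pairs (x := x) (y := y) (z := x) h.fx ux
  have hy := LPM.force_pairs (x := x) (y := y) (z := y) h.fy uy
  have hv := LPM.virial_pairs h
  have htr := h.tr
  rw [Th_pairs] at htr
  have e1 : ∑ i ∈ range N, ∑ k ∈ range i,
        lpf N (ux i - ux k) (uy i - uy k) κ e (b1 i k) (b2 i k) (x i - x k) (y i - y k)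
      + ∑ i ∈ range N, ∑ k ∈ range i, (b1 i k * (x i - x k) + b2 i k * (y i - y k))
      = ∑ i ∈ range N, ∑ k ∈ range i, (N * ww x y i k - 8192) * ((ux i - ux k) * (x i - x k))
        + ∑ i ∈ range N, ∑ k ∈ range i, (N * ww x y i k - 8192) * ((uy i - uy k) * (y i - y k))
        + e * ∑ i ∈ range N, ∑ k ∈ range i, (N * ww x y i k - 8192) * tt x y i k
        + κ * ∑ i ∈ range N, ∑ k ∈ range i, ww x y i k := by
    rw [Finset.mul_sum, Finset.mul_sum, ← Finset.sum_add_distrib, ← Finset.sum_add_distrib,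
      ← Finset.sum_add_distrib, ← Finset.sum_add_distrib]
    refine Finset.sum_congr rfl fun i _ => ?_
    rw [Finset.mul_sum, Finset.mul_sum, ← Finset.sum_add_distrib, ← Finset.sum_add_distrib,
      ← Finset.sum_add_distrib, ← Finset.sum_add_distrib]
    refine Finset.sum_congr rfl fun k _ => ?_
    unfold lpf ww tt
    ring
  rw [e1, hx, hy, hv]
  have h2 : κ * ∑ i ∈ range N, ∑ k ∈ range i, ww x y i k ≤ κ * (4096 * (2 * N - 3)) :=
    mul_le_mul_of_nonneg_left (by linarith) hκ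
  linarith

/-- the test of the leaf -/
theorem lp_test {N : ℕ} {x y : ℕ → ℝ} (h : Cfg N x y) (ux uy : ℕ → ℝ) {κ e : ℝ} (hκ : 0 ≤ κ)
    (b1 b2 m : ℕ → ℕ → ℝ) {L : ℝ}
    (hm : ∀ i < N, ∀ k < i, m i k ≤
      lpf N (ux i - ux k) (uy i - uy k) κ e (b1 i k) (b2 i k) (x i - x k) (y i - y k))
    (hL : L ≤ ∑ i ∈ range N, ∑ k ∈ range i, (b1 i k * (x i - x k) + b2 i k * (y i - y k)))
    (ht : κ * (4096 * (2 * N - 3)) < ∑ i ∈ range N, ∑ k ∈ range i, m i k + L) : False := by
  have h1 := lp_le h ux uy (e := e) hκ b1 b2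
  have h2 : ∑ i ∈ range N, ∑ k ∈ range i, m i k ≤ ∑ i ∈ range N, ∑ k ∈ range i,
      lpf N (ux i - ux k) (uy i - uy k) κ e (b1 i k) (b2 i k) (x i - x k) (y i - y k) :=
    Finset.sum_le_sum fun i hi => Finset.sum_le_sum fun k hk =>
      hm i (mem_range.1 hi) k (mem_range.1 hk)
  linarith

/-- the linear part as a sum over the bodies -/
lemma lin_bodies (N : ℕ) (b : ℕ → ℕ → ℝ) (z : ℕ → ℝ) :
    ∑ i ∈ range N, ∑ k ∈ range i, b i k * (z i - z k)
      = ∑ i ∈ range N, (∑ k ∈ range i, b i k - ∑ k ∈ (range N).filter (fun k => i < k), b k i)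
        * z i := by
  have h1 : ∑ i ∈ range N, ∑ k ∈ range i, b i k * z k
      = ∑ k ∈ range N, ∑ i ∈ (range N).filter (fun i => k < i), b i k * z k :=
    Finset.sum_comm' (by
      intro i k
      simp only [mem_range, mem_filter]
      omega)
  have h2 : ∑ i ∈ range N, ∑ k ∈ range i, b i k * (z i - z k)
      = ∑ i ∈ range N, ∑ k ∈ range i, b i k * z i - ∑ i ∈ range N, ∑ k ∈ range i, b i k * z k := by
    rw [← Finset.sum_sub_distrib]
    refine Finset.sum_congr rfl fun i _ => ?_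
    rw [← Finset.sum_sub_distrib]
    exact Finset.sum_congr rfl fun k _ => by ring
  rw [h2, h1, ← Finset.sum_sub_distrib]
  refine Finset.sum_congr rfl fun i _ => ?_
  rw [sub_mul, Finset.sum_mul, Finset.sum_mul]

/-- the pair function is the function of `Cell.lean` -/
lemma lpf_eq (N : ℕ) (a1 a2 κ e b1 b2 X Y : ℝ) : lpf N a1 a2 κ e b1 b2 X Y =
    gcell (2 ^ 49) (N * a1) (N * a2) κ (N * e) (8192 * a1 + b1) (8192 * a2 + b2) (8192 * e) X Y := by
  unfold lpf gcell
  ring

end RelEqN.Small.Box
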