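import Pool.Agent.Lib.MP_b9e19b_mp.Box.GridMin
import Pool.Agent.Lib.MP_b9e19b_mp.Box.LP

set_option autoImplicit false

/-!
# The linear programming leaf with integer multipliers

`u_i = (U_i, V_i) / 4096`, `κ = K`, `e = E / 2^24`, slopes `b = 2 B`; all numbers are integers
(as real numbers). In the units of the tables the pair function is a combination with integer
coefficients.
-/

namespace RelEqN.Small.Box

open Finset

/-- the pair function in the units of the tables -/
lemma lpf_comb (N : ℕ) {A1 A2 K E B1 B2 cw cv cx cz cy cu cr cs ct cq l1 l2 : ℝ} (X Y : ℝ)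
    (hK : cw - cv = K) (hx : cx - cz = N * A1) (hy : cy - cu = N * A2) (hr : cr - cs = N * E)
    (ht : ct - cq = -E) (h1 : l1 = -(2 * (A1 + B1))) (h2 : l2 = -(2 * (A2 + B2))) :
    comb cw cv cx cz cy cu cr cs ct cq l1 l2 X Y =
      lpf N (A1 / 4096) (A2 / 4096) K (E / 2 ^ 24) (2 * B1) (2 * B2) X Y := by
  unfold comb lpf
  have e1 : cw = K + cv := by linarith
  have e2 : cx = N * A1 + cz := by linarith
  have e3 : cy = N * A2 + cu := by linarith
  have e4 : cr = N * E + cs := by linarith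
  have e5 : ct = -E + cq := by linarith
  rw [e1, e2, e3, e4, e5, h1, h2]
  ring

/-- the pair function with a larger coefficient of the weight -/
lemma lpf_add (N : ℕ) (a1 a2 κ e b1 b2 η X Y : ℝ) :
    lpf N a1 a2 (κ + η) e b1 b2 X Y = lpf N a1 a2 κ e b1 b2 X Y
      + η * (2 ^ 49 * W (X ^ 2 + Y ^ 2)) := by
  unfold lpf; ring

/-- the row of the disc -/
lemma lpf_disc (N : ℕ) {a1 a2 κ e b1 b2 η X Y m wr rho : ℝ} (hη : 0 ≤ η) (hr0 : 0 < rho)
    (hr : rho ≤ X ^ 2 + Y ^ 2) (hw : 2 ^ 49 * W rho ≤ wr)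
    (h : m ≤ lpf N a1 a2 (κ + η) e b1 b2 X Y) :
    m - η * wr ≤ lpf N a1 a2 κ e b1 b2 X Y := by
  rw [lpf_add] at h
  have h1 : 2 ^ 49 * W (X ^ 2 + Y ^ 2) ≤ wr := by
    have := W_anti hr0 hr
    linarith
  have h2 := mul_le_mul_of_nonneg_left h1 hη
  linarith

end RelEqN.Small.Box
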