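import Pool.Agent.Lib.MP_b9e19b_mp.Box.LaneTest
import Pool.Agent.Lib.MP_b9e19b_mp.Box.LPInt

set_option autoImplicit false

/-!
# The window test of one pair
-/

namespace RelEqN.Small.Box

open K

/-- all properties of the lattice tables used by the test -/
structure Lat (n S G : ℕ) (T : Tbl) (LXP LXN LYP LYN TM : ℕ) : Prop where
  hn : 0 < n
  hS : 2 * n < S
  hG : gok n G = true
  hall : ∀ i < 2 * n, ∀ j < 2 * n, 5000000 ≤ cF G (ca n i) (ca n j) → CellT n S G T i j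
  w : LB T.w 262143
  v : LB T.v 262143
  x : LB T.x 131071
  z : LB T.z 131071
  y : LB T.y 131071
  u : LB T.u 131071
  r : LB T.r 65535
  s : LB T.s 65535
  t : LB T.t 4194303
  q : LB T.q 4194303
  bxp : LB LXP 262143
  bxn : LB LXN 262143
  byp : LB LYP 262143
  byn : LB LYN 262143
  bm : LB TM 1073741823
  xp : ∀ i ≤ 2 * n, ∀ j ≤ 2 * n, (lane 32 LXP (S * j + i) : ℝ) = 131072 + 2 * gr n G i
  xn : ∀ i ≤ 2 * n, ∀ j ≤ 2 * n, (lane 32 LXN (S * j + i) : ℝ) = 131072 - 2 * gr n G i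
  yp : ∀ i ≤ 2 * n, ∀ j ≤ 2 * n, (lane 32 LYP (S * j + i) : ℝ) = 131072 + 2 * gr n G j
  yn : ∀ i ≤ 2 * n, ∀ j ≤ 2 * n, (lane 32 LYN (S * j + i) : ℝ) = 131072 - 2 * gr n G j
  tm : ∀ i < 2 * n, ∀ j < 2 * n, ∀ c d : Bool,
    cF G (ca n i) (ca n j) ≤ 16 * lane 32 TM (S * ix j d + ix i c)

/-- choice of a table by the sign -/
lemma sgn_table {a b : ℕ} (hab : a = 0 ∨ b = 0) (c P Q p : ℕ) (o : ℝ) :
    ((c * (a + b) : ℕ) : ℝ) * ((lane 32 (bif Nat.beq b 0 then P else Q) p : ℝ) - o)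
      = (c * a : ℝ) * ((lane 32 P p : ℝ) - o) + (c * b : ℝ) * ((lane 32 Q p : ℝ) - o) := by
  rcases Nat.eq_zero_or_pos b with h | h
  · subst h
    have e : Nat.beq 0 0 = true := rfl
    rw [e, cond_true]
    push_cast
    ring
  · have ha : a = 0 := by omega
    have e : Nat.beq b 0 = false := by
      rw [← Bool.not_eq_true]
      intro hb
      have := Nat.eq_of_beq_eq_true hb
      omega
    subst ha
    rw [e, cond_false]
    push_cast
    ring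

/-- the slope table -/
lemma sgn_lin {a b : ℕ} (hab : a = 0 ∨ b = 0) {P Q p : ℕ} {X : ℝ}
    (hP : (lane 32 P p : ℝ) = 131072 + 2 * X) (hQ : (lane 32 Q p : ℝ) = 131072 - 2 * X) :
    ((a + b : ℕ) : ℝ) * ((lane 32 (bif Nat.beq b 0 then Q else P) p : ℝ) - 131072)
      = -(2 * ((a : ℝ) - b)) * X := by
  rcases Nat.eq_zero_or_pos b with h | h
  · subst h
    have e : Nat.beq 0 0 = true := rfl
    rw [e, cond_true, hQ]
    push_cast
    ring
  · have ha : a = 0 := by omega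
    have e : Nat.beq b 0 = false := by
      rw [← Bool.not_eq_true]
      intro hb
      have := Nat.eq_of_beq_eq_true hb
      omega
    subst ha
    rw [e, cond_false, hP]
    push_cast
    ring

lemma LB_bif {P Q B : ℕ} {b : Bool} (hP : LB P B) (hQ : LB Q B) :
    LB (bif b then P else Q) B := by
  cases b
  · exact hQ
  · exact hP

/-- **The pair minimum.** `A`, `E`, `s` given by positive and negative parts. -/
theorem pair_min {n S G : ℕ} {T : Tbl} {LXP LXN LYP LYN TM : ℕ}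
    (L : Lat n S G T LXP LXN LYP LYN TM) {N i0 i1 j0 j1 : ℕ}
    (hi : i0 ≤ i1) (hi1 : i1 ≤ 2 * n) (hj : j0 ≤ j1) (hj1 : j1 ≤ 2 * n)
    {kp km A1p A1m A2p A2m Ep Em l1p l1m l2p l2m c0 Q rho O s m A M : ℕ} {B1 B2 : ℝ}
    (hk : kp = 0 ∨ km = 0) (hA1 : A1p = 0 ∨ A1m = 0) (hA2 : A2p = 0 ∨ A2m = 0) (hE : Ep = 0 ∨ Em = 0)
    (hl1 : l1p = 0 ∨ l1m = 0) (hl2 : l2p = 0 ∨ l2m = 0)
    (hs1 : (l1p : ℝ) - l1m = (A1p : ℝ) - A1m + B1) (hs2 : (l2p : ℝ) - l2m = (A2p : ℝ) - A2m + B2)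
    (hQ : Q = ((kp + km) + ((l1p + l1m) + (l2p + l2m))) * 131072
      + ((N * (A1p + A1m) + N * (A2p + A2m)) * 65536 + (N * (Ep + Em) * 32768
      + (Ep + Em) * 2097152)))
    (hov : 2 * Q + c0 < 2 ^ 32)
    (hO : O = rep 32 (i1 - i0 + 1) * rep (32 * S) (j1 - j0 + 1)) (hs : s = 32 * (S * j0 + i0))
    (hm : m = O * (2 ^ 32 - 1))
    (hA : A = (kp + km) * cutw (bif Nat.beq km 0 then T.w else T.v) s m
      + (N * (A1p + A1m) * cutw (bif Nat.beq A1m 0 then T.x else T.z) s m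
      + (N * (A2p + A2m) * cutw (bif Nat.beq A2m 0 then T.y else T.u) s m
      + (N * (Ep + Em) * cutw (bif Nat.beq Em 0 then T.r else T.s) s m
      + ((Ep + Em) * cutw (bif Nat.beq Em 0 then T.q else T.t) s m
      + ((l1p + l1m) * cutw (bif Nat.beq l1m 0 then LXN else LXP) s m
      + ((l2p + l2m) * cutw (bif Nat.beq l2m 0 then LYN else LYP) s m + c0 * O)))))))
    (hMM : M = (cutw TM s m + (2 ^ 31 - rho / 16) * O) &&& (O * 2 ^ 31))
    (h : A &&& M = M) (hrho : 5000000 ≤ rho) {X Y : ℝ}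
    (hX0 : gr n G i0 ≤ X) (hX1 : X ≤ gr n G i1) (hY0 : gr n G j0 ≤ Y) (hY1 : Y ≤ gr n G j1)
    (ht : (rho : ℝ) ≤ X ^ 2 + Y ^ 2) :
    (2 : ℝ) ^ 31 - c0 - Q ≤ lpf N (((A1p : ℝ) - A1m) / 4096) (((A2p : ℝ) - A2m) / 4096) ((kp : ℝ) - km)
      (((Ep : ℝ) - Em) / 2 ^ 24) (2 * B1) (2 * B2) X Y := by
  have hcomb := lpf_comb N (A1 := (A1p : ℝ) - A1m) (A2 := (A2p : ℝ) - A2m) (K := (kp : ℝ) - km)
    (E := (Ep : ℝ) - Em) (B1 := B1) (B2 := B2) (cw := (kp : ℝ)) (cv := (km : ℝ))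
    (cx := N * A1p) (cz := N * A1m) (cy := N * A2p) (cu := N * A2m) (cr := N * Ep)
    (cs := N * Em) (ct := Em) (cq := Ep) (l1 := -(2 * ((l1p : ℝ) - l1m)))
    (l2 := -(2 * ((l2p : ℝ) - l2m))) X Y rfl (by ring) (by ring) (by ring)
    (by ring) (by rw [hs1]) (by rw [hs2])
  rw [← hcomb]
  refine grid_min' L.hn L.hG L.hall (rho' := rho) hrho hi hi1 hj hj1 (Nat.cast_nonneg _)
    (Nat.cast_nonneg _) (by positivity) (by positivity) (by positivity) (by positivity) (by positivity)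
    (by positivity) (by positivity) (by positivity) hX0 hX1 hY0 hY1 ht ?_
  intro i j h1 h2 h3 h4 hMk
  have hr : rho / 16 ≤ lane 32 TM (S * j + i) := by
    obtain ⟨a, ha, b, hb, c, d, e1, e2, e3⟩ := hMk
    have := L.tm a ha b hb c d
    rw [← e1, ← e2] at this
    omega
  have key := win_test hi (lt_of_le_of_lt hi1 L.hS) (LB_bif (b := Nat.beq km 0) L.w L.v) (LB_bif (b := Nat.beq A1m 0) L.x L.z)
    (LB_bif (b := Nat.beq A2m 0) L.y L.u) (LB_bif (b := Nat.beq Em 0) L.r L.s)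
    (LB_bif (b := Nat.beq Em 0) L.q L.t)
    (LB_bif (b := Nat.beq l1m 0) L.bxn L.bxp) (LB_bif (b := Nat.beq l2m 0) L.byn L.byp) L.bm
    (by norm_num) (by norm_num) (by norm_num) (by norm_num) (by norm_num) (by norm_num)
    (by norm_num) (by norm_num) (c1 := kp + km) (c2 := N * (A1p + A1m)) (c3 := N * (A2p + A2m))
    (c4 := N * (Ep + Em)) (c5 := Ep + Em) (c6 := l1p + l1m) (c7 := l2p + l2m) (c0 := c0)
    (by omega) hO hs hm hA hMM h h1 h2 h3 h4 hr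
  have hxi := L.xp i (by omega) j (by omega)
  have hxn := L.xn i (by omega) j (by omega)
  have hyi := L.yp i (by omega) j (by omega)
  have hyn := L.yn i (by omega) j (by omega)
  have k0 := sgn_table hk 1 T.w T.v (S * j + i) (2 ^ 17)
  have k1 := sgn_table hA1 N T.x T.z (S * j + i) (2 ^ 16)
  have k2 := sgn_table hA2 N T.y T.u (S * j + i) (2 ^ 16)
  have k3 := sgn_table hE N T.r T.s (S * j + i) (2 ^ 15)
  have k4 := sgn_table hE 1 T.q T.t (S * j + i) (2 ^ 21)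
  have k5 := sgn_lin hl1 hxi hxn
  have k6 := sgn_lin hl2 hyi hyn
  rw [one_mul] at k0 k4
  have key' : (2 : ℝ) ^ 31 ≤ ((kp + km : ℕ) : ℝ)
        * lane 32 (bif Nat.beq km 0 then T.w else T.v) (S * j + i)
      + (((N * (A1p + A1m) : ℕ) : ℝ) * lane 32 (bif Nat.beq A1m 0 then T.x else T.z) (S * j + i)
      + (((N * (A2p + A2m) : ℕ) : ℝ) * lane 32 (bif Nat.beq A2m 0 then T.y else T.u) (S * j + i)
      + (((N * (Ep + Em) : ℕ) : ℝ) * lane 32 (bif Nat.beq Em 0 then T.r else T.s) (S * j + i)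
      + (((Ep + Em : ℕ) : ℝ) * lane 32 (bif Nat.beq Em 0 then T.q else T.t) (S * j + i)
      + (((l1p + l1m : ℕ) : ℝ) * lane 32 (bif Nat.beq l1m 0 then LXN else LXP) (S * j + i)
      + (((l2p + l2m : ℕ) : ℝ) * lane 32 (bif Nat.beq l2m 0 then LYN else LYP) (S * j + i)
        + c0)))))) := by
    exact_mod_cast key
  have hQ' : (Q : ℝ) = (((kp + km : ℕ) : ℝ) + ((l1p + l1m : ℕ) : ℝ) + ((l2p + l2m : ℕ) : ℝ)) * 131072
      + ((((N * (A1p + A1m) : ℕ) : ℝ) + ((N * (A2p + A2m) : ℕ) : ℝ)) * 65536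
      + (((N * (Ep + Em) : ℕ) : ℝ) * 32768 + ((Ep + Em : ℕ) : ℝ) * 2097152)) := by
    rw [hQ]; push_cast; ring
  unfold combT
  simp only [l32_eq]
  rw [hQ']
  push_cast at k0 k1 k2 k3 k4 k5 k6 key' ⊢
  linarith

end RelEqN.Small.Box
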