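import Pool.Agent.Lib.MP_b9e19b_mp.Box.PFineK
import Pool.Agent.Lib.MP_b9e19b_mp.Box.P4K

set_option autoImplicit false

/-!
# Soundness of the fine leaf with the fourth coefficient
-/

namespace RelEqN.Small.Box.PF

open K Finset P4K

lemma sN_eq (n : ℕ) (f : ℕ → ℕ) : sN n f = ∑ k ∈ range n, f k := by
  induction n with
  | zero => rfl
  | succ n ih =>
    have e : sN (n + 1) f = f n + sN n f := rfl
    rw [e, ih, Finset.sum_range_succ, add_comm]

lemma aN_iff {n : ℕ} {f : ℕ → Bool} : aN n f = true ↔ ∀ k < n, f k = true := by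
  induction n with
  | zero => simp [aN]
  | succ n ih =>
    have e : aN (n + 1) f = (f n && aN n f) := rfl
    rw [e, Bool.and_eq_true, ih]
    constructor
    · rintro ⟨h1, h2⟩ k hk
      rcases Nat.lt_succ_iff_lt_or_eq.1 hk with h | h
      · exact h2 k h
      · rw [h]; exact h1
    · intro h
      exact ⟨h n (Nat.lt_succ_self n), fun k hk => h k (Nat.lt_succ_of_lt hk)⟩

lemma so_eq (N j : ℕ) (f : ℕ → ℕ) : so N j f = ∑ k ∈ range N, if k = j then 0 else f k := by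
  unfold so
  rw [sN_eq]
  refine Finset.sum_congr rfl fun k _ => ?_
  by_cases h : k = j
  · rw [if_pos h, h]
    have : Nat.beq j j = true := Nat.beq_refl j
    rw [this]; rfl
  · rw [if_neg h]
    have : Nat.beq j k = false := by
      rw [← Bool.not_eq_true]
      intro hb
      exact h (Nat.eq_of_beq_eq_true hb).symm
    rw [this]; rfl

lemma cast_sub_max' (a b : ℕ) : ((a - b : ℕ) : ℝ) = max ((a : ℝ) - b) 0 := by
  rcases le_total b a with h | h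
  · rw [Nat.cast_sub h, max_eq_left]
    have : (b : ℝ) ≤ a := by exact_mod_cast h
    linarith
  · rw [Nat.sub_eq_zero_of_le h, max_eq_right, Nat.cast_zero]
    have : (a : ℝ) ≤ b := by exact_mod_cast h
    linarith

section pair

variable {N : ℕ} {x y : ℕ → ℝ} {rho EL EH st : ℕ}

/-- the eight parts of a pair -/
structure Parts (x y : ℕ → ℝ) (EL EH j k p0 n0 p1 n1 q0 m0 q1 m1 : ℕ) : Prop where
  X : Iv (x j - x k) p0 n0 p1 n1
  Y : Iv (y j - y k) q0 m0 q1 m1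

lemma parts_of (he : Ext N x y EL EH) {j k : ℕ} (hj : j < N) (hk : k < N) :
    ∃ p0 n0 p1 n1 q0 m0 q1 m1 : ℕ, Parts x y EL EH j k p0 n0 p1 n1 q0 m0 q1 m1 ∧
      ∀ f, df EL EH (32 * j) (32 * k) f = f p0 n0 p1 n1 q0 m0 q1 m1 := by
  have hX := iv_sub (he.xl j hj) (he.xh j hj) (he.xl k hk) (he.xh k hk)
  have hY := iv_sub (he.yl j hj) (he.yh j hj) (he.yl k hk) (he.yh k hk)
  have eX : x j + 32768 - (x k + 32768) = x j - x k := by ring
  have eY : y j + 32768 - (y k + 32768) = y j - y k := by ring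
  rw [eX] at hX
  rw [eY] at hY
  exact ⟨_, _, _, _, _, _, _, _, ⟨hX, hY⟩, fun f => rfl⟩

lemma sl5 (k : ℕ) : Nat.shiftLeft k 5 = 32 * k := by
  show k <<< 5 = _
  rw [Nat.shiftLeft_eq]; ring

/-- the fine weight -/
noncomputable def wf (x y : ℕ → ℝ) (j k : ℕ) : ℝ := 2 ^ 11 * ww x y j k

lemma sq_eq (a : ℕ) : K.sq a = a * a := rfl

/-- squares of a coordinate -/
lemma iv_sq {X : ℝ} {p0 n0 p1 n1 : ℕ} (h : Iv X p0 n0 p1 n1) :
    ((K.sq (p0 + n1) : ℕ) : ℝ) ≤ X ^ 2 ∧ X ^ 2 ≤ ((K.sq (mx n0 p1) : ℕ) : ℝ) := by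
  have h1 := h.abs_ge
  have h2 := h.abs_le
  rw [sq_eq, sq_eq, mx_eq, Nat.cast_mul, Nat.cast_mul, ← sq_abs X, ← pow_two, ← pow_two]
  exact ⟨pow_le_pow_left₀ (Nat.cast_nonneg _) h1 2, pow_le_pow_left₀ (abs_nonneg X) h2 2⟩

lemma tn_le {X Y : ℝ} {p0 n0 p1 n1 q0 m0 q1 m1 : ℕ} (hX : Iv X p0 n0 p1 n1)
    (hY : Iv Y q0 m0 q1 m1) (hr : (rho : ℝ) ≤ X ^ 2 + Y ^ 2) :
    ((tn rho p0 n1 q0 m1 : ℕ) : ℝ) ≤ X ^ 2 + Y ^ 2 := by
  have e : tn rho p0 n1 q0 m1 = mx rho (K.sq (p0 + n1) + K.sq (q0 + m1)) := rfl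
  rw [e, mx_eq]
  push_cast
  apply max_le hr
  have h1 := (iv_sq hX).1
  have h2 := (iv_sq hY).1
  linarith

lemma le_tf {X Y : ℝ} {p0 n0 p1 n1 q0 m0 q1 m1 : ℕ} (hX : Iv X p0 n0 p1 n1)
    (hY : Iv Y q0 m0 q1 m1) : X ^ 2 + Y ^ 2 ≤ ((tf n0 p1 m0 q1 : ℕ) : ℝ) := by
  have e : tf n0 p1 m0 q1 = K.sq (mx n0 p1) + K.sq (mx m0 q1) := rfl
  rw [e]
  push_cast
  have h1 := (iv_sq hX).2
  have h2 := (iv_sq hY).2
  linarith

lemma pow120 : (1329227995784915872903807060280344576 : ℕ) = 2 ^ 120 := by norm_num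

/-- the bounds of the weight -/
lemma wc_spec {j k : ℕ} (he : Ext N x y EL EH) (hj : j < N) (hk : k < N) (hr0 : 0 < rho)
    (hr : (rho : ℝ) ≤ tt x y j k) (h : 1 ≤ wc N rho EL EH st j k) :
    ((wL N st j k : ℕ) : ℝ) ≤ wf x y j k ∧ wf x y j k ≤ ((wH N st j k : ℕ) : ℝ) := by
  obtain ⟨p0, n0, p1, n1, q0, m0, q1, m1, ⟨hX, hY⟩, hf⟩ := parts_of he hj hk
  unfold wc at h
  rw [sl5, sl5, hf] at h
  have hs := sel_ne_zero (show sel _ 1 0 ≠ 0 by intro h0; rw [h0] at h; omega)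
  have h1 := hs.1
  rw [Bool.and_eq_true] at h1
  have h2 := Nat.le_of_ble_eq_true h1.1
  have h3 := Nat.le_of_ble_eq_true h1.2
  have h2' : wL N st j k * wL N st j k * (tf n0 p1 m0 q1 * (tf n0 p1 m0 q1 * tf n0 p1 m0 q1))
      ≤ 2 ^ 120 := by rw [← pow120]; exact h2
  have h3' : 2 ^ 120 ≤ wH N st j k * wH N st j k *
      (tn rho p0 n1 q0 m1 * (tn rho p0 n1 q0 m1 * tn rho p0 n1 q0 m1)) := by
    rw [← pow120]; exact h3
  have ht : 0 < tt x y j k := lt_of_lt_of_le (by exact_mod_cast hr0) hr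
  have htn : ((tn rho p0 n1 q0 m1 : ℕ) : ℝ) ≤ tt x y j k := tn_le hX hY hr
  have htf : tt x y j k ≤ ((tf n0 p1 m0 q1 : ℕ) : ℝ) := le_tf hX hY
  have htn0 : (0 : ℝ) < ((tn rho p0 n1 q0 m1 : ℕ) : ℝ) := by
    have e : tn rho p0 n1 q0 m1 = mx rho (K.sq (p0 + n1) + K.sq (q0 + m1)) := rfl
    rw [e, mx_eq]
    exact_mod_cast lt_of_lt_of_le hr0 (le_max_left _ _)
  have e : wf x y j k = 2 ^ 60 * W (tt x y j k) := by unfold wf ww; ring
  rw [e]
  constructor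
  · have h4 : ((wL N st j k : ℕ) : ℝ) ≤ 2 ^ 60 * W (tf n0 p1 m0 q1 : ℕ) := by
      apply le_W (lt_of_lt_of_le ht htf) (by norm_num)
      have : ((wL N st j k * wL N st j k * (tf n0 p1 m0 q1 * (tf n0 p1 m0 q1 * tf n0 p1 m0 q1))
        : ℕ) : ℝ) ≤ ((2 ^ 120 : ℕ) : ℝ) := by exact_mod_cast h2'
      push_cast at this
      calc _ = ((wL N st j k : ℕ) : ℝ) * (wL N st j k : ℕ) * ((tf n0 p1 m0 q1 : ℕ)
          * ((tf n0 p1 m0 q1 : ℕ) * (tf n0 p1 m0 q1 : ℕ))) := by ring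
        _ ≤ 1329227995784915872903807060280344576 := this
        _ = (2 ^ 60) ^ 2 := by norm_num
    have h5 := W_anti ht htf
    linarith
  · have h4 : 2 ^ 60 * W (tn rho p0 n1 q0 m1 : ℕ) ≤ ((wH N st j k : ℕ) : ℝ) := by
      apply W_le htn0 (Nat.cast_nonneg _)
      have : ((2 ^ 120 : ℕ) : ℝ) ≤ ((wH N st j k * wH N st j k * (tn rho p0 n1 q0 m1
        * (tn rho p0 n1 q0 m1 * tn rho p0 n1 q0 m1)) : ℕ) : ℝ) := by exact_mod_cast h3'
      push_cast at this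
      calc ((2 : ℝ) ^ 60) ^ 2 = 1329227995784915872903807060280344576 := by norm_num
        _ ≤ ((wH N st j k : ℕ) : ℝ) * (wH N st j k : ℕ) * ((tn rho p0 n1 q0 m1 : ℕ)
          * ((tn rho p0 n1 q0 m1 : ℕ) * (tn rho p0 n1 q0 m1 : ℕ))) := this
        _ = _ := by ring
    have h5 := W_anti htn0 htn
    linarith

/-- a product with a nonnegative factor, upper bound -/
lemma up_prod {g D : ℝ} {gl gh P M s : ℕ} (h1 : (gl : ℝ) ≤ g) (h2 : g ≤ gh)
    (hD : D ≤ (P : ℝ) - M) (hz : P = 0 ∨ M = 0) :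
    g * D / 2 ^ s ≤ (((gh * P) >>> s + 1 : ℕ) : ℝ) - (((gl * M) >>> s : ℕ) : ℝ) := by
  have hs : (0 : ℝ) < 2 ^ s := by positivity
  have a1 := le_shiftRight (gh * P) s
  have a2 := shiftRight_le (gl * M) s
  rcases hz with h | h
  · subst h
    have h3 : D ≤ -(M : ℝ) := by simpa using hD
    have h4 : g * D ≤ -((gl * M : ℕ) : ℝ) := by
      push_cast
      have hM : (0 : ℝ) ≤ M := Nat.cast_nonneg _
      nlinarith
    have h5 : g * D / 2 ^ s ≤ -((gl * M : ℕ) : ℝ) / 2 ^ s := by gcongr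
    have h6 : (0 : ℝ) ≤ (((gh * 0) >>> s + 1 : ℕ) : ℝ) := Nat.cast_nonneg _
    have h7 : -((gl * M : ℕ) : ℝ) / 2 ^ s = -(((gl * M : ℕ) : ℝ) / 2 ^ s) := by ring
    linarith
  · subst h
    have h3 : D ≤ (P : ℝ) := by simpa using hD
    have h4 : g * D ≤ ((gh * P : ℕ) : ℝ) := by
      push_cast
      have hP : (0 : ℝ) ≤ P := Nat.cast_nonneg _
      nlinarith
    have h5 : g * D / 2 ^ s ≤ ((gh * P : ℕ) : ℝ) / 2 ^ s := by gcongr
    have h6 : (((gl * 0) >>> s : ℕ) : ℝ) = 0 := by simp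
    rw [h6, sub_zero]
    linarith

/-- lower bound -/
lemma lo_prod {g D : ℝ} {gl gh P M s : ℕ} (h1 : (gl : ℝ) ≤ g) (h2 : g ≤ gh)
    (hD : (P : ℝ) - M ≤ D) (hz : P = 0 ∨ M = 0) :
    (((gl * P) >>> s : ℕ) : ℝ) - (((gh * M) >>> s + 1 : ℕ) : ℝ) ≤ g * D / 2 ^ s := by
  have h := up_prod (D := -D) (s := s) h1 h2 (P := M) (M := P) (by linarith) hz.symm
  have e : g * -D / 2 ^ s = -(g * D / 2 ^ s) := by ring
  rw [e] at h
  linarith

/-- the quotient `w / t` -/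
noncomputable def gg (x y : ℕ → ℝ) (j k : ℕ) : ℝ := 2 ^ 48 * wf x y j k / tt x y j k

lemma gL_le {j k t : ℕ} (ht : 0 < tt x y j k) (h1 : ((wL N st j k : ℕ) : ℝ) ≤ wf x y j k)
    (h2 : tt x y j k ≤ (t : ℝ)) : ((gL N st j k t : ℕ) : ℝ) ≤ gg x y j k := by
  have e : gL N st j k t = wL N st j k * 2 ^ 48 / t := by
    show (wL N st j k <<< 48) / t = _
    rw [Nat.shiftLeft_eq]
  have hth : (0 : ℝ) < t := lt_of_lt_of_le ht h2
  rw [e]
  calc ((wL N st j k * 2 ^ 48 / t : ℕ) : ℝ) ≤ ((wL N st j k * 2 ^ 48 : ℕ) : ℝ) / t :=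
        Nat.cast_div_le
    _ = 2 ^ 48 * ((wL N st j k : ℕ) : ℝ) / t := by push_cast; ring
    _ ≤ 2 ^ 48 * wf x y j k / tt x y j k := by
      have h0 : (0 : ℝ) ≤ ((wL N st j k : ℕ) : ℝ) := Nat.cast_nonneg _
      have h3 : 0 ≤ wf x y j k := h0.trans h1
      have h4 : (0 : ℝ) ≤ 2 ^ 48 * wf x y j k := by positivity
      gcongr
    _ = gg x y j k := rfl

lemma le_gH {j k t : ℕ} (ht0 : (0 : ℝ) < t) (h1 : wf x y j k ≤ ((wH N st j k : ℕ) : ℝ))
    (h2 : (t : ℝ) ≤ tt x y j k) : gg x y j k ≤ ((gH N st j k t : ℕ) : ℝ) := by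
  have e : gH N st j k t = wH N st j k * 2 ^ 48 / t + 1 := by
    show (wH N st j k <<< 48) / t + 1 = _
    rw [Nat.shiftLeft_eq]
  have htt : (0 : ℝ) < tt x y j k := lt_of_lt_of_le ht0 h2
  have hn : 0 < t := by exact_mod_cast ht0
  rw [e]
  have h3 : wH N st j k * 2 ^ 48 < (wH N st j k * 2 ^ 48 / t + 1) * t := by
    have := Nat.lt_mul_div_succ (wH N st j k * 2 ^ 48) hn
    rwa [mul_comm t] at this
  have h4 : ((wH N st j k : ℕ) : ℝ) * 2 ^ 48 ≤ ((wH N st j k * 2 ^ 48 / t + 1 : ℕ) : ℝ) * t := by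
    exact_mod_cast h3.le
  unfold gg
  rw [div_le_iff₀ htt]
  calc 2 ^ 48 * wf x y j k ≤ 2 ^ 48 * ((wH N st j k : ℕ) : ℝ) := by gcongr
    _ ≤ ((wH N st j k * 2 ^ 48 / t + 1 : ℕ) : ℝ) * t := by linarith
    _ ≤ _ := by gcongr

/-- all bounds of a pair -/
structure PB (N : ℕ) (x y : ℕ → ℝ) (rho EL EH st j k : ℕ) : Prop where
  w1 : ((wL N st j k : ℕ) : ℝ) ≤ wf x y j k
  w2 : wf x y j k ≤ ((wH N st j k : ℕ) : ℝ)
  r1 : ((rLP N EL EH st j k : ℕ) : ℝ) - (rLM N rho EL EH st j k : ℕ) ≤ 2 ^ 11 * wR x y j k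
  r2 : 2 ^ 11 * wR x y j k ≤ ((rHP N rho EL EH st j k : ℕ) : ℝ) - (rHM N EL EH st j k : ℕ)
  i1 : ((iLP N EL EH st j k : ℕ) : ℝ) - (iLM N rho EL EH st j k : ℕ) ≤ 2 ^ 11 * wI x y j k
  i2 : 2 ^ 11 * wI x y j k ≤ ((iHP N rho EL EH st j k : ℕ) : ℝ) - (iHM N EL EH st j k : ℕ)

lemma natd (a b : ℕ) : ((a - b : ℕ) : ℝ) - ((b - a : ℕ) : ℝ) = (a : ℝ) - b := by
  rcases le_total a b with h | h
  · rw [Nat.sub_eq_zero_of_le h, Nat.cast_sub h]; push_cast; ring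
  · rw [Nat.sub_eq_zero_of_le h, Nat.cast_sub h]; push_cast; ring

lemma pb_of {j k : ℕ} (he : Ext N x y EL EH) (hj : j < N) (hk : k < N) (hr0 : 0 < rho)
    (hr : (rho : ℝ) ≤ tt x y j k) (h : 1 ≤ wc N rho EL EH st j k) : PB N x y rho EL EH st j k := by
  obtain ⟨hw1, hw2⟩ := wc_spec he hj hk hr0 hr h
  obtain ⟨p0, n0, p1, n1, q0, m0, q1, m1, ⟨hX, hY⟩, hf⟩ := parts_of he hj hk
  have ht : 0 < tt x y j k := lt_of_lt_of_le (by exact_mod_cast hr0) hr
  have htn : ((tn rho p0 n1 q0 m1 : ℕ) : ℝ) ≤ tt x y j k := tn_le hX hY hr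
  have htf : tt x y j k ≤ ((tf n0 p1 m0 q1 : ℕ) : ℝ) := le_tf hX hY
  have htn0 : (0 : ℝ) < ((tn rho p0 n1 q0 m1 : ℕ) : ℝ) := by
    have e : tn rho p0 n1 q0 m1 = mx rho (K.sq (p0 + n1) + K.sq (q0 + m1)) := rfl
    rw [e, mx_eq]
    exact_mod_cast lt_of_lt_of_le hr0 (le_max_left _ _)
  have g1 := gL_le (N := N) (st := st) ht hw1 htf
  have g2 := le_gH (N := N) (st := st) htn0 hw2 htn
  have sX := iv_sq hX
  have sY := iv_sq hY
  have eR : 2 ^ 11 * wR x y j k = gg x y j k * ((x j - x k) ^ 2 - (y j - y k) ^ 2) / 2 ^ 48 := by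
    unfold gg wf wR; field_simp
  have eI : 2 ^ 11 * wI x y j k = gg x y j k * ((x j - x k) * (y j - y k)) / 2 ^ 47 := by
    unfold gg wf wI; field_simp
  refine ⟨hw1, hw2, ?_, ?_, ?_, ?_⟩
  · have e1 : rLP N EL EH st j k = (gL N st j k (tf n0 p1 m0 q1)
        * (K.sq (p0 + n1) - K.sq (mx m0 q1))) >>> 48 := by
      unfold rLP; rw [sl5, sl5, hf]; rfl
    have e2 : rLM N rho EL EH st j k = (gH N st j k (tn rho p0 n1 q0 m1)
        * (K.sq (mx m0 q1) - K.sq (p0 + n1))) >>> 48 + 1 := by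
      unfold rLM; rw [sl5, sl5, hf]; rfl
    rw [e1, e2, eR]
    exact lo_prod g1 g2 (by rw [natd]; linarith) (by omega)
  · have e1 : rHP N rho EL EH st j k = (gH N st j k (tn rho p0 n1 q0 m1)
        * (K.sq (mx n0 p1) - K.sq (q0 + m1))) >>> 48 + 1 := by
      unfold rHP; rw [sl5, sl5, hf]; rfl
    have e2 : rHM N EL EH st j k = (gL N st j k (tf n0 p1 m0 q1)
        * (K.sq (q0 + m1) - K.sq (mx n0 p1))) >>> 48 := by
      unfold rHM; rw [sl5, sl5, hf]; rfl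
    rw [e1, e2, eR]
    exact up_prod g1 g2 (by rw [natd]; linarith) (by omega)
  · have e1 : iLP N EL EH st j k = (gL N st j k (tf n0 p1 m0 q1)
        * (p0 * q0 + n1 * m1)) >>> 47 := by
      unfold iLP; rw [sl5, sl5, hf]; rfl
    have e2 : iLM N rho EL EH st j k = (gH N st j k (tn rho p0 n1 q0 m1)
        * mx (n0 * q1) (p1 * m0)) >>> 47 + 1 := by
      unfold iLM; rw [sl5, sl5, hf]; rfl
    rw [e1, e2, eI]
    exact lo_prod g1 g2 (by rw [mx_eq]; exact hX.le_mul hY) (by rw [mx_eq]; exact hX.mul_z' hY)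
  · have e1 : iHP N rho EL EH st j k = (gH N st j k (tn rho p0 n1 q0 m1)
        * mx (p1 * q1) (n0 * m0)) >>> 47 + 1 := by
      unfold iHP; rw [sl5, sl5, hf]; rfl
    have e2 : iHM N EL EH st j k = (gL N st j k (tf n0 p1 m0 q1)
        * (p0 * m1 + n1 * q0)) >>> 47 := by
      unfold iHM; rw [sl5, sl5, hf]; rfl
    rw [e1, e2, eI]
    exact up_prod g1 g2 (by rw [mx_eq]; exact hX.mul_le hY) (by rw [mx_eq]; exact hX.mul_z hY)

/-! ### sums -/

lemma sum_le_so {F : ℕ → ℝ} {f g : ℕ → ℕ} {j : ℕ} (hF : F j = 0)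
    (h : ∀ k < N, k ≠ j → F k ≤ (f k : ℝ) - g k) :
    ∑ k ∈ range N, F k ≤ ((so N j f : ℕ) : ℝ) - (so N j g : ℕ) := by
  rw [so_eq, so_eq]
  push_cast
  rw [← Finset.sum_sub_distrib]
  refine Finset.sum_le_sum fun k hk => ?_
  by_cases hkj : k = j
  · rw [hkj, hF]; simp
  · rw [if_neg hkj, if_neg hkj]
    exact h k (mem_range.1 hk) hkj

lemma so_le_sum {F : ℕ → ℝ} {f g : ℕ → ℕ} {j : ℕ} (hF : F j = 0)
    (h : ∀ k < N, k ≠ j → (f k : ℝ) - g k ≤ F k) :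
    ((so N j f : ℕ) : ℝ) - (so N j g : ℕ) ≤ ∑ k ∈ range N, F k := by
  have h1 := sum_le_so (N := N) (F := fun k => -F k) (f := g) (g := f) (j := j)
    (by rw [hF, neg_zero]) (fun k hk hkj => by have := h k hk hkj; linarith)
  rw [Finset.sum_neg_distrib] at h1
  linarith

lemma so_mul (j c : ℕ) (f : ℕ → ℕ) : so N j (fun k => c * f k) = c * so N j f := by
  rw [so_eq, so_eq, Finset.mul_sum]
  refine Finset.sum_congr rfl fun k _ => ?_
  split_ifs <;> simp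

lemma so_const {j : ℕ} (hj : j < N) (c : ℕ) : so N j (fun _ => c) = (N - 1) * c := by
  rw [so_eq]
  have h := Finset.sum_erase_eq_sub (s := range N) (f := fun _ : ℕ => (c : ℤ)) (mem_range.2 hj)
  have h1 : (∑ k ∈ range N, if k = j then 0 else c) = ∑ k ∈ (range N).erase j, c := by
    rw [← Finset.sum_erase_add _ _ (mem_range.2 hj), if_pos rfl, add_zero]
    exact Finset.sum_congr rfl fun k hk => by rw [if_neg (Finset.ne_of_mem_erase hk)]
  rw [h1, Finset.sum_const, Finset.card_erase_of_mem (mem_range.2 hj), Finset.card_range,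
    smul_eq_mul]

lemma sq_le_mx {S : ℝ} {a b c d : ℕ} (h1 : S ≤ (a : ℝ) - b) (h2 : (c : ℝ) - d ≤ S) :
    S ^ 2 ≤ ((K.sq (mx (a - b) (d - c)) : ℕ) : ℝ) := by
  have e1 : (a : ℝ) - b ≤ ((a - b : ℕ) : ℝ) := by
    rw [cast_sub_max']; exact le_max_left _ _
  have e2 : (d : ℝ) - c ≤ ((d - c : ℕ) : ℝ) := by
    rw [cast_sub_max']; exact le_max_left _ _
  rw [sq_eq, mx_eq, Nat.cast_mul, ← pow_two, ← sq_abs S]
  refine pow_le_pow_left₀ (abs_nonneg S) ?_ 2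
  rw [abs_le]
  push_cast
  constructor
  · have := le_max_right ((a - b : ℕ) : ℝ) ((d - c : ℕ) : ℝ)
    linarith
  · have := le_max_left ((a - b : ℕ) : ℝ) ((d - c : ℕ) : ℝ)
    linarith

/-- the function of the weight -/
lemma e_bound {w : ℝ} {a b : ℕ} (h1 : (a : ℝ) ≤ w) (h2 : w ≤ b) :
    10 * w ^ 2 - 201326592 * w ≤
      ((10 * K.sq (mx (b - 10066329) (10066330 - a)) : ℕ) : ℝ) - (1013309916158361 : ℕ) := by
  have e1 : (b : ℝ) - 10066329 ≤ ((b - 10066329 : ℕ) : ℝ) := by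
    rw [cast_sub_max']; push_cast; exact le_max_left _ _
  have e2 : (10066330 : ℝ) - a ≤ ((10066330 - a : ℕ) : ℝ) := by
    rw [cast_sub_max']; push_cast; exact le_max_left _ _
  have h3 : (w - 10066329.6) ^ 2 ≤ ((K.sq (mx (b - 10066329) (10066330 - a)) : ℕ) : ℝ) := by
    rw [sq_eq, mx_eq, Nat.cast_mul, ← pow_two, ← sq_abs (w - 10066329.6)]
    refine pow_le_pow_left₀ (abs_nonneg _) ?_ 2
    rw [abs_le]
    push_cast
    constructor
    · have := le_max_right ((b - 10066329 : ℕ) : ℝ) ((10066330 - a : ℕ) : ℝ)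
      linarith
    · have := le_max_left ((b - 10066329 : ℕ) : ℝ) ((10066330 - a : ℕ) : ℝ)
      linarith
  push_cast
  nlinarith

/-- the scaled function -/
lemma Ph_fine (N : ℕ) (x y : ℕ → ℝ) : 2 ^ 22 * Ph N x y = 2 ^ 49 * (2 * N - 3)
    + ∑ j ∈ range N, (∑ k ∈ range N, (10 * wf x y j k ^ 2 - 201326592 * wf x y j k)
      + (∑ k ∈ range N, wf x y j k) ^ 2
      + 9 * ((∑ k ∈ range N, 2 ^ 11 * wR x y j k) ^ 2 + (∑ k ∈ range N, 2 ^ 11 * wI x y j k) ^ 2)) := by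
  unfold Ph Th wf
  simp only [← Finset.mul_sum, Finset.sum_add_distrib, Finset.sum_sub_distrib, mul_pow]
  ring

lemma wf_self (j : ℕ) : wf x y j j = 0 := by unfold wf; rw [ww_self, mul_zero]

/-- the contribution of one body -/
lemma vj_bound {j : ℕ} (hj : j < N)
    (hp : ∀ k < N, k ≠ j → PB N x y rho EL EH st j k) :
    ∑ k ∈ range N, (10 * wf x y j k ^ 2 - 201326592 * wf x y j k)
      + (∑ k ∈ range N, wf x y j k) ^ 2
      + 9 * ((∑ k ∈ range N, 2 ^ 11 * wR x y j k) ^ 2 + (∑ k ∈ range N, 2 ^ 11 * wI x y j k) ^ 2)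
    ≤ ((vj N rho EL EH st j : ℕ) : ℝ) - ((N - 1) * 1013309916158361 : ℕ) := by
  have h1 := sum_le_so (N := N) (F := fun k => 10 * wf x y j k ^ 2 - 201326592 * wf x y j k)
    (f := fun k => 10 * K.sq (mx (wH N st j k - 10066329) (10066330 - wL N st j k)))
    (g := fun _ => 1013309916158361) (j := j) (by simp only [wf_self]; norm_num)
    (fun k hk hkj => e_bound (hp k hk hkj).w1 (hp k hk hkj).w2)
  rw [so_mul, so_const hj] at h1
  have h2 := sum_le_so (N := N) (F := fun k => wf x y j k)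
    (f := fun k => wH N st j k) (g := fun _ => 0) (j := j) (wf_self j)
    (fun k hk hkj => by simpa using (hp k hk hkj).w2)
  rw [so_const hj, Nat.mul_zero, Nat.cast_zero, sub_zero] at h2
  have h20 : 0 ≤ ∑ k ∈ range N, wf x y j k :=
    Finset.sum_nonneg fun k _ => mul_nonneg (by norm_num) (ww_nonneg x y j k)
  have h3 := sq_le_mx
    (sum_le_so (N := N) (F := fun k => 2 ^ 11 * wR x y j k) (f := rHP N rho EL EH st j)
      (g := rHM N EL EH st j) (j := j) (by simp only [wR_self, mul_zero])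
      (fun k hk hkj => (hp k hk hkj).r2))
    (so_le_sum (N := N) (F := fun k => 2 ^ 11 * wR x y j k) (f := rLP N EL EH st j)
      (g := rLM N rho EL EH st j) (j := j) (by simp only [wR_self, mul_zero])
      (fun k hk hkj => (hp k hk hkj).r1))
  have h4 := sq_le_mx
    (sum_le_so (N := N) (F := fun k => 2 ^ 11 * wI x y j k) (f := iHP N rho EL EH st j)
      (g := iHM N EL EH st j) (j := j) (by simp only [wI_self, mul_zero])
      (fun k hk hkj => (hp k hk hkj).i2))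
    (so_le_sum (N := N) (F := fun k => 2 ^ 11 * wI x y j k) (f := iLP N EL EH st j)
      (g := iLM N rho EL EH st j) (j := j) (by simp only [wI_self, mul_zero])
      (fun k hk hkj => (hp k hk hkj).i1))
  have h5 : (∑ k ∈ range N, wf x y j k) ^ 2 ≤ ((K.sq (dH N st j) : ℕ) : ℝ) := by
    rw [sq_eq, Nat.cast_mul, ← pow_two]
    exact pow_le_pow_left₀ h20 h2 2
  have e : vj N rho EL EH st j = K.sq (dH N st j)
      + (9 * (K.sq (mx (so N j (rHP N rho EL EH st j) - so N j (rHM N EL EH st j))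
          (so N j (rLM N rho EL EH st j) - so N j (rLP N EL EH st j)))
        + K.sq (mx (so N j (iHP N rho EL EH st j) - so N j (iHM N EL EH st j))
          (so N j (iLM N rho EL EH st j) - so N j (iLP N EL EH st j))))
      + 10 * so N j (fun k => K.sq (mx (wH N st j k - 10066329) (10066330 - wL N st j k)))) := rfl
  rw [e]
  push_cast at h1 h3 h4 h5 ⊢
  linarith

/-- **Soundness of the fine leaf.** -/
theorem pfine_sound (hN : 3 ≤ N) (hc : Cfg N x y) (he : Ext N x y EL EH) (hr0 : 0 < rho)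
    (hr : ∀ i < N, ∀ k < N, i ≠ k → (rho : ℝ) ≤ tt x y i k) :
    pfine N rho EL EH st = false := by
  rw [← Bool.not_eq_true]
  intro h
  unfold pfine at h
  rw [Bool.and_eq_true] at h
  obtain ⟨h1, h2⟩ := h
  have hp : ∀ j < N, ∀ k < N, k ≠ j → PB N x y rho EL EH st j k := by
    intro j hj k hk hkj
    have h3 := aN_iff.1 (aN_iff.1 h1 j hj) k hk
    have hb : Nat.beq j k = false := by
      rw [← Bool.not_eq_true]
      intro hb
      exact hkj (Nat.eq_of_beq_eq_true hb).symm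
    rw [hb] at h3
    have h4 : Nat.ble 1 (wc N rho EL EH st j k) = true := h3
    exact pb_of he hj hk hr0 (hr j hj k hk (Ne.symm hkj)) (Nat.le_of_ble_eq_true h4)
  have hsum : 2 ^ 22 * Ph N x y ≤ 2 ^ 49 * (2 * N - 3)
      + ∑ j ∈ range N, (((vj N rho EL EH st j : ℕ) : ℝ) - ((N - 1) * 1013309916158361 : ℕ)) := by
    rw [Ph_fine]
    have := Finset.sum_le_sum fun j hj => vj_bound (N := N) (mem_range.1 hj)
      (hp j (mem_range.1 hj))
    linarith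
  rw [Finset.sum_sub_distrib, Finset.sum_const, Finset.card_range, nsmul_eq_mul] at hsum
  have e1 : ((2 * N - 4 : ℕ) : ℝ) = 2 * N - 4 := by
    rw [Nat.cast_sub (by omega)]; push_cast; ring
  have e2 : ((2 * N - 3 : ℕ) : ℝ) = 2 * N - 3 := by
    rw [Nat.cast_sub (by omega)]; push_cast; ring
  have e3 : ((N - 1 : ℕ) : ℝ) = N - 1 := by
    rw [Nat.cast_sub (by omega)]; push_cast; ring
  have h3 := Nat.le_of_ble_eq_true h2
  have h4 : (2 * N - 4) * (562949953421312 * (2 * N - 3) + ∑ j ∈ range N, vj N rho EL EH st j) + 1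
      ≤ 2 * ((16777216 * (2 * N - 3) - ∑ j ∈ range N, dH N st j)
        * (16777216 * (2 * N - 3) - ∑ j ∈ range N, dH N st j))
      + (2 * N - 4) * (N * (N - 1)) * 1013309916158361 := by
    rw [← sN_eq, ← sN_eq]
    exact h3
  have h5 : ((2 * N - 4 : ℕ) : ℝ) * (562949953421312 * ((2 * N - 3 : ℕ) : ℝ)
        + ∑ j ∈ range N, ((vj N rho EL EH st j : ℕ) : ℝ)) + 1
      ≤ 2 * (((16777216 * (2 * N - 3) - ∑ j ∈ range N, dH N st j : ℕ) : ℝ)
        * ((16777216 * (2 * N - 3) - ∑ j ∈ range N, dH N st j : ℕ) : ℝ))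
      + ((2 * N - 4 : ℕ) : ℝ) * (N * ((N - 1 : ℕ) : ℝ)) * 1013309916158361 := by
    exact_mod_cast h4
  rw [e1, e2, e3] at h5
  -- the trace
  have htr : 2 ^ 11 * Th N x y ≤ ((∑ j ∈ range N, dH N st j : ℕ) : ℝ) := by
    unfold Th
    push_cast
    rw [Finset.mul_sum]
    refine Finset.sum_le_sum fun j hj => ?_
    have hjN := mem_range.1 hj
    have h6 := sum_le_so (N := N) (F := fun k => wf x y j k)
      (f := fun k => wH N st j k) (g := fun _ => 0) (j := j) (wf_self j)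
      (fun k hk hkj => by simpa using (hp j hjN k hk hkj).w2)
    rw [so_const hjN, Nat.mul_zero, Nat.cast_zero, sub_zero] at h6
    rw [Finset.mul_sum]
    exact h6
  have hs : ((16777216 * (2 * N - 3) - ∑ j ∈ range N, dH N st j : ℕ) : ℝ)
      ≤ 2 ^ 11 * (8192 * (2 * N - 3) - Th N x y) := by
    rw [cast_sub_max']
    apply max_le
    · push_cast [e2] at htr ⊢
      linarith
    · have := hc.tr
      linarith
  have hs2 : ((16777216 * (2 * N - 3) - ∑ j ∈ range N, dH N st j : ℕ) : ℝ)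
        * ((16777216 * (2 * N - 3) - ∑ j ∈ range N, dH N st j : ℕ) : ℝ)
      ≤ 2 ^ 22 * (8192 * (2 * N - 3) - Th N x y) ^ 2 := by
    calc _ = ((16777216 * (2 * N - 3) - ∑ j ∈ range N, dH N st j : ℕ) : ℝ) ^ 2 := by ring
      _ ≤ (2 ^ 11 * (8192 * (2 * N - 3) - Th N x y)) ^ 2 :=
        pow_le_pow_left₀ (Nat.cast_nonneg _) hs 2
      _ = _ := by ring
  have hlo := hc.lo
  have hN' : (3 : ℝ) ≤ N := by exact_mod_cast hN
  have h6 : (2 * (N : ℝ) - 4) * (2 ^ 22 * Ph N x y) ≤ (2 * N - 4) * (2 ^ 49 * (2 * N - 3)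
      + (∑ j ∈ range N, ((vj N rho EL EH st j : ℕ) : ℝ)
        - N * (((N - 1) * 1013309916158361 : ℕ) : ℝ))) :=
    mul_le_mul_of_nonneg_left hsum (by linarith)
  rw [Nat.cast_mul, e3] at h6
  push_cast at h6
  nlinarith

end pair

end RelEqN.Small.Box.PF
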