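import Pool.Agent.Lib.MP_b9e19b_mp.Box.GLeafK
import Pool.Agent.Lib.MP_b9e19b_mp.Box.GPair
import Pool.Agent.Lib.MP_b9e19b_mp.Box.PFine

set_option autoImplicit false

/-!
# Soundness of the lattice leaf: one pair
-/

namespace RelEqN.Small.Box

open K Finset

/-- the ten tables -/
noncomputable def TT10 : Tbl := ⟨TW, TV, TX, TZ, TY, TU, TR, TS, TT, TQ⟩

/-- everything that is needed about the tables -/
structure LatA (n : ℕ) : Prop where
  lat : Lat n gS GG TT10 LXP LXN LYP LYN TM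
  e1 : g2n = 2 * n
  e2 : gS = g2n + 1
  e3 : gS32 = 32 * gS
  one : ONR = rep 32 gS
  rp : REP = rep (32 * gS) gS
  ixf : ∀ z < 2049, ix8 IXF z ≤ g2n → gr n GG (ix8 IXF z) + 65536 ≤ 64 * z
  ixc : ∀ z < 2049, ix8 IXC z ≤ g2n → (64 * z : ℝ) ≤ gr n GG (ix8 IXC z) + 65536

lemma rec_bif (b : Bool) (P Q : ℕ) :
    Bool.rec (motive := fun _ => ℕ) P Q b = bif b then Q else P := by
  cases b <;> rfl

/-- the test of the lanes as an equation -/
lemma gtest_land {O s cw cx cy cr ct l1 l2 c0 r W X Y R T LX LY : ℕ}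
    (h : gtest O s cw cx cy cr ct l1 l2 c0 r W X Y R T LX LY = true) :
    (cw * cutw W s (O * (2 ^ 32 - 1)) + (cx * cutw X s (O * (2 ^ 32 - 1))
      + (cy * cutw Y s (O * (2 ^ 32 - 1)) + (cr * cutw R s (O * (2 ^ 32 - 1))
      + (ct * cutw T s (O * (2 ^ 32 - 1)) + (l1 * cutw LX s (O * (2 ^ 32 - 1))
      + (l2 * cutw LY s (O * (2 ^ 32 - 1)) + c0 * O))))))) &&&
      ((cutw TM s (O * (2 ^ 32 - 1)) + (2 ^ 31 - r) * O) &&& (O * 2 ^ 31))
    = (cutw TM s (O * (2 ^ 32 - 1)) + (2 ^ 31 - r) * O) &&& (O * 2 ^ 31) := by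
  have e1 : (2 : ℕ) ^ 32 - 1 = 4294967295 := by norm_num
  have e2 : (2 : ℕ) ^ 31 - r = 2147483648 - r := by norm_num
  have e3 : O * 2 ^ 31 = O <<< 31 := (Nat.shiftLeft_eq _ _).symm
  rw [e1, e2, e3]
  exact Nat.eq_of_beq_eq_true h

/-- a part of the ones -/
lemma rep_cut {L S d : ℕ} (hL : 0 < L) (hd : d ≤ S) :
    rep L (S + 1) >>> (L * (S - d)) = rep L (d + 1) := by
  have e : S + 1 = (S - d) + (d + 1) := by omega
  rw [e]
  exact rep_shift hL _ _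

/-- the value of a pair that passes the test -/
lemma gval_cases (N rho kp km Ep Em i0 i1 j0 j1 A1p A1m A2p A2m b1 b2 M : ℕ)
    (hv : gval N rho kp km Ep Em i0 i1 j0 j1 A1p A1m A2p A2m b1 b2 M ≤ 4611686018427387903) :
    ∃ l1p l1m l2p l2m Q c0 : ℕ, l1p = A1p + b1 - (A1m + 16384) ∧ l1m = A1m + 16384 - (A1p + b1) ∧
      l2p = A2p + b2 - (A2m + 16384) ∧ l2m = A2m + 16384 - (A2p + b2) ∧
      Q = (kp + km + (l1p + l1m + (l2p + l2m))) * 131072
        + ((N * (A1p + A1m) + N * (A2p + A2m)) * 65536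
        + (N * (Ep + Em) * 32768 + (Ep + Em) * 2097152)) ∧
      i0 ≤ i1 ∧ i1 ≤ g2n ∧ j0 ≤ j1 ∧ j1 ≤ g2n ∧ 2 * Q + c0 ≤ 4294967295 ∧
      gval N rho kp km Ep Em i0 i1 j0 j1 A1p A1m A2p A2m b1 b2 M = c0 + Q ∧
      gtest ((ONR >>> (32 * (g2n - (i1 - i0)))) * (REP >>> (gS32 * (g2n - (j1 - j0)))))
        (32 * (gS * j0 + i0)) (kp + km) (N * (A1p + A1m)) (N * (A2p + A2m)) (N * (Ep + Em)) (Ep + Em)
        (l1p + l1m) (l2p + l2m) c0 (rho / 16) (bif Nat.beq km 0 then TW else TV)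
        (bif Nat.beq A1m 0 then TX else TZ) (bif Nat.beq A2m 0 then TY else TU)
        (bif Nat.beq Em 0 then TR else TS) (bif Nat.beq Em 0 then TQ else TT)
        (bif Nat.beq l1m 0 then LXN else LXP) (bif Nat.beq l2m 0 then LYN else LYP) = true := by
  have key : ∀ (P : Bool) (V : ℕ), sel P V 4611686018427387904 ≤ 4611686018427387903 →
      P = true ∧ sel P V 4611686018427387904 = V := by
    intro P V h
    cases P
    · have e : sel false V 4611686018427387904 = 4611686018427387904 := rfl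
      rw [e] at h
      omega
    · exact ⟨rfl, rfl⟩
  refine ⟨A1p + b1 - (A1m + 16384), A1m + 16384 - (A1p + b1), A2p + b2 - (A2m + 16384),
    A2m + 16384 - (A2p + b2), _, 2684354560 - (((kp + km + (A1p + b1 - (A1m + 16384)
      + (A1m + 16384 - (A1p + b1)) + (A2p + b2 - (A2m + 16384)
      + (A2m + 16384 - (A2p + b2))))) * 131072
        + ((N * (A1p + A1m) + N * (A2p + A2m)) * 65536
        + (N * (Ep + Em) * 32768 + (Ep + Em) * 2097152))) + M * 256), rfl, rfl, rfl, rfl, rfl, ?_⟩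
  unfold gval at hv ⊢
  beta_reduce at hv ⊢
  obtain ⟨hP, hV⟩ := key _ _ hv
  rw [hV]
  simp only [Bool.and_eq_true] at hP
  obtain ⟨⟨h1, h2⟩, ⟨h3, h4⟩, h5, h6⟩ := hP
  refine ⟨Nat.le_of_ble_eq_true h1, Nat.le_of_ble_eq_true h2, Nat.le_of_ble_eq_true h3,
    Nat.le_of_ble_eq_true h4, Nat.le_of_ble_eq_true h5, rfl, ?_⟩
  rw [rec_bif, rec_bif, rec_bif, rec_bif, rec_bif, rec_bif, rec_bif] at h6
  exact h6

/-- **One pair.** -/
lemma gval_sound {n : ℕ} (L : LatA n) {N rho kp km Ep Em i0 i1 j0 j1 A1p A1m A2p A2m b1 b2 M : ℕ}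
    (hk : kp = 0 ∨ km = 0) (hA1 : A1p = 0 ∨ A1m = 0) (hA2 : A2p = 0 ∨ A2m = 0)
    (hE : Ep = 0 ∨ Em = 0)
    (hv : gval N rho kp km Ep Em i0 i1 j0 j1 A1p A1m A2p A2m b1 b2 M ≤ 4611686018427387903)
    (hrho : 5000000 ≤ rho) {X Y : ℝ}
    (hX0 : i0 ≤ g2n → gr n GG i0 ≤ X) (hX1 : i1 ≤ g2n → X ≤ gr n GG i1)
    (hY0 : j0 ≤ g2n → gr n GG j0 ≤ Y) (hY1 : j1 ≤ g2n → Y ≤ gr n GG j1)
    (ht : (rho : ℝ) ≤ X ^ 2 + Y ^ 2) :
    (2 : ℝ) ^ 31 - gval N rho kp km Ep Em i0 i1 j0 j1 A1p A1m A2p A2m b1 b2 M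
      ≤ lpf N (((A1p : ℝ) - A1m) / 4096) (((A2p : ℝ) - A2m) / 4096) ((kp : ℝ) - km)
      (((Ep : ℝ) - Em) / 2 ^ 24) (2 * ((b1 : ℝ) - 16384)) (2 * ((b2 : ℝ) - 16384)) X Y := by
  obtain ⟨l1p, l1m, l2p, l2m, Q, c0, k1, k2, k3, k4, hQ, h1, h2, h3, h4, h5, hval, htest⟩ :=
    gval_cases N rho kp km Ep Em i0 i1 j0 j1 A1p A1m A2p A2m b1 b2 M hv
  rw [hval]
  have hS := L.e2
  have hO : (ONR >>> (32 * (g2n - (i1 - i0)))) * (REP >>> (gS32 * (g2n - (j1 - j0))))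
      = rep 32 (i1 - i0 + 1) * rep (32 * gS) (j1 - j0 + 1) := by
    rw [L.one, L.rp, L.e3]
    have hS0 : 0 < 32 * gS := by omega
    have a1 : rep 32 gS >>> (32 * (g2n - (i1 - i0))) = rep 32 (i1 - i0 + 1) := by
      rw [hS]
      exact rep_cut (by norm_num) (by omega)
    have a2 : rep (32 * gS) gS >>> (32 * gS * (g2n - (j1 - j0))) = rep (32 * gS) (j1 - j0 + 1) := by
      have e : rep (32 * gS) gS = rep (32 * gS) (g2n + 1) := by rw [← hS]
      rw [e]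
      exact rep_cut hS0 (by omega)
    rw [a1, a2]
  have hl := gtest_land htest
  rw [hO] at hl
  have key := pair_min L.lat (N := N) h1 (by rw [← L.e1]; exact h2) h3 (by rw [← L.e1]; exact h4)
    (kp := kp) (km := km) hk hA1 hA2 hE
    (l1p := l1p) (l1m := l1m) (l2p := l2p) (l2m := l2m) (c0 := c0) (Q := Q) (rho := rho)
    (B1 := (b1 : ℝ) - 16384) (B2 := (b2 : ℝ) - 16384)
    (by omega) (by omega)
    (by
      have : (l1p : ℤ) - l1m = A1p - A1m + (b1 - 16384) := by omega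
      exact_mod_cast this)
    (by
      have : (l2p : ℤ) - l2m = A2p - A2m + (b2 - 16384) := by omega
      exact_mod_cast this)
    hQ (by omega) rfl rfl rfl rfl rfl hl hrho (hX0 (h1.trans h2)) (hX1 h2) (hY0 (h3.trans h4))
    (hY1 h4) ht
  push_cast
  linarith

end RelEqN.Small.Box
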