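import Pool.Agent.Lib.MP_b9e19b_mp.Box.GLatK
import Pool.Agent.Lib.MP_b9e19b_mp.Box.GLeafS

set_option autoImplicit false

/-!
# From the kernel checks to the properties of the tables
-/

namespace RelEqN.Small.Box

open K

/-- ones repeated -/
lemma rep_rep {L S n : ℕ} (hL : 0 < L) : rep L S * rep (L * S) n = rep L (S * n) := by
  refine eq_rep hL ?_
  rw [mul_right_comm, rep_mul, mul_comm, rep_mul, mul_assoc]

lemma and_spec {a b : Bool} (h : Bool.and a b = true) : a = true ∧ b = true := by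
  cases a <;> cases b <;> simp_all

lemma beq_spec {a b : ℕ} (h : Nat.beq a b = true) : a = b := Nat.eq_of_beq_eq_true h

lemma onp_spec {O R s t : ℕ} (h : onp O R s t = true) :
    O * 4294967295 = (1 <<< s) - 1 ∧ R * ((1 <<< s) - 1) = (1 <<< t) - 1 := by
  unfold onp at h
  obtain ⟨h1, h2⟩ := and_spec h
  have g1 := beq_spec h1
  have g2 := beq_spec h2
  simp only [Nat.mul_eq, Nat.sub_eq, Nat.shiftLeft_eq'] at g1 g2
  exact ⟨g1, g2⟩

lemma onc_spec (h : onc = true) (h3 : gS32 = 32 * gS) (hS : 0 < gS) :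
    ONR = rep 32 gS ∧ REP = rep (32 * gS) gS := by
  have h' : onp ONR REP gS32 (gS32 * gS) = true := h
  obtain ⟨g1, g2⟩ := onp_spec h'
  have e : ∀ t : ℕ, 1 <<< t = 2 ^ t := fun t => by rw [Nat.shiftLeft_eq, one_mul]
  rw [e, h3] at g1
  rw [e, e, h3] at g2
  constructor
  · have e5 : (2 : ℕ) ^ 32 - 1 = 4294967295 := by norm_num
    refine eq_rep (by norm_num) ?_
    rw [e5, g1]
  · exact eq_rep (by omega) g2

lemma lbc_spec {T c b : ℕ} (h1 : ONR = rep 32 gS) (h2 : REP = rep (32 * gS) gS) (hb : b ≤ 32)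
    (hc : c = 2 ^ 32 - 2 ^ b) (h : lbc T c = true) : LB T (2 ^ b - 1) := by
  obtain ⟨h3, h4⟩ := and_spec h
  have g3 : T &&& (ONR * REP * c) = 0 := beq_spec h3
  have g4 : T >>> (32 * (gS * gS)) = 0 := beq_spec h4
  refine LB_of (len := gS * gS) hb ?_ ?_
  · rw [← rep_rep (by norm_num), ← h1, ← h2, ← hc]
    exact g3
  · rw [Nat.shiftRight_eq_div_pow] at g4
    exact Nat.lt_of_div_eq_zero (by positivity) g4

/-- the coordinate of a node as a difference -/
lemma gr_eq {n G i : ℕ} (h0 : gx G 0 = 0) :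
    gr n G i = (gx G (i - n) : ℝ) - gx G (n - i) := by
  unfold gr
  split_ifs with h
  · have : i - n = 0 := by omega
    rw [this, h0]
    simp
  · have : n - i = 0 := by omega
    rw [this, h0]
    simp

lemma lxc_spec (h : lxc = true) (h0 : gx GG 0 = 0) {i j : ℕ} (hi : i < gS) (hj : j < gS) :
    (lane 32 LXP (gS * j + i) : ℝ) = 131072 + 2 * gr gn GG i ∧
    (lane 32 LXN (gS * j + i) : ℝ) = 131072 - 2 * gr gn GG i ∧
    (lane 32 LYP (gS * j + i) : ℝ) = 131072 + 2 * gr gn GG j ∧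
    (lane 32 LYN (gS * j + i) : ℝ) = 131072 - 2 * gr gn GG j := by
  have h1 := al_iff.1 (al_iff.1 h i hi) j hj
  obtain ⟨a1, h2⟩ := and_spec h1
  obtain ⟨a2, h3⟩ := and_spec h2
  obtain ⟨a3, a4⟩ := and_spec h3
  have b1 : l32 LXP (gS * j + i) + 2 * gx GG (gn - i) = 131072 + 2 * gx GG (i - gn) := beq_spec a1
  have b2 : l32 LXN (gS * j + i) + 2 * gx GG (i - gn) = 131072 + 2 * gx GG (gn - i) := beq_spec a2
  have b3 : l32 LYP (gS * j + i) + 2 * gx GG (gn - j) = 131072 + 2 * gx GG (j - gn) := beq_spec a3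
  have b4 : l32 LYN (gS * j + i) + 2 * gx GG (j - gn) = 131072 + 2 * gx GG (gn - j) := beq_spec a4
  rw [l32_eq] at b1 b2 b3 b4
  have c1 : (lane 32 LXP (gS * j + i) : ℝ) + 2 * gx GG (gn - i) = 131072 + 2 * gx GG (i - gn) := by
    exact_mod_cast b1
  have c2 : (lane 32 LXN (gS * j + i) : ℝ) + 2 * gx GG (i - gn) = 131072 + 2 * gx GG (gn - i) := by
    exact_mod_cast b2
  have c3 : (lane 32 LYP (gS * j + i) : ℝ) + 2 * gx GG (gn - j) = 131072 + 2 * gx GG (j - gn) := by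
    exact_mod_cast b3
  have c4 : (lane 32 LYN (gS * j + i) : ℝ) + 2 * gx GG (j - gn) = 131072 + 2 * gx GG (gn - j) := by
    exact_mod_cast b4
  rw [gr_eq h0, gr_eq h0]
  refine ⟨?_, ?_, ?_, ?_⟩ <;> linarith

lemma tmc_spec (h : tmc = true) {i j : ℕ} (hi : i < g2n) (hj : j < g2n) (c d : Bool) :
    cF GG (ca gn i) (ca gn j) ≤ 16 * lane 32 TM (gS * ix j d + ix i c) := by
  have h1 := al_iff.1 (al_iff.1 h i hi) j hj
  obtain ⟨a1, h2⟩ := and_spec h1
  obtain ⟨a2, h3⟩ := and_spec h2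
  obtain ⟨a3, a4⟩ := and_spec h3
  have e : ∀ i, (gn - 1 - i) + (i - gn) = ca gn i := by
    intro i
    unfold ca
    split_ifs <;> omega
  have b1 : cF GG ((gn - 1 - i) + (i - gn)) ((gn - 1 - j) + (j - gn))
      ≤ 16 * l32 TM (gS * j + i) := Nat.le_of_ble_eq_true a1
  have b2 : cF GG ((gn - 1 - i) + (i - gn)) ((gn - 1 - j) + (j - gn))
      ≤ 16 * l32 TM (gS * j + (i + 1)) := Nat.le_of_ble_eq_true a2
  have b3 : cF GG ((gn - 1 - i) + (i - gn)) ((gn - 1 - j) + (j - gn))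
      ≤ 16 * l32 TM (gS * (j + 1) + i) := Nat.le_of_ble_eq_true a3
  have b4 : cF GG ((gn - 1 - i) + (i - gn)) ((gn - 1 - j) + (j - gn))
      ≤ 16 * l32 TM (gS * (j + 1) + (i + 1)) := Nat.le_of_ble_eq_true a4
  rw [e, e, l32_eq] at b1 b2 b3 b4
  cases c <;> cases d
  · exact b1
  · exact b3
  · exact b2
  · exact b4

lemma or_spec {a b : Bool} (h : Bool.or a b = true) : a = true ∨ b = true := by
  cases a <;> cases b <;> simp_all

lemma ixc_spec (h : ixc = true) (h0 : gx GG 0 = 0) {z : ℕ} (hz : z < 2049) :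
    (ix8 IXF z ≤ g2n → gr gn GG (ix8 IXF z) + 65536 ≤ 64 * z) ∧
    (ix8 IXC z ≤ g2n → (64 * z : ℝ) ≤ gr gn GG (ix8 IXC z) + 65536) := by
  obtain ⟨h1, h2⟩ := and_spec (al_iff.1 h z hz)
  constructor
  · intro hi
    rcases or_spec h1 with h3 | h3
    · have : g2n + 1 ≤ ix8 IXF z := Nat.le_of_ble_eq_true h3
      omega
    · have h4 : gx GG (ix8 IXF z - gn) + 65536 ≤ 64 * z + gx GG (gn - ix8 IXF z) :=
        Nat.le_of_ble_eq_true h3
      have h5 : (gx GG (ix8 IXF z - gn) : ℝ) + 65536 ≤ 64 * z + gx GG (gn - ix8 IXF z) := by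
        exact_mod_cast h4
      rw [gr_eq h0]
      linarith
  · intro hi
    rcases or_spec h2 with h3 | h3
    · have : g2n + 1 ≤ ix8 IXC z := Nat.le_of_ble_eq_true h3
      omega
    · have h4 : 64 * z + gx GG (gn - ix8 IXC z) ≤ gx GG (ix8 IXC z - gn) + 65536 :=
        Nat.le_of_ble_eq_true h3
      have h5 : (64 * z : ℝ) + gx GG (gn - ix8 IXC z) ≤ gx GG (ix8 IXC z - gn) + 65536 := by
        exact_mod_cast h4
      rw [gr_eq h0]
      linarith

/-- **The properties of the tables from the kernel checks.** -/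
theorem latA_of (hn : 0 < gn) (e1 : g2n = 2 * gn) (e2 : gS = g2n + 1) (e3 : gS32 = 32 * gS)
    (hG : gok gn GG = true) (h1 : onc = true) (h2 : lball = true) (h3 : ixc = true)
    (h4 : tmc = true) (h5 : lxc = true)
    (hst : ∀ b < gn, strip gn gS (2 ^ (32 * gS) - 1) GG GV 5000000 TT10 b = true) :
    LatA gn := by
  obtain ⟨h0, -⟩ := gok_spec hG
  obtain ⟨o1, o2⟩ := onc_spec h1 e3 (by omega)
  obtain ⟨l1, h2⟩ := and_spec h2
  obtain ⟨l0, h2⟩ := and_spec h2
  obtain ⟨l2, h2⟩ := and_spec h2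
  obtain ⟨l3, h2⟩ := and_spec h2
  obtain ⟨l4, h2⟩ := and_spec h2
  obtain ⟨l5, h2⟩ := and_spec h2
  obtain ⟨l6, h2⟩ := and_spec h2
  obtain ⟨l7, h2⟩ := and_spec h2
  obtain ⟨l8, h2⟩ := and_spec h2
  obtain ⟨l9, h2⟩ := and_spec h2
  obtain ⟨l10, h2⟩ := and_spec h2
  obtain ⟨l11, h2⟩ := and_spec h2
  obtain ⟨l12, h2⟩ := and_spec h2
  obtain ⟨l13, l14⟩ := and_spec h2
  refine ⟨⟨hn, by omega, hG, ?_, ?_, ?_, ?_, ?_, ?_, ?_, ?_, ?_, ?_, ?_, ?_, ?_, ?_, ?_, ?_, ?_, ?_,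
    ?_, ?_, ?_⟩, e1, e2, e3, o1, o2, ?_, ?_⟩
  · intro i hi j hj hr
    exact cell_all (by omega) hG hst hi hj hr
  · exact lbc_spec (b := 18) o1 o2 (by norm_num) (by norm_num) l1
  · exact lbc_spec (b := 18) o1 o2 (by norm_num) (by norm_num) l0
  · exact lbc_spec (b := 17) o1 o2 (by norm_num) (by norm_num) l2
  · exact lbc_spec (b := 17) o1 o2 (by norm_num) (by norm_num) l3
  · exact lbc_spec (b := 17) o1 o2 (by norm_num) (by norm_num) l4
  · exact lbc_spec (b := 17) o1 o2 (by norm_num) (by norm_num) l5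
  · exact lbc_spec (b := 16) o1 o2 (by norm_num) (by norm_num) l6
  · exact lbc_spec (b := 16) o1 o2 (by norm_num) (by norm_num) l7
  · exact lbc_spec (b := 22) o1 o2 (by norm_num) (by norm_num) l8
  · exact lbc_spec (b := 22) o1 o2 (by norm_num) (by norm_num) l9
  · exact lbc_spec (b := 18) o1 o2 (by norm_num) (by norm_num) l10
  · exact lbc_spec (b := 18) o1 o2 (by norm_num) (by norm_num) l11
  · exact lbc_spec (b := 18) o1 o2 (by norm_num) (by norm_num) l12
  · exact lbc_spec (b := 18) o1 o2 (by norm_num) (by norm_num) l13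
  · exact lbc_spec (b := 30) o1 o2 (by norm_num) (by norm_num) l14
  · intro i hi j hj
    exact (lxc_spec h5 h0 (by omega) (by omega)).1
  · intro i hi j hj
    exact (lxc_spec h5 h0 (by omega) (by omega)).2.1
  · intro i hi j hj
    exact (lxc_spec h5 h0 (by omega) (by omega)).2.2.1
  · intro i hi j hj
    exact (lxc_spec h5 h0 (by omega) (by omega)).2.2.2
  · intro i hi j hj c d
    exact tmc_spec h4 (by omega) (by omega) c d
  · intro z hz
    exact (ixc_spec h3 h0 hz).1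
  · intro z hz
    exact (ixc_spec h3 h0 hz).2

end RelEqN.Small.Box
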