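import Pool.Agent.Lib.MP_b9e19b_mp.Box.PFineK
import Pool.Agent.Lib.MP_b9e19b_mp.Box.GTabA

/-!
# Kernel function of the lattice leaf (natural numbers only)

Data (`D`): `K` 16 bits, `E + 32768` 16 bits, for every body `U` and `V` 16 bits each (only the
differences matter), the multipliers of the sums of the coordinates (16 bits each), the multipliers
of the order of the bodies `2, …, N - 2` (16 bits each), then a record of 64 bits for every pair
`(i, k)`, `k < i`, in the order `i (i - 1) / 2 + k`: slopes `B1 + 16384`, `B2 + 16384` (15 bits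
each), `η` (12 bits), `M` (22 bits).
The grid has `g2n + 1 = gS` nodes in every direction, `gS32 = 32 gS`.
-/

set_option autoImplicit false

namespace RelEqN.Small.Box.K

noncomputable section

/-- field of 8 bits of an index table -/
def ix8 (T z : Nat) : Nat := Nat.land (Nat.shiftRight T (Nat.shiftLeft z 3)) 255

/-- the test of the lanes of a window: `O` the ones of the window, `s` its position -/
def gtest (O s cw cx cy cr ct l1 l2 c0 r W X Y R T LX LY : Nat) : Bool :=
  (fun m =>
    (fun A M => Nat.beq (Nat.land A M) M)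
      (Nat.add (Nat.mul cw (Nat.land (Nat.shiftRight W s) m))
      (Nat.add (Nat.mul cx (Nat.land (Nat.shiftRight X s) m))
      (Nat.add (Nat.mul cy (Nat.land (Nat.shiftRight Y s) m))
      (Nat.add (Nat.mul cr (Nat.land (Nat.shiftRight R s) m))
      (Nat.add (Nat.mul ct (Nat.land (Nat.shiftRight T s) m))
      (Nat.add (Nat.mul l1 (Nat.land (Nat.shiftRight LX s) m))
      (Nat.add (Nat.mul l2 (Nat.land (Nat.shiftRight LY s) m))
      (Nat.mul c0 O))))))))
      (Nat.land (Nat.add (Nat.land (Nat.shiftRight TM s) m) (Nat.mul (Nat.sub 2147483648 r) O))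
        (Nat.shiftLeft O 31)))
    (Nat.mul O 4294967295)

/-- the value `c0 + Q` of a pair for the window, the multipliers and the slopes, `2 ^ 62`
if the test fails; the coefficient of the weight is `kp - km` -/
def gval (N rho kp km Ep Em i0 i1 j0 j1 A1p A1m A2p A2m b1 b2 M : Nat) : Nat :=
  (fun l1p l1m l2p l2m cw cx cy cr ct =>
    (fun l1 l2 =>
      (fun Q =>
        (fun c0 =>
          sel (Bool.and (Bool.and (Nat.ble i0 i1) (Nat.ble i1 g2n))
            (Bool.and (Bool.and (Nat.ble j0 j1) (Nat.ble j1 g2n))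
            (Bool.and (Nat.ble (Nat.add (Nat.mul 2 Q) c0) 4294967295)
            (gtest
              (Nat.mul (Nat.shiftRight ONR (Nat.mul 32 (Nat.sub g2n (Nat.sub i1 i0))))
                (Nat.shiftRight REP (Nat.mul gS32 (Nat.sub g2n (Nat.sub j1 j0)))))
              (Nat.mul 32 (Nat.add (Nat.mul gS j0) i0))
              cw cx cy cr ct l1 l2 c0 (Nat.div rho 16)
              (Bool.rec (motive := fun _ => Nat) TV TW (Nat.beq km 0))
              (Bool.rec (motive := fun _ => Nat) TZ TX (Nat.beq A1m 0))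
              (Bool.rec (motive := fun _ => Nat) TU TY (Nat.beq A2m 0))
              (Bool.rec (motive := fun _ => Nat) TS TR (Nat.beq Em 0))
              (Bool.rec (motive := fun _ => Nat) TT TQ (Nat.beq Em 0))
              (Bool.rec (motive := fun _ => Nat) LXP LXN (Nat.beq l1m 0))
              (Bool.rec (motive := fun _ => Nat) LYP LYN (Nat.beq l2m 0))))))
            (Nat.add c0 Q) 4611686018427387904)
          (Nat.sub 2684354560 (Nat.add Q (Nat.mul M 256))))
        (Nat.add (Nat.mul (Nat.add cw (Nat.add l1 l2)) 131072)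
          (Nat.add (Nat.mul (Nat.add cx cy) 65536)
            (Nat.add (Nat.mul cr 32768) (Nat.mul ct 2097152)))))
      (Nat.add l1p l1m) (Nat.add l2p l2m))
    (Nat.sub (Nat.add A1p b1) (Nat.add A1m 16384)) (Nat.sub (Nat.add A1m 16384) (Nat.add A1p b1))
    (Nat.sub (Nat.add A2p b2) (Nat.add A2m 16384)) (Nat.sub (Nat.add A2m 16384) (Nat.add A2p b2))
    (Nat.add kp km) (Nat.mul N (Nat.add A1p A1m)) (Nat.mul N (Nat.add A2p A2m))
    (Nat.mul N (Nat.add Ep Em)) (Nat.add Ep Em)

/-- position of the record of a pair -/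
def rpos (N i k : Nat) : Nat :=
  Nat.add (Nat.add 16 (Nat.mul 48 N))
    (Nat.mul 64 (Nat.add (Nat.shiftRight (Nat.mul i (Nat.sub i 1)) 1) k))

/-- slope of the pair `(i, k)`, component `c = 0` or `c = 15` -/
def gb (N D c i k : Nat) : Nat := Nat.land (Nat.shiftRight D (Nat.add (rpos N i k) c)) 32767

/-- `η` of the pair `(i, k)` -/
def gh (N D i k : Nat) : Nat := Nat.land (Nat.shiftRight D (Nat.add (rpos N i k) 30)) 4095

/-- sum of all `η` -/
def gsum (N D : Nat) : Nat := sN N (fun i => sN i (fun k => gh N D i k))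

/-- the pair `(i, k)`, `Sh` the sum of the `η` of all pairs except `(1, 0)` -/
def gpair (N rho K Ep Em D Sh EL EH i k : Nat) : Nat :=
  (fun pi pk b =>
    (fun kh S1 =>
    gval N rho (Nat.sub kh S1) (Nat.sub S1 kh) Ep Em
      (ix8 IXF (Nat.shiftRight (Nat.sub (Nat.add (fld EL pi) 65536) (fld EH pk)) 6))
      (ix8 IXC (Nat.shiftRight (Nat.sub (Nat.add (fld EH pi) 65599) (fld EL pk)) 6))
      (ix8 IXF (Nat.shiftRight (Nat.sub (Nat.add (fld EL (Nat.add pi 16)) 65536)
        (fld EH (Nat.add pk 16))) 6))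
      (ix8 IXC (Nat.shiftRight (Nat.sub (Nat.add (fld EH (Nat.add pi 16)) 65599)
        (fld EL (Nat.add pk 16))) 6))
      (Nat.sub (fld D (Nat.add 32 pi)) (fld D (Nat.add 32 pk)))
      (Nat.sub (fld D (Nat.add 32 pk)) (fld D (Nat.add 32 pi)))
      (Nat.sub (fld D (Nat.add 48 pi)) (fld D (Nat.add 48 pk)))
      (Nat.sub (fld D (Nat.add 48 pk)) (fld D (Nat.add 48 pi)))
      (Nat.land b 32767) (Nat.land (Nat.shiftRight b 15) 32767)
      (Nat.land (Nat.shiftRight b 42) 4194303))
    (Nat.add K (Nat.land (Nat.shiftRight b 30) 4095)) (sel (Nat.beq i 1) Sh 0))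
    (Nat.mul 32 i) (Nat.mul 32 k) (Nat.shiftRight D (rpos N i k))

/-- sum of all pairs -/
def gtot (N rho wr K Ep Em D EL EH : Nat) : Nat :=
  (fun h => Nat.add (Nat.mul h wr)
    ((fun Sh => sN N (fun i => sN i (fun k => gpair N rho K Ep Em D Sh EL EH i k)))
      (Nat.sub (gsum N D) h))) (gh N D 1 0)

/-- `(N - 1) 16384 +` the slope of the body `j` -/
def zs (N D c j : Nat) : Nat :=
  Nat.add (sN j (fun k => gb N D c j k))
    (sN (Nat.sub (Nat.sub N 1) j) (fun m => Nat.sub 32768 (gb N D c (Nat.add (Nat.add j 1) m) j)))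

/-- multiplier of `y_j ≤ y_(j+1)`, `j = m + 2` -/
def olm (N D m : Nat) : Nat :=
  sel (Nat.ble (Nat.add m 4) N) (fld D (Nat.add (Nat.add 64 (Nat.mul 32 N)) (Nat.mul 16 m))) 0

/-- multiplier of `y_(j-1) ≤ y_j`, `j = m + 2` -/
def olm' (N D m : Nat) : Nat := sel (Nat.ble 1 m) (olm N D (Nat.sub m 1)) 0

/-- multiplier of the sum of the first coordinates -/
def msx (N D : Nat) : Nat := fld D (Nat.add 32 (Nat.mul 32 N))

/-- multiplier of the sum of the second coordinates -/
def msy (N D : Nat) : Nat := fld D (Nat.add 48 (Nat.mul 32 N))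

/-- positive part of the bound of `(Z - C) z` -/
def lup (Z C lo : Nat) : Nat := Nat.add (Nat.mul (Nat.sub Z C) lo) (Nat.mul (Nat.sub C Z) 32768)

/-- negative part of the bound of `(Z - C) z` -/
def lun (Z C hi : Nat) : Nat := Nat.add (Nat.mul (Nat.sub Z C) 32768) (Nat.mul (Nat.sub C Z) hi)

/-- linear part, positive terms -/
def glp (N D EL : Nat) : Nat :=
  Nat.add (lup (zs N D 0 1) (zs N D 0 0) (fld EL 32))
    (sN (Nat.sub N 2) (fun m =>
      Nat.add (lup (zs N D 0 (Nat.add m 2)) (Nat.add (Nat.mul 16384 (Nat.sub N 1)) (msx N D))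
          (fld EL (Nat.mul 32 (Nat.add m 2))))
        (lup (Nat.add (zs N D 15 (Nat.add m 2)) (olm N D m))
          (Nat.add (Nat.mul 16384 (Nat.sub N 1)) (Nat.add (msy N D) (olm' N D m)))
          (fld EL (Nat.add (Nat.mul 32 (Nat.add m 2)) 16)))))

/-- linear part, negative terms -/
def gln (N D EH : Nat) : Nat :=
  Nat.add (lun (zs N D 0 1) (zs N D 0 0) (fld EH 32))
    (sN (Nat.sub N 2) (fun m =>
      Nat.add (lun (zs N D 0 (Nat.add m 2)) (Nat.add (Nat.mul 16384 (Nat.sub N 1)) (msx N D))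
          (fld EH (Nat.mul 32 (Nat.add m 2))))
        (lun (Nat.add (zs N D 15 (Nat.add m 2)) (olm N D m))
          (Nat.add (Nat.mul 16384 (Nat.sub N 1)) (Nat.add (msy N D) (olm' N D m)))
          (fld EH (Nat.add (Nat.mul 32 (Nat.add m 2)) 16)))))

/-- the test of the leaf -/
def gleaf (N rho wr D EL EH : Nat) : Bool :=
  (fun K E =>
    (fun Tot =>
      Bool.and (Nat.ble Tot 4611686018427387903)
        (Nat.ble (Nat.add (Nat.mul K (Nat.mul 4096 (Nat.sub (Nat.mul 2 N) 3)))
          (Nat.add Tot (Nat.add (Nat.mul 2 (gln N D EH)) 1)))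
          (Nat.add (Nat.mul (Nat.mul N (Nat.sub N 1)) 1073741824) (Nat.mul 2 (glp N D EL)))))
      (gtot N rho wr K (Nat.sub E 32768) (Nat.sub 32768 E) D EL EH))
    (Nat.land D 65535) (Nat.land (Nat.shiftRight D 16) 65535)

/-- length of the data without the code -/
def glen (N : Nat) : Nat :=
  Nat.add (Nat.add 16 (Nat.mul 48 N)) (Nat.mul 32 (Nat.mul N (Nat.sub N 1)))

/-- the leaf (the code of 5 bits in front): the rest of the stream or `0` -/
def gl9 (N Lo Hi s : Nat) : Nat :=
  sel (gleaf N (rh Lo) (wup (rh Lo))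
      (Nat.land (Nat.shiftRight s 5) (Nat.sub (Nat.shiftLeft 1 (glen N)) 1))
      (ext1 Lo Hi) (ext2 Lo Hi))
    (Nat.shiftRight s (Nat.add (glen N) 5)) 0

end

end RelEqN.Small.Box.K
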