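import Pool.Agent.Lib.MP_b9e19b_mp.Box.Sem

set_option autoImplicit false

/-!
# The table of the weights is correct
-/

namespace RelEqN.Small.Box

open K

noncomputable section

/-- entry `i` of a packed table -/
def ent (T i : ℕ) : ℕ := Nat.land (Nat.shiftRight T (Nat.shiftLeft i 4)) 65535

/-- lower bounds: `v² (i st)³ ≤ 2^98` for the entries `a ≤ i < a + 2^k` -/
def ckl (T st k : ℕ) : ℕ → Bool :=
  Nat.rec (motive := fun _ => ℕ → Bool)
    (fun a => (fun v t => Nat.ble (Nat.mul (Nat.mul v v) (Nat.mul t (Nat.mul t t)))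
      316912650057057350374175801344) (ent T a) (Nat.mul a st))
    (fun j ih a => Bool.rec (motive := fun _ => Bool) false (ih (Nat.add a (Nat.pow 2 j))) (ih a)) k

/-- upper bounds: `2^98 ≤ (v + 1)² (i st)³` for the entries `a ≤ i < a + 2^k` -/
def cku (T st k : ℕ) : ℕ → Bool :=
  Nat.rec (motive := fun _ => ℕ → Bool)
    (fun a => (fun v t => Nat.ble 316912650057057350374175801344
      (Nat.mul (Nat.mul v v) (Nat.mul t (Nat.mul t t)))) (Nat.add (ent T a) 1) (Nat.mul a st))
    (fun j ih a => Bool.rec (motive := fun _ => Bool) false (ih (Nat.add a (Nat.pow 2 j))) (ih a)) k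

lemma rec_true {b c : Bool} (h : (Bool.rec (motive := fun _ => Bool) false b c) = true) :
    b = true ∧ c = true := by
  cases c
  · exact absurd h (by simp)
  · exact ⟨h, rfl⟩

lemma ckl_spec {T st k a : ℕ} (h : ckl T st k a = true) (i : ℕ) (h1 : a ≤ i) (h2 : i < a + 2 ^ k) :
    ent T i ^ 2 * (i * st) ^ 3 ≤ 2 ^ 98 := by
  induction k generalizing a with
  | zero =>
    have e : i = a := by simp at h2; omega
    subst e
    have h3 := Nat.le_of_ble_eq_true h
    calc ent T i ^ 2 * (i * st) ^ 3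
        = (ent T i * ent T i) * (i * st * (i * st * (i * st))) := by ring
      _ ≤ 316912650057057350374175801344 := h3
      _ = 2 ^ 98 := by norm_num
  | succ k ih =>
    have h' := rec_true (b := ckl T st k (a + 2 ^ k)) (c := ckl T st k a) h
    rcases Nat.lt_or_ge i (a + 2 ^ k) with hi | hi
    · exact ih h'.2 h1 hi
    · exact ih h'.1 hi (by rw [pow_succ] at h2; omega)

lemma cku_spec {T st k a : ℕ} (h : cku T st k a = true) (i : ℕ) (h1 : a ≤ i) (h2 : i < a + 2 ^ k) :
    2 ^ 98 ≤ (ent T i + 1) ^ 2 * (i * st) ^ 3 := by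
  induction k generalizing a with
  | zero =>
    have e : i = a := by simp at h2; omega
    subst e
    have h3 := Nat.le_of_ble_eq_true h
    calc 2 ^ 98 = 316912650057057350374175801344 := by norm_num
      _ ≤ ((ent T i + 1) * (ent T i + 1)) * (i * st * (i * st * (i * st))) := h3
      _ = _ := by ring
  | succ k ih =>
    have h' := rec_true (b := cku T st k (a + 2 ^ k)) (c := cku T st k a) h
    rcases Nat.lt_or_ge i (a + 2 ^ k) with hi | hi
    · exact ih h'.2 h1 hi
    · exact ih h'.1 hi (by rw [pow_succ] at h2; omega)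

theorem c1l : ckl T1 16384 11 1 = true := by decide +kernel
theorem c2l : ckl T2 131072 11 1 = true := by decide +kernel
theorem c3l : ckl T3 2097152 12 1 = true := by decide +kernel
theorem c3l' : ckl T3 2097152 0 4097 = true := by decide +kernel
theorem c1u1 : cku T1 16384 4 304 = true := by decide +kernel
theorem c1u2 : cku T1 16384 6 320 = true := by decide +kernel
theorem c1u3 : cku T1 16384 7 384 = true := by decide +kernel
theorem c1u4 : cku T1 16384 9 512 = true := by decide +kernel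
theorem c1u5 : cku T1 16384 10 1024 = true := by decide +kernel
theorem c2u1 : cku T2 131072 8 256 = true := by decide +kernel
theorem c2u2 : cku T2 131072 9 512 = true := by decide +kernel
theorem c2u3 : cku T2 131072 10 1024 = true := by decide +kernel
theorem c3u0 : cku T3 2097152 7 128 = true := by decide +kernel
theorem c3u1 : cku T3 2097152 8 256 = true := by decide +kernel
theorem c3u2 : cku T3 2097152 9 512 = true := by decide +kernel
theorem c3u3 : cku T3 2097152 10 1024 = true := by decide +kernel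
theorem c3u4 : cku T3 2097152 11 2048 = true := by decide +kernel
theorem c3u5 : cku T3 2097152 0 4096 = true := by decide +kernel
theorem T3_lt : Nat.ble (Nat.shiftRight T3 65568) 0 = true := by decide +kernel

lemma c1u (i : ℕ) (h1 : 305 ≤ i) (h2 : i < 2048) : 2 ^ 98 ≤ (ent T1 i + 1) ^ 2 * (i * 16384) ^ 3 := by
  rcases Nat.lt_or_ge i 320 with h | h
  · exact cku_spec c1u1 i (by omega) (by omega)
  rcases Nat.lt_or_ge i 384 with h | h
  · exact cku_spec c1u2 i (by omega) (by omega)
  rcases Nat.lt_or_ge i 512 with h | h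
  · exact cku_spec c1u3 i (by omega) (by omega)
  rcases Nat.lt_or_ge i 1024 with h | h
  · exact cku_spec c1u4 i (by omega) (by omega)
  · exact cku_spec c1u5 i (by omega) (by omega)

lemma c2u (i : ℕ) (h1 : 256 ≤ i) (h2 : i < 2048) :
    2 ^ 98 ≤ (ent T2 i + 1) ^ 2 * (i * 131072) ^ 3 := by
  rcases Nat.lt_or_ge i 512 with h | h
  · exact cku_spec c2u1 i (by omega) (by omega)
  rcases Nat.lt_or_ge i 1024 with h | h
  · exact cku_spec c2u2 i (by omega) (by omega)
  · exact cku_spec c2u3 i (by omega) (by omega)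

lemma c3u (i : ℕ) (h1 : 128 ≤ i) (h2 : i < 4097) :
    2 ^ 98 ≤ (ent T3 i + 1) ^ 2 * (i * 2097152) ^ 3 := by
  rcases Nat.lt_or_ge i 256 with h | h
  · exact cku_spec c3u0 i (by omega) (by omega)
  rcases Nat.lt_or_ge i 512 with h | h
  · exact cku_spec c3u1 i (by omega) (by omega)
  rcases Nat.lt_or_ge i 1024 with h | h
  · exact cku_spec c3u2 i (by omega) (by omega)
  rcases Nat.lt_or_ge i 2048 with h | h
  · exact cku_spec c3u3 i (by omega) (by omega)
  rcases Nat.lt_or_ge i 4096 with h | h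
  · exact cku_spec c3u4 i (by omega) (by omega)
  · exact cku_spec c3u5 i (by omega) (by omega)

lemma c3L (i : ℕ) (h1 : 1 ≤ i) (h2 : i < 4098) : ent T3 i ^ 2 * (i * 2097152) ^ 3 ≤ 2 ^ 98 := by
  rcases Nat.lt_or_ge i 4097 with h | h
  · exact ckl_spec c3l i (by omega) (by omega)
  · exact ckl_spec c3l' i (by omega) (by omega)

lemma le_K {v : ℕ} {t : ℕ} (ht : 0 < t) (h : v ^ 2 * t ^ 3 ≤ 2 ^ 98) {τ : ℝ} (h0 : 0 < τ)
    (h1 : τ ≤ t) : (v : ℝ) ≤ 2 ^ 49 * W τ := by
  have ht' : (0 : ℝ) < t := by exact_mod_cast ht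
  have h2 : (v : ℝ) ≤ 2 ^ 49 * W t := by
    apply le_W ht' (by norm_num)
    have h5 : ((v ^ 2 * t ^ 3 : ℕ) : ℝ) ≤ ((2 ^ 98 : ℕ) : ℝ) := Nat.cast_le.2 h
    have h6 : ((2 ^ 98 : ℕ) : ℝ) = (2 ^ 49) ^ 2 := by norm_num
    rw [h6] at h5
    calc (v : ℝ) ^ 2 * (t : ℝ) ^ 3 = ((v ^ 2 * t ^ 3 : ℕ) : ℝ) := by push_cast; ring
      _ ≤ _ := h5
  have h3 : W (t : ℝ) ≤ W τ := W_anti h0 h1
  calc (v : ℝ) ≤ 2 ^ 49 * W t := h2
    _ ≤ 2 ^ 49 * W τ := by gcongr

lemma K_le {v : ℕ} {t : ℕ} (ht : 0 < t) (h : 2 ^ 98 ≤ v ^ 2 * t ^ 3) {τ : ℝ}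
    (h1 : (t : ℝ) ≤ τ) : 2 ^ 49 * W τ ≤ (v : ℝ) := by
  have ht' : (0 : ℝ) < t := by exact_mod_cast ht
  have h2 : 2 ^ 49 * W t ≤ (v : ℝ) := by
    apply W_le ht' (by positivity)
    have h5 : ((2 ^ 98 : ℕ) : ℝ) ≤ ((v ^ 2 * t ^ 3 : ℕ) : ℝ) := Nat.cast_le.2 h
    have h6 : ((2 ^ 98 : ℕ) : ℝ) = (2 ^ 49) ^ 2 := by norm_num
    rw [h6] at h5
    calc ((2 : ℝ) ^ 49) ^ 2 ≤ ((v ^ 2 * t ^ 3 : ℕ) : ℝ) := h5
      _ = _ := by push_cast; ring
  have h3 : W τ ≤ W (t : ℝ) := W_anti ht' h1
  calc 2 ^ 49 * W τ ≤ 2 ^ 49 * W t := by gcongr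
    _ ≤ (v : ℝ) := h2

lemma wlo_eq (t : ℕ) : wlo t = if t ≤ 33554431 then ent T1 (t / 16384 + 1)
    else if t ≤ 268435455 then ent T2 (t / 131072 + 1) else ent T3 (t / 2097152 + 1) := by
  have key : ∀ T k : ℕ, Nat.land (Nat.shiftRight (Nat.shiftRight T (Nat.shiftLeft (Nat.shiftRight t k) 4)) 16)
      65535 = ent T (t / 2 ^ k + 1) := by
    intro T k
    show (((T >>> ((t >>> k) <<< 4)) >>> 16) &&& 65535) = ((T >>> ((t / 2 ^ k + 1) <<< 4)) &&& 65535)
    rw [← Nat.shiftRight_add]
    congr 2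
    rw [Nat.shiftRight_eq_div_pow, Nat.shiftLeft_eq, Nat.shiftLeft_eq]
    ring
  unfold wlo lk
  by_cases h1 : t ≤ 33554431
  · rw [if_pos h1, Nat.ble_eq_true_of_le h1, sel_true, key]; norm_num
  · rw [if_neg h1]
    have e1 : Nat.ble t 33554431 = false := by
      rw [Bool.eq_false_iff]; exact fun h => h1 (Nat.le_of_ble_eq_true h)
    rw [e1, sel_false]
    by_cases h2 : t ≤ 268435455
    · rw [if_pos h2, Nat.ble_eq_true_of_le h2, sel_true, key]; norm_num
    · rw [if_neg h2]
      have e2 : Nat.ble t 268435455 = false := by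
        rw [Bool.eq_false_iff]; exact fun h => h2 (Nat.le_of_ble_eq_true h)
      rw [e2, sel_false, key]; norm_num

lemma wup_eq (t : ℕ) : wup t = (if t ≤ 33554431 then ent T1 (t / 16384)
    else if t ≤ 268435455 then ent T2 (t / 131072) else ent T3 (t / 2097152)) + 1 := by
  have key : ∀ T k : ℕ, Nat.land (Nat.shiftRight T (Nat.shiftLeft (Nat.shiftRight t k) 4))
      65535 = ent T (t / 2 ^ k) := by
    intro T k
    show ((T >>> ((t >>> k) <<< 4)) &&& 65535) = ((T >>> ((t / 2 ^ k) <<< 4)) &&& 65535)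
    rw [Nat.shiftRight_eq_div_pow t k]
  show Nat.land (lk t) 65535 + 1 = _
  unfold lk
  by_cases h1 : t ≤ 33554431
  · rw [if_pos h1, Nat.ble_eq_true_of_le h1, sel_true, key]; norm_num
  · rw [if_neg h1]
    have e1 : Nat.ble t 33554431 = false := by
      rw [Bool.eq_false_iff]; exact fun h => h1 (Nat.le_of_ble_eq_true h)
    rw [e1, sel_false]
    by_cases h2 : t ≤ 268435455
    · rw [if_pos h2, Nat.ble_eq_true_of_le h2, sel_true, key]; norm_num
    · rw [if_neg h2]
      have e2 : Nat.ble t 268435455 = false := by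
        rw [Bool.eq_false_iff]; exact fun h => h2 (Nat.le_of_ble_eq_true h)
      rw [e2, sel_false, key]; norm_num

lemma ent_T3 {i : ℕ} (hi : 4098 ≤ i) : ent T3 i = 0 := by
  have h := Nat.le_of_ble_eq_true T3_lt
  have h0 : T3 >>> 65568 = 0 := Nat.le_zero.1 h
  show ((T3 >>> (i <<< 4)) &&& 65535) = 0
  have e : i <<< 4 = 65568 + (i * 16 - 65568) := by rw [Nat.shiftLeft_eq]; omega
  rw [e, Nat.shiftRight_add, h0]
  simp

/-- the table is correct -/
theorem tab : Tab wlo wup 5000000 where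
  tpos := by norm_num
  lo := by
    intro t τ h0 h1
    rw [wlo_eq]
    have ht : 0 < t := by
      rcases Nat.eq_zero_or_pos t with h | h
      · subst h; norm_num at h1; linarith
      · exact h
    split_ifs with c1 c2
    · apply le_K (t := (t / 16384 + 1) * 16384) (by omega)
        (ckl_spec c1l _ (by omega) (by omega)) h0
      refine h1.trans ?_
      exact_mod_cast (by omega : t ≤ (t / 16384 + 1) * 16384)
    · apply le_K (t := (t / 131072 + 1) * 131072) (by omega)
        (ckl_spec c2l _ (by omega) (by omega)) h0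
      refine h1.trans ?_
      exact_mod_cast (by omega : t ≤ (t / 131072 + 1) * 131072)
    · rcases Nat.lt_or_ge (t / 2097152 + 1) 4098 with h | h
      · apply le_K (t := (t / 2097152 + 1) * 2097152) (by omega)
          (c3L _ (by omega) (by omega)) h0
        refine h1.trans ?_
        exact_mod_cast (by omega : t ≤ (t / 2097152 + 1) * 2097152)
      · rw [ent_T3 h]
        have := W_nonneg τ
        push_cast; positivity
  up := by
    intro t τ h0 h1
    rw [wup_eq]
    split_ifs with c1 c2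
    · apply K_le (t := (t / 16384) * 16384) (by omega)
        (c1u _ (by omega) (by omega))
      refine le_trans ?_ h1
      exact_mod_cast (by omega : (t / 16384) * 16384 ≤ t)
    · apply K_le (t := (t / 131072) * 131072) (by omega)
        (c2u _ (by omega) (by omega))
      refine le_trans ?_ h1
      exact_mod_cast (by omega : (t / 131072) * 131072 ≤ t)
    · rcases Nat.lt_or_ge (t / 2097152) 4097 with h | h
      · apply K_le (t := (t / 2097152) * 2097152) (by omega)
          (c3u _ (by omega) (by omega))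
        refine le_trans ?_ h1
        exact_mod_cast (by omega : (t / 2097152) * 2097152 ≤ t)
      · apply K_le (t := 4097 * 2097152) (by norm_num)
        · calc 2 ^ 98 ≤ 1 ^ 2 * (4097 * 2097152) ^ 3 := by norm_num
            _ ≤ _ := by
              gcongr
              omega
        · refine le_trans ?_ h1
          exact_mod_cast (by omega : 4097 * 2097152 ≤ t)

end

end RelEqN.Small.Box
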