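import Pool.Agent.Lib.MP_b9e19b_mp.Box.GLeafS
import Pool.Agent.Lib.MP_b9e19b_mp.Box.Table

set_option autoImplicit false

/-!
# Soundness of the lattice leaf
-/

namespace RelEqN.Small.Box

open K Finset

namespace GLf

open PF

variable {n N rho wr D EL EH : ℕ} {x y : ℕ → ℝ}

lemma sub_sub_cast (a b : ℕ) : ((a - b : ℕ) : ℝ) - ((b - a : ℕ) : ℝ) = (a : ℝ) - b := by
  rcases le_total a b with h | h
  · rw [Nat.sub_eq_zero_of_le h, Nat.cast_sub h]; simp
  · rw [Nat.sub_eq_zero_of_le h, Nat.cast_sub h]; simp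

/-- position of the lower end -/
lemma pos_lo (L : LatA n) {a b : ℕ} (ha : a < 65536) (hb : b < 65536) {X : ℝ} (h : (a : ℝ) - b ≤ X)
    (hi : ix8 IXF ((a + 65536 - b) >>> 6) ≤ g2n) :
    gr n GG (ix8 IXF ((a + 65536 - b) >>> 6)) ≤ X := by
  have h2 : 64 * ((a + 65536 - b) >>> 6) + b ≤ a + 65536 := by
    rw [Nat.shiftRight_eq_div_pow]
    omega
  have h4 : (a + 65536 - b) >>> 6 < 2049 := by
    rw [Nat.shiftRight_eq_div_pow]
    omega
  generalize (a + 65536 - b) >>> 6 = z at hi h2 h4 ⊢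
  have h1 := L.ixf _ h4 hi
  have h3 : (64 : ℝ) * z + b ≤ a + 65536 := by exact_mod_cast h2
  linarith

/-- position of the upper end -/
lemma pos_hi (L : LatA n) {a b : ℕ} (ha : a < 65536) (hb : b < 65536) {X : ℝ} (h : X ≤ (a : ℝ) - b)
    (hi : ix8 IXC ((a + 65599 - b) >>> 6) ≤ g2n) :
    X ≤ gr n GG (ix8 IXC ((a + 65599 - b) >>> 6)) := by
  have h2 : a + 65536 ≤ 64 * ((a + 65599 - b) >>> 6) + b := by
    rw [Nat.shiftRight_eq_div_pow]
    omega
  have h4 : (a + 65599 - b) >>> 6 < 2049 := by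
    rw [Nat.shiftRight_eq_div_pow]
    omega
  generalize (a + 65599 - b) >>> 6 = z at hi h2 h4 ⊢
  have h1 := L.ixc _ h4 hi
  have h3 : (a : ℝ) + 65536 ≤ 64 * z + b := by exact_mod_cast h2
  linarith

/-- multipliers of the equations -/
noncomputable def ux (D i : ℕ) : ℝ := (fld D (32 + 32 * i) : ℝ) / 4096

/-- multipliers of the equations -/
noncomputable def uy (D i : ℕ) : ℝ := (fld D (48 + 32 * i) : ℝ) / 4096

/-- the slope (without the offset) -/
noncomputable def sb (N D c i k : ℕ) : ℝ := (gb N D c i k : ℝ) - 16384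

/-- the number added to `κ` -/
noncomputable def eh (N D Sh i k : ℕ) : ℝ := (gh N D i k : ℝ) - if i = 1 then (Sh : ℝ) else 0

lemma sel_beq (i S : ℕ) : ((sel (Nat.beq i 1) S 0 : ℕ) : ℝ) = if i = 1 then (S : ℝ) else 0 := by
  split_ifs with h
  · subst h
    rfl
  · have e : Nat.beq i 1 = false := by
      rw [← Bool.not_eq_true]
      intro hb
      exact h (Nat.eq_of_beq_eq_true hb)
    rw [e, sel_false]
    simp

/-- **One pair.** -/
lemma gpair_sound (L : LatA n) {K E Sh : ℕ} (he : Ext N x y EL EH) {i k : ℕ} (hi : i < N)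
    (hk : k < N)
    (hv : gpair N rho K (E - 32768) (32768 - E) D Sh EL EH i k ≤ 4611686018427387903)
    (hrho : 5000000 ≤ rho) (ht : (rho : ℝ) ≤ tt x y i k) :
    (2 : ℝ) ^ 31 - gpair N rho K (E - 32768) (32768 - E) D Sh EL EH i k
      ≤ lpf N (ux D i - ux D k) (uy D i - uy D k) (K + eh N D Sh i k)
        (((E : ℝ) - 32768) / 2 ^ 24)
        (2 * sb N D 0 i k) (2 * sb N D 15 i k) (x i - x k) (y i - y k) := by
  have a1 := he.xl i hi
  have a2 := he.xh i hi
  have a3 := he.yl i hi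
  have a4 := he.yh i hi
  have b1 := he.xl k hk
  have b2 := he.xh k hk
  have b3 := he.yl k hk
  have b4 := he.yh k hk
  have e : gpair N rho K (E - 32768) (32768 - E) D Sh EL EH i k =
    gval N rho (K + Nat.land ((D >>> rpos N i k) >>> 30) 4095 - sel (Nat.beq i 1) Sh 0)
      (sel (Nat.beq i 1) Sh 0 - (K + Nat.land ((D >>> rpos N i k) >>> 30) 4095))
      (E - 32768) (32768 - E)
      (ix8 IXF ((fld EL (32 * i) + 65536 - fld EH (32 * k)) >>> 6))
      (ix8 IXC ((fld EH (32 * i) + 65599 - fld EL (32 * k)) >>> 6))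
      (ix8 IXF ((fld EL (32 * i + 16) + 65536 - fld EH (32 * k + 16)) >>> 6))
      (ix8 IXC ((fld EH (32 * i + 16) + 65599 - fld EL (32 * k + 16)) >>> 6))
      (fld D (32 + 32 * i) - fld D (32 + 32 * k)) (fld D (32 + 32 * k) - fld D (32 + 32 * i))
      (fld D (48 + 32 * i) - fld D (48 + 32 * k)) (fld D (48 + 32 * k) - fld D (48 + 32 * i))
      (gb N D 0 i k) (Nat.land ((D >>> rpos N i k) >>> 15) 32767)
      (Nat.land ((D >>> rpos N i k) >>> 42) 4194303) := rfl
  have e2 : Nat.land ((D >>> rpos N i k) >>> 15) 32767 = gb N D 15 i k := by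
    rw [← Nat.shiftRight_add]; rfl
  have e3 : Nat.land ((D >>> rpos N i k) >>> 30) 4095 = gh N D i k := by
    rw [← Nat.shiftRight_add]; rfl
  rw [e2, e3] at e
  rw [e] at hv ⊢
  have key := gval_sound L (N := N) (rho := rho) (by omega) (by omega) (by omega)
    (by omega) hv hrho (X := x i - x k) (Y := y i - y k)
    (fun h => pos_lo L (fld_lt _ _) (fld_lt _ _) (by linarith) h)
    (fun h => pos_hi L (fld_lt _ _) (fld_lt _ _) (by linarith) h)
    (fun h => pos_lo L (fld_lt _ _) (fld_lt _ _) (by linarith) h)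
    (fun h => pos_hi L (fld_lt _ _) (fld_lt _ _) (by linarith) h) ht
  refine le_trans key (le_of_eq ?_)
  rw [sub_sub_cast, sub_sub_cast, sub_sub_cast, sub_sub_cast]
  unfold ux uy sb eh
  rw [sel_beq]
  push_cast
  congr 1 <;> ring

/-- the slope of a body -/
noncomputable def sG (N D c j : ℕ) : ℝ :=
  ∑ k ∈ range j, sb N D c j k - ∑ k ∈ (range N).filter (fun k => j < k), sb N D c k j

lemma gb_le (N D c i k : ℕ) : gb N D c i k ≤ 32767 := by
  show Nat.land _ 32767 ≤ 32767
  exact Nat.and_le_right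

lemma sum_filter_lt {j : ℕ} (hj : j < N) (f : ℕ → ℝ) :
    ∑ k ∈ (range N).filter (fun k => j < k), f k = ∑ m ∈ range (N - 1 - j), f (j + 1 + m) := by
  have h : (range N).filter (fun k => j < k) = Ico (j + 1) N := by
    ext k
    simp only [mem_filter, mem_range, mem_Ico]
    omega
  rw [h, Finset.sum_Ico_eq_sum_range]
  have : N - (j + 1) = N - 1 - j := by omega
  rw [this]

lemma zs_eq {j c : ℕ} (hj : j < N) : (zs N D c j : ℝ) = sG N D c j + 16384 * ((N : ℝ) - 1) := by
  have e : zs N D c j = (∑ k ∈ range j, gb N D c j k)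
      + ∑ m ∈ range (N - 1 - j), (32768 - gb N D c (j + 1 + m) j) := by
    rw [← sN_eq, ← sN_eq]
    rfl
  have e3 : ∀ m, ((32768 - gb N D c (j + 1 + m) j : ℕ) : ℝ) = 16384 - sb N D c (j + 1 + m) j := by
    intro m
    rw [Nat.cast_sub (by have := gb_le N D c (j + 1 + m) j; omega)]
    unfold sb
    push_cast
    ring
  have e4 : ∀ k, (gb N D c j k : ℝ) = sb N D c j k + 16384 := by
    intro k; unfold sb; ring
  rw [e]
  push_cast
  unfold sG
  rw [sum_filter_lt hj]
  simp only [e3, e4, Finset.sum_add_distrib, Finset.sum_sub_distrib, Finset.sum_const, card_range,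
    nsmul_eq_mul]
  have e5 : ((N - 1 - j : ℕ) : ℝ) = N - 1 - j := by
    rw [Nat.cast_sub (by omega), Nat.cast_sub (by omega)]
    push_cast; ring
  rw [e5]
  ring

/-- the bound of one coordinate -/
lemma lu_bound {Z C lo hi : ℕ} {z : ℝ} (h1 : (lo : ℝ) ≤ z + 32768) (h2 : z + 32768 ≤ hi) :
    (lup Z C lo : ℝ) - lun Z C hi ≤ ((Z : ℝ) - C) * z := by
  have e1 : lup Z C lo = (Z - C) * lo + (C - Z) * 32768 := rfl
  have e2 : lun Z C hi = (Z - C) * 32768 + (C - Z) * hi := rfl
  rw [e1, e2]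
  push_cast
  rcases le_total C Z with h | h
  · have e3 : ((C - Z : ℕ) : ℝ) = 0 := by rw [Nat.sub_eq_zero_of_le h]; simp
    rw [e3, Nat.cast_sub h]
    have h3 : (C : ℝ) ≤ Z := by exact_mod_cast h
    nlinarith
  · have e3 : ((Z - C : ℕ) : ℝ) = 0 := by rw [Nat.sub_eq_zero_of_le h]; simp
    rw [e3, Nat.cast_sub h]
    have h3 : (Z : ℝ) ≤ C := by exact_mod_cast h
    nlinarith

lemma sum_split {N : ℕ} (hN : 2 ≤ N) (f : ℕ → ℝ) :
    ∑ j ∈ range N, f j = f 0 + f 1 + ∑ m ∈ range (N - 2), f (m + 2) := by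
  obtain ⟨M, rfl⟩ : ∃ M, N = M + 2 := ⟨N - 2, by omega⟩
  rw [Finset.sum_range_succ', Finset.sum_range_succ']
  simp only [Nat.add_sub_cancel]
  ring

/-- multiplier of the order as a real number -/
lemma olm'_eq (m : ℕ) : olm' N D m = if 1 ≤ m then olm N D (m - 1) else 0 := by
  unfold olm'
  split_ifs with h
  · have : Nat.ble 1 m = true := Nat.ble_eq_true_of_le h
    rw [this]; rfl
  · have : Nat.ble 1 m = false := by
      rw [← Bool.not_eq_true]
      intro hb
      exact h (Nat.le_of_ble_eq_true hb)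
    rw [this]; rfl

lemma lam_zero {m : ℕ} (h : N < m + 4) : olm N D m = 0 := by
  unfold olm
  have : Nat.ble (m + 4) N = false := by
    rw [← Bool.not_eq_true]
    intro hb
    have := Nat.le_of_ble_eq_true hb
    omega
  have e : Nat.ble (Nat.add m 4) N = Nat.ble (m + 4) N := rfl
  rw [e, this]; rfl

/-- summation by parts -/
lemma abel (a z : ℕ → ℝ) (M : ℕ) :
    ∑ m ∈ range (M + 1), (a m - if 1 ≤ m then a (m - 1) else 0) * z m
      = ∑ m ∈ range M, a m * (z m - z (m + 1)) + a M * z M := by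
  induction M with
  | zero => simp
  | succ M ih =>
    rw [Finset.sum_range_succ, ih, Finset.sum_range_succ]
    rw [if_pos (by omega), Nat.add_sub_cancel]
    ring

/-- the multipliers of the order -/
lemma order_le (hN : 3 ≤ N) (hc : Cfg N x y) :
    ∑ m ∈ range (N - 2), ((olm N D m : ℝ) - olm' N D m) * y (m + 2) ≤ 0 := by
  obtain ⟨M, hM⟩ : ∃ M, N - 2 = M + 1 := ⟨N - 3, by omega⟩
  have e : ∀ m, ((olm' N D m : ℕ) : ℝ) = if 1 ≤ m then ((olm N D (m - 1) : ℕ) : ℝ) else 0 := by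
    intro m
    rw [olm'_eq]
    split_ifs <;> simp
  simp only [e]
  rw [hM, abel (fun m => ((olm N D m : ℕ) : ℝ)) (fun m => y (m + 2)) M]
  rw [lam_zero (by omega), Nat.cast_zero, zero_mul, add_zero]
  refine Finset.sum_nonpos fun m hm => ?_
  have hm' := mem_range.1 hm
  have h := hc.srt (m + 2) (by omega) (by omega)
  exact mul_nonpos_of_nonneg_of_nonpos (Nat.cast_nonneg _)
    (by rw [show m + 1 + 2 = m + 2 + 1 by ring]; linarith)

lemma sum_Ico_shift (z : ℕ → ℝ) : ∑ k ∈ Ico 2 N, z k = ∑ m ∈ range (N - 2), z (m + 2) := by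
  rw [Finset.sum_Ico_eq_sum_range]
  exact Finset.sum_congr rfl fun k _ => by rw [add_comm]

/-- **The linear part.** -/
lemma lin_bound (hN : 3 ≤ N) (hc : Cfg N x y) (he : Ext N x y EL EH) :
    2 * ((glp N D EL : ℝ) - gln N D EH) ≤
      ∑ i ∈ range N, ∑ k ∈ range i, (2 * sb N D 0 i k * (x i - x k)
        + 2 * sb N D 15 i k * (y i - y k)) := by
  have e0 : ∑ i ∈ range N, ∑ k ∈ range i, (2 * sb N D 0 i k * (x i - x k)
        + 2 * sb N D 15 i k * (y i - y k))
      = 2 * (∑ i ∈ range N, ∑ k ∈ range i, sb N D 0 i k * (x i - x k)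
        + ∑ i ∈ range N, ∑ k ∈ range i, sb N D 15 i k * (y i - y k)) := by
    rw [← Finset.sum_add_distrib, Finset.mul_sum]
    refine Finset.sum_congr rfl fun i _ => ?_
    rw [← Finset.sum_add_distrib, Finset.mul_sum]
    exact Finset.sum_congr rfl fun k _ => by ring
  rw [e0, lin_bodies, lin_bodies]
  have e1 : ∀ (c : ℕ) (z : ℕ → ℝ), ∑ i ∈ range N, (∑ k ∈ range i, sb N D c i k
      - ∑ k ∈ (range N).filter (fun k => i < k), sb N D c k i) * z i
      = ∑ i ∈ range N, sG N D c i * z i := fun c z => rfl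
  rw [e1, e1, sum_split (N := N) (by omega) (fun i => sG N D 0 i * x i),
    sum_split (N := N) (by omega) (fun i => sG N D 15 i * y i), hc.x0, hc.y0, hc.y1]
  have e2 : glp N D EL = lup (zs N D 0 1) (zs N D 0 0) (fld EL 32)
      + ∑ m ∈ range (N - 2), (lup (zs N D 0 (m + 2)) (16384 * (N - 1) + msx N D)
          (fld EL (32 * (m + 2)))
        + lup (zs N D 15 (m + 2) + olm N D m) (16384 * (N - 1) + (msy N D + olm' N D m))
          (fld EL (32 * (m + 2) + 16))) := by
    rw [← sN_eq]; rfl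
  have e3 : gln N D EH = lun (zs N D 0 1) (zs N D 0 0) (fld EH 32)
      + ∑ m ∈ range (N - 2), (lun (zs N D 0 (m + 2)) (16384 * (N - 1) + msx N D)
          (fld EH (32 * (m + 2)))
        + lun (zs N D 15 (m + 2) + olm N D m) (16384 * (N - 1) + (msy N D + olm' N D m))
          (fld EH (32 * (m + 2) + 16))) := by
    rw [← sN_eq]; rfl
  have e5 : ((N - 1 : ℕ) : ℝ) = N - 1 := by
    rw [Nat.cast_sub (by omega)]; push_cast; ring
  have h1 := lu_bound (Z := zs N D 0 1) (C := zs N D 0 0) (z := x 1) (he.xl 1 (by omega))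
    (he.xh 1 (by omega))
  rw [zs_eq (by omega), zs_eq (by omega)] at h1
  have h2 : ∑ m ∈ range (N - 2),
      (((lup (zs N D 0 (m + 2)) (16384 * (N - 1) + msx N D) (fld EL (32 * (m + 2))) : ℕ) : ℝ)
        + ((lup (zs N D 15 (m + 2) + olm N D m) (16384 * (N - 1) + (msy N D + olm' N D m))
          (fld EL (32 * (m + 2) + 16)) : ℕ) : ℝ)
        - (((lun (zs N D 0 (m + 2)) (16384 * (N - 1) + msx N D) (fld EH (32 * (m + 2))) : ℕ) : ℝ)
        + ((lun (zs N D 15 (m + 2) + olm N D m) (16384 * (N - 1) + (msy N D + olm' N D m))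
          (fld EH (32 * (m + 2) + 16)) : ℕ) : ℝ)))
      ≤ ∑ m ∈ range (N - 2), (sG N D 0 (m + 2) * x (m + 2) + sG N D 15 (m + 2) * y (m + 2)
        + ((olm N D m : ℝ) - olm' N D m) * y (m + 2)
        - msx N D * x (m + 2) - msy N D * y (m + 2)) := by
    refine Finset.sum_le_sum fun m hm => ?_
    have hm' := mem_range.1 hm
    have hj : m + 2 < N := by omega
    have g1 := lu_bound (Z := zs N D 0 (m + 2)) (C := 16384 * (N - 1) + msx N D)
      (z := x (m + 2)) (he.xl _ hj) (he.xh _ hj)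
    have g2 := lu_bound (Z := zs N D 15 (m + 2) + olm N D m)
      (C := 16384 * (N - 1) + (msy N D + olm' N D m)) (z := y (m + 2)) (he.yl _ hj) (he.yh _ hj)
    push_cast at g1 g2
    rw [zs_eq hj, e5] at g1 g2
    have r1 : (sG N D 0 (m + 2) + 16384 * ((N : ℝ) - 1) - (16384 * ((N : ℝ) - 1) + msx N D))
        * x (m + 2) = sG N D 0 (m + 2) * x (m + 2) - msx N D * x (m + 2) := by ring
    have r2 : (sG N D 15 (m + 2) + 16384 * ((N : ℝ) - 1) + olm N D m
        - (16384 * ((N : ℝ) - 1) + (msy N D + olm' N D m))) * y (m + 2)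
        = sG N D 15 (m + 2) * y (m + 2) + ((olm N D m : ℝ) - olm' N D m) * y (m + 2)
          - msy N D * y (m + 2) := by ring
    rw [r1] at g1
    rw [r2] at g2
    linarith
  have h3 := order_le (D := D) hN hc
  have h4 : 0 ≤ (msx N D : ℝ) * ∑ m ∈ range (N - 2), x (m + 2) := by
    rw [← sum_Ico_shift]
    exact mul_nonneg (Nat.cast_nonneg _) hc.sx
  have h5 : 0 ≤ (msy N D : ℝ) * ∑ m ∈ range (N - 2), y (m + 2) := by
    rw [← sum_Ico_shift]
    exact mul_nonneg (Nat.cast_nonneg _) hc.sy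
  rw [Finset.mul_sum] at h4 h5
  rw [e2, e3]
  push_cast
  simp only [Finset.sum_sub_distrib, Finset.sum_add_distrib] at h2 ⊢
  have h1' : ((lup (zs N D 0 1) (zs N D 0 0) (fld EL 32) : ℕ) : ℝ)
      - ((lun (zs N D 0 1) (zs N D 0 0) (fld EH 32) : ℕ) : ℝ)
      ≤ (sG N D 0 1 - sG N D 0 0) * x 1 := by
    refine le_trans h1 (le_of_eq ?_)
    ring
  linarith

/-- the difference of the weights -/
lemma ww_le (hN : 2 ≤ N) (hc : Cfg N x y) {i k : ℕ} (hi : i < N) (hk : k < N) (hik : i ≠ k) :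
    W (tt x y i k) ≤ W (tt x y 1 0) := by
  have h1 := hc.clo i hi k hk hik
  have h2 : tt x y 1 0 = (2 * x 1) ^ 2 := by
    unfold tt
    rw [hc.x0, hc.y0, hc.y1]
    ring
  rw [h2]
  have h3 : 0 < (2 * x 1) ^ 2 := by
    have := hc.apos
    positivity
  exact W_anti h3 h1

/-- **Soundness of the lattice leaf.** -/
theorem gleaf_sound (L : LatA n) (hN : 3 ≤ N) (hc : Cfg N x y) (he : Ext N x y EL EH)
    (hrho : 5000000 ≤ rho) (hwr : 2 ^ 49 * W rho ≤ wr)
    (ht : ∀ i < N, ∀ k < N, i ≠ k → (rho : ℝ) ≤ tt x y i k) :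
    gleaf N rho wr D EL EH = false := by
  rw [← Bool.not_eq_true]
  intro h
  obtain ⟨K, hK⟩ : ∃ K, K = Nat.land D 65535 := ⟨_, rfl⟩
  obtain ⟨E, hE⟩ : ∃ E, E = Nat.land (Nat.shiftRight D 16) 65535 := ⟨_, rfl⟩
  obtain ⟨h0, hh0⟩ : ∃ h0, h0 = gh N D 1 0 := ⟨_, rfl⟩
  obtain ⟨Sh, hSh⟩ : ∃ Sh, Sh = gsum N D - h0 := ⟨_, rfl⟩
  have h' : (Nat.ble (gtot N rho wr K (E - 32768) (32768 - E) D EL EH) 4611686018427387903
      && Nat.ble (K * (4096 * (2 * N - 3)) + (gtot N rho wr K (E - 32768) (32768 - E) D EL EH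
        + (2 * gln N D EH + 1)))
        (N * (N - 1) * 1073741824 + 2 * glp N D EL)) = true := by
    rw [hK, hE]; exact h
  rw [Bool.and_eq_true] at h'
  have h1 := Nat.le_of_ble_eq_true h'.1
  have h2 := Nat.le_of_ble_eq_true h'.2
  have htot : gtot N rho wr K (E - 32768) (32768 - E) D EL EH
      = h0 * wr
        + ∑ i ∈ range N, ∑ k ∈ range i, gpair N rho K (E - 32768) (32768 - E) D Sh EL EH i k := by
    have : gtot N rho wr K (E - 32768) (32768 - E) D EL EH = h0 * wr
        + sN N (fun i => sN i (fun k => gpair N rho K (E - 32768) (32768 - E) D Sh EL EH i k)) := by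
      rw [hSh, hh0]; rfl
    rw [this, sN_eq]
    congr 1
    exact Finset.sum_congr rfl fun i _ => sN_eq _ _
  have hSh' : Sh + h0 = ∑ i ∈ range N, ∑ k ∈ range i, gh N D i k := by
    have : gsum N D = sN N (fun i => sN i (fun k => gh N D i k)) := rfl
    have e8 : gsum N D = ∑ i ∈ range N, ∑ k ∈ range i, gh N D i k := by
      rw [this, sN_eq]
      exact Finset.sum_congr rfl fun i _ => sN_eq _ _
    have e9 : h0 ≤ ∑ i ∈ range N, ∑ k ∈ range i, gh N D i k := by
      rw [hh0]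
      refine le_trans ?_ (Finset.single_le_sum (f := fun i => ∑ k ∈ range i, gh N D i k)
        (fun _ _ => Nat.zero_le _) (mem_range.2 (show 1 < N by omega)))
      exact Finset.single_le_sum (f := fun k => gh N D 1 k) (fun _ _ => Nat.zero_le _)
        (mem_range.2 (show 0 < 1 by omega))
    rw [← e8] at e9 ⊢
    omega
  have hle : ∀ i < N, ∀ k < i,
      gpair N rho K (E - 32768) (32768 - E) D Sh EL EH i k ≤ 4611686018427387903 := by
    intro i hi k hk
    refine le_trans ?_ h1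
    rw [htot]
    refine le_trans ?_ (Nat.le_add_left _ _)
    refine le_trans ?_ (Finset.single_le_sum (f := fun i => ∑ k ∈ range i,
      gpair N rho K (E - 32768) (32768 - E) D Sh EL EH i k) (fun _ _ => Nat.zero_le _)
      (mem_range.2 hi))
    exact Finset.single_le_sum (f := fun k =>
      gpair N rho K (E - 32768) (32768 - E) D Sh EL EH i k) (fun _ _ => Nat.zero_le _)
      (mem_range.2 hk)
  obtain ⟨w, hw⟩ : ∃ w, w = 2 ^ 49 * W (tt x y 1 0) := ⟨_, rfl⟩
  refine lp_test hc (ux D) (uy D) (κ := K) (e := ((E : ℝ) - 32768) / 2 ^ 24) (Nat.cast_nonneg _)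
    (fun i k => 2 * sb N D 0 i k) (fun i k => 2 * sb N D 15 i k)
    (fun i k => (2 : ℝ) ^ 31 - gpair N rho K (E - 32768) (32768 - E) D Sh EL EH i k
      - eh N D Sh i k * w)
    (L := 2 * ((glp N D EL : ℝ) - gln N D EH)) ?_ (lin_bound hN hc he) ?_
  · intro i hi k hk
    have key := gpair_sound L he hi (by omega) (hle i hi k hk) hrho (ht i hi k (by omega) (by omega))
    rw [lpf_add] at key
    have h3 : eh N D Sh i k * (2 ^ 49 * W ((x i - x k) ^ 2 + (y i - y k) ^ 2))
        ≤ eh N D Sh i k * w := by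
      rw [hw]
      by_cases hi1 : i = 1
      · subst hi1
        have hk0 : k = 0 := by omega
        subst hk0
        exact le_of_eq rfl
      · have h4 : 0 ≤ eh N D Sh i k := by
          unfold eh
          rw [if_neg hi1, sub_zero]
          exact Nat.cast_nonneg _
        refine mul_le_mul_of_nonneg_left ?_ h4
        exact mul_le_mul_of_nonneg_left (ww_le (by omega) hc hi (by omega) (by omega))
          (by norm_num)
    show _ ≤ lpf N _ _ _ _ _ _ _ _
    linarith
  · have h3 : (K : ℝ) * (4096 * ((2 * N - 3 : ℕ) : ℝ))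
        + ((gtot N rho wr K (E - 32768) (32768 - E) D EL EH : ℝ) + (2 * gln N D EH + 1))
        ≤ N * ((N - 1 : ℕ) : ℝ) * 1073741824 + 2 * glp N D EL := by
      exact_mod_cast h2
    have e1 : ((2 * N - 3 : ℕ) : ℝ) = 2 * N - 3 := by
      rw [Nat.cast_sub (by omega)]; push_cast; ring
    have e2 : ((N - 1 : ℕ) : ℝ) = N - 1 := by
      rw [Nat.cast_sub (by omega)]; push_cast; ring
    rw [e1, e2] at h3
    have e6 : ∑ i ∈ range N, ∑ k ∈ range i, eh N D Sh i k = h0 := by
      unfold eh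
      simp only [Finset.sum_sub_distrib]
      have e7 : ∑ i ∈ range N, ∑ k ∈ range i, (if i = 1 then (Sh : ℝ) else 0) = Sh := by
        rw [Finset.sum_eq_single 1]
        · simp
        · intro i _ hi
          exact Finset.sum_eq_zero fun k _ => if_neg hi
        · intro h
          exact absurd (mem_range.2 (by omega)) h
      rw [e7]
      have e8 : (Sh : ℝ) + h0 = ∑ i ∈ range N, ∑ k ∈ range i, (gh N D i k : ℝ) := by
        exact_mod_cast hSh'
      rw [← e8]
      ring
    have hw2 : w ≤ wr := by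
      rw [hw]
      refine le_trans ?_ hwr
      have h4 := ht 1 (by omega) 0 (by omega) (by omega)
      have h5 : (0 : ℝ) < rho := by
        have : (5000000 : ℝ) ≤ rho := by exact_mod_cast hrho
        linarith
      exact mul_le_mul_of_nonneg_left (W_anti h5 h4) (by norm_num)
    have hw3 : (h0 : ℝ) * w ≤ h0 * wr := mul_le_mul_of_nonneg_left hw2 (Nat.cast_nonneg _)
    have e3 : ∑ i ∈ range N, ∑ k ∈ range i,
        ((2 : ℝ) ^ 31 - gpair N rho K (E - 32768) (32768 - E) D Sh EL EH i k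
          - eh N D Sh i k * w)
        = N * ((N : ℝ) - 1) * 1073741824 + h0 * wr
          - gtot N rho wr K (E - 32768) (32768 - E) D EL EH - h0 * w := by
      rw [htot]
      push_cast
      simp only [Finset.sum_sub_distrib, Finset.sum_const, card_range, nsmul_eq_mul]
      simp only [← Finset.sum_mul]
      rw [e6]
      have e4 : (∑ i ∈ range N, (i : ℝ)) * 2 = N * ((N : ℝ) - 1) := by
        have := Finset.sum_range_id_mul_two N
        have h5 : (((∑ i ∈ range N, i) * 2 : ℕ) : ℝ) = ((N * (N - 1) : ℕ) : ℝ) := by rw [this]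
        push_cast [e2] at h5
        exact h5
      have e5 : (∑ i ∈ range N, (i : ℝ)) = N * ((N : ℝ) - 1) / 2 := by linarith
      rw [e5]
      ring
    rw [e3]
    linarith

/-- **The leaf of the stream.** -/
theorem gl9_sound (L : LatA n) (h4 : 4 ≤ N) (h7 : N ≤ 7) (hc : Cfg N x y) {Lo Hi s : ℕ}
    (hB : InBox N Lo Hi x y) : gl9 N Lo Hi s = 0 := by
  have he := ext_of_box h4 h7 hc hB
  obtain ⟨hr, hρ⟩ := rh_spec h4 h7 hc hB
  have h := gleaf_sound L (D := Nat.land (Nat.shiftRight s 5)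
    (Nat.sub (Nat.shiftLeft 1 (glen N)) 1)) (wr := wup (rh Lo)) (by omega) hc he hr
    (tab.up (rh Lo) _ hr le_rfl) hρ
  unfold gl9
  rw [h]
  rfl

end GLf

end RelEqN.Small.Box
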