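import Pool.Agent.Lib.MP_b9e19b_mp.Box.Tree
import Pool.Agent.Lib.MP_b9e19b_mp.Box.Table
import Pool.Agent.Lib.MP_b9e19b_mp.Box.P4K

set_option autoImplicit false

/-!
# The tables are correct
-/

namespace RelEqN.Small.Box

open K Finset

theorem p4ok {N : ℕ} (h4 : 4 ≤ N) (h7 : N ≤ 7) : P4OK N where
  neg := fun hc _ _ _ _ _ he h0 hr hw => pneg_sound (by omega) h7 tab hc he h0 hr hw
  big := fun hc _ _ _ _ _ he h0 hr hw => pbig_sound (by omega) h7 tab hc he h0 hr hw

theorem goodF4 : GoodF 4 F4 := by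
  unfold GoodF
  decide +kernel

theorem goodF5 : GoodF 5 F5 := by
  unfold GoodF
  decide +kernel

theorem goodF6 : GoodF 6 F6 := by
  unfold GoodF
  decide +kernel

theorem goodF7 : GoodF 7 F7 := by
  unfold GoodF
  decide +kernel

theorem goodW4 : GoodW 4 w4 := by
  unfold GoodW
  decide +kernel

theorem goodW5 : GoodW 5 w5 := by
  unfold GoodW
  decide +kernel

theorem goodW6 : GoodW 6 w6 := by
  unfold GoodW
  decide +kernel

theorem goodW7 : GoodW 7 w7 := by
  unfold GoodW
  decide +kernel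

theorem good4 : Good 4 6 F4 w4 :=
  ⟨by norm_num, by norm_num, goodF4, by decide +kernel, goodW4, p4ok (by norm_num) (by norm_num)⟩

theorem good5 : Good 5 10 F5 w5 :=
  ⟨by norm_num, by norm_num, goodF5, by decide +kernel, goodW5, p4ok (by norm_num) (by norm_num)⟩

theorem good6 : Good 6 15 F6 w6 :=
  ⟨by norm_num, by norm_num, goodF6, by decide +kernel, goodW6, p4ok (by norm_num) (by norm_num)⟩

theorem good7 : Good 7 21 F7 w7 :=
  ⟨by norm_num, by norm_num, goodF7, by decide +kernel, goodW7, p4ok (by norm_num) (by norm_num)⟩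

end RelEqN.Small.Box
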