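import Pool.Agent.Lib.MP_b9e19b_mp.Box.LFineK
import Pool.Agent.Lib.MP_b9e19b_mp.Box.PFine
import Pool.Agent.Lib.MP_b9e19b_mp.Box.LP

set_option autoImplicit false

/-!
# Soundness of the fine linear programming leaf
-/

namespace RelEqN.Small.Box.LF

open K Finset Set

lemma f32_lt (st a : ℕ) : f32 st a < 4294967296 := by
  have : f32 st a = (st >>> a) % 2 ^ 32 := Nat.and_two_pow_sub_one_eq_mod _ 32
  rw [this]
  exact Nat.mod_lt _ (by norm_num)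

/-! ### one point -/

lemma sub_parts (x d : ℕ) : (((x - d : ℕ) : ℝ) - ((d - x : ℕ) : ℝ) = (x : ℝ) - d) ∧
    (((x - d : ℕ) : ℝ) * ((x - d : ℕ) : ℝ) + ((d - x : ℕ) : ℝ) * ((d - x : ℕ) : ℝ)
      = ((x : ℝ) - d) ^ 2) := by
  rcases le_total d x with h | h
  · rw [Nat.sub_eq_zero_of_le h, Nat.cast_sub h]
    constructor
    · push_cast; ring
    · push_cast; ring
  · rw [Nat.sub_eq_zero_of_le h, Nat.cast_sub h]
    constructor
    · push_cast; ring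
    · push_cast; ring

lemma lw_eq (w t : ℕ) : lw w t = (w * w * (t * (t * t)) - 1329227995784915872903807060280344576)
    + (1329227995784915872903807060280344576 - (w + 1) * (w + 1) * (t * (t * t))) := rfl

lemma lw_spec {w t : ℕ} (h : lw w t = 0) (ht : (0 : ℝ) < (t : ℝ)) :
    (w : ℝ) ≤ 2 ^ 60 * W t ∧ 2 ^ 60 * W t ≤ (w : ℝ) + 1 := by
  rw [lw_eq] at h
  have h1 : w * w * (t * (t * t)) ≤ 1329227995784915872903807060280344576 := by omega
  have h2 : 1329227995784915872903807060280344576 ≤ (w + 1) * (w + 1) * (t * (t * t)) := by omega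
  have h1' : ((w * w * (t * (t * t)) : ℕ) : ℝ)
      ≤ ((1329227995784915872903807060280344576 : ℕ) : ℝ) := Nat.cast_le.2 h1
  have h2' : ((1329227995784915872903807060280344576 : ℕ) : ℝ)
      ≤ (((w + 1) * (w + 1) * (t * (t * t)) : ℕ) : ℝ) := Nat.cast_le.2 h2
  push_cast at h1' h2'
  constructor
  · apply le_W ht (by norm_num)
    calc (w : ℝ) ^ 2 * (t : ℝ) ^ 3 = (w : ℝ) * w * (t * (t * t)) := by ring
      _ ≤ 1329227995784915872903807060280344576 := h1'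
      _ = (2 ^ 60) ^ 2 := by norm_num
  · apply W_le ht (by positivity)
    calc ((2 : ℝ) ^ 60) ^ 2 = 1329227995784915872903807060280344576 := by norm_num
      _ ≤ ((w : ℝ) + 1) * (w + 1) * (t * (t * t)) := h2'
      _ = ((w : ℝ) + 1) ^ 2 * (t : ℝ) ^ 3 := by ring

lemma lv_eq (c w gp gn hp hn : ℕ) : lv c w gp gn hp hn =
    (c + ((w + 1) * gn + hp <<< 23)) - (39614081257132168796771975168 + (w * gp + hn <<< 23)) := rfl

lemma lv_spec {c w gp gn hp hn : ℕ} (h : lv c w gp gn hp hn = 0) :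
    (c : ℝ) - 2 ^ 95 ≤ (w : ℝ) * gp - ((w : ℝ) + 1) * gn - 2 ^ 23 * ((hp : ℝ) - hn) := by
  rw [lv_eq] at h
  have h1 : c + ((w + 1) * gn + hp <<< 23)
      ≤ 39614081257132168796771975168 + (w * gp + hn <<< 23) := by omega
  rw [Nat.shiftLeft_eq, Nat.shiftLeft_eq] at h1
  have h1' : ((c + ((w + 1) * gn + hp * 2 ^ 23) : ℕ) : ℝ)
      ≤ ((39614081257132168796771975168 + (w * gp + hn * 2 ^ 23) : ℕ) : ℝ) := Nat.cast_le.2 h1
  push_cast at h1'
  have e : (2 : ℝ) ^ 95 = 39614081257132168796771975168 := by norm_num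
  rw [e]
  linarith

lemma lpt_eq (N kk c w ap an bp bn s1 s2 x d y d' : ℕ) :
    lpt N kk c w ap an bp bn s1 s2 x d y d' =
      lw w (((x - d) * (x - d) + (d - x) * (d - x)) + ((y - d') * (y - d') + (d' - y) * (d' - y)))
      + lv c w (kk + (N * (ap * (x - d) + an * (d - x)) + N * (bp * (y - d') + bn * (d' - y))))
          (N * (ap * (d - x) + an * (x - d)) + N * (bp * (d' - y) + bn * (y - d')))
          ((s1 * (x - d) + (d - x) <<< 31) + (s2 * (y - d') + (d' - y) <<< 31))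
          ((s1 * (d - x) + (x - d) <<< 31) + (s2 * (d' - y) + (y - d') <<< 31)) := rfl

lemma comb_aux {Q w gp gn hp hn c : ℝ} (w1 : w ≤ Q) (w2 : Q ≤ w + 1) (hgp : 0 ≤ gp)
    (hgn : 0 ≤ gn) (hv : c ≤ w * gp - (w + 1) * gn - 2 ^ 23 * (hp - hn)) :
    c ≤ Q * (gp - gn) - 2 ^ 23 * (hp - hn) := by
  have k1 : w * gp ≤ Q * gp := mul_le_mul_of_nonneg_right w1 hgp
  have k2 : Q * gn ≤ (w + 1) * gn := mul_le_mul_of_nonneg_right w2 hgn
  have e : Q * (gp - gn) = Q * gp - Q * gn := by ring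
  linarith

/-- the lower bound at a point -/
lemma lpt_spec {N kk c w ap an bp bn s1 s2 x d y d' : ℕ}
    (h : lpt N kk c w ap an bp bn s1 s2 x d y d' = 0)
    (hT : 0 < ((x : ℝ) - d) ^ 2 + ((y : ℝ) - d') ^ 2) :
    (c : ℝ) - 2 ^ 95 ≤ 2 ^ 60 * W (((x : ℝ) - d) ^ 2 + ((y : ℝ) - d') ^ 2)
        * (N * (((ap : ℝ) - an) * ((x : ℝ) - d) + ((bp : ℝ) - bn) * ((y : ℝ) - d')) + kk)
      - 2 ^ 23 * (((s1 : ℝ) - 2 ^ 31) * ((x : ℝ) - d) + ((s2 : ℝ) - 2 ^ 31) * ((y : ℝ) - d')) := by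
  rw [lpt_eq] at h
  obtain ⟨hw, hv⟩ := Nat.add_eq_zero_iff.1 h
  obtain ⟨e1, e2⟩ := sub_parts x d
  obtain ⟨e3, e4⟩ := sub_parts y d'
  generalize (x - d : ℕ) = p at hw hv e1 e2
  generalize (d - x : ℕ) = n at hw hv e1 e2
  generalize (y - d' : ℕ) = q at hw hv e3 e4
  generalize (d' - y : ℕ) = o at hw hv e3 e4
  have eT : ((p * p + n * n + (q * q + o * o) : ℕ) : ℝ)
      = ((x : ℝ) - d) ^ 2 + ((y : ℝ) - d') ^ 2 := by
    push_cast
    rw [e2, e4]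
  obtain ⟨w1, w2⟩ := lw_spec hw (by rw [eT]; exact hT)
  rw [eT] at w1 w2
  have hv' := lv_spec hv
  have hc := comb_aux w1 w2 (Nat.cast_nonneg _) (Nat.cast_nonneg _) hv'
  refine le_trans hc (le_of_eq ?_)
  rw [← e1, ← e3]
  simp only [Nat.shiftLeft_eq]
  push_cast
  ring

/-! ### the chord term -/

lemma lch_eq (N ka a b r sx sy : ℕ) : lch N ka a b r sx sy =
    ((((3 * N) * (mx a b + (a + b)) * r + 49152 * ka) * (sx * sx + sy * sy)) <<< 57)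
      / (r * ((r * r) * (r * r))) + 1 := rfl

lemma lch_spec {N ka a b r sx sy : ℕ} (hr : 0 < r) :
    2 ^ 23 * (Dcell (2 ^ 49) (N * ((max a b + (a + b) : ℕ) : ℝ) / 8192) ka 0 0 0 0 r
      * ((sx : ℝ) ^ 2 + (sy : ℝ) ^ 2) / 8) ≤ (lch N ka a b r sx sy : ℕ) := by
  have hr' : (0 : ℝ) < r := by exact_mod_cast hr
  rw [lch_eq, mx_eq, Nat.shiftLeft_eq]
  set A : ℕ := max a b + (a + b) with hA
  have h1 := Nat.lt_floor_add_one (((((3 * N * A * r + 49152 * ka) * (sx * sx + sy * sy)) * 2 ^ 57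
    : ℕ) : ℝ) / ((r * ((r * r) * (r * r)) : ℕ) : ℝ))
  rw [Nat.floor_div_eq_div] at h1
  have h2 : 2 ^ 23 * (Dcell (2 ^ 49) (N * ((A : ℕ) : ℝ) / 8192) ka 0 0 0 0 r
      * ((sx : ℝ) ^ 2 + (sy : ℝ) ^ 2) / 8)
      = (((((3 * N * A * r + 49152 * ka) * (sx * sx + sy * sy)) * 2 ^ 57 : ℕ) : ℝ)
        / ((r * ((r * r) * (r * r)) : ℕ) : ℝ)) := by
    unfold Dcell
    push_cast
    field_simp
    ring
  rw [h2]
  push_cast at h1 ⊢
  linarith

/-- the norm of the multiplier -/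
lemma norm_bound (a b : ℝ) (ha : 0 ≤ a) (hb : 0 ≤ b) :
    4 * (a ^ 2 + b ^ 2) ≤ (max a b + (a + b)) ^ 2 := by
  rcases le_total a b with h | h
  · rw [max_eq_right h]; nlinarith
  · rw [max_eq_left h]; nlinarith

/-! ### one pair -/

lemma cell_exists {z0 z s : ℝ} {m : ℕ} (hm : 0 < m) (h0 : z0 ≤ z) (h1 : z ≤ z0 + m * s) :
    ∃ a < m, z0 + a * s ≤ z ∧ z ≤ z0 + (a + 1 : ℕ) * s := by
  induction m with
  | zero => exact absurd hm (lt_irrefl 0)
  | succ m ih =>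
    rcases Nat.eq_zero_or_pos m with h | h
    · subst h
      refine ⟨0, Nat.zero_lt_one, ?_, ?_⟩
      · simpa using h0
      · exact h1
    · rcases le_total z (z0 + m * s) with h2 | h2
      · obtain ⟨a, ha, h3⟩ := ih h h2
        exact ⟨a, Nat.lt_succ_of_lt ha, h3⟩
      · exact ⟨m, Nat.lt_succ_self m, h2, h1⟩

lemma lnx_spec {A Z D : ℕ} (hAZ : A ≤ Z) {X : ℝ} (h0 : (A : ℝ) - D ≤ X) (h1 : X ≤ (Z : ℝ) - D) :
    ((lnx A Z D : ℕ) : ℝ) * ((lnx A Z D : ℕ) : ℝ) ≤ X ^ 2 := by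
  have e : lnx A Z D = (A - D) + (D - Z) := rfl
  rw [e]
  rcases le_total D A with h | h
  · rw [Nat.sub_eq_zero_of_le (le_trans h hAZ), add_zero, Nat.cast_sub h]
    have : (0 : ℝ) ≤ (A : ℝ) - D := by
      have : (D : ℝ) ≤ A := by exact_mod_cast h
      linarith
    nlinarith
  · rw [Nat.sub_eq_zero_of_le h, zero_add]
    rcases le_total D Z with h2 | h2
    · rw [Nat.sub_eq_zero_of_le h2]
      simp only [Nat.cast_zero, mul_zero]
      positivity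
    · rw [Nat.cast_sub h2]
      have : (Z : ℝ) ≤ D := by exact_mod_cast h2
      nlinarith

/-- the pair function in the units of the leaf -/
lemma lpf_scaled (N : ℕ) (A1 A2 κ S1 S2 X Y : ℝ) :
    2 ^ 23 * lpf N (A1 / 4096) (A2 / 4096) κ 0 (S1 - 2 * A1) (S2 - 2 * A2) X Y
      = 2 ^ 60 * W (X ^ 2 + Y ^ 2) * (N * (A1 * X + A2 * Y) + 4096 * κ)
        - 2 ^ 23 * (S1 * X + S2 * Y) := by
  unfold lpf
  ring

/-- length of a step -/
def stp (m0 A B C D : ℕ) : ℕ := ((B + D) - (A + C) + m0) / (m0 + 1)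

/-- the claimed lower bound of a pair -/
def mu (st q : ℕ) : ℕ := Nat.land (st >>> (q + 96)) 79228162514264337593543950335

lemma stp_spec (m0 A B C D : ℕ) : (B : ℝ) + D - (A + C) ≤ ((m0 + 1 : ℕ) : ℝ) * stp m0 A B C D := by
  have h1 : (B + D) - (A + C) ≤ (m0 + 1) * stp m0 A B C D := by
    unfold stp
    have h2 := Nat.div_add_mod ((B + D) - (A + C) + m0) (m0 + 1)
    have h3 := Nat.mod_lt ((B + D) - (A + C) + m0) (Nat.succ_pos m0)
    rw [Nat.succ_eq_add_one] at h3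
    omega
  have h4 : B + D ≤ (A + C) + (m0 + 1) * stp m0 A B C D := by omega
  have h5 : ((B + D : ℕ) : ℝ) ≤ (((A + C) + (m0 + 1) * stp m0 A B C D : ℕ) : ℝ) :=
    Nat.cast_le.2 h4
  push_cast at h5 ⊢
  linarith

lemma lpr_eq (N m0 st q ka a0 a1 b0 b1 A B C D A' B' C' D' : ℕ) :
    lpr N m0 st q ka a0 a1 b0 b1 A B C D A' B' C' D' =
    ((f32 st (q + 64) + 1) * (f32 st (q + 64) + 1) -
      (lnx A (A + (m0 + 1) * stp m0 A B C D) D * lnx A (A + (m0 + 1) * stp m0 A B C D) D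
        + lnx A' (A' + (m0 + 1) * stp m0 A' B' C' D') D'
          * lnx A' (A' + (m0 + 1) * stp m0 A' B' C' D') D'))
    + sN (m0 + 2) (fun a => sN (m0 + 2) (fun b =>
        lpt N (ka <<< 12) (mu st q + lch N ka ((a0 - a1) + (a1 - a0)) ((b0 - b1) + (b1 - b0))
            (f32 st (q + 64) + 1) (stp m0 A B C D) (stp m0 A' B' C' D'))
          (f32 st (q + 192 + (a * (m0 + 2) + b) <<< 5))
          (a0 - a1) (a1 - a0) (b0 - b1) (b1 - b0) (f32 st q) (f32 st (q + 32))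
          (A + a * stp m0 A B C D) D (A' + b * stp m0 A' B' C' D') D')) := rfl

lemma abs_parts (x d : ℕ) : ((((x - d) + (d - x) : ℕ) : ℝ)) ^ 2 = ((x : ℝ) - d) ^ 2 := by
  rcases le_total d x with h | h
  · rw [Nat.sub_eq_zero_of_le h, add_zero, Nat.cast_sub h]
  · rw [Nat.sub_eq_zero_of_le h, zero_add, Nat.cast_sub h]
    ring

lemma between {A D s m0 a : ℕ} (ha : a < m0 + 2) :
    (A : ℝ) - D ≤ ((A + a * s : ℕ) : ℝ) - D ∧
      ((A + a * s : ℕ) : ℝ) - D ≤ ((A + (m0 + 1) * s : ℕ) : ℝ) - D := by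
  have h1 : ((A : ℕ) : ℝ) ≤ ((A + a * s : ℕ) : ℝ) := Nat.cast_le.2 (Nat.le_add_right _ _)
  have h2 : ((A + a * s : ℕ) : ℝ) ≤ ((A + (m0 + 1) * s : ℕ) : ℝ) :=
    Nat.cast_le.2 (Nat.add_le_add_left (Nat.mul_le_mul_right s (by omega)) A)
  constructor <;> linarith

/-- **The bound of a pair.** -/
lemma lpr_spec {N m0 st q ka a0 a1 b0 b1 A B C D A' B' C' D' : ℕ}
    (h : lpr N m0 st q ka a0 a1 b0 b1 A B C D A' B' C' D' = 0) {X Y : ℝ}
    (hX0 : (A : ℝ) - D ≤ X) (hX1 : X ≤ (B : ℝ) - C) (hY0 : (A' : ℝ) - D' ≤ Y)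
    (hY1 : Y ≤ (B' : ℝ) - C') :
    (mu st q : ℝ) - 2 ^ 95 ≤ 2 ^ 23 * lpf N (((a0 : ℝ) - a1) / 4096) (((b0 : ℝ) - b1) / 4096) ka 0
      (((f32 st q : ℕ) : ℝ) - 2 ^ 31 - 2 * ((a0 : ℝ) - a1))
      (((f32 st (q + 32) : ℕ) : ℝ) - 2 ^ 31 - 2 * ((b0 : ℝ) - b1)) X Y := by
  rw [lpr_eq] at h
  obtain ⟨hr, hs⟩ := Nat.add_eq_zero_iff.1 h
  clear h
  have hsx := stp_spec m0 A B C D
  have hsy := stp_spec m0 A' B' C' D'
  generalize stp m0 A B C D = sx at hr hs hsx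
  generalize stp m0 A' B' C' D' = sy at hr hs hsy
  generalize hrr : f32 st (q + 64) + 1 = r at hr hs
  have hr1 : 0 < r := by omega
  have hrR : (0 : ℝ) < r := by exact_mod_cast hr1
  generalize f32 st q = s1 at hs ⊢
  generalize f32 st (q + 32) = s2 at hs ⊢
  have hch := lch_spec (N := N) (ka := ka) (a := (a0 - a1) + (a1 - a0))
    (b := (b0 - b1) + (b1 - b0)) (sx := sx) (sy := sy) hr1
  generalize hcc : lch N ka ((a0 - a1) + (a1 - a0)) ((b0 - b1) + (b1 - b0)) r sx sy = ch at hs hch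
  generalize mu st q = mm at hs ⊢
  -- the radius
  have hrad : ∀ x : ℝ, (A : ℝ) - D ≤ x → x ≤ ((A + (m0 + 1) * sx : ℕ) : ℝ) - D →
      ∀ y : ℝ, (A' : ℝ) - D' ≤ y → y ≤ ((A' + (m0 + 1) * sy : ℕ) : ℝ) - D' →
      (r : ℝ) ^ 2 ≤ x ^ 2 + y ^ 2 := by
    intro x hx0 hx1 y hy0 hy1
    have k1 := lnx_spec (Nat.le_add_right A _) hx0 hx1
    have k2 := lnx_spec (Nat.le_add_right A' _) hy0 hy1
    have k3 := Nat.sub_eq_zero_iff_le.1 hr
    have k4 : ((r * r : ℕ) : ℝ) ≤ _ := Nat.cast_le.2 k3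
    push_cast at k4
    rw [pow_two]
    linarith
  -- the points
  have hpt : ∀ a < m0 + 2, ∀ b < m0 + 2, ((mm + ch : ℕ) : ℝ) - 2 ^ 95 ≤
      2 ^ 23 * lpf N (((a0 : ℝ) - a1) / 4096) (((b0 : ℝ) - b1) / 4096) ka 0
      ((s1 : ℝ) - 2 ^ 31 - 2 * ((a0 : ℝ) - a1)) ((s2 : ℝ) - 2 ^ 31 - 2 * ((b0 : ℝ) - b1))
      ((A : ℝ) - D + a * sx) ((A' : ℝ) - D' + b * sy) := by
    intro a ha b hb
    rw [PF.sN_eq, Finset.sum_eq_zero_iff] at hs
    have h1 := hs a (Finset.mem_range.2 ha)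
    rw [PF.sN_eq, Finset.sum_eq_zero_iff] at h1
    have h2 := h1 b (Finset.mem_range.2 hb)
    have hT : 0 < (((A + a * sx : ℕ) : ℝ) - D) ^ 2 + (((A' + b * sy : ℕ) : ℝ) - D') ^ 2 := by
      refine lt_of_lt_of_le (pow_pos hrR 2) (hrad _ ?_ ?_ _ ?_ ?_)
      · exact (between ha).1
      · exact (between ha).2
      · exact (between hb).1
      · exact (between hb).2
    have h3 := lpt_spec h2 hT
    rw [lpf_scaled]
    obtain ⟨e1, _⟩ := sub_parts a0 a1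
    obtain ⟨e2, _⟩ := sub_parts b0 b1
    rw [e1, e2] at h3
    have e3 : ((A + a * sx : ℕ) : ℝ) - D = (A : ℝ) - D + a * sx := by push_cast; ring
    have e4 : ((A' + b * sy : ℕ) : ℝ) - D' = (A' : ℝ) - D' + b * sy := by push_cast; ring
    have e5 : ((ka <<< 12 : ℕ) : ℝ) = 4096 * (ka : ℝ) := by
      rw [Nat.shiftLeft_eq]; push_cast; ring
    rw [e3, e4, e5] at h3
    exact h3
  clear hs hr
  -- the cell
  have hX1' : X ≤ (A : ℝ) - D + ((m0 + 1 : ℕ) : ℝ) * sx := by linarith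
  have hY1' : Y ≤ (A' : ℝ) - D' + ((m0 + 1 : ℕ) : ℝ) * sy := by linarith
  obtain ⟨a, ha, hXa, hXb⟩ := cell_exists (Nat.succ_pos m0) hX0 hX1'
  obtain ⟨b, hb, hYa, hYb⟩ := cell_exists (Nat.succ_pos m0) hY0 hY1'
  have hc := cell_lower (K := 2 ^ 49) (a1 := N * (((a0 : ℝ) - a1) / 4096))
    (a2 := N * (((b0 : ℝ) - b1) / 4096)) (k := ka) (e := N * 0)
    (b1 := 8192 * (((a0 : ℝ) - a1) / 4096) + ((s1 : ℝ) - 2 ^ 31 - 2 * ((a0 : ℝ) - a1)))
    (b2 := 8192 * (((b0 : ℝ) - b1) / 4096) + ((s2 : ℝ) - 2 ^ 31 - 2 * ((b0 : ℝ) - b1)))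
    (b3 := 8192 * 0)
    (A := N * ((max ((a0 - a1) + (a1 - a0)) ((b0 - b1) + (b1 - b0)) +
      (((a0 - a1) + (a1 - a0)) + ((b0 - b1) + (b1 - b0))) : ℕ) : ℝ) / 8192)
    (kp := ka) (km := 0) (ep := 0) (em := 0) (bm := 0) (R := r)
    (x0 := (A : ℝ) - D + a * sx) (x1 := (A : ℝ) - D + (a + 1 : ℕ) * sx)
    (y0 := (A' : ℝ) - D' + b * sy) (y1 := (A' : ℝ) - D' + (b + 1 : ℕ) * sy)
    (x := X) (y := Y) (by norm_num) hrR ?_ (by positivity) ?_ (by positivity) le_rfl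
    (by simp) le_rfl le_rfl le_rfl (by simp) (by simp) le_rfl (by norm_num) ⟨hXa, hXb⟩ ⟨hYa, hYb⟩
  · simp only [← lpf_eq] at hc
    have p1 := hpt a (by omega) b (by omega)
    have p2 := hpt a (by omega) (b + 1) (by omega)
    have p3 := hpt (a + 1) (by omega) b (by omega)
    have p4 := hpt (a + 1) (by omega) (b + 1) (by omega)
    have ex : (A : ℝ) - D + (a + 1 : ℕ) * sx - ((A : ℝ) - D + a * sx) = sx := by push_cast; ring
    have ey : (A' : ℝ) - D' + (b + 1 : ℕ) * sy - ((A' : ℝ) - D' + b * sy) = sy := by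
      push_cast; ring
    rw [ex, ey] at hc
    have hmin : (((mm + ch : ℕ) : ℝ) - 2 ^ 95) / 2 ^ 23 ≤ _ :=
      le_min (le_min ((div_le_iff₀' (by norm_num)).2 p1) ((div_le_iff₀' (by norm_num)).2 p2))
        (le_min ((div_le_iff₀' (by norm_num)).2 p3) ((div_le_iff₀' (by norm_num)).2 p4))
    have hfin := le_trans (sub_le_sub_right hmin _) hc
    have h7 : (((mm + ch : ℕ) : ℝ) - 2 ^ 95) / 2 ^ 23 = ((mm : ℝ) + ch - 2 ^ 95) / 2 ^ 23 := by
      push_cast; rfl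
    rw [h7] at hfin
    have h8 : 2 ^ 23 * (((mm : ℝ) + ch - 2 ^ 95) / 2 ^ 23) = (mm : ℝ) + ch - 2 ^ 95 := by
      field_simp
    linarith
  · intro x hx y hy
    obtain ⟨hx0, hx1⟩ := hx
    obtain ⟨hy0, hy1⟩ := hy
    have sx0 : (0 : ℝ) ≤ sx := Nat.cast_nonneg _
    have sy0 : (0 : ℝ) ≤ sy := Nat.cast_nonneg _
    have ha' : ((a + 1 : ℕ) : ℝ) ≤ ((m0 + 1 : ℕ) : ℝ) := by exact_mod_cast Nat.succ_le_of_lt ha
    have hb' : ((b + 1 : ℕ) : ℝ) ≤ ((m0 + 1 : ℕ) : ℝ) := by exact_mod_cast Nat.succ_le_of_lt hb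
    have ha0 : (0 : ℝ) ≤ (a : ℝ) * sx := by positivity
    have hb0 : (0 : ℝ) ≤ (b : ℝ) * sy := by positivity
    have ha1 := mul_le_mul_of_nonneg_right ha' sx0
    have hb1 := mul_le_mul_of_nonneg_right hb' sy0
    apply hrad
    · linarith
    · push_cast at ha1 hx1 ⊢; linarith
    · linarith
    · push_cast at hb1 hy1 ⊢; linarith
  · have k1 := abs_parts a0 a1
    have k2 := abs_parts b0 b1
    have k3 := norm_bound ((((a0 - a1) + (a1 - a0) : ℕ) : ℝ)) ((((b0 - b1) + (b1 - b0) : ℕ) : ℝ))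
      (Nat.cast_nonneg _) (Nat.cast_nonneg _)
    rw [k1, k2] at k3
    rw [Nat.cast_add, Nat.cast_max, Nat.cast_add (m := (a0 - a1) + (a1 - a0))]
    set Q : ℝ := max ((((a0 - a1) + (a1 - a0) : ℕ) : ℝ)) ((((b0 - b1) + (b1 - b0) : ℕ) : ℝ))
      + (((((a0 - a1) + (a1 - a0) : ℕ) : ℝ)) + ((((b0 - b1) + (b1 - b0) : ℕ) : ℝ))) with hQ
    have k4 : (N * (((a0 : ℝ) - a1) / 4096)) ^ 2 + (N * (((b0 : ℝ) - b1) / 4096)) ^ 2
        = (N : ℝ) ^ 2 / 8192 ^ 2 * (4 * (((a0 : ℝ) - a1) ^ 2 + ((b0 : ℝ) - b1) ^ 2)) := by ring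
    have k5 : (N * Q / 8192) ^ 2 = (N : ℝ) ^ 2 / 8192 ^ 2 * Q ^ 2 := by ring
    rw [k4, k5]
    exact mul_le_mul_of_nonneg_left k3 (by positivity)

/-! ### the linear part -/

/-- the multiplier of the body `j` -/
def Uf (st c j : ℕ) : ℕ := f32 st (64 + c + j <<< 6)

/-- the slope of the pair `(i, k)` -/
def Sg (N m0 st c i k : ℕ) : ℕ := f32 st (lP N (m0 + 2) i k + c)

/-- the slope in the sense of `lp_test` -/
noncomputable def bb (N m0 st c i k : ℕ) : ℝ :=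
  (Sg N m0 st c i k : ℝ) - 2 ^ 31 - 2 * ((Uf st c i : ℝ) - Uf st c k)

lemma lZp_eq (N m0 st c j : ℕ) : lZp N m0 st c j =
    sN j (fun k => Sg N m0 st c j k)
      + sN N (fun i => sel (Nat.ble (j + 1) i) (4294967296 - Sg N m0 st c i j) 0)
      + 2 * sN N (fun i => Uf st c i) := rfl

lemma lZn_eq (N st c j : ℕ) : lZn N st c j = (N - 1) <<< 31 + (2 * N) * Uf st c j := rfl

lemma filter_lt_range (N j : ℕ) : (Finset.range N).filter (fun k => j < k) = Finset.Ico (j + 1) N := by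
  ext k
  simp only [Finset.mem_filter, Finset.mem_range, Finset.mem_Ico]
  omega

lemma coef {N m0 st c j : ℕ} (hj : j < N) : (lZp N m0 st c j : ℝ) - lZn N st c j =
    ∑ k ∈ range j, bb N m0 st c j k - ∑ k ∈ (range N).filter (fun k => j < k), bb N m0 st c k j := by
  have h1 : (lZp N m0 st c j : ℝ) = ∑ k ∈ range j, (Sg N m0 st c j k : ℝ)
      + ∑ i ∈ Finset.Ico (j + 1) N, ((2 : ℝ) ^ 32 - Sg N m0 st c i j)
      + 2 * (∑ i ∈ range j, (Uf st c i : ℝ) + Uf st c j + ∑ i ∈ Finset.Ico (j + 1) N, (Uf st c i : ℝ)) := by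
    rw [lZp_eq, PF.sN_eq, PF.sN_eq, PF.sN_eq]
    push_cast
    congr 1
    · congr 1
      rw [← filter_lt_range, Finset.sum_filter]
      refine Finset.sum_congr rfl fun i _ => ?_
      by_cases h : j < i
      · rw [if_pos h]
        have : Nat.ble (j + 1) i = true := Nat.ble_eq_true_of_le h
        rw [this, sel_true, Nat.cast_sub (show Sg N m0 st c i j ≤ 4294967296 from (f32_lt _ _).le)]
        norm_num
      · rw [if_neg h]
        have : Nat.ble (j + 1) i = false := by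
          rw [← Bool.not_eq_true]
          intro hb
          exact h (Nat.le_of_ble_eq_true hb)
        rw [this, sel_false, Nat.cast_zero]
    · congr 1
      rw [← Finset.sum_range_succ, Finset.range_eq_Ico, Finset.range_eq_Ico]
      exact (Finset.sum_Ico_consecutive _ (Nat.zero_le _) hj).symm
  have h2 : (lZn N st c j : ℝ) = ((N : ℝ) - 1) * 2 ^ 31 + 2 * N * Uf st c j := by
    rw [lZn_eq, Nat.shiftLeft_eq]
    have : 1 ≤ N := by omega
    push_cast [Nat.cast_sub this]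
    ring
  have h3 : ((Finset.Ico (j + 1) N).card : ℝ) = (N : ℝ) - 1 - j := by
    rw [Nat.card_Ico, Nat.cast_sub hj]
    push_cast; ring
  rw [h1, h2, filter_lt_range]
  unfold bb
  simp only [Finset.sum_sub_distrib, Finset.sum_const, ← Finset.mul_sum, nsmul_eq_mul, h3,
    Finset.card_range]
  ring

lemma lin_coef {N m0 st c : ℕ} (z : ℕ → ℝ) :
    ∑ i ∈ range N, ∑ k ∈ range i, bb N m0 st c i k * (z i - z k)
      = ∑ i ∈ range N, ((lZp N m0 st c i : ℝ) - lZn N st c i) * z i := by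
  rw [lin_bodies]
  refine Finset.sum_congr rfl fun i hi => ?_
  rw [coef (Finset.mem_range.1 hi)]

lemma lLp_eq (zp zn lo : ℕ) : lLp zp zn lo = (zp - zn) * lo + (zn - zp) <<< 15 := rfl
lemma lLn_eq (zp zn hi : ℕ) : lLn zp zn hi = (zp - zn) <<< 15 + (zn - zp) * hi := rfl

lemma lL_spec (zp zn : ℕ) {lo hi : ℕ} {X : ℝ} (h0 : (lo : ℝ) ≤ X + 32768) (h1 : X + 32768 ≤ hi) :
    (lLp zp zn lo : ℝ) - lLn zp zn hi ≤ ((zp : ℝ) - zn) * X := by
  rw [lLp_eq, lLn_eq, Nat.shiftLeft_eq, Nat.shiftLeft_eq]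
  rcases le_total zn zp with h | h
  · rw [Nat.sub_eq_zero_of_le h]
    push_cast [Nat.cast_sub h]
    have : (0 : ℝ) ≤ (zp : ℝ) - zn := by
      have : (zn : ℝ) ≤ zp := by exact_mod_cast h
      linarith
    nlinarith
  · rw [Nat.sub_eq_zero_of_le h]
    push_cast [Nat.cast_sub h]
    have : (0 : ℝ) ≤ (zn : ℝ) - zp := by
      have : (zp : ℝ) ≤ zn := by exact_mod_cast h
      linarith
    nlinarith

lemma sum_two {N : ℕ} (hN : 2 ≤ N) (f : ℕ → ℝ) :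
    ∑ i ∈ range N, f i = f 0 + f 1 + ∑ j ∈ range (N - 2), f (j + 2) := by
  obtain ⟨M, rfl⟩ : ∃ M, N = M + 2 := ⟨N - 2, by omega⟩
  rw [Finset.sum_range_succ', Finset.sum_range_succ', Nat.add_sub_cancel]
  ring

lemma lLP_eq (N m0 EL st : ℕ) : lLP N m0 EL st =
    lLp (lZp N m0 st 0 1 + lZn N st 0 0) (lZn N st 0 1 + lZp N m0 st 0 0) (fld EL 32)
    + sN (N - 2) (fun j =>
      lLp (lZp N m0 st 0 (j + 2)) (lZn N st 0 (j + 2)) (fld EL (32 * (j + 2)))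
      + lLp (lZp N m0 st 32 (j + 2)) (lZn N st 32 (j + 2)) (fld EL (32 * (j + 2) + 16))) := by
  simp only [← PF.sl5]
  rfl

lemma lLN_eq (N m0 EH st : ℕ) : lLN N m0 EH st =
    lLn (lZp N m0 st 0 1 + lZn N st 0 0) (lZn N st 0 1 + lZp N m0 st 0 0) (fld EH 32)
    + sN (N - 2) (fun j =>
      lLn (lZp N m0 st 0 (j + 2)) (lZn N st 0 (j + 2)) (fld EH (32 * (j + 2)))
      + lLn (lZp N m0 st 32 (j + 2)) (lZn N st 32 (j + 2)) (fld EH (32 * (j + 2) + 16))) := by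
  simp only [← PF.sl5]
  rfl

/-- the linear part -/
lemma lin_spec {N m0 st EL EH : ℕ} {x y : ℕ → ℝ} (hN : 2 ≤ N) (hC : Cfg N x y)
    (hE : Ext N x y EL EH) : (lLP N m0 EL st : ℝ) - lLN N m0 EH st ≤
      ∑ i ∈ range N, ∑ k ∈ range i, (bb N m0 st 0 i k * (x i - x k)
        + bb N m0 st 32 i k * (y i - y k)) := by
  simp only [Finset.sum_add_distrib]
  rw [lin_coef, lin_coef, sum_two hN, sum_two hN, hC.x0, hC.y0, hC.y1, lLP_eq, lLN_eq,
    PF.sN_eq, PF.sN_eq]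
  push_cast
  have h1 := lL_spec (lZp N m0 st 0 1 + lZn N st 0 0) (lZn N st 0 1 + lZp N m0 st 0 0)
    (X := x 1) (lo := fld EL 32) (hi := fld EH 32) (by simpa using hE.xl 1 (by omega))
    (by simpa using hE.xh 1 (by omega))
  have h2 : ∑ j ∈ range (N - 2),
      ((lLp (lZp N m0 st 0 (j + 2)) (lZn N st 0 (j + 2)) (fld EL (32 * (j + 2))) : ℝ)
        + lLp (lZp N m0 st 32 (j + 2)) (lZn N st 32 (j + 2)) (fld EL (32 * (j + 2) + 16)))
      - ∑ j ∈ range (N - 2),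
      ((lLn (lZp N m0 st 0 (j + 2)) (lZn N st 0 (j + 2)) (fld EH (32 * (j + 2))) : ℝ)
        + lLn (lZp N m0 st 32 (j + 2)) (lZn N st 32 (j + 2)) (fld EH (32 * (j + 2) + 16)))
      ≤ ∑ j ∈ range (N - 2), ((lZp N m0 st 0 (j + 2) : ℝ) - lZn N st 0 (j + 2)) * x (j + 2)
        + ∑ j ∈ range (N - 2), ((lZp N m0 st 32 (j + 2) : ℝ) - lZn N st 32 (j + 2)) * y (j + 2) := by
    rw [← Finset.sum_sub_distrib, ← Finset.sum_add_distrib]
    refine Finset.sum_le_sum fun j hj => ?_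
    have hj' : j + 2 < N := by
      have := Finset.mem_range.1 hj
      omega
    have k1 := lL_spec (lZp N m0 st 0 (j + 2)) (lZn N st 0 (j + 2)) (hE.xl _ hj') (hE.xh _ hj')
    have k2 := lL_spec (lZp N m0 st 32 (j + 2)) (lZn N st 32 (j + 2)) (hE.yl _ hj') (hE.yh _ hj')
    linarith
  push_cast at h1
  linarith

/-! ### the leaf -/

lemma lall_eq (N m0 EL EH st : ℕ) : lall N m0 EL EH st = sN N (fun i => sN i (fun k =>
    lpr N m0 st (lP N (m0 + 2) i k) (f32 st 0) (Uf st 0 i) (Uf st 0 k) (Uf st 32 i) (Uf st 32 k)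
      (fld EL (32 * i)) (fld EH (32 * i)) (fld EL (32 * k)) (fld EH (32 * k))
      (fld EL (32 * i + 16)) (fld EH (32 * i + 16))
      (fld EL (32 * k + 16)) (fld EH (32 * k + 16)))) := by
  simp only [← PF.sl5]
  rfl

lemma lmu_eq (N m0 st : ℕ) : lmu N m0 st = sN N (fun i => sN i (fun k =>
    mu st (lP N (m0 + 2) i k))) := rfl

lemma lfine_unfold (N EL EH st : ℕ) : lfine N EL EH st =
    (Nat.beq (lall N (f32 st 32) EL EH st) 0 &&
      Nat.ble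
        (((f32 st 0 * (2 * N - 3)) <<< 35 + ((N * (N - 1)) >>> 1) <<< 95)
          + ((lLN N (f32 st 32) EH st) <<< 23 + 1))
        (lmu N (f32 st 32) st + (lLP N (f32 st 32) EL st) <<< 23)) := rfl

/-- **Soundness of the fine linear programming leaf.** -/
theorem lfine_sound {N : ℕ} {x y : ℕ → ℝ} {EL EH st : ℕ} (hN : 2 ≤ N) (hC : Cfg N x y)
    (hE : Ext N x y EL EH) : lfine N EL EH st = false := by
  rw [← Bool.not_eq_true]
  intro H
  rw [lfine_unfold, Bool.and_eq_true] at H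
  obtain ⟨h1, h2⟩ := H
  have h1' := Nat.eq_of_beq_eq_true h1
  have h2' := Nat.le_of_ble_eq_true h2
  clear h1 h2
  generalize f32 st 32 = m0 at h1' h2'
  rw [lall_eq, PF.sN_eq, Finset.sum_eq_zero_iff] at h1'
  have hpair : ∀ i < N, ∀ k < i,
      ((mu st (lP N (m0 + 2) i k) : ℝ) - 2 ^ 95) / 2 ^ 23 ≤
      lpf N ((Uf st 0 i : ℝ) / 4096 - (Uf st 0 k : ℝ) / 4096)
        ((Uf st 32 i : ℝ) / 4096 - (Uf st 32 k : ℝ) / 4096) (f32 st 0 : ℕ) 0
        (bb N m0 st 0 i k) (bb N m0 st 32 i k) (x i - x k) (y i - y k) := by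
    intro i hi k hk
    have k1 := h1' i (Finset.mem_range.2 hi)
    rw [PF.sN_eq, Finset.sum_eq_zero_iff] at k1
    have k2 := k1 k (Finset.mem_range.2 hk)
    have hkN : k < N := lt_trans hk hi
    have k3 := lpr_spec k2 (X := x i - x k) (Y := y i - y k)
      (by linarith [hE.xl i hi, hE.xh k hkN]) (by linarith [hE.xh i hi, hE.xl k hkN])
      (by linarith [hE.yl i hi, hE.yh k hkN]) (by linarith [hE.yh i hi, hE.yl k hkN])
    rw [div_le_iff₀' (by norm_num), ← sub_div, ← sub_div]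
    exact k3
  refine lp_test hC (fun i => (Uf st 0 i : ℝ) / 4096) (fun i => (Uf st 32 i : ℝ) / 4096)
    (κ := (f32 st 0 : ℕ)) (e := 0) (Nat.cast_nonneg _) (bb N m0 st 0) (bb N m0 st 32)
    (fun i k => ((mu st (lP N (m0 + 2) i k) : ℝ) - 2 ^ 95) / 2 ^ 23)
    (L := (lLP N m0 EL st : ℝ) - lLN N m0 EH st) hpair (lin_spec hN hC hE) ?_
  -- the final inequality
  have hP : (N * (N - 1)) >>> 1 = ∑ i ∈ range N, i := by
    rw [Finset.sum_range_id, Nat.shiftRight_eq_div_pow, pow_one]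
  rw [hP, lmu_eq, PF.sN_eq] at h2'
  simp only [PF.sN_eq, Nat.shiftLeft_eq] at h2'
  have h3 := (Nat.cast_le (α := ℝ)).2 h2'
  have hN3 : (((2 * N - 3 : ℕ) : ℝ)) ≥ 2 * N - 3 := by
    have : 2 * N ≤ (2 * N - 3) + 3 := by omega
    have : ((2 * N : ℕ) : ℝ) ≤ (((2 * N - 3) + 3 : ℕ) : ℝ) := Nat.cast_le.2 this
    push_cast at this
    linarith
  push_cast at h3
  have h4 : ∑ i ∈ range N, ∑ k ∈ range i,
      ((mu st (lP N (m0 + 2) i k) : ℝ) - 2 ^ 95) / 2 ^ 23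
      = (∑ i ∈ range N, ∑ k ∈ range i, (mu st (lP N (m0 + 2) i k) : ℝ)
        - (∑ i ∈ range N, (i : ℝ)) * 2 ^ 95) / 2 ^ 23 := by
    rw [sub_div, Finset.sum_div, Finset.sum_mul, Finset.sum_div, ← Finset.sum_sub_distrib]
    refine Finset.sum_congr rfl fun i _ => ?_
    rw [Finset.sum_div]
    simp only [sub_div, Finset.sum_sub_distrib, Finset.sum_const, Finset.card_range, nsmul_eq_mul]
    ring
  rw [h4]
  generalize (∑ i ∈ range N, ∑ k ∈ range i, (mu st (lP N (m0 + 2) i k) : ℝ)) = M at h3 ⊢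
  generalize (∑ i ∈ range N, (i : ℝ)) = P at h3 ⊢
  generalize (lLP N m0 EL st : ℝ) = LP at h3 ⊢
  generalize (lLN N m0 EH st : ℝ) = LN at h3 ⊢
  have hK : (0 : ℝ) ≤ (f32 st 0 : ℕ) := Nat.cast_nonneg _
  have h5 := mul_le_mul_of_nonneg_left hN3 hK
  have h6 : (((f32 st 0 : ℕ) : ℝ) * (4096 * (2 * N - 3))) * 2 ^ 23
      < M - P * 2 ^ 95 + (LP - LN) * 2 ^ 23 := by
    have e : (((f32 st 0 : ℕ) : ℝ) * (4096 * (2 * N - 3))) * 2 ^ 23
        = 2 ^ 35 * (((f32 st 0 : ℕ) : ℝ) * (2 * N - 3)) := by ring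
    rw [e]
    linarith
  have h7 : (M - P * 2 ^ 95) / 2 ^ 23 + (LP - LN)
      = (M - P * 2 ^ 95 + (LP - LN) * 2 ^ 23) / 2 ^ 23 := by
    field_simp
  rw [h7, lt_div_iff₀ (by norm_num)]
  exact h6

end RelEqN.Small.Box.LF
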