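import Pool.Agent.Lib.MP_b9e19b_mp.Box.Chk2
import Pool.Agent.Lib.MP_b9e19b_mp.Box.Goods
import Pool.Agent.Lib.MP_b9e19b_mp.Box.LFine
import Pool.Agent.Lib.MP_b9e19b_mp.Box.PFine

set_option autoImplicit false

/-!
# Soundness of the trees with the leaves `9`, `10`, `11`
-/

namespace RelEqN.Small.Box

open K Finset

/-- the grid leaf is sound -/
def GOK (G : ℕ → ℕ → ℕ → ℕ → ℕ) (N : ℕ) : Prop :=
  ∀ {s Lo Hi : ℕ}, G N Lo Hi s ≠ 0 → NoCfg N Lo Hi

variable {G : ℕ → ℕ → ℕ → ℕ → ℕ} {N P F w : ℕ}

/-- soundness of a leaf -/
theorem leaf2_sound (hG : Good N P F w) (hO : GOK G N) {s Lo Hi : ℕ}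
    (H : leaf2 G N P F w s Lo Hi ≠ 0) : NoCfg N Lo Hi := by
  have hN := hG.h4
  have hN7 := hG.h7
  unfold leaf2 at H
  beta_reduce at H
  rcases h9 : Nat.beq (Nat.land s 31) 9 with _ | _
  · rw [h9] at H
    rcases h10 : Nat.beq (Nat.land s 31) 10 with _ | _
    · rw [h10] at H
      rcases h11 : Nat.beq (Nat.land s 31) 11 with _ | _
      · rw [h11] at H
        exact leaf_sound hG H
      · rw [h11] at H
        intro x y hC hB
        have hE := ext_of_box hN hN7 hC hB
        obtain ⟨hr, hρ⟩ := rh_spec hN hN7 hC hB
        have H1 := (sel_ne_zero H).1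
        rw [PF.pfine_sound (by omega) hC hE (by omega) hρ] at H1
        exact absurd H1 (by simp)
    · rw [h10] at H
      intro x y hC hB
      have hE := ext_of_box hN hN7 hC hB
      have H1 := (sel_ne_zero H).1
      rw [LF.lfine_sound (by omega) hC hE] at H1
      exact absurd H1 (by simp)
  · rw [h9] at H
    exact hO H

lemma go2_zero (d Lo Hi : ℕ) : go2 G N P F w d 0 Lo Hi = 0 := by
  cases d <;> rfl

/-- soundness of a subtree -/
theorem go2_sound (hG : Good N P F w) (hO : GOK G N) (d : ℕ) :
    ∀ {s Lo Hi : ℕ}, go2 G N P F w d s Lo Hi ≠ 0 → NoCfg N Lo Hi := by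
  induction d with
  | zero => intro s Lo Hi H; exact absurd rfl H
  | succ d ih =>
    intro s Lo Hi H
    have e : go2 G N P F w (d + 1) s Lo Hi = Bool.rec (motive := fun _ => ℕ)
        (leaf2 G N P F w s Lo Hi)
        (go2 G N P F w d (go2 G N P F w d (Nat.shiftRight s 21) Lo
          (setf Hi (Nat.shiftLeft (Nat.sub (Nat.land s 31) 16) 4)
            (Nat.land (Nat.shiftRight s 5) 65535)))
          (setf Lo (Nat.shiftLeft (Nat.sub (Nat.land s 31) 16) 4)
            (Nat.land (Nat.shiftRight s 5) 65535)) Hi)
        (Nat.ble 16 (Nat.land s 31)) := rfl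
    rw [e] at H
    rcases h : Nat.ble 16 (Nat.land s 31) with _ | _
    · rw [h] at H
      exact leaf2_sound hG hO H
    · rw [h] at H
      have hv : Nat.shiftLeft (Nat.sub (Nat.land s 31) 16) 4
          = 16 * (Nat.sub (Nat.land s 31) 16) := by
        show (_ <<< 4) = _
        rw [Nat.shiftLeft_eq]; ring
      have hc : Nat.land (Nat.shiftRight s 5) 65535 < 65536 := by
        rw [land_65535]; exact Nat.mod_lt _ (by norm_num)
      rw [hv] at H
      apply nocfg_split _ hc
      · apply ih (s := Nat.shiftRight s 21)
        intro h0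
        apply H
        show go2 G N P F w d (go2 G N P F w d (Nat.shiftRight s 21) Lo
          (setf Hi (16 * (Nat.sub (Nat.land s 31) 16)) (Nat.land (Nat.shiftRight s 5) 65535))) _ _ = 0
        rw [h0, go2_zero]
      · exact ih H

/-! ### the upper part -/

lemma goL2_succ (d : ℕ) (e : ℕ) (rest : List ℕ) (Lo Hi : ℕ) :
    goL2 G N P F w (d + 1) (e :: rest) Lo Hi =
      Bool.rec (motive := fun _ => List ℕ)
        (Bool.rec (motive := fun _ => List ℕ)
          (Bool.rec (motive := fun _ => List ℕ) []
            (Bool.rec (motive := fun _ => List ℕ) [] rest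
              (Nat.beq (Nat.shiftRight e 2) (Nat.add (Nat.shiftLeft Hi 256) (Nat.land Lo
                115792089237316195423570985008687907853269984665640564039457584007913129639935))))
            (Nat.beq (Nat.land e 3) 2))
          (Bool.rec (motive := fun _ => List ℕ) [] rest
            (Nat.beq (go2 G N P F w 100 (Nat.shiftRight e 2) Lo Hi) 1))
          (Nat.beq (Nat.land e 3) 1))
        (goL2 G N P F w d (goL2 G N P F w d rest Lo (setf Hi
            (Nat.shiftLeft (Nat.land (Nat.shiftRight e 2) 15) 4)
              (Nat.land (Nat.shiftRight e 6) 65535)))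
          (setf Lo (Nat.shiftLeft (Nat.land (Nat.shiftRight e 2) 15) 4)
              (Nat.land (Nat.shiftRight e 6) 65535)) Hi)
        (Nat.beq (Nat.land e 3) 0) := rfl

lemma goL2_nil (d Lo Hi : ℕ) : goL2 G N P F w d [] Lo Hi = [] := by
  cases d <;> rfl

lemma goL2_subset (d : ℕ) : ∀ (l : List ℕ) (Lo Hi : ℕ), goL2 G N P F w d l Lo Hi ⊆ l := by
  induction d with
  | zero => intro l Lo Hi a ha; exact absurd ha (by simp [goL2])
  | succ d ih =>
    intro l Lo Hi
    rcases l with _ | ⟨e, rest⟩
    · rw [goL2_nil]; exact fun _ h => h
    · rw [goL2_succ]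
      rcases h0 : Nat.beq (Nat.land e 3) 0 with _ | _
      · rcases h1 : Nat.beq (Nat.land e 3) 1 with _ | _
        · rcases h2 : Nat.beq (Nat.land e 3) 2 with _ | _
          · exact List.nil_subset _
          · rcases Nat.beq (Nat.shiftRight e 2) (Nat.add (Nat.shiftLeft Hi 256) (Nat.land Lo
              115792089237316195423570985008687907853269984665640564039457584007913129639935)) with _ | _
            · exact List.nil_subset _
            · exact List.subset_cons_self _ _
        · rcases Nat.beq (go2 G N P F w 100 (Nat.shiftRight e 2) Lo Hi) 1 with _ | _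
          · exact List.nil_subset _
          · exact List.subset_cons_self _ _
      · exact fun a ha => List.subset_cons_self _ _ (ih _ _ _ (ih _ _ _ ha))

/-- soundness of the upper part of the tree -/
theorem goL2_sound (hG : Good N P F w) (hO : GOK G N) (d : ℕ) : ∀ {l : List ℕ} {Lo Hi : ℕ},
    goL2 G N P F w d l Lo Hi ≠ [] → (∀ e ∈ l, ExtOK N e) → NoCfg N Lo Hi := by
  induction d with
  | zero => intro l Lo Hi H; exact absurd rfl H
  | succ d ih =>
    intro l Lo Hi H hl
    rcases l with _ | ⟨e, rest⟩
    · exact absurd (goL2_nil _ _ _) H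
    · rw [goL2_succ] at H
      rcases h0 : Nat.beq (Nat.land e 3) 0 with _ | _
      · rw [h0] at H
        rcases h1 : Nat.beq (Nat.land e 3) 1 with _ | _
        · rw [h1] at H
          rcases h2 : Nat.beq (Nat.land e 3) 2 with _ | _
          · rw [h2] at H; exact absurd rfl H
          · rw [h2] at H
            rcases h3 : Nat.beq (Nat.shiftRight e 2) (Nat.add (Nat.shiftLeft Hi 256) (Nat.land Lo
              115792089237316195423570985008687907853269984665640564039457584007913129639935)) with _ | _
            · rw [h3] at H; exact absurd rfl H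
            · have h4 := hl e (by simp) (beq_true h2)
              have h5 := beq_true h3
              have eL : Nat.land Lo
                115792089237316195423570985008687907853269984665640564039457584007913129639935
                = Lo % 2 ^ 256 := Nat.and_two_pow_sub_one_eq_mod Lo 256
              have h6 : e >>> 2 = Hi * 2 ^ 256 + Lo % 2 ^ 256 := by
                rw [← eL, ← Nat.shiftLeft_eq]; exact h5
              have h7 : Nat.land (Nat.shiftRight e 2)
                  115792089237316195423570985008687907853269984665640564039457584007913129639935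
                  = Nat.land Lo
                115792089237316195423570985008687907853269984665640564039457584007913129639935 := by
                rw [eL]
                have : Nat.land (Nat.shiftRight e 2)
                  115792089237316195423570985008687907853269984665640564039457584007913129639935
                  = (e >>> 2) % 2 ^ 256 := Nat.and_two_pow_sub_one_eq_mod _ 256
                rw [this, h6, Nat.mul_comm, Nat.mul_add_mod, Nat.mod_mod]
              have h8 : Nat.shiftRight e 258 = Hi := by
                have : e >>> 258 = (e >>> 2) >>> 256 := by rw [← Nat.shiftRight_add]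
                show e >>> 258 = Hi
                rw [this, h6, Nat.shiftRight_eq_div_pow]
                have h9 : Lo % 2 ^ 256 < 2 ^ 256 := Nat.mod_lt _ (by positivity)
                rw [Nat.mul_comm, Nat.mul_add_div (by positivity), Nat.div_eq_of_lt h9, add_zero]
              rw [h7, h8] at h4
              exact nocfg_land hG.h7 h4
        · rw [h1] at H
          rcases h3 : Nat.beq (go2 G N P F w 100 (Nat.shiftRight e 2) Lo Hi) 1 with _ | _
          · rw [h3] at H; exact absurd rfl H
          · exact go2_sound hG hO 100 (by rw [beq_true h3]; norm_num)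
      · rw [h0] at H
        have hv : Nat.shiftLeft (Nat.land (Nat.shiftRight e 2) 15) 4
            = 16 * (Nat.land (Nat.shiftRight e 2) 15) := by
          show (_ <<< 4) = _
          rw [Nat.shiftLeft_eq]; ring
        have hc : Nat.land (Nat.shiftRight e 6) 65535 < 65536 := by
          rw [land_65535]; exact Nat.mod_lt _ (by norm_num)
        rw [hv] at H
        apply nocfg_split _ hc
        · apply ih (l := rest)
          · intro h5
            apply H
            show goL2 G N P F w d (goL2 G N P F w d rest Lo (setf Hi
              (16 * (Nat.land (Nat.shiftRight e 2) 15)) (Nat.land (Nat.shiftRight e 6) 65535))) _ _ = []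
            rw [h5, goL2_nil]
          · exact fun a ha => hl a (by simp [ha])
        · apply ih H
          intro a ha
          have := goL2_subset d _ _ _ ha
          exact hl a (by simp [this])

/-- soundness of a certificate -/
theorem chk2_sound (hG : Good N P F w) (hO : GOK G N) {l : List ℕ} {Lo Hi : ℕ}
    (H : K.chk2 G N P F w l Lo Hi = true) (hl : ∀ e ∈ l, ExtOK N e) : NoCfg N Lo Hi := by
  apply goL2_sound hG hO 100 _ hl
  intro h
  unfold K.chk2 at H
  rw [h] at H
  exact absurd H (by decide)

/-- soundness of one certificate, given the boxes it refers to -/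
theorem piece2 (hG : Good N P F w) (hO : GOK G N) {l : List ℕ} {Lo Hi : ℕ}
    {L : List (ℕ × ℕ)} (H : K.chk2 G N P F w l Lo Hi = true) (hx : exts l = L)
    (hL : ∀ p ∈ L, NoCfg N p.1 p.2) : NoCfg N Lo Hi := by
  apply chk2_sound hG hO H
  intro e he h2
  have h3 : dec e ∈ exts l := by
    unfold exts
    rw [List.mem_map]
    refine ⟨e, List.mem_filter.2 ⟨he, ?_⟩, rfl⟩
    unfold isX
    rw [h2]; rfl
  rw [hx] at h3
  exact hL _ h3

theorem piece20 (hG : Good N P F w) (hO : GOK G N) {l : List ℕ} {Lo Hi : ℕ}
    (H : K.chk2 G N P F w l Lo Hi = true) (hx : exts l = []) : NoCfg N Lo Hi :=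
  piece2 hG hO H hx (by simp)

end RelEqN.Small.Box
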