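import Pool.Agent.Lib.MP_b9e19b_mp.Box.GLeafT
import Pool.Agent.Lib.MP_b9e19b_mp.Box.GLatA
import Pool.Agent.Lib.MP_b9e19b_mp.Box.Tree2

set_option autoImplicit false

/-!
# The lattice leaf is sound
-/

namespace RelEqN.Small.Box

open K

/-- **The leaf of code 9 is sound.** -/
theorem gok9 {N : ℕ} (h4 : 4 ≤ N) (h7 : N ≤ 7) : GOK gl9 N := by
  intro s Lo Hi H x y hc hB
  exact H (GLf.gl9_sound latA h4 h7 hc hB)

end RelEqN.Small.Box
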