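import Pool.Agent.Lib.MP_b9e19b_mp.Box.GTabS

set_option autoImplicit false

/-!
# The lattice tables on the whole grid
-/

namespace RelEqN.Small.Box

open Set K

lemma Bil.reflx {f : ℝ → ℝ → ℝ} {x0 x1 y0 y1 v00 v01 v10 v11 : ℝ}
    (h : Bil f x0 x1 y0 y1 v00 v01 v10 v11) :
    Bil (fun X Y => f (-X) Y) (-x1) (-x0) y0 y1 v10 v11 v00 v01 := by
  intro l m p r hl hm hlm hp hr hpr
  have := h m l p r hm hl (by linarith) hp hr hpr
  have e : -(l * -x1 + m * -x0) = m * x0 + l * x1 := by ring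
  show _ ≤ f (-(l * -x1 + m * -x0)) _
  rw [e]
  linarith

lemma Bil.refly {f : ℝ → ℝ → ℝ} {x0 x1 y0 y1 v00 v01 v10 v11 : ℝ}
    (h : Bil f x0 x1 y0 y1 v00 v01 v10 v11) :
    Bil (fun X Y => f X (-Y)) x0 x1 (-y1) (-y0) v01 v00 v11 v10 := by
  intro l m p r hl hm hlm hp hr hpr
  have := h l m r p hl hm hlm hr hp (by linarith)
  have e : -(p * -y1 + r * -y0) = r * y0 + p * y1 := by ring
  show _ ≤ f _ (-(p * -y1 + r * -y0))
  rw [e]
  linarith

lemma Ten.reflx {x0 x1 y0 y1 : ℝ} {w v x z y u r s t q : Bool → Bool → ℝ}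
    (h : Ten x0 x1 y0 y1 w v x z y u r s t q) :
    Ten (-x1) (-x0) y0 y1 (fun c d => w (!c) d) (fun c d => v (!c) d) (fun c d => z (!c) d)
      (fun c d => x (!c) d) (fun c d => y (!c) d) (fun c d => u (!c) d) (fun c d => r (!c) d)
      (fun c d => s (!c) d) (fun c d => t (!c) d) (fun c d => q (!c) d) where
  w := h.w.reflx.congr fun X Y => by rw [neg_sq]
  v := h.v.reflx.congr fun X Y => by rw [neg_sq]
  x := h.z.reflx.congr fun X Y => by rw [neg_sq]; ring
  z := h.x.reflx.congr fun X Y => by rw [neg_sq]; ring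
  y := h.y.reflx.congr fun X Y => by rw [neg_sq]
  u := h.u.reflx.congr fun X Y => by rw [neg_sq]
  r := h.r.reflx.congr fun X Y => by rw [neg_sq]
  s := h.s.reflx.congr fun X Y => by rw [neg_sq]
  t := h.t.reflx.congr fun X Y => by rw [neg_sq]
  q := h.q.reflx.congr fun X Y => by rw [neg_sq]

lemma Ten.refly {x0 x1 y0 y1 : ℝ} {w v x z y u r s t q : Bool → Bool → ℝ}
    (h : Ten x0 x1 y0 y1 w v x z y u r s t q) :
    Ten x0 x1 (-y1) (-y0) (fun c d => w c (!d)) (fun c d => v c (!d)) (fun c d => x c (!d))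
      (fun c d => z c (!d)) (fun c d => u c (!d)) (fun c d => y c (!d)) (fun c d => r c (!d))
      (fun c d => s c (!d)) (fun c d => t c (!d)) (fun c d => q c (!d)) where
  w := h.w.refly.congr fun X Y => by rw [neg_sq]
  v := h.v.refly.congr fun X Y => by rw [neg_sq]
  x := h.x.refly.congr fun X Y => by rw [neg_sq]
  z := h.z.refly.congr fun X Y => by rw [neg_sq]
  y := h.u.refly.congr fun X Y => by rw [neg_sq]; ring
  u := h.y.refly.congr fun X Y => by rw [neg_sq]; ring
  r := h.r.refly.congr fun X Y => by rw [neg_sq]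
  s := h.s.refly.congr fun X Y => by rw [neg_sq]
  t := h.t.refly.congr fun X Y => by rw [neg_sq]
  q := h.q.refly.congr fun X Y => by rw [neg_sq]

/-- coordinate of the node `i` of the full grid -/
noncomputable def gr (n G i : ℕ) : ℝ := if i < n then -(gx G (n - i) : ℝ) else gx G (i - n)

/-- the absolute index of a cell -/
def ca (n i : ℕ) : ℕ := if i < n then n - 1 - i else i - n

/-- the statement for the cell `(i, j)` of the full grid -/
def CellT (n S G : ℕ) (T : Tbl) (i j : ℕ) : Prop :=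
  Ten (gr n G i) (gr n G (i + 1)) (gr n G j) (gr n G (j + 1))
    (fun c d => (l32 T.w (S * ix j d + ix i c) : ℝ) - 2 ^ 17)
    (fun c d => (l32 T.v (S * ix j d + ix i c) : ℝ) - 2 ^ 17)
    (fun c d => (l32 T.x (S * ix j d + ix i c) : ℝ) - 2 ^ 16)
    (fun c d => (l32 T.z (S * ix j d + ix i c) : ℝ) - 2 ^ 16)
    (fun c d => (l32 T.y (S * ix j d + ix i c) : ℝ) - 2 ^ 16)
    (fun c d => (l32 T.u (S * ix j d + ix i c) : ℝ) - 2 ^ 16)
    (fun c d => (l32 T.r (S * ix j d + ix i c) : ℝ) - 2 ^ 15)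
    (fun c d => (l32 T.s (S * ix j d + ix i c) : ℝ) - 2 ^ 15)
    (fun c d => (l32 T.t (S * ix j d + ix i c) : ℝ) - 2 ^ 21)
    (fun c d => (l32 T.q (S * ix j d + ix i c) : ℝ) - 2 ^ 21)

/-- quadrant cell with the index maps `f, g` for the nodes -/
lemma quad_of {n G GV a b : ℕ} (ha : gx G a < gx G (a + 1)) (hb : gx G b < gx G (b + 1))
    (hR : 0 < cR G a b) (hV : vok (l32 GV (a + (n + 1) * b)) (cR G a b) = true) (T : Tbl)
    (p : Bool → Bool → ℕ)
    (h : ∀ c d, NodeT (gx G (ix a c)) (gx G (ix b d)) (corr n G GV a b) T (p c d)) :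
    Ten (gx G a) (gx G (a + 1)) (gx G b) (gx G (b + 1))
    (fun c d => (l32 T.w (p c d) : ℝ) - 2 ^ 17)
    (fun c d => (l32 T.v (p c d) : ℝ) - 2 ^ 17)
    (fun c d => (l32 T.x (p c d) : ℝ) - 2 ^ 16)
    (fun c d => (l32 T.z (p c d) : ℝ) - 2 ^ 16)
    (fun c d => (l32 T.y (p c d) : ℝ) - 2 ^ 16)
    (fun c d => (l32 T.u (p c d) : ℝ) - 2 ^ 16)
    (fun c d => (l32 T.r (p c d) : ℝ) - 2 ^ 15)
    (fun c d => (l32 T.s (p c d) : ℝ) - 2 ^ 15)
    (fun c d => (l32 T.t (p c d) : ℝ) - 2 ^ 21)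
    (fun c d => (l32 T.q (p c d) : ℝ) - 2 ^ 21) :=
  quad_ten ha hb hR hV _ _ _ _ _ _ _ _ _ _ h

lemma gok_spec {n G : ℕ} (h : gok n G = true) :
    gx G 0 = 0 ∧ ∀ a < n, gx G a < gx G (a + 1) := by
  have h' : (Nat.beq (gx G 0) 0 && al n fun a => Nat.ble (gx G a + 1) (gx G (a + 1))) = true := h
  rw [Bool.and_eq_true, al_iff] at h'
  refine ⟨Nat.eq_of_beq_eq_true h'.1, fun a ha => ?_⟩
  exact Nat.le_of_ble_eq_true (h'.2 a ha)

/-- the endpoints of a cell of the full grid -/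
lemma gr_cell {n G i : ℕ} (h0 : gx G 0 = 0) (hi : i < 2 * n) :
    ca n i < n ∧ ((n ≤ i ∧ gr n G i = gx G (ca n i) ∧ gr n G (i + 1) = gx G (ca n i + 1) ∧
      i = n + ca n i) ∨
    (i < n ∧ gr n G i = -(gx G (ca n i + 1) : ℝ) ∧ gr n G (i + 1) = -(gx G (ca n i) : ℝ) ∧
      i + 1 = n - ca n i ∧ i = n - (ca n i + 1))) := by
  unfold ca gr
  rcases lt_or_ge i n with h | h
  · rw [if_pos h]
    refine ⟨by omega, Or.inr ⟨h, ?_, ?_, by omega, by omega⟩⟩
    · rw [if_pos h]
      congr 3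
      omega
    · rcases lt_or_ge (i + 1) n with h2 | h2
      · rw [if_pos h2]
        congr 3
        omega
      · rw [if_neg (by omega)]
        have e1 : i + 1 - n = 0 := by omega
        have e2 : n - 1 - i = 0 := by omega
        rw [e1, e2, h0]
        norm_num
  · rw [if_neg (by omega)]
    refine ⟨by omega, Or.inl ⟨h, ?_, ?_, by omega⟩⟩
    · rw [if_neg (by omega)]
    · rw [if_neg (by omega)]
      congr 2
      omega

/-- **All cells of the full grid.** -/
theorem cell_all {n S G GV rho : ℕ} {T : Tbl} (hS : 2 * n < S) (hG : gok n G = true)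
    (hst : ∀ b < n, strip n S (2 ^ (32 * S) - 1) G GV rho T b = true) {i j : ℕ} (hi : i < 2 * n)
    (hj : j < 2 * n) (hr : rho ≤ cF G (ca n i) (ca n j)) : CellT n S G T i j := by
  obtain ⟨h0, hinc⟩ := gok_spec hG
  obtain ⟨hai, hci⟩ := gr_cell (G := G) h0 hi
  obtain ⟨haj, hcj⟩ := gr_cell (G := G) h0 hj
  set a := ca n i with ha
  set b := ca n j with hb
  obtain ⟨⟨hR, hV⟩, ⟨⟨p1, p2⟩, ⟨p3, p4⟩, _⟩, ⟨⟨q1, q2⟩, ⟨q3, q4⟩, _⟩, ⟨⟨r1, r2⟩, ⟨r3, r4⟩, _⟩,
    ⟨⟨s1, s2⟩, ⟨s3, s4⟩, _⟩⟩ := strip_spec (M := 2 ^ (32 * S) - 1) rfl hS hai (hst b haj) hr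
  have hga := hinc a hai
  have hgb := hinc b haj
  rcases hci with ⟨hni, e1, e2, e3⟩ | ⟨hni, e1, e2, e3, e4⟩
  · rcases hcj with ⟨hnj, f1, f2, f3⟩ | ⟨hnj, f1, f2, f3, f4⟩
    · have h := quad_of hga hgb hR hV T (fun c d => S * ix j d + ix i c) (by
        intro c d
        cases c <;> cases d <;> simp only [ix, cond_true, cond_false]
        · rw [e3, f3]; exact p1
        · rw [e3, f3]; exact q1
        · rw [e3, f3]; exact p3
        · rw [e3, f3]; exact q3)
      unfold CellT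
      rw [e1, e2, f1, f2]
      exact h
    · have h := quad_of hga hgb hR hV T.fy (fun c d => S * ix j (!d) + ix i c) (by
        intro c d
        cases c <;> cases d <;> simp only [ix, cond_true, cond_false, Bool.not_true, Bool.not_false]
        · rw [e3, f3]; exact r1
        · rw [e3, f4]; exact s1
        · rw [e3, f3]; exact r3
        · rw [e3, f4]; exact s3)
      unfold CellT
      rw [e1, e2, f1, f2]
      have h2 := h.refly
      simp only [Bool.not_not] at h2
      exact h2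
  · rcases hcj with ⟨hnj, f1, f2, f3⟩ | ⟨hnj, f1, f2, f3, f4⟩
    · have h := quad_of hga hgb hR hV T.fx (fun c d => S * ix j d + ix i (!c)) (by
        intro c d
        cases c <;> cases d <;> simp only [ix, cond_true, cond_false, Bool.not_true, Bool.not_false]
        · rw [e3, f3]; exact p2
        · rw [e3, f3]; exact q2
        · rw [e4, f3]; exact p4
        · rw [e4, f3]; exact q4)
      unfold CellT
      rw [e1, e2, f1, f2]
      have h2 := h.reflx
      simp only [Bool.not_not] at h2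
      exact h2
    · have h := quad_of hga hgb hR hV T.fy.fx (fun c d => S * ix j (!d) + ix i (!c)) (by
        intro c d
        cases c <;> cases d <;> simp only [ix, cond_true, cond_false, Bool.not_true, Bool.not_false]
        · rw [e3, f3]; exact r2
        · rw [e3, f4]; exact s2
        · rw [e4, f3]; exact r4
        · rw [e4, f4]; exact s4)
      unfold CellT
      rw [e1, e2, f1, f2]
      have h2 := h.reflx.refly
      simp only [Bool.not_not] at h2
      exact h2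

end RelEqN.Small.Box
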