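import Mathlib.Tactic

set_option autoImplicit false

/-!
# Packed lanes

A natural number is read as a sequence of lanes of `L` bits. Sums and multiples act on the lanes
as long as no lane overflows; `land` and shifts by whole lanes always act on the lanes.
-/

namespace RelEqN.Small.Box

/-- lane `i` (of `L` bits) of `A` -/
def lane (L A i : ℕ) : ℕ := (A >>> (L * i)) % 2 ^ L

lemma lane_lt (L A i : ℕ) : lane L A i < 2 ^ L := Nat.mod_lt _ (by positivity)

lemma lane_testBit (L A i b : ℕ) :
    (lane L A i).testBit b = (decide (b < L) && A.testBit (L * i + b)) := by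
  unfold lane
  rw [Nat.testBit_mod_two_pow, Nat.testBit_shiftRight]

lemma lane_eq_div (L A i : ℕ) : lane L A i = A / 2 ^ (L * i) % 2 ^ L := by
  unfold lane
  rw [Nat.shiftRight_eq_div_pow]

lemma lane_shiftRight (L A k i : ℕ) : lane L (A >>> (L * k)) i = lane L A (k + i) := by
  unfold lane
  rw [← Nat.shiftRight_add, ← mul_add]

lemma lane_land (L A B i : ℕ) : lane L (A &&& B) i = lane L A i &&& lane L B i := by
  apply Nat.eq_of_testBit_eq
  intro b
  rw [Nat.testBit_and, lane_testBit, lane_testBit, lane_testBit, Nat.testBit_and]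
  cases decide (b < L) <;> simp

lemma land_full {L a : ℕ} (h : a < 2 ^ L) : a &&& (2 ^ L - 1) = a := by
  rw [Nat.and_two_pow_sub_one_eq_mod, Nat.mod_eq_of_lt h]

/-- lane of a masked number, the mask is full there -/
lemma lane_mask_full {L A m i : ℕ} (h : lane L m i = 2 ^ L - 1) :
    lane L (A &&& m) i = lane L A i := by
  rw [lane_land, h, land_full (lane_lt L A i)]

/-- lane of a masked number, the mask is empty there -/
lemma lane_mask_zero {L A m i : ℕ} (h : lane L m i = 0) : lane L (A &&& m) i = 0 := by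
  rw [lane_land, h, Nat.and_zero]

/-- low part: decomposition -/
lemma mod_lane (L A i : ℕ) :
    A % 2 ^ (L * (i + 1)) = A % 2 ^ (L * i) + 2 ^ (L * i) * lane L A i := by
  rw [lane_eq_div, mul_add, mul_one, pow_add, Nat.mod_mul]

lemma lane_add_aux (L A B : ℕ) (n : ℕ) (h : ∀ i < n, lane L A i + lane L B i < 2 ^ L) :
    A % 2 ^ (L * n) + B % 2 ^ (L * n) < 2 ^ (L * n) := by
  induction n with
  | zero => simp [Nat.mod_one]
  | succ n ih =>
    have h1 := ih fun i hi => h i (by omega)
    have h2 := h n (by omega)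
    rw [mod_lane, mod_lane, mul_add, mul_one, pow_add]
    have h3 : 2 ^ (L * n) * (lane L A n + lane L B n + 1) ≤ 2 ^ (L * n) * 2 ^ L :=
      Nat.mul_le_mul_left _ h2
    nlinarith

/-- **Lanes of a sum.** -/
lemma lane_add {L A B i : ℕ} (h : ∀ j ≤ i, lane L A j + lane L B j < 2 ^ L) :
    lane L (A + B) i = lane L A i + lane L B i := by
  have h1 := lane_add_aux L A B i fun j hj => h j hj.le
  rw [lane_eq_div, lane_eq_div, lane_eq_div]
  rw [Nat.add_div_eq_of_add_mod_lt h1]
  have h2 := h i le_rfl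
  rw [lane_eq_div, lane_eq_div] at h2
  exact Nat.add_mod_of_add_mod_lt h2

lemma lane_mul_aux (L A c : ℕ) (n : ℕ) (h : ∀ i < n, c * lane L A i < 2 ^ L) :
    c * (A % 2 ^ (L * n)) < 2 ^ (L * n) := by
  rcases Nat.eq_zero_or_pos c with hc | hc
  · subst hc; rw [zero_mul]; positivity
  induction n with
  | zero => simp [Nat.mod_one]
  | succ n ih =>
    have h1 := ih fun i hi => h i (by omega)
    have h2 := h n (by omega)
    rw [mod_lane, mul_add (L), mul_one, pow_add]
    have h3 : 2 ^ (L * n) * (c * lane L A n + 1) ≤ 2 ^ (L * n) * 2 ^ L :=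
      Nat.mul_le_mul_left _ h2
    nlinarith

/-- **Lanes of a multiple.** -/
lemma lane_mul {L A c i : ℕ} (h : ∀ j ≤ i, c * lane L A j < 2 ^ L) :
    lane L (c * A) i = c * lane L A i := by
  have h1 := lane_mul_aux L A c i fun j hj => h j hj.le
  have h2 := h i le_rfl
  have hpos : 0 < 2 ^ (L * i) := by positivity
  have h3 : c * A / 2 ^ (L * i) = c * (A / 2 ^ (L * i)) := by
    have e : c * A = 2 ^ (L * i) * (c * (A / 2 ^ (L * i))) + c * (A % 2 ^ (L * i)) := by
      conv_lhs => rw [← Nat.div_add_mod A (2 ^ (L * i))]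
      ring
    rw [e, Nat.mul_add_div hpos, Nat.div_eq_of_lt h1, add_zero]
  rw [lane_eq_div, lane_eq_div, h3]
  rw [lane_eq_div] at h2
  conv_lhs => rw [← Nat.div_add_mod (A / 2 ^ (L * i)) (2 ^ L), mul_add, mul_left_comm,
    Nat.mul_add_mod]
  exact Nat.mod_eq_of_lt h2

/-- the test of the top bits -/
lemma top_of_land {L X M i : ℕ} (hL : 0 < L) (h : X &&& M = M)
    (hM : 2 ^ (L - 1) ≤ lane L M i) : 2 ^ (L - 1) ≤ lane L X i := by
  have h1 : (lane L M i).testBit (L - 1) = true := by
    rw [Nat.testBit_eq_decide_div_mod_eq, decide_eq_true_iff]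
    have h2 : lane L M i < 2 ^ (L - 1) * 2 := by
      have := lane_lt L M i
      rwa [← pow_succ, Nat.sub_add_cancel hL]
    have h3 : lane L M i / 2 ^ (L - 1) = 1 := by
      rw [Nat.div_eq_iff (by positivity)]
      constructor
      · simpa using hM
      · omega
    rw [h3]
  have h2 : (lane L X i).testBit (L - 1) = true := by
    rw [lane_testBit] at h1 ⊢
    rw [← h, Nat.testBit_and] at h1
    simp only [Bool.and_eq_true] at h1 ⊢
    exact ⟨h1.1, h1.2.1⟩
  exact Nat.ge_two_pow_of_testBit h2

end RelEqN.Small.Box
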