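import Pool.Agent.Lib.MP_b9e19b_mp.Box.Grid
import Pool.Agent.Lib.MP_b9e19b_mp.Box.GTabK
import Pool.Agent.Lib.MP_b9e19b_mp.Box.Lanes

set_option autoImplicit false

/-!
# Soundness of the check of the lattice tables
-/

namespace RelEqN.Small.Box

open Set K

lemma al_iff {n : ℕ} {f : ℕ → Bool} : al n f = true ↔ ∀ k < n, f k = true := by
  induction n with
  | zero => simp [al]
  | succ n ih =>
    have e : al (n + 1) f = (f n && al n f) := rfl
    rw [e, Bool.and_eq_true, ih]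
    constructor
    · rintro ⟨h1, h2⟩ k hk
      rcases Nat.lt_succ_iff_lt_or_eq.1 hk with h | h
      · exact h2 k h
      · rw [h]; exact h1
    · intro h
      exact ⟨h n (Nat.lt_succ_self n), fun k hk => h k (Nat.lt_succ_of_lt hk)⟩

lemma l32_eq (T p : ℕ) : l32 T p = lane 32 T p := by
  show Nat.land (Nat.shiftRight T (Nat.shiftLeft p 5)) 4294967295 = _
  have e : Nat.shiftLeft p 5 = 32 * p := by
    show p <<< 5 = _
    rw [Nat.shiftLeft_eq]; ring
  rw [e]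
  exact Nat.and_two_pow_sub_one_eq_mod _ 32

/-- reading a lane of a row -/
lemma l32_rw {S M T j i : ℕ} (hM : M = 2 ^ (32 * S) - 1) (hi : i < S) :
    l32 (rw32 S M T j) i = l32 T (S * j + i) := by
  rw [l32_eq, l32_eq]
  apply Nat.eq_of_testBit_eq
  intro b
  rw [lane_testBit, lane_testBit]
  by_cases hb : b < 32
  · have e : Nat.shiftLeft (Nat.mul S j) 5 = 32 * (S * j) := by
      show (S * j) <<< 5 = _
      rw [Nat.shiftLeft_eq]; ring
    have e2 : rw32 S M T j = (T >>> (32 * (S * j))) &&& M := by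
      show Nat.land (Nat.shiftRight T (Nat.shiftLeft (Nat.mul S j) 5)) M = _
      rw [e]; rfl
    rw [e2, hM, Nat.testBit_and, Nat.testBit_shiftRight, Nat.testBit_two_pow_sub_one]
    have h3 : 32 * i + b < 32 * S := by omega
    simp only [hb, h3, decide_true, Bool.true_and, Bool.and_true]
    congr 1
    ring
  · simp [hb]

/-- the weights of the nodes -/
lemma vok_spec {V t : ℕ} (h : vok V t = true) :
    V ^ 2 * t ^ 3 ≤ 2 ^ 120 ∧ 2 ^ 120 ≤ (V + 1) ^ 2 * t ^ 3 := by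
  have h' : (Nat.ble (V * V * (t * (t * t))) 1329227995784915872903807060280344576
    && Nat.ble 1329227995784915872903807060280344576 ((V + 1) * (V + 1) * (t * (t * t)))) = true := h
  rw [Bool.and_eq_true] at h'
  have h1 := Nat.le_of_ble_eq_true h'.1
  have h2 := Nat.le_of_ble_eq_true h'.2
  have e : (2 : ℕ) ^ 120 = 1329227995784915872903807060280344576 := by norm_num
  rw [e]
  constructor
  · calc _ = V * V * (t * (t * t)) := by ring
      _ ≤ _ := h1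
  · calc _ ≤ _ := h2
      _ = _ := by ring

lemma vok_pos {V t : ℕ} (h : vok V t = true) : 0 < t := by
  have := (vok_spec h).2
  rcases Nat.eq_zero_or_pos t with h0 | h0
  · subst h0; norm_num at this
  · exact h0

lemma vok_lower {V t : ℕ} (h : vok V t = true) : (V : ℝ) ≤ 2 ^ 60 * W t := by
  have ht : (0 : ℝ) < t := by exact_mod_cast vok_pos h
  have h1 : (V : ℝ) ^ 2 * (t : ℝ) ^ 3 ≤ 2 ^ 120 := by exact_mod_cast (vok_spec h).1
  have h2 := W_sq ht.le
  refine le_of_sq ?_ (mul_nonneg (by norm_num) (W_nonneg _))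
  rw [mul_pow, h2, ← div_eq_mul_inv, le_div_iff₀ (by positivity)]
  calc _ ≤ (2 : ℝ) ^ 120 := h1
    _ = _ := by norm_num

lemma vok_upper {V t : ℕ} (h : vok V t = true) : 2 ^ 60 * W t ≤ (V : ℝ) + 1 := by
  have ht : (0 : ℝ) < t := by exact_mod_cast vok_pos h
  have h1 : (2 : ℝ) ^ 120 ≤ ((V : ℝ) + 1) ^ 2 * (t : ℝ) ^ 3 := by exact_mod_cast (vok_spec h).2
  have h2 := W_sq ht.le
  refine le_of_sq ?_ (by positivity)
  rw [mul_pow, h2, ← div_eq_mul_inv, div_le_iff₀ (by positivity)]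
  calc _ = (2 : ℝ) ^ 120 := by norm_num
    _ ≤ _ := h1

/-- the quotient rounded up -/
lemma dv_spec {P V R : ℕ} (hR : 0 < R) : (P : ℝ) * V / R ≤ (dv P V R : ℕ) := by
  have e : dv P V R = P * V / R + 1 := rfl
  have hR' : (0 : ℝ) < R := by exact_mod_cast hR
  rw [e, div_le_iff₀ hR']
  have h1 : P * V < (P * V / R + 1) * R := by
    have := Nat.lt_mul_div_succ (P * V) hR
    rwa [mul_comm R] at this
  exact_mod_cast h1.le

/-- corrections of a cell -/
structure Cor where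
  w : ℕ
  v : ℕ
  x : ℕ
  z : ℕ
  y : ℕ
  u : ℕ
  r : ℕ
  s : ℕ
  t : ℕ

/-- the ten tables -/
structure Tbl where
  w : ℕ
  v : ℕ
  x : ℕ
  z : ℕ
  y : ℕ
  u : ℕ
  r : ℕ
  s : ℕ
  t : ℕ
  q : ℕ

/-- reflection in `x` -/
def Tbl.fx (T : Tbl) : Tbl := { T with x := T.z, z := T.x }

/-- reflection in `y` -/
def Tbl.fy (T : Tbl) : Tbl := { T with y := T.u, u := T.y }

/-- the row of all tables -/
def Tbl.row (T : Tbl) (S M j : ℕ) : Tbl where
  w := rw32 S M T.w j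
  v := rw32 S M T.v j
  x := rw32 S M T.x j
  z := rw32 S M T.z j
  y := rw32 S M T.y j
  u := rw32 S M T.u j
  r := rw32 S M T.r j
  s := rw32 S M T.s j
  t := rw32 S M T.t j
  q := rw32 S M T.q j

/-- the inequalities at a node (coordinates `ax, ay ≥ 0`) -/
structure NodeP (ax ay : ℕ) (C : Cor) (w v x z y u r s t q : ℕ) : Prop where
  w : (w : ℝ) - 2 ^ 17 ≤ 2 ^ 49 * W (ax ^ 2 + ay ^ 2) - C.w / 2 ^ 11
  v : (v : ℝ) - 2 ^ 17 ≤ -(2 ^ 49 * W (ax ^ 2 + ay ^ 2)) - C.v / 2 ^ 11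
  x : (x : ℝ) - 2 ^ 16 ≤ 2 ^ 37 * (ax * W (ax ^ 2 + ay ^ 2)) - C.x / 2 ^ 11
  z : (z : ℝ) - 2 ^ 16 ≤ -(2 ^ 37 * (ax * W (ax ^ 2 + ay ^ 2))) - C.z / 2 ^ 11
  y : (y : ℝ) - 2 ^ 16 ≤ 2 ^ 37 * (ay * W (ax ^ 2 + ay ^ 2)) - C.y / 2 ^ 11
  u : (u : ℝ) - 2 ^ 16 ≤ -(2 ^ 37 * (ay * W (ax ^ 2 + ay ^ 2))) - C.u / 2 ^ 11
  r : (r : ℝ) - 2 ^ 15 ≤ 2 ^ 25 * ((ax ^ 2 + ay ^ 2) * W (ax ^ 2 + ay ^ 2)) - C.r / 2 ^ 11
  s : (s : ℝ) - 2 ^ 15 ≤ -(2 ^ 25 * ((ax ^ 2 + ay ^ 2) * W (ax ^ 2 + ay ^ 2))) - C.s / 2 ^ 11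
  t : (t : ℝ) - 2 ^ 21 ≤ (ax ^ 2 + ay ^ 2 - C.t / 4) / 2 ^ 11
  q : (q : ℝ) - 2 ^ 21 ≤ -((ax ^ 2 + ay ^ 2) / 2 ^ 11)

/-- the test of a node with structures -/
def ndT (V ax ay t p : ℕ) (C : Cor) (T : Tbl) : Bool :=
  ndc V ax ay t p C.w C.v C.x C.z C.y C.u C.r C.s C.t T.w T.v T.x T.z T.y T.u T.r T.s T.t T.q

/-- values at a lane -/
abbrev NodeT (ax ay : ℕ) (C : Cor) (T : Tbl) (p : ℕ) : Prop :=
  NodeP ax ay C (l32 T.w p) (l32 T.v p) (l32 T.x p) (l32 T.z p) (l32 T.y p) (l32 T.u p)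
    (l32 T.r p) (l32 T.s p) (l32 T.t p) (l32 T.q p)

lemma ndT_spec {V ax ay t p : ℕ} {C : Cor} {T : Tbl} (ht : t = ax ^ 2 + ay ^ 2)
    (hV : vok V t = true) (h : ndT V ax ay t p C T = true) : NodeT ax ay C T p := by
  have hl := vok_lower hV
  have hu := vok_upper hV
  have et : (t : ℝ) = (ax : ℝ) ^ 2 + (ay : ℝ) ^ 2 := by rw [ht]; push_cast; ring
  rw [et] at hl hu
  have hax : (0 : ℝ) ≤ ax := Nat.cast_nonneg _
  have hay : (0 : ℝ) ≤ ay := Nat.cast_nonneg _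
  have htt : (0 : ℝ) ≤ (ax : ℝ) ^ 2 + (ay : ℝ) ^ 2 := by positivity
  unfold ndT ndc at h
  simp only [Bool.and_eq_true] at h
  obtain ⟨h1, h2, h3, h4, h5, h6, h7, h8, h9, h10⟩ := h
  have g1 := Nat.le_of_ble_eq_true h1
  have g2 := Nat.le_of_ble_eq_true h2
  have g3 := Nat.le_of_ble_eq_true h3
  have g4 := Nat.le_of_ble_eq_true h4
  have g5 := Nat.le_of_ble_eq_true h5
  have g6 := Nat.le_of_ble_eq_true h6
  have g7 := Nat.le_of_ble_eq_true h7
  have g8 := Nat.le_of_ble_eq_true h8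
  have g9 := Nat.le_of_ble_eq_true h9
  have g10 := Nat.le_of_ble_eq_true h10
  simp only [Nat.add_eq, Nat.mul_eq, Nat.shiftLeft_eq', Nat.shiftLeft_eq] at g1 g2 g3 g4 g5
  simp only [Nat.add_eq, Nat.mul_eq, Nat.shiftLeft_eq', Nat.shiftLeft_eq] at g6 g7 g8 g9 g10
  have k1 : (l32 T.w p : ℝ) * 2 ^ 11 + C.w ≤ 268435456 + V := by exact_mod_cast g1
  have k2 : (l32 T.v p : ℝ) * 2 ^ 11 + (C.v + (V + 1)) ≤ 268435456 := by exact_mod_cast g2
  have k3 : ((l32 T.x p : ℝ) * 2 ^ 11 + C.x) * 2 ^ 12 ≤ 549755813888 + ax * V := by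
    exact_mod_cast g3
  have k4 : ((l32 T.z p : ℝ) * 2 ^ 11 + C.z) * 2 ^ 12 + ax * (V + 1) ≤ 549755813888 := by
    exact_mod_cast g4
  have k5 : ((l32 T.y p : ℝ) * 2 ^ 11 + C.y) * 2 ^ 12 ≤ 549755813888 + ay * V := by
    exact_mod_cast g5
  have k6 : ((l32 T.u p : ℝ) * 2 ^ 11 + C.u) * 2 ^ 12 + ay * (V + 1) ≤ 549755813888 := by
    exact_mod_cast g6
  have k7 : ((l32 T.r p : ℝ) * 2 ^ 11 + C.r) * 2 ^ 24 ≤ 1125899906842624 + t * V := by
    exact_mod_cast g7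
  have k8 : ((l32 T.s p : ℝ) * 2 ^ 11 + C.s) * 2 ^ 24 + t * (V + 1) ≤ 1125899906842624 := by
    exact_mod_cast g8
  have k9 : (l32 T.t p : ℝ) * 2 ^ 13 + C.t ≤ 17179869184 + t * 2 ^ 2 := by exact_mod_cast g9
  have k10 : (l32 T.q p : ℝ) * 2 ^ 11 + t ≤ 4294967296 := by exact_mod_cast g10
  rw [et] at k7 k8 k9 k10
  have a1 := mul_le_mul_of_nonneg_left hl hax
  have a2 := mul_le_mul_of_nonneg_left hu hax
  have a3 := mul_le_mul_of_nonneg_left hl hay
  have a4 := mul_le_mul_of_nonneg_left hu hay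
  have a5 := mul_le_mul_of_nonneg_left hl htt
  have a6 := mul_le_mul_of_nonneg_left hu htt
  constructor
  · linarith
  · linarith
  · linarith
  · linarith
  · linarith
  · linarith
  · linarith
  · linarith
  · linarith
  · linarith

lemma nd2_spec {n V ax ay a : ℕ} {C : Cor} {T : Tbl}
    (h : nd2 n V ax ay a C.w C.v C.x C.z C.y C.u C.r C.s C.t T.w T.v T.x T.z T.y T.u T.r T.s T.t T.q
      = true) : NodeT ax ay C T (n + a) ∧ NodeT ax ay C T.fx (n - a) := by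
  have h' : (vok V (ax * ax + ay * ay) && (ndT V ax ay (ax * ax + ay * ay) (n + a) C T
    && ndT V ax ay (ax * ax + ay * ay) (n - a) C T.fx)) = true := h
  rw [Bool.and_eq_true, Bool.and_eq_true] at h'
  obtain ⟨h1, h2, h3⟩ := h'
  have e : ax * ax + ay * ay = ax ^ 2 + ay ^ 2 := by ring
  exact ⟨ndT_spec e h1 h2, ndT_spec e h1 h3⟩

/-- squared norm of the nearest corner -/
def cR (G a b : ℕ) : ℕ := gx G a * gx G a + gx G b * gx G b

/-- the corrections of the cell `(a, b)` -/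
noncomputable def corr (n G GV a b : ℕ) : Cor :=
  (fun X1 Y1 A B C D h h' R V1 =>
    { w := dv (pp h B C 12 3 h' D A 12 3) V1 (Nat.shiftLeft (Nat.mul R R) 3)
      v := dv (pp h D A 3 12 h' B C 3 12) V1 (Nat.shiftLeft (Nat.mul R R) 3)
      x := dv (Nat.mul X1 (pp h B C 6 9 h' D A 12 3)) V1 (Nat.shiftLeft (Nat.mul R R) 15)
      z := dv (Nat.mul X1 (pp h D A 9 6 h' B C 3 12)) V1 (Nat.shiftLeft (Nat.mul R R) 15)
      y := dv (Nat.mul Y1 (pp h' D A 6 9 h B C 12 3)) V1 (Nat.shiftLeft (Nat.mul R R) 15)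
      u := dv (Nat.mul Y1 (pp h' B C 9 6 h D A 3 12)) V1 (Nat.shiftLeft (Nat.mul R R) 15)
      r := dv (pp h B C 2 1 h' D A 2 1) V1 (Nat.shiftLeft R 27)
      s := dv (pp h D A 1 2 h' B C 1 2) V1 (Nat.shiftLeft R 27)
      t := Nat.add h h' })
  (gx G (a + 1)) (gx G (b + 1)) (gx G a * gx G a) (gx G (a + 1) * gx G (a + 1))
  (gx G b * gx G b) (gx G (b + 1) * gx G (b + 1))
  ((gx G (a + 1) - gx G a) * (gx G (a + 1) - gx G a))
  ((gx G (b + 1) - gx G b) * (gx G (b + 1) - gx G b)) (cR G a b)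
  (l32 GV (a + (n + 1) * b) + 1)

/-- the far corner of the cell `(a, b)` -/
def cF (G a b : ℕ) : ℕ :=
  gx G (a + 1) * gx G (a + 1) + gx G (b + 1) * gx G (b + 1)

lemma crow_spec {n G GV rho b b' a : ℕ} {T : Tbl}
    (h : crow n G GV rho b b' T.w T.v T.x T.z T.y T.u T.r T.s T.t T.q a = true)
    (hr : rho ≤ cF G a b) : 0 < cR G a b ∧ vok (l32 GV (a + (n + 1) * b)) (cR G a b) = true ∧
      (NodeT (gx G a) (gx G b') (corr n G GV a b) T (n + a) ∧
        NodeT (gx G a) (gx G b') (corr n G GV a b) T.fx (n - a)) ∧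
      (NodeT (gx G (a + 1)) (gx G b') (corr n G GV a b) T (n + (a + 1)) ∧
        NodeT (gx G (a + 1)) (gx G b') (corr n G GV a b) T.fx (n - (a + 1))) := by
  have h' : (Bool.rec (motive := fun _ => Bool)
      (Bool.and (Nat.ble 1 (cR G a b)) (Bool.and (vok (l32 GV (a + (n + 1) * b) + 1 - 1) (cR G a b))
        (Bool.and (nd2 n (l32 GV (a + (n + 1) * b')) (gx G a) (gx G b') a
          (corr n G GV a b).w (corr n G GV a b).v (corr n G GV a b).x (corr n G GV a b).z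
          (corr n G GV a b).y (corr n G GV a b).u (corr n G GV a b).r (corr n G GV a b).s
          (corr n G GV a b).t T.w T.v T.x T.z T.y T.u T.r T.s T.t T.q)
          (nd2 n (l32 GV (a + 1 + (n + 1) * b')) (gx G (a + 1)) (gx G b') (a + 1)
          (corr n G GV a b).w (corr n G GV a b).v (corr n G GV a b).x (corr n G GV a b).z
          (corr n G GV a b).y (corr n G GV a b).u (corr n G GV a b).r (corr n G GV a b).s
          (corr n G GV a b).t T.w T.v T.x T.z T.y T.u T.r T.s T.t T.q))))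
      true (Nat.ble (cF G a b + 1) rho) : Bool) = true := h
  have h0 : Nat.ble (cF G a b + 1) rho = false := by
    rw [← Bool.not_eq_true, Nat.ble_eq]
    omega
  rw [h0] at h'
  have h2 : (Nat.ble 1 (cR G a b) && (vok (l32 GV (a + (n + 1) * b) + 1 - 1) (cR G a b) &&
        (nd2 n (l32 GV (a + (n + 1) * b')) (gx G a) (gx G b') a
          (corr n G GV a b).w (corr n G GV a b).v (corr n G GV a b).x (corr n G GV a b).z
          (corr n G GV a b).y (corr n G GV a b).u (corr n G GV a b).r (corr n G GV a b).s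
          (corr n G GV a b).t T.w T.v T.x T.z T.y T.u T.r T.s T.t T.q &&
          (nd2 n (l32 GV (a + 1 + (n + 1) * b')) (gx G (a + 1)) (gx G b') (a + 1)
          (corr n G GV a b).w (corr n G GV a b).v (corr n G GV a b).x (corr n G GV a b).z
          (corr n G GV a b).y (corr n G GV a b).u (corr n G GV a b).r (corr n G GV a b).s
          (corr n G GV a b).t T.w T.v T.x T.z T.y T.u T.r T.s T.t T.q)))) = true := h'
  simp only [Bool.and_eq_true, Nat.ble_eq, Nat.add_sub_cancel] at h2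
  obtain ⟨h3, h4, h5, h6⟩ := h2
  exact ⟨h3, h4, nd2_spec h5, nd2_spec h6⟩

/-- the test of a strip -/
noncomputable def strip (n S M G GV rho : ℕ) (T : Tbl) (b : ℕ) : Bool :=
  gchk n S M G GV rho T.w T.v T.x T.z T.y T.u T.r T.s T.t T.q b 1

lemma gchk_strip {n S M G GV rho b0 m : ℕ} {T : Tbl}
    (h : gchk n S M G GV rho T.w T.v T.x T.z T.y T.u T.r T.s T.t T.q b0 m = true) {b : ℕ}
    (h0 : b0 ≤ b) (h1 : b < b0 + m) : strip n S M G GV rho T b = true := by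
  have h2 := al_iff.1 h (b - b0) (by omega)
  have e : Nat.add b0 (b - b0) = b := by show b0 + (b - b0) = b; omega
  unfold strip gchk
  rw [al_iff]
  intro k hk
  have hk0 : k = 0 := by omega
  subst hk0
  simp only [e] at h2
  exact h2

/-- the statement for one row of nodes -/
def RowP (n G GV rho S : ℕ) (T T' : Tbl) (a b b' j : ℕ) : Prop :=
  (NodeT (gx G a) (gx G b') (corr n G GV a b) T (S * j + (n + a)) ∧
    NodeT (gx G a) (gx G b') (corr n G GV a b) T' (S * j + (n - a))) ∧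
  (NodeT (gx G (a + 1)) (gx G b') (corr n G GV a b) T (S * j + (n + (a + 1))) ∧
    NodeT (gx G (a + 1)) (gx G b') (corr n G GV a b) T' (S * j + (n - (a + 1)))) ∧ rho ≤ cF G a b

lemma rowc_spec {n S M G GV rho b b' j a : ℕ} {T : Tbl} (hM : M = 2 ^ (32 * S) - 1)
    (hS : 2 * n < S) (ha : a < n)
    (h : rowc n S M G GV rho T.w T.v T.x T.z T.y T.u T.r T.s T.t T.q b b' j = true)
    (hr : rho ≤ cF G a b) : (0 < cR G a b ∧ vok (l32 GV (a + (n + 1) * b)) (cR G a b) = true) ∧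
      RowP n G GV rho S T T.fx a b b' j := by
  have h1 := al_iff.1 (show al n (crow n G GV rho b b' (T.row S M j).w (T.row S M j).v
    (T.row S M j).x (T.row S M j).z (T.row S M j).y (T.row S M j).u (T.row S M j).r
    (T.row S M j).s (T.row S M j).t (T.row S M j).q) = true from h) a ha
  obtain ⟨h2, h3, ⟨h4, h5⟩, h6, h7⟩ := crow_spec h1 hr
  have e : ∀ (X : ℕ) {i : ℕ}, i < S → l32 (rw32 S M X j) i = l32 X (S * j + i) :=
    fun X i hi => l32_rw hM hi
  refine ⟨⟨h2, h3⟩, ⟨?_, ?_⟩, ⟨?_, ?_⟩, hr⟩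
  · simpa only [NodeT, Tbl.row, Tbl.fx, e _ (show n + a < S by omega)] using h4
  · simpa only [NodeT, Tbl.row, Tbl.fx, e _ (show n - a < S by omega)] using h5
  · simpa only [NodeT, Tbl.row, Tbl.fx, e _ (show n + (a + 1) < S by omega)] using h6
  · simpa only [NodeT, Tbl.row, Tbl.fx, e _ (show n - (a + 1) < S by omega)] using h7

lemma strip_spec {n S M G GV rho b a : ℕ} {T : Tbl} (hM : M = 2 ^ (32 * S) - 1)
    (hS : 2 * n < S) (ha : a < n) (h : strip n S M G GV rho T b = true)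
    (hr : rho ≤ cF G a b) : (0 < cR G a b ∧ vok (l32 GV (a + (n + 1) * b)) (cR G a b) = true) ∧
      RowP n G GV rho S T T.fx a b b (n + b) ∧ RowP n G GV rho S T T.fx a b (b + 1) (n + (b + 1)) ∧
      RowP n G GV rho S T.fy T.fy.fx a b b (n - b) ∧
      RowP n G GV rho S T.fy T.fy.fx a b (b + 1) (n - (b + 1)) := by
  unfold strip gchk at h
  have h1 := al_iff.1 h 0 (by norm_num)
  have h2 : (rowc n S M G GV rho T.w T.v T.x T.z T.y T.u T.r T.s T.t T.q b b (n + b) &&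
      (rowc n S M G GV rho T.w T.v T.x T.z T.y T.u T.r T.s T.t T.q b (b + 1) (n + (b + 1)) &&
      (rowc n S M G GV rho T.fy.w T.fy.v T.fy.x T.fy.z T.fy.y T.fy.u T.fy.r T.fy.s T.fy.t T.fy.q
        b b (n - b) &&
      rowc n S M G GV rho T.fy.w T.fy.v T.fy.x T.fy.z T.fy.y T.fy.u T.fy.r T.fy.s T.fy.t T.fy.q
        b (b + 1) (n - (b + 1))))) = true := h1
  simp only [Bool.and_eq_true] at h2
  obtain ⟨h3, h4, h5, h6⟩ := h2
  have g3 := rowc_spec hM hS ha h3 hr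
  have g4 := rowc_spec hM hS ha h4 hr
  have g5 := rowc_spec hM hS ha h5 hr
  have g6 := rowc_spec hM hS ha h6 hr
  exact ⟨g3.1, g3.2, g4.2, g5.2, g6.2⟩

/-! ### corrections -/

lemma cast_sub_max (a b : ℕ) : ((a - b : ℕ) : ℝ) = max ((a : ℝ) - b) 0 := by
  rcases le_total b a with h | h
  · rw [Nat.cast_sub h, max_eq_left]
    have : (b : ℝ) ≤ a := by exact_mod_cast h
    linarith
  · rw [Nat.sub_eq_zero_of_le h, max_eq_right, Nat.cast_zero]
    have : (a : ℝ) ≤ b := by exact_mod_cast h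
    linarith

lemma pp_cast (h B C k l h' D A k' l' : ℕ) : ((pp h B C k l h' D A k' l' : ℕ) : ℝ) =
    h * max ((k : ℝ) * B - l * C) 0 + h' * max ((k' : ℝ) * D - l' * A) 0 := by
  have e : pp h B C k l h' D A k' l' = h * (k * B - l * C) + h' * (k' * D - l' * A) := rfl
  rw [e]
  push_cast [cast_sub_max]
  ring

lemma inv_sqrt_pow {t : ℝ} (ht : 0 < t) : 1 / Real.sqrt t ^ 7 = W t / t ^ 2 ∧
    1 / Real.sqrt t ^ 5 = W t / t := by
  have h1 : 0 < Real.sqrt t := Real.sqrt_pos.2 ht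
  have h2 : Real.sqrt t ^ 2 = t := Real.sq_sqrt ht.le
  unfold W
  constructor
  · have e : Real.sqrt t ^ 7 = Real.sqrt t ^ 3 * t ^ 2 := by
      calc Real.sqrt t ^ 7 = Real.sqrt t ^ 3 * (Real.sqrt t ^ 2) ^ 2 := by ring
        _ = _ := by rw [h2]
    rw [e, one_div, mul_inv, div_eq_mul_inv]
  · have e : Real.sqrt t ^ 5 = Real.sqrt t ^ 3 * t := by
      calc Real.sqrt t ^ 5 = Real.sqrt t ^ 3 * Real.sqrt t ^ 2 := by ring
        _ = _ := by rw [h2]
    rw [e, one_div, mul_inv, div_eq_mul_inv]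

/-- the correction with the seventh power -/
lemma corr7 {P V R k : ℕ} {P' K : ℝ} (hR : 0 < R) (hV : 2 ^ 60 * W R ≤ (V : ℝ) + 1)
    (hP : (P : ℝ) = P') (hk : K * 2 ^ 11 * 2 ^ k = 8 * 2 ^ 60) :
    K * (1 / Real.sqrt R ^ 7 * P' / 8) ≤
      (dv P (V + 1) (Nat.shiftLeft (Nat.mul R R) k) : ℕ) / 2 ^ 11 := by
  have hR' : (0 : ℝ) < R := by exact_mod_cast hR
  have hp : 0 < Nat.shiftLeft (Nat.mul R R) k := by
    have e : Nat.shiftLeft (Nat.mul R R) k = R * R * 2 ^ k := by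
      show (R * R) <<< k = _
      rw [Nat.shiftLeft_eq]
    rw [e]; positivity
  have h1 := dv_spec (P := P) (V := V + 1) hp
  have e : ((Nat.shiftLeft (Nat.mul R R) k : ℕ) : ℝ) = R * R * 2 ^ k := by
    have e : Nat.shiftLeft (Nat.mul R R) k = R * R * 2 ^ k := by
      show (R * R) <<< k = _
      rw [Nat.shiftLeft_eq]
    rw [e]; push_cast; ring
  rw [e] at h1
  rw [(inv_sqrt_pow hR').1, ← hP]
  have h2 : K * (W R / (R : ℝ) ^ 2 * P / 8) * 2 ^ 11 ≤ (P : ℝ) * ((V + 1 : ℕ) : ℝ)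
      / (R * R * 2 ^ k) := by
    rw [le_div_iff₀ (by positivity)]
    have h3 : (P : ℝ) * (2 ^ 60 * W R) ≤ P * ((V : ℝ) + 1) :=
      mul_le_mul_of_nonneg_left hV (Nat.cast_nonneg _)
    calc K * (W R / (R : ℝ) ^ 2 * P / 8) * 2 ^ 11 * (R * R * 2 ^ k)
        = (K * 2 ^ 11 * 2 ^ k) * (W R * P / 8) := by field_simp
      _ = P * (2 ^ 60 * W R) := by rw [hk]; ring
      _ ≤ _ := by push_cast; exact h3
  rw [le_div_iff₀ (by norm_num)]
  exact h2.trans h1

/-- the correction with the fifth power -/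
lemma corr5 {P V R k : ℕ} {P' K : ℝ} (hR : 0 < R) (hV : 2 ^ 60 * W R ≤ (V : ℝ) + 1)
    (hP : (P : ℝ) = P') (hk : K * 2 ^ 11 * 2 ^ k = 8 * 2 ^ 60) :
    K * (1 / Real.sqrt R ^ 5 * P' / 8) ≤
      (dv P (V + 1) (Nat.shiftLeft R k) : ℕ) / 2 ^ 11 := by
  have hR' : (0 : ℝ) < R := by exact_mod_cast hR
  have e0 : Nat.shiftLeft R k = R * 2 ^ k := by
    show R <<< k = _
    rw [Nat.shiftLeft_eq]
  have hp : 0 < Nat.shiftLeft R k := by
    rw [e0]; positivity
  have h1 := dv_spec (P := P) (V := V + 1) hp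
  have e : ((Nat.shiftLeft R k : ℕ) : ℝ) = R * 2 ^ k := by
    rw [e0]; push_cast; ring
  rw [e] at h1
  rw [(inv_sqrt_pow hR').2, ← hP]
  have h2 : K * (W R / (R : ℝ) * P / 8) * 2 ^ 11 ≤ (P : ℝ) * ((V + 1 : ℕ) : ℝ)
      / (R * 2 ^ k) := by
    rw [le_div_iff₀ (by positivity)]
    have h3 : (P : ℝ) * (2 ^ 60 * W R) ≤ P * ((V : ℝ) + 1) :=
      mul_le_mul_of_nonneg_left hV (Nat.cast_nonneg _)
    calc K * (W R / (R : ℝ) * P / 8) * 2 ^ 11 * (R * 2 ^ k)
        = (K * 2 ^ 11 * 2 ^ k) * (W R * P / 8) := by field_simp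
      _ = P * (2 ^ 60 * W R) := by rw [hk]; ring
      _ ≤ _ := by push_cast; exact h3
  rw [le_div_iff₀ (by norm_num)]
  exact h2.trans h1

/-! ### the cells -/

/-- bilinear minorants of the ten functions with the given values at the corners -/
structure Ten (x0 x1 y0 y1 : ℝ) (w v x z y u r s t q : Bool → Bool → ℝ) : Prop where
  w : Bil (fun X Y => 2 ^ 49 * W (X ^ 2 + Y ^ 2)) x0 x1 y0 y1 (w false false) (w false true)
    (w true false) (w true true)
  v : Bil (fun X Y => -(2 ^ 49 * W (X ^ 2 + Y ^ 2))) x0 x1 y0 y1 (v false false) (v false true)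
    (v true false) (v true true)
  x : Bil (fun X Y => 2 ^ 37 * (X * W (X ^ 2 + Y ^ 2))) x0 x1 y0 y1 (x false false) (x false true)
    (x true false) (x true true)
  z : Bil (fun X Y => -(2 ^ 37 * (X * W (X ^ 2 + Y ^ 2)))) x0 x1 y0 y1 (z false false)
    (z false true) (z true false) (z true true)
  y : Bil (fun X Y => 2 ^ 37 * (Y * W (X ^ 2 + Y ^ 2))) x0 x1 y0 y1 (y false false) (y false true)
    (y true false) (y true true)
  u : Bil (fun X Y => -(2 ^ 37 * (Y * W (X ^ 2 + Y ^ 2)))) x0 x1 y0 y1 (u false false)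
    (u false true) (u true false) (u true true)
  r : Bil (fun X Y => 2 ^ 25 * ((X ^ 2 + Y ^ 2) * W (X ^ 2 + Y ^ 2))) x0 x1 y0 y1 (r false false)
    (r false true) (r true false) (r true true)
  s : Bil (fun X Y => -(2 ^ 25 * ((X ^ 2 + Y ^ 2) * W (X ^ 2 + Y ^ 2)))) x0 x1 y0 y1
    (s false false) (s false true) (s true false) (s true true)
  t : Bil (fun X Y => (X ^ 2 + Y ^ 2) / 2 ^ 11) x0 x1 y0 y1 (t false false) (t false true)
    (t true false) (t true true)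
  q : Bil (fun X Y => -((X ^ 2 + Y ^ 2) / 2 ^ 11)) x0 x1 y0 y1 (q false false) (q false true)
    (q true false) (q true true)

/-- choice of an index -/
def ix (a : ℕ) (b : Bool) : ℕ := bif b then a + 1 else a

lemma geo_quad {G a b : ℕ} (ha : gx G a < gx G (a + 1)) (hb : gx G b < gx G (b + 1))
    (hR : 0 < cR G a b) :
    Geo (gx G a) (gx G (a + 1)) (gx G b) (gx G (b + 1)) (gx G a) (gx G (a + 1)) (gx G b)
      (gx G (b + 1)) (Real.sqrt (cR G a b)) where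
  hx := by exact_mod_cast ha.le
  hy := by exact_mod_cast hb.le
  hX0 := Nat.cast_nonneg _
  hY0 := Nat.cast_nonneg _
  hX := fun x hx => by
    rw [abs_of_nonneg ((Nat.cast_nonneg _).trans hx.1)]
    exact hx
  hY := fun y hy => by
    rw [abs_of_nonneg ((Nat.cast_nonneg _).trans hy.1)]
    exact hy
  hR := Real.sqrt_pos.2 (by exact_mod_cast hR)
  hR2 := by
    rw [Real.sq_sqrt (Nat.cast_nonneg _)]
    unfold cR
    push_cast
    apply le_of_eq
    ring

lemma Bil.scaled {f F : ℝ → ℝ → ℝ} {K C c x0 x1 y0 y1 f00 f01 f10 f11 v00 v01 v10 v11 : ℝ}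
    (hK : 0 ≤ K) (h : Bil f x0 x1 y0 y1 (f00 - C) (f01 - C) (f10 - C) (f11 - C)) (hc : K * C ≤ c)
    (hF : ∀ x y, K * f x y = F x y) (h00 : v00 ≤ K * f00 - c) (h01 : v01 ≤ K * f01 - c)
    (h10 : v10 ≤ K * f10 - c) (h11 : v11 ≤ K * f11 - c) : Bil F x0 x1 y0 y1 v00 v01 v10 v11 := by
  refine ((h.smul hK).mono ?_ ?_ ?_ ?_).congr hF
  · linarith
  · linarith
  · linarith
  · linarith

/-- **The cell of the quadrant.** -/
lemma quad_ten {n G GV a b : ℕ} (ha : gx G a < gx G (a + 1)) (hb : gx G b < gx G (b + 1))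
    (hR : 0 < cR G a b) (hV : vok (l32 GV (a + (n + 1) * b)) (cR G a b) = true)
    (w v x z y u r s t q : Bool → Bool → ℕ)
    (h : ∀ c d, NodeP (gx G (ix a c)) (gx G (ix b d)) (corr n G GV a b) (w c d) (v c d) (x c d)
      (z c d) (y c d) (u c d) (r c d) (s c d) (t c d) (q c d)) :
    Ten (gx G a) (gx G (a + 1)) (gx G b) (gx G (b + 1)) (fun c d => w c d - 2 ^ 17)
      (fun c d => v c d - 2 ^ 17) (fun c d => x c d - 2 ^ 16) (fun c d => z c d - 2 ^ 16)
      (fun c d => y c d - 2 ^ 16) (fun c d => u c d - 2 ^ 16) (fun c d => r c d - 2 ^ 15)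
      (fun c d => s c d - 2 ^ 15) (fun c d => t c d - 2 ^ 21) (fun c d => q c d - 2 ^ 21) := by
  have hg := geo_quad ha hb hR
  have hV' := vok_upper hV
  have h00 := h false false
  have h01 := h false true
  have h10 := h true false
  have h11 := h true true
  simp only [ix, cond_false, cond_true] at h00 h01 h10 h11
  have hdx : (((gx G (a + 1) - gx G a) * (gx G (a + 1) - gx G a) : ℕ) : ℝ)
      = ((gx G (a + 1) : ℝ) - gx G a) ^ 2 := by
    rw [Nat.cast_mul, Nat.cast_sub ha.le]; ring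
  have hdy : (((gx G (b + 1) - gx G b) * (gx G (b + 1) - gx G b) : ℕ) : ℝ)
      = ((gx G (b + 1) : ℝ) - gx G b) ^ 2 := by
    rw [Nat.cast_mul, Nat.cast_sub hb.le]; ring
  have cw : 2 ^ 49 * (1 / Real.sqrt (cR G a b) ^ 7 * Geo.Pw (gx G a) (gx G (a + 1)) (gx G b) (gx G (b + 1))
      ((gx G (a + 1) : ℝ) - gx G a) ((gx G (b + 1) : ℝ) - gx G b) / 8)
      ≤ ((corr n G GV a b).w : ℝ) / 2 ^ 11 :=
    corr7 (k := 3) hR hV' (by rw [pp_cast, hdx, hdy]; unfold Geo.Pw; push_cast; ring_nf)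
      (by norm_num)
  have cv : 2 ^ 49 * (1 / Real.sqrt (cR G a b) ^ 7 * Geo.Pv (gx G a) (gx G (a + 1)) (gx G b) (gx G (b + 1))
      ((gx G (a + 1) : ℝ) - gx G a) ((gx G (b + 1) : ℝ) - gx G b) / 8)
      ≤ ((corr n G GV a b).v : ℝ) / 2 ^ 11 :=
    corr7 (k := 3) hR hV' (by rw [pp_cast, hdx, hdy]; unfold Geo.Pv; push_cast; ring_nf)
      (by norm_num)
  have cx : 2 ^ 37 * (1 / Real.sqrt (cR G a b) ^ 7 * Geo.Px (gx G a) (gx G (a + 1)) (gx G b) (gx G (b + 1))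
      ((gx G (a + 1) : ℝ) - gx G a) ((gx G (b + 1) : ℝ) - gx G b) / 8)
      ≤ ((corr n G GV a b).x : ℝ) / 2 ^ 11 :=
    corr7 (k := 15) hR hV'
      (by rw [Nat.mul_eq, Nat.cast_mul, pp_cast, hdx, hdy]; unfold Geo.Px; push_cast; ring_nf)
      (by norm_num)
  have cz : 2 ^ 37 * (1 / Real.sqrt (cR G a b) ^ 7 * Geo.Pz (gx G a) (gx G (a + 1)) (gx G b) (gx G (b + 1))
      ((gx G (a + 1) : ℝ) - gx G a) ((gx G (b + 1) : ℝ) - gx G b) / 8)
      ≤ ((corr n G GV a b).z : ℝ) / 2 ^ 11 :=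
    corr7 (k := 15) hR hV'
      (by rw [Nat.mul_eq, Nat.cast_mul, pp_cast, hdx, hdy]; unfold Geo.Pz; push_cast; ring_nf)
      (by norm_num)
  have cy : 2 ^ 37 * (1 / Real.sqrt (cR G a b) ^ 7 * Geo.Px (gx G b) (gx G (b + 1)) (gx G a) (gx G (a + 1))
      ((gx G (b + 1) : ℝ) - gx G b) ((gx G (a + 1) : ℝ) - gx G a) / 8)
      ≤ ((corr n G GV a b).y : ℝ) / 2 ^ 11 :=
    corr7 (k := 15) hR hV'
      (by rw [Nat.mul_eq, Nat.cast_mul, pp_cast, hdx, hdy]; unfold Geo.Px; push_cast; ring_nf)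
      (by norm_num)
  have cu : 2 ^ 37 * (1 / Real.sqrt (cR G a b) ^ 7 * Geo.Pz (gx G b) (gx G (b + 1)) (gx G a) (gx G (a + 1))
      ((gx G (b + 1) : ℝ) - gx G b) ((gx G (a + 1) : ℝ) - gx G a) / 8)
      ≤ ((corr n G GV a b).u : ℝ) / 2 ^ 11 :=
    corr7 (k := 15) hR hV'
      (by rw [Nat.mul_eq, Nat.cast_mul, pp_cast, hdx, hdy]; unfold Geo.Pz; push_cast; ring_nf)
      (by norm_num)
  have cr : 2 ^ 25 * (1 / Real.sqrt (cR G a b) ^ 5 * Geo.Pr (gx G a) (gx G (a + 1)) (gx G b) (gx G (b + 1))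
      ((gx G (a + 1) : ℝ) - gx G a) ((gx G (b + 1) : ℝ) - gx G b) / 8)
      ≤ ((corr n G GV a b).r : ℝ) / 2 ^ 11 :=
    corr5 (k := 27) hR hV' (by rw [pp_cast, hdx, hdy]; unfold Geo.Pr; push_cast; ring_nf)
      (by norm_num)
  have cs : 2 ^ 25 * (1 / Real.sqrt (cR G a b) ^ 5 * Geo.Ps (gx G a) (gx G (a + 1)) (gx G b) (gx G (b + 1))
      ((gx G (a + 1) : ℝ) - gx G a) ((gx G (b + 1) : ℝ) - gx G b) / 8)
      ≤ ((corr n G GV a b).s : ℝ) / 2 ^ 11 :=
    corr5 (k := 27) hR hV' (by rw [pp_cast, hdx, hdy]; unfold Geo.Ps; push_cast; ring_nf)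
      (by norm_num)
  have ct : ((corr n G GV a b).t : ℝ) = ((gx G (a + 1) : ℝ) - gx G a) ^ 2
      + ((gx G (b + 1) : ℝ) - gx G b) ^ 2 := by
    have e : (corr n G GV a b).t = (gx G (a + 1) - gx G a) * (gx G (a + 1) - gx G a)
      + (gx G (b + 1) - gx G b) * (gx G (b + 1) - gx G b) := rfl
    rw [e, Nat.cast_add, hdx, hdy]
  refine ⟨?_, ?_, ?_, ?_, ?_, ?_, ?_, ?_, ?_, ?_⟩
  · exact Bil.scaled (by norm_num) (hg.bil_w rfl) cw (fun x y => rfl) h00.w h01.w h10.w h11.w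
  · exact Bil.scaled (by norm_num) (hg.bil_v rfl) cv (fun x y => by ring)
      (by linarith [h00.v]) (by linarith [h01.v]) (by linarith [h10.v]) (by linarith [h11.v])
  · exact Bil.scaled (by norm_num) (hg.bil_x (σ := 1)
      (fun x hx => by rw [one_mul, abs_of_nonneg ((Nat.cast_nonneg _).trans hx.1)]) rfl) cx
      (fun x y => by ring) (by linarith [h00.x]) (by linarith [h01.x]) (by linarith [h10.x])
      (by linarith [h11.x])
  · exact Bil.scaled (by norm_num) (hg.bil_z (σ := -1)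
      (fun x hx => by rw [neg_one_mul, abs_of_nonneg ((Nat.cast_nonneg _).trans hx.1)]) rfl) cz
      (fun x y => by ring) (by linarith [h00.z]) (by linarith [h01.z]) (by linarith [h10.z])
      (by linarith [h11.z])
  · exact Bil.scaled (by norm_num) (hg.bil_y (σ := 1)
      (fun x hx => by rw [one_mul, abs_of_nonneg ((Nat.cast_nonneg _).trans hx.1)]) rfl) cy
      (fun x y => by ring) (by linarith [h00.y]) (by linarith [h01.y]) (by linarith [h10.y])
      (by linarith [h11.y])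
  · exact Bil.scaled (by norm_num) (hg.bil_u (σ := -1)
      (fun x hx => by rw [neg_one_mul, abs_of_nonneg ((Nat.cast_nonneg _).trans hx.1)]) rfl) cu
      (fun x y => by ring) (by linarith [h00.u]) (by linarith [h01.u]) (by linarith [h10.u])
      (by linarith [h11.u])
  · exact Bil.scaled (by norm_num) (hg.bil_r rfl) cr (fun x y => rfl) h00.r h01.r h10.r h11.r
  · exact Bil.scaled (by norm_num) (hg.bil_s rfl) cs (fun x y => by ring)
      (by linarith [h00.s]) (by linarith [h01.s]) (by linarith [h10.s]) (by linarith [h11.s])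
  · refine Bil.scaled (K := 1 / 2 ^ 11) (c := (((gx G (a + 1) : ℝ) - gx G a) ^ 2
      + ((gx G (b + 1) : ℝ) - gx G b) ^ 2) / 4 / 2 ^ 11) (by norm_num) bil_t
      (le_of_eq (by ring)) (fun x y => by ring) ?_ ?_ ?_ ?_
    · have := h00.t; rw [ct] at this; linarith
    · have := h01.t; rw [ct] at this; linarith
    · have := h10.t; rw [ct] at this; linarith
    · have := h11.t; rw [ct] at this; linarith
  · refine (((bil_nt (x0 := gx G a) (x1 := gx G (a + 1)) (y0 := gx G b)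
      (y1 := gx G (b + 1))).smul
      (c := 1 / 2 ^ 11) (by norm_num)).mono ?_ ?_ ?_ ?_).congr (fun x y => by ring)
    · linarith [h00.q]
    · linarith [h01.q]
    · linarith [h10.q]
    · linarith [h11.q]

end RelEqN.Small.Box
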