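import Pool.Agent.Lib.MP_b9e19b_mp.Box.Interp

set_option autoImplicit false

/-!
# Bilinear minorants on the cells of a grid

`Bil f x0 x1 y0 y1 v00 v01 v10 v11`: on the cell the function `f` is at least the bilinear
interpolation of the four values. For the functions `w`, `x w`, `y w`, `t w`, `t` (and their
negatives), `w = t^(-3/2)`, `t = x² + y²`, the values at the corners minus a bound for the second
derivatives on the cell are such values.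
-/

namespace RelEqN.Small.Box

open Set

/-- bilinear minorant on a cell -/
def Bil (f : ℝ → ℝ → ℝ) (x0 x1 y0 y1 v00 v01 v10 v11 : ℝ) : Prop :=
  ∀ l m p r : ℝ, 0 ≤ l → 0 ≤ m → l + m = 1 → 0 ≤ p → 0 ≤ r → p + r = 1 →
    l * p * v00 + l * r * v01 + m * p * v10 + m * r * v11 ≤ f (l * x0 + m * x1) (p * y0 + r * y1)

namespace Bil

variable {f g : ℝ → ℝ → ℝ} {x0 x1 y0 y1 v00 v01 v10 v11 u00 u01 u10 u11 : ℝ}

lemma add (h : Bil f x0 x1 y0 y1 v00 v01 v10 v11) (h' : Bil g x0 x1 y0 y1 u00 u01 u10 u11) :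
    Bil (fun x y => f x y + g x y) x0 x1 y0 y1 (v00 + u00) (v01 + u01) (v10 + u10) (v11 + u11) := by
  intro l m p r hl hm hlm hp hr hpr
  have h1 := h l m p r hl hm hlm hp hr hpr
  have h2 := h' l m p r hl hm hlm hp hr hpr
  show _ ≤ f _ _ + g _ _
  linarith

lemma smul {c : ℝ} (hc : 0 ≤ c) (h : Bil f x0 x1 y0 y1 v00 v01 v10 v11) :
    Bil (fun x y => c * f x y) x0 x1 y0 y1 (c * v00) (c * v01) (c * v10) (c * v11) := by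
  intro l m p r hl hm hlm hp hr hpr
  have h1 := mul_le_mul_of_nonneg_left (h l m p r hl hm hlm hp hr hpr) hc
  show _ ≤ c * f _ _
  linarith

lemma mono (h : Bil f x0 x1 y0 y1 v00 v01 v10 v11) (h00 : u00 ≤ v00) (h01 : u01 ≤ v01)
    (h10 : u10 ≤ v10) (h11 : u11 ≤ v11) : Bil f x0 x1 y0 y1 u00 u01 u10 u11 := by
  intro l m p r hl hm hlm hp hr hpr
  refine le_trans ?_ (h l m p r hl hm hlm hp hr hpr)
  gcongr

lemma congr (h : Bil f x0 x1 y0 y1 v00 v01 v10 v11) (hfg : ∀ x y, f x y = g x y) :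
    Bil g x0 x1 y0 y1 v00 v01 v10 v11 := by
  intro l m p r hl hm hlm hp hr hpr
  rw [← hfg]
  exact h l m p r hl hm hlm hp hr hpr

/-- linear functions are their own interpolation -/
lemma linear (a b c : ℝ) : Bil (fun x y => a * x + b * y + c) x0 x1 y0 y1
    (a * x0 + b * y0 + c) (a * x0 + b * y1 + c) (a * x1 + b * y0 + c) (a * x1 + b * y1 + c) := by
  intro l m p r hl hm hlm hp hr hpr
  apply le_of_eq
  have e1 : m = 1 - l := by linarith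
  have e2 : r = 1 - p := by linarith
  subst e1 e2
  ring

/-- **The minimum over the corners is a lower bound.** -/
lemma min_le {c x y : ℝ} (h : Bil f x0 x1 y0 y1 v00 v01 v10 v11) (h00 : c ≤ v00) (h01 : c ≤ v01)
    (h10 : c ≤ v10) (h11 : c ≤ v11) (hx : x ∈ Icc x0 x1) (hy : y ∈ Icc y0 y1) : c ≤ f x y := by
  obtain ⟨l, m, hl, hm, hlm, rfl⟩ := exists_weights hx
  obtain ⟨p, r, hp, hr, hpr, rfl⟩ := exists_weights hy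
  have h2 := (h.mono h00 h01 h10 h11) l m p r hl hm hlm hp hr hpr
  have e : l * p * c + l * r * c + m * p * c + m * r * c = c := by
    have : l * p * c + l * r * c + m * p * c + m * r * c = (l + m) * (p + r) * c := by ring
    rw [this, hlm, hpr]; ring
  linarith

end Bil

/-! ### the pair functions -/

/-- the interpolation bound for the pair function in the first variable -/
lemma gcell_interp {K a1 a2 k e b1 b2 b3 D x0 x1 y : ℝ} (hD : 0 ≤ D)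
    (hpos : ∀ x ∈ Icc x0 x1, 0 < x ^ 2 + y ^ 2)
    (hg : ∀ x ∈ Icc x0 x1, g2 K a1 (a2 * y + k) e b3 (y ^ 2) x ≤ D)
    {l m : ℝ} (hl : 0 ≤ l) (hm : 0 ≤ m) (hlm : l + m = 1) (h01 : x0 ≤ x1) :
    l * gcell K a1 a2 k e b1 b2 b3 x0 y + m * gcell K a1 a2 k e b1 b2 b3 x1 y
      - D * (x1 - x0) ^ 2 / 8 ≤ gcell K a1 a2 k e b1 b2 b3 (l * x0 + m * x1) y := by
  have hx : l * x0 + m * x1 ∈ Icc x0 x1 := by
    constructor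
    · calc x0 = (l + m) * x0 := by rw [hlm, one_mul]
        _ = l * x0 + m * x0 := by ring
        _ ≤ l * x0 + m * x1 := by gcongr
    · calc l * x0 + m * x1 ≤ l * x1 + m * x1 := by gcongr
        _ = (l + m) * x1 := by ring
        _ = x1 := by rw [hlm, one_mul]
  have := chord_interp (f := fun x => K * (qq (y ^ 2) x ^ 3 * (a1 * x + (a2 * y + k))
      + e * qq (y ^ 2) x ^ 1) - (b1 * x + b2 * y) - b3 * (x ^ 2 + y ^ 2))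
    (f' := g1 K a1 (a2 * y + k) e b1 b3 (y ^ 2)) (f'' := g2 K a1 (a2 * y + k) e b3 (y ^ 2))
    hD (fun x hx => g1_deriv (hpos x hx)) (fun x hx => g2_deriv (hpos x hx)) hg hl hm hlm h01
  simp only [← gcell_eq (hpos _ hx), ← gcell_eq (hpos x0 (left_mem_Icc.2 h01)),
    ← gcell_eq (hpos x1 (right_mem_Icc.2 h01))] at this
  exact this

/-- **Bilinear minorant of the pair function** from bounds of the two second derivatives. -/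
theorem gcell_bil {K a1 a2 k e b1 b2 b3 D E x0 x1 y0 y1 : ℝ} (hD : 0 ≤ D) (hE : 0 ≤ E)
    (h0x : x0 ≤ x1) (h0y : y0 ≤ y1)
    (hpos : ∀ x ∈ Icc x0 x1, ∀ y ∈ Icc y0 y1, 0 < x ^ 2 + y ^ 2)
    (hgx : ∀ x ∈ Icc x0 x1, ∀ y ∈ Icc y0 y1, g2 K a1 (a2 * y + k) e b3 (y ^ 2) x ≤ D)
    (hgy : ∀ x ∈ Icc x0 x1, ∀ y ∈ Icc y0 y1, g2 K a2 (a1 * x + k) e b3 (x ^ 2) y ≤ E) :
    Bil (gcell K a1 a2 k e b1 b2 b3) x0 x1 y0 y1
      (gcell K a1 a2 k e b1 b2 b3 x0 y0 - (D * (x1 - x0) ^ 2 / 8 + E * (y1 - y0) ^ 2 / 8))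
      (gcell K a1 a2 k e b1 b2 b3 x0 y1 - (D * (x1 - x0) ^ 2 / 8 + E * (y1 - y0) ^ 2 / 8))
      (gcell K a1 a2 k e b1 b2 b3 x1 y0 - (D * (x1 - x0) ^ 2 / 8 + E * (y1 - y0) ^ 2 / 8))
      (gcell K a1 a2 k e b1 b2 b3 x1 y1 - (D * (x1 - x0) ^ 2 / 8 + E * (y1 - y0) ^ 2 / 8)) := by
  intro l m p r hl hm hlm hp hr hpr
  have := bilin_interp (g := gcell K a1 a2 k e b1 b2 b3) (D := D) (E := E)
    (fun y hy l m hl hm hlm => gcell_interp hD (fun x hx => hpos x hx y hy)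
      (fun x hx => hgx x hx y hy) hl hm hlm h0x)
    (fun x hx l m hl hm hlm => by
      rw [gcell_swap K a1 a2 k e b1 b2 b3 x y0, gcell_swap K a1 a2 k e b1 b2 b3 x y1,
        gcell_swap K a1 a2 k e b1 b2 b3 x]
      exact gcell_interp hE (fun y hy => by rw [add_comm]; exact hpos x hx y hy)
        (fun y hy => hgy x hx y hy) hl hm hlm h0y)
    hl hm hlm hp hr hpr h0x h0y
  refine le_trans (le_of_eq ?_) this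
  have e1 : m = 1 - l := by linarith
  have e2 : r = 1 - p := by linarith
  subst e1 e2
  ring

/-- the second derivative with a common power of the reciprocal of the distance -/
lemma g2_eq {K a1 c e b3 s x : ℝ} (h : 0 < x ^ 2 + s) : g2 K a1 c e b3 s x =
    K * (qq s x ^ 7 * (a1 * x * (6 * x ^ 2 - 9 * s) + c * (12 * x ^ 2 - 3 * s))
      + e * (qq s x ^ 5 * (2 * x ^ 2 - s))) - 2 * b3 := by
  have hq := qq_sq h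
  have h5 : qq s x ^ 5 = qq s x ^ 7 * (x ^ 2 + s) := by
    calc qq s x ^ 5 = qq s x ^ 5 * (qq s x ^ 2 * (x ^ 2 + s)) := by rw [hq, mul_one]
      _ = _ := by ring
  have h3 : qq s x ^ 3 = qq s x ^ 5 * (x ^ 2 + s) := by
    calc qq s x ^ 3 = qq s x ^ 3 * (qq s x ^ 2 * (x ^ 2 + s)) := by rw [hq, mul_one]
      _ = _ := by ring
  unfold g2
  rw [h3]
  have e1 : -(9 * a1 * x + 3 * c) * qq s x ^ 5 + 15 * (a1 * x ^ 3 + c * x ^ 2) * qq s x ^ 7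
      = qq s x ^ 7 * (a1 * x * (6 * x ^ 2 - 9 * s) + c * (12 * x ^ 2 - 3 * s)) := by
    rw [h5]; ring
  rw [e1]
  ring

/-- powers of the reciprocal of the distance on a cell -/
lemma qq_pow_le {R s x : ℝ} (hR : 0 < R) (h : R ^ 2 ≤ x ^ 2 + s) (n : ℕ) :
    qq s x ^ n ≤ 1 / R ^ n := by
  have hp : 0 < x ^ 2 + s := lt_of_lt_of_le (by positivity) h
  have hq0 := qq_pos hp
  have hq1 := qq_sq hp
  have hqR : qq s x * R ≤ 1 := by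
    have h1 : (qq s x * R) ^ 2 ≤ 1 ^ 2 := by
      rw [mul_pow, one_pow, ← hq1]
      gcongr
    exact le_of_sq h1 (by norm_num)
  have hqi : qq s x ≤ 1 / R := by rw [le_div_iff₀ hR]; exact hqR
  calc qq s x ^ n ≤ (1 / R) ^ n := by gcongr
    _ = 1 / R ^ n := by rw [div_pow, one_pow]

lemma mul_le_pos {q Q P P' : ℝ} (hq : 0 ≤ q) (hQ : q ≤ Q) (hP : P ≤ P') (hP' : 0 ≤ P') :
    q * P ≤ Q * P' :=
  (mul_le_mul_of_nonneg_left hP hq).trans (mul_le_mul_of_nonneg_right hQ hP')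

/-- the data of a cell: bounds for the absolute values of the coordinates -/
structure Geo (x0 x1 y0 y1 X0 X1 Y0 Y1 R : ℝ) : Prop where
  hx : x0 ≤ x1
  hy : y0 ≤ y1
  hX0 : 0 ≤ X0
  hY0 : 0 ≤ Y0
  hX : ∀ x ∈ Icc x0 x1, X0 ≤ |x| ∧ |x| ≤ X1
  hY : ∀ y ∈ Icc y0 y1, Y0 ≤ |y| ∧ |y| ≤ Y1
  hR : 0 < R
  hR2 : R ^ 2 ≤ X0 ^ 2 + Y0 ^ 2

namespace Geo

variable {x0 x1 y0 y1 X0 X1 Y0 Y1 R : ℝ}

lemma swap (h : Geo x0 x1 y0 y1 X0 X1 Y0 Y1 R) : Geo y0 y1 x0 x1 Y0 Y1 X0 X1 R where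
  hx := h.hy
  hy := h.hx
  hX0 := h.hY0
  hY0 := h.hX0
  hX := h.hY
  hY := h.hX
  hR := h.hR
  hR2 := by rw [add_comm]; exact h.hR2

lemma sx (h : Geo x0 x1 y0 y1 X0 X1 Y0 Y1 R) {x : ℝ} (hx : x ∈ Icc x0 x1) :
    X0 ^ 2 ≤ x ^ 2 ∧ x ^ 2 ≤ X1 ^ 2 := by
  have := h.hX x hx
  rw [← sq_abs x]
  exact ⟨pow_le_pow_left₀ h.hX0 this.1 2, pow_le_pow_left₀ (abs_nonneg x) this.2 2⟩

lemma sy (h : Geo x0 x1 y0 y1 X0 X1 Y0 Y1 R) {y : ℝ} (hy : y ∈ Icc y0 y1) :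
    Y0 ^ 2 ≤ y ^ 2 ∧ y ^ 2 ≤ Y1 ^ 2 := h.swap.sx hy

lemma nn (h : Geo x0 x1 y0 y1 X0 X1 Y0 Y1 R) : 0 ≤ X1 :=
  (abs_nonneg x0).trans (h.hX x0 (left_mem_Icc.2 h.hx)).2

lemma r2 (h : Geo x0 x1 y0 y1 X0 X1 Y0 Y1 R) {x y : ℝ} (hx : x ∈ Icc x0 x1)
    (hy : y ∈ Icc y0 y1) : R ^ 2 ≤ x ^ 2 + y ^ 2 := by
  have h1 := h.sx hx
  have h2 := h.sy hy
  have h3 := h.hR2
  linarith

lemma pos (h : Geo x0 x1 y0 y1 X0 X1 Y0 Y1 R) {x y : ℝ} (hx : x ∈ Icc x0 x1)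
    (hy : y ∈ Icc y0 y1) : 0 < x ^ 2 + y ^ 2 :=
  lt_of_lt_of_le (by have := h.hR; positivity) (h.r2 hx hy)

/-! ### bounds of the second derivatives -/

lemma d_w_up (h : Geo x0 x1 y0 y1 X0 X1 Y0 Y1 R) {x y : ℝ} (hx : x ∈ Icc x0 x1)
    (hy : y ∈ Icc y0 y1) : g2 1 0 (0 * y + 1) 0 0 (y ^ 2) x
      ≤ 1 / R ^ 7 * max (12 * X1 ^ 2 - 3 * Y0 ^ 2) 0 := by
  rw [g2_eq (h.pos hx hy)]
  have h1 := h.sx hx
  have h2 := h.sy hy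
  have e : 1 * (qq (y ^ 2) x ^ 7 * (0 * x * (6 * x ^ 2 - 9 * y ^ 2)
      + (0 * y + 1) * (12 * x ^ 2 - 3 * y ^ 2)) + 0 * (qq (y ^ 2) x ^ 5 * (2 * x ^ 2 - y ^ 2)))
      - 2 * 0 = qq (y ^ 2) x ^ 7 * (12 * x ^ 2 - 3 * y ^ 2) := by ring
  rw [e]
  exact mul_le_pos (by have := qq_pos (h.pos hx hy); positivity)
    (qq_pow_le h.hR (h.r2 hx hy) 7) (le_max_of_le_left (by linarith)) (le_max_right _ _)

lemma d_w_dn (h : Geo x0 x1 y0 y1 X0 X1 Y0 Y1 R) {x y : ℝ} (hx : x ∈ Icc x0 x1)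
    (hy : y ∈ Icc y0 y1) : g2 1 0 (0 * y + (-1)) 0 0 (y ^ 2) x
      ≤ 1 / R ^ 7 * max (3 * Y1 ^ 2 - 12 * X0 ^ 2) 0 := by
  rw [g2_eq (h.pos hx hy)]
  have h1 := h.sx hx
  have h2 := h.sy hy
  have e : 1 * (qq (y ^ 2) x ^ 7 * (0 * x * (6 * x ^ 2 - 9 * y ^ 2)
      + (0 * y + (-1)) * (12 * x ^ 2 - 3 * y ^ 2)) + 0 * (qq (y ^ 2) x ^ 5 * (2 * x ^ 2 - y ^ 2)))
      - 2 * 0 = qq (y ^ 2) x ^ 7 * (3 * y ^ 2 - 12 * x ^ 2) := by ring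
  rw [e]
  exact mul_le_pos (by have := qq_pos (h.pos hx hy); positivity)
    (qq_pow_le h.hR (h.r2 hx hy) 7) (le_max_of_le_left (by linarith)) (le_max_right _ _)

lemma d_r_up (h : Geo x0 x1 y0 y1 X0 X1 Y0 Y1 R) {x y : ℝ} (hx : x ∈ Icc x0 x1)
    (hy : y ∈ Icc y0 y1) : g2 1 0 (0 * y + 0) 1 0 (y ^ 2) x
      ≤ 1 / R ^ 5 * max (2 * X1 ^ 2 - Y0 ^ 2) 0 := by
  rw [g2_eq (h.pos hx hy)]
  have h1 := h.sx hx
  have h2 := h.sy hy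
  have e : 1 * (qq (y ^ 2) x ^ 7 * (0 * x * (6 * x ^ 2 - 9 * y ^ 2)
      + (0 * y + 0) * (12 * x ^ 2 - 3 * y ^ 2)) + 1 * (qq (y ^ 2) x ^ 5 * (2 * x ^ 2 - y ^ 2)))
      - 2 * 0 = qq (y ^ 2) x ^ 5 * (2 * x ^ 2 - y ^ 2) := by ring
  rw [e]
  exact mul_le_pos (by have := qq_pos (h.pos hx hy); positivity)
    (qq_pow_le h.hR (h.r2 hx hy) 5) (le_max_of_le_left (by linarith)) (le_max_right _ _)

lemma d_r_dn (h : Geo x0 x1 y0 y1 X0 X1 Y0 Y1 R) {x y : ℝ} (hx : x ∈ Icc x0 x1)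
    (hy : y ∈ Icc y0 y1) : g2 1 0 (0 * y + 0) (-1) 0 (y ^ 2) x
      ≤ 1 / R ^ 5 * max (Y1 ^ 2 - 2 * X0 ^ 2) 0 := by
  rw [g2_eq (h.pos hx hy)]
  have h1 := h.sx hx
  have h2 := h.sy hy
  have e : 1 * (qq (y ^ 2) x ^ 7 * (0 * x * (6 * x ^ 2 - 9 * y ^ 2)
      + (0 * y + 0) * (12 * x ^ 2 - 3 * y ^ 2)) + (-1) * (qq (y ^ 2) x ^ 5 * (2 * x ^ 2 - y ^ 2)))
      - 2 * 0 = qq (y ^ 2) x ^ 5 * (y ^ 2 - 2 * x ^ 2) := by ring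
  rw [e]
  exact mul_le_pos (by have := qq_pos (h.pos hx hy); positivity)
    (qq_pow_le h.hR (h.r2 hx hy) 5) (le_max_of_le_left (by linarith)) (le_max_right _ _)

/-- a product with the first coordinate, positive sign -/
lemma xmul {x P A B : ℝ} (hx0 : 0 ≤ x) (hx1 : x ≤ X1) (hP : P ≤ A) (_hB : -B ≤ P) :
    x * P ≤ X1 * max A 0 :=
  mul_le_pos hx0 hx1 (le_max_of_le_left hP) (le_max_right _ _)

/-- `x w`, direction `x`, `σ = ± 1` the sign of `x` on the cell times the sign of the function -/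
lemma d_x_up (h : Geo x0 x1 y0 y1 X0 X1 Y0 Y1 R) {x y σ : ℝ} (hx : x ∈ Icc x0 x1)
    (hy : y ∈ Icc y0 y1) (hs : σ * x = |x|) : g2 1 σ (0 * y + 0) 0 0 (y ^ 2) x
      ≤ 1 / R ^ 7 * (X1 * max (6 * X1 ^ 2 - 9 * Y0 ^ 2) 0) := by
  rw [g2_eq (h.pos hx hy)]
  have h1 := h.sx hx
  have h2 := h.sy hy
  have h3 := h.hX x hx
  have e : 1 * (qq (y ^ 2) x ^ 7 * (σ * x * (6 * x ^ 2 - 9 * y ^ 2)
      + (0 * y + 0) * (12 * x ^ 2 - 3 * y ^ 2)) + 0 * (qq (y ^ 2) x ^ 5 * (2 * x ^ 2 - y ^ 2)))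
      - 2 * 0 = qq (y ^ 2) x ^ 7 * (|x| * (6 * x ^ 2 - 9 * y ^ 2)) := by rw [hs]; ring
  rw [e]
  exact mul_le_pos (by have := qq_pos (h.pos hx hy); positivity)
    (qq_pow_le h.hR (h.r2 hx hy) 7)
    (mul_le_pos (abs_nonneg x) h3.2 (le_max_of_le_left (by linarith)) (le_max_right _ _))
    (mul_nonneg h.nn (le_max_right _ _))

lemma d_x_dn (h : Geo x0 x1 y0 y1 X0 X1 Y0 Y1 R) {x y σ : ℝ} (hx : x ∈ Icc x0 x1)
    (hy : y ∈ Icc y0 y1) (hs : σ * x = -|x|) : g2 1 σ (0 * y + 0) 0 0 (y ^ 2) x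
      ≤ 1 / R ^ 7 * (X1 * max (9 * Y1 ^ 2 - 6 * X0 ^ 2) 0) := by
  rw [g2_eq (h.pos hx hy)]
  have h1 := h.sx hx
  have h2 := h.sy hy
  have h3 := h.hX x hx
  have e : 1 * (qq (y ^ 2) x ^ 7 * (σ * x * (6 * x ^ 2 - 9 * y ^ 2)
      + (0 * y + 0) * (12 * x ^ 2 - 3 * y ^ 2)) + 0 * (qq (y ^ 2) x ^ 5 * (2 * x ^ 2 - y ^ 2)))
      - 2 * 0 = qq (y ^ 2) x ^ 7 * (|x| * (9 * y ^ 2 - 6 * x ^ 2)) := by rw [hs]; ring
  rw [e]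
  exact mul_le_pos (by have := qq_pos (h.pos hx hy); positivity)
    (qq_pow_le h.hR (h.r2 hx hy) 7)
    (mul_le_pos (abs_nonneg x) h3.2 (le_max_of_le_left (by linarith)) (le_max_right _ _))
    (mul_nonneg h.nn (le_max_right _ _))

/-- `y w`, direction `x` -/
lemma d_y_up (h : Geo x0 x1 y0 y1 X0 X1 Y0 Y1 R) {x y σ : ℝ} (hx : x ∈ Icc x0 x1)
    (hy : y ∈ Icc y0 y1) (hs : σ * y = |y|) : g2 1 0 (σ * y + 0) 0 0 (y ^ 2) x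
      ≤ 1 / R ^ 7 * (Y1 * max (12 * X1 ^ 2 - 3 * Y0 ^ 2) 0) := by
  rw [g2_eq (h.pos hx hy)]
  have h1 := h.sx hx
  have h2 := h.sy hy
  have h3 := h.hY y hy
  have e : 1 * (qq (y ^ 2) x ^ 7 * (0 * x * (6 * x ^ 2 - 9 * y ^ 2)
      + (σ * y + 0) * (12 * x ^ 2 - 3 * y ^ 2)) + 0 * (qq (y ^ 2) x ^ 5 * (2 * x ^ 2 - y ^ 2)))
      - 2 * 0 = qq (y ^ 2) x ^ 7 * (|y| * (12 * x ^ 2 - 3 * y ^ 2)) := by rw [hs]; ring
  rw [e]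
  exact mul_le_pos (by have := qq_pos (h.pos hx hy); positivity)
    (qq_pow_le h.hR (h.r2 hx hy) 7)
    (mul_le_pos (abs_nonneg y) h3.2 (le_max_of_le_left (by linarith)) (le_max_right _ _))
    (mul_nonneg h.swap.nn (le_max_right _ _))

lemma d_y_dn (h : Geo x0 x1 y0 y1 X0 X1 Y0 Y1 R) {x y σ : ℝ} (hx : x ∈ Icc x0 x1)
    (hy : y ∈ Icc y0 y1) (hs : σ * y = -|y|) : g2 1 0 (σ * y + 0) 0 0 (y ^ 2) x
      ≤ 1 / R ^ 7 * (Y1 * max (3 * Y1 ^ 2 - 12 * X0 ^ 2) 0) := by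
  rw [g2_eq (h.pos hx hy)]
  have h1 := h.sx hx
  have h2 := h.sy hy
  have h3 := h.hY y hy
  have e : 1 * (qq (y ^ 2) x ^ 7 * (0 * x * (6 * x ^ 2 - 9 * y ^ 2)
      + (σ * y + 0) * (12 * x ^ 2 - 3 * y ^ 2)) + 0 * (qq (y ^ 2) x ^ 5 * (2 * x ^ 2 - y ^ 2)))
      - 2 * 0 = qq (y ^ 2) x ^ 7 * (|y| * (3 * y ^ 2 - 12 * x ^ 2)) := by rw [hs]; ring
  rw [e]
  exact mul_le_pos (by have := qq_pos (h.pos hx hy); positivity)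
    (qq_pow_le h.hR (h.r2 hx hy) 7)
    (mul_le_pos (abs_nonneg y) h3.2 (le_max_of_le_left (by linarith)) (le_max_right _ _))
    (mul_nonneg h.swap.nn (le_max_right _ _))

/-! ### the minorants -/

/-- correction of `w` (minorant) -/
def Pw (X0 X1 Y0 Y1 hx hy : ℝ) : ℝ :=
  hx ^ 2 * max (12 * X1 ^ 2 - 3 * Y0 ^ 2) 0 + hy ^ 2 * max (12 * Y1 ^ 2 - 3 * X0 ^ 2) 0

/-- correction of `w` (majorant) -/
def Pv (X0 X1 Y0 Y1 hx hy : ℝ) : ℝ :=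
  hx ^ 2 * max (3 * Y1 ^ 2 - 12 * X0 ^ 2) 0 + hy ^ 2 * max (3 * X1 ^ 2 - 12 * Y0 ^ 2) 0

/-- correction of `|x| w` (minorant) -/
def Px (X0 X1 Y0 Y1 hx hy : ℝ) : ℝ :=
  X1 * (hx ^ 2 * max (6 * X1 ^ 2 - 9 * Y0 ^ 2) 0 + hy ^ 2 * max (12 * Y1 ^ 2 - 3 * X0 ^ 2) 0)

/-- correction of `|x| w` (majorant) -/
def Pz (X0 X1 Y0 Y1 hx hy : ℝ) : ℝ :=
  X1 * (hx ^ 2 * max (9 * Y1 ^ 2 - 6 * X0 ^ 2) 0 + hy ^ 2 * max (3 * X1 ^ 2 - 12 * Y0 ^ 2) 0)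

/-- correction of `t w` (minorant) -/
def Pr (X0 X1 Y0 Y1 hx hy : ℝ) : ℝ :=
  hx ^ 2 * max (2 * X1 ^ 2 - Y0 ^ 2) 0 + hy ^ 2 * max (2 * Y1 ^ 2 - X0 ^ 2) 0

/-- correction of `t w` (majorant) -/
def Ps (X0 X1 Y0 Y1 hx hy : ℝ) : ℝ :=
  hx ^ 2 * max (Y1 ^ 2 - 2 * X0 ^ 2) 0 + hy ^ 2 * max (X1 ^ 2 - 2 * Y0 ^ 2) 0

/-- four values at the corners minus a correction -/
lemma _root_.RelEqN.Small.Box.Bil.of_gcell {f : ℝ → ℝ → ℝ} {K a1 a2 k e b1 b2 b3 D E x0 x1 y0 y1 C : ℝ}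
    (hD : 0 ≤ D) (hE : 0 ≤ E) (h0x : x0 ≤ x1) (h0y : y0 ≤ y1)
    (hpos : ∀ x ∈ Icc x0 x1, ∀ y ∈ Icc y0 y1, 0 < x ^ 2 + y ^ 2)
    (hgx : ∀ x ∈ Icc x0 x1, ∀ y ∈ Icc y0 y1, g2 K a1 (a2 * y + k) e b3 (y ^ 2) x ≤ D)
    (hgy : ∀ x ∈ Icc x0 x1, ∀ y ∈ Icc y0 y1, g2 K a2 (a1 * x + k) e b3 (x ^ 2) y ≤ E)
    (hf : ∀ x y, f x y = gcell K a1 a2 k e b1 b2 b3 x y)
    (hC : D * (x1 - x0) ^ 2 / 8 + E * (y1 - y0) ^ 2 / 8 = C) :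
    Bil f x0 x1 y0 y1 (f x0 y0 - C) (f x0 y1 - C) (f x1 y0 - C) (f x1 y1 - C) := by
  have h := gcell_bil (b1 := b1) (b2 := b2) hD hE h0x h0y hpos hgx hgy
  rw [hC] at h
  simp only [← hf] at h
  exact h.congr fun x y => (hf x y).symm

lemma bil_w (h : Geo x0 x1 y0 y1 X0 X1 Y0 Y1 R) {C : ℝ}
    (hC : 1 / R ^ 7 * Pw X0 X1 Y0 Y1 (x1 - x0) (y1 - y0) / 8 = C) :
    Bil (fun x y => W (x ^ 2 + y ^ 2)) x0 x1 y0 y1 (W (x0 ^ 2 + y0 ^ 2) - C)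
      (W (x0 ^ 2 + y1 ^ 2) - C) (W (x1 ^ 2 + y0 ^ 2) - C) (W (x1 ^ 2 + y1 ^ 2) - C) := by
  have hR := h.hR
  refine Bil.of_gcell (K := 1) (a1 := 0) (a2 := 0) (k := 1) (e := 0) (b1 := 0) (b2 := 0) (b3 := 0)
    (D := 1 / R ^ 7 * max (12 * X1 ^ 2 - 3 * Y0 ^ 2) 0)
    (E := 1 / R ^ 7 * max (12 * Y1 ^ 2 - 3 * X0 ^ 2) 0) ?_ ?_ h.hx h.hy
    (fun x hx y hy => h.pos hx hy) (fun x hx y hy => h.d_w_up hx hy) ?_ ?_ ?_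
  · exact mul_nonneg (by positivity) (le_max_right _ _)
  · exact mul_nonneg (by positivity) (le_max_right _ _)
  · intro x hx y hy
    exact h.swap.d_w_up hy hx
  · intro x y
    unfold gcell; ring
  · rw [← hC]; unfold Pw; ring

lemma bil_v (h : Geo x0 x1 y0 y1 X0 X1 Y0 Y1 R) {C : ℝ}
    (hC : 1 / R ^ 7 * Pv X0 X1 Y0 Y1 (x1 - x0) (y1 - y0) / 8 = C) :
    Bil (fun x y => -W (x ^ 2 + y ^ 2)) x0 x1 y0 y1 (-W (x0 ^ 2 + y0 ^ 2) - C)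
      (-W (x0 ^ 2 + y1 ^ 2) - C) (-W (x1 ^ 2 + y0 ^ 2) - C) (-W (x1 ^ 2 + y1 ^ 2) - C) := by
  have hR := h.hR
  refine Bil.of_gcell (K := 1) (a1 := 0) (a2 := 0) (k := -1) (e := 0) (b1 := 0) (b2 := 0)
    (b3 := 0) (D := 1 / R ^ 7 * max (3 * Y1 ^ 2 - 12 * X0 ^ 2) 0)
    (E := 1 / R ^ 7 * max (3 * X1 ^ 2 - 12 * Y0 ^ 2) 0) ?_ ?_ h.hx h.hy
    (fun x hx y hy => h.pos hx hy) (fun x hx y hy => h.d_w_dn hx hy) ?_ ?_ ?_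
  · exact mul_nonneg (by positivity) (le_max_right _ _)
  · exact mul_nonneg (by positivity) (le_max_right _ _)
  · intro x hx y hy
    exact h.swap.d_w_dn hy hx
  · intro x y
    unfold gcell; ring
  · rw [← hC]; unfold Pv; ring

lemma bil_r (h : Geo x0 x1 y0 y1 X0 X1 Y0 Y1 R) {C : ℝ}
    (hC : 1 / R ^ 5 * Pr X0 X1 Y0 Y1 (x1 - x0) (y1 - y0) / 8 = C) :
    Bil (fun x y => (x ^ 2 + y ^ 2) * W (x ^ 2 + y ^ 2)) x0 x1 y0 y1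
      ((x0 ^ 2 + y0 ^ 2) * W (x0 ^ 2 + y0 ^ 2) - C) ((x0 ^ 2 + y1 ^ 2) * W (x0 ^ 2 + y1 ^ 2) - C)
      ((x1 ^ 2 + y0 ^ 2) * W (x1 ^ 2 + y0 ^ 2) - C)
      ((x1 ^ 2 + y1 ^ 2) * W (x1 ^ 2 + y1 ^ 2) - C) := by
  have hR := h.hR
  refine Bil.of_gcell (K := 1) (a1 := 0) (a2 := 0) (k := 0) (e := 1) (b1 := 0) (b2 := 0) (b3 := 0)
    (D := 1 / R ^ 5 * max (2 * X1 ^ 2 - Y0 ^ 2) 0)
    (E := 1 / R ^ 5 * max (2 * Y1 ^ 2 - X0 ^ 2) 0) ?_ ?_ h.hx h.hy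
    (fun x hx y hy => h.pos hx hy) (fun x hx y hy => h.d_r_up hx hy) ?_ ?_ ?_
  · exact mul_nonneg (by positivity) (le_max_right _ _)
  · exact mul_nonneg (by positivity) (le_max_right _ _)
  · intro x hx y hy
    exact h.swap.d_r_up hy hx
  · intro x y
    unfold gcell; ring
  · rw [← hC]; unfold Pr; ring

lemma bil_s (h : Geo x0 x1 y0 y1 X0 X1 Y0 Y1 R) {C : ℝ}
    (hC : 1 / R ^ 5 * Ps X0 X1 Y0 Y1 (x1 - x0) (y1 - y0) / 8 = C) :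
    Bil (fun x y => -((x ^ 2 + y ^ 2) * W (x ^ 2 + y ^ 2))) x0 x1 y0 y1
      (-((x0 ^ 2 + y0 ^ 2) * W (x0 ^ 2 + y0 ^ 2)) - C)
      (-((x0 ^ 2 + y1 ^ 2) * W (x0 ^ 2 + y1 ^ 2)) - C)
      (-((x1 ^ 2 + y0 ^ 2) * W (x1 ^ 2 + y0 ^ 2)) - C)
      (-((x1 ^ 2 + y1 ^ 2) * W (x1 ^ 2 + y1 ^ 2)) - C) := by
  have hR := h.hR
  refine Bil.of_gcell (K := 1) (a1 := 0) (a2 := 0) (k := 0) (e := -1) (b1 := 0) (b2 := 0)
    (b3 := 0) (D := 1 / R ^ 5 * max (Y1 ^ 2 - 2 * X0 ^ 2) 0)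
    (E := 1 / R ^ 5 * max (X1 ^ 2 - 2 * Y0 ^ 2) 0) ?_ ?_ h.hx h.hy
    (fun x hx y hy => h.pos hx hy) (fun x hx y hy => h.d_r_dn hx hy) ?_ ?_ ?_
  · exact mul_nonneg (by positivity) (le_max_right _ _)
  · exact mul_nonneg (by positivity) (le_max_right _ _)
  · intro x hx y hy
    exact h.swap.d_r_dn hy hx
  · intro x y
    unfold gcell; ring
  · rw [← hC]; unfold Ps; ring

/-- `σ x w`, where `σ x = |x|` on the cell -/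
lemma bil_x (h : Geo x0 x1 y0 y1 X0 X1 Y0 Y1 R) {σ C : ℝ} (hs : ∀ x ∈ Icc x0 x1, σ * x = |x|)
    (hC : 1 / R ^ 7 * Px X0 X1 Y0 Y1 (x1 - x0) (y1 - y0) / 8 = C) :
    Bil (fun x y => σ * x * W (x ^ 2 + y ^ 2)) x0 x1 y0 y1
      (σ * x0 * W (x0 ^ 2 + y0 ^ 2) - C) (σ * x0 * W (x0 ^ 2 + y1 ^ 2) - C)
      (σ * x1 * W (x1 ^ 2 + y0 ^ 2) - C) (σ * x1 * W (x1 ^ 2 + y1 ^ 2) - C) := by
  have hR := h.hR
  have hn := h.nn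
  refine Bil.of_gcell (K := 1) (a1 := σ) (a2 := 0) (k := 0) (e := 0) (b1 := 0) (b2 := 0) (b3 := 0)
    (D := 1 / R ^ 7 * (X1 * max (6 * X1 ^ 2 - 9 * Y0 ^ 2) 0))
    (E := 1 / R ^ 7 * (X1 * max (12 * Y1 ^ 2 - 3 * X0 ^ 2) 0)) ?_ ?_ h.hx h.hy
    (fun x hx y hy => h.pos hx hy) (fun x hx y hy => h.d_x_up hx hy (hs x hx)) ?_ ?_ ?_
  · exact mul_nonneg (by positivity) (mul_nonneg hn (le_max_right _ _))
  · exact mul_nonneg (by positivity) (mul_nonneg hn (le_max_right _ _))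
  · intro x hx y hy
    exact h.swap.d_y_up hy hx (hs x hx)
  · intro x y
    unfold gcell; ring
  · rw [← hC]; unfold Px; ring

/-- `σ x w`, where `σ x = - |x|` on the cell -/
lemma bil_z (h : Geo x0 x1 y0 y1 X0 X1 Y0 Y1 R) {σ C : ℝ} (hs : ∀ x ∈ Icc x0 x1, σ * x = -|x|)
    (hC : 1 / R ^ 7 * Pz X0 X1 Y0 Y1 (x1 - x0) (y1 - y0) / 8 = C) :
    Bil (fun x y => σ * x * W (x ^ 2 + y ^ 2)) x0 x1 y0 y1
      (σ * x0 * W (x0 ^ 2 + y0 ^ 2) - C) (σ * x0 * W (x0 ^ 2 + y1 ^ 2) - C)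
      (σ * x1 * W (x1 ^ 2 + y0 ^ 2) - C) (σ * x1 * W (x1 ^ 2 + y1 ^ 2) - C) := by
  have hR := h.hR
  have hn := h.nn
  refine Bil.of_gcell (K := 1) (a1 := σ) (a2 := 0) (k := 0) (e := 0) (b1 := 0) (b2 := 0) (b3 := 0)
    (D := 1 / R ^ 7 * (X1 * max (9 * Y1 ^ 2 - 6 * X0 ^ 2) 0))
    (E := 1 / R ^ 7 * (X1 * max (3 * X1 ^ 2 - 12 * Y0 ^ 2) 0)) ?_ ?_ h.hx h.hy
    (fun x hx y hy => h.pos hx hy) (fun x hx y hy => h.d_x_dn hx hy (hs x hx)) ?_ ?_ ?_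
  · exact mul_nonneg (by positivity) (mul_nonneg hn (le_max_right _ _))
  · exact mul_nonneg (by positivity) (mul_nonneg hn (le_max_right _ _))
  · intro x hx y hy
    exact h.swap.d_y_dn hy hx (hs x hx)
  · intro x y
    unfold gcell; ring
  · rw [← hC]; unfold Pz; ring

/-- transposition of a cell -/
lemma _root_.RelEqN.Small.Box.Bil.swap {f : ℝ → ℝ → ℝ} {x0 x1 y0 y1 v00 v01 v10 v11 : ℝ}
    (h : Bil f x0 x1 y0 y1 v00 v01 v10 v11) :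
    Bil (fun x y => f y x) y0 y1 x0 x1 v00 v10 v01 v11 := by
  intro l m p r hl hm hlm hp hr hpr
  have := h p r l m hp hr hpr hl hm hlm
  refine le_trans (le_of_eq ?_) this
  ring

/-- `σ y w`, where `σ y = |y|` on the cell -/
lemma bil_y (h : Geo x0 x1 y0 y1 X0 X1 Y0 Y1 R) {σ C : ℝ} (hs : ∀ y ∈ Icc y0 y1, σ * y = |y|)
    (hC : 1 / R ^ 7 * Px Y0 Y1 X0 X1 (y1 - y0) (x1 - x0) / 8 = C) :
    Bil (fun x y => σ * y * W (x ^ 2 + y ^ 2)) x0 x1 y0 y1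
      (σ * y0 * W (x0 ^ 2 + y0 ^ 2) - C) (σ * y1 * W (x0 ^ 2 + y1 ^ 2) - C)
      (σ * y0 * W (x1 ^ 2 + y0 ^ 2) - C) (σ * y1 * W (x1 ^ 2 + y1 ^ 2) - C) := by
  have := (h.swap.bil_x hs hC).swap
  simp only [add_comm (y0 ^ 2), add_comm (y1 ^ 2)] at this
  exact this.congr fun x y => by rw [add_comm (y ^ 2)]

/-- `σ y w`, where `σ y = - |y|` on the cell -/
lemma bil_u (h : Geo x0 x1 y0 y1 X0 X1 Y0 Y1 R) {σ C : ℝ} (hs : ∀ y ∈ Icc y0 y1, σ * y = -|y|)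
    (hC : 1 / R ^ 7 * Pz Y0 Y1 X0 X1 (y1 - y0) (x1 - x0) / 8 = C) :
    Bil (fun x y => σ * y * W (x ^ 2 + y ^ 2)) x0 x1 y0 y1
      (σ * y0 * W (x0 ^ 2 + y0 ^ 2) - C) (σ * y1 * W (x0 ^ 2 + y1 ^ 2) - C)
      (σ * y0 * W (x1 ^ 2 + y0 ^ 2) - C) (σ * y1 * W (x1 ^ 2 + y1 ^ 2) - C) := by
  have := (h.swap.bil_z hs hC).swap
  simp only [add_comm (y0 ^ 2), add_comm (y1 ^ 2)] at this
  exact this.congr fun x y => by rw [add_comm (y ^ 2)]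

end Geo

/-- the square of the norm, minorant -/
lemma bil_t {x0 x1 y0 y1 : ℝ} : Bil (fun x y => x ^ 2 + y ^ 2) x0 x1 y0 y1
    (x0 ^ 2 + y0 ^ 2 - ((x1 - x0) ^ 2 + (y1 - y0) ^ 2) / 4)
    (x0 ^ 2 + y1 ^ 2 - ((x1 - x0) ^ 2 + (y1 - y0) ^ 2) / 4)
    (x1 ^ 2 + y0 ^ 2 - ((x1 - x0) ^ 2 + (y1 - y0) ^ 2) / 4)
    (x1 ^ 2 + y1 ^ 2 - ((x1 - x0) ^ 2 + (y1 - y0) ^ 2) / 4) := by
  intro l m p r hl hm hlm hp hr hpr
  have e1 : m = 1 - l := by linarith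
  have e2 : r = 1 - p := by linarith
  subst e1 e2
  show _ ≤ (l * x0 + (1 - l) * x1) ^ 2 + (p * y0 + (1 - p) * y1) ^ 2
  nlinarith [mul_nonneg (sq_nonneg (x1 - x0)) (sq_nonneg (l - 1 / 2)),
    mul_nonneg (sq_nonneg (y1 - y0)) (sq_nonneg (p - 1 / 2))]

/-- the square of the norm, majorant -/
lemma bil_nt {x0 x1 y0 y1 : ℝ} : Bil (fun x y => -(x ^ 2 + y ^ 2)) x0 x1 y0 y1
    (-(x0 ^ 2 + y0 ^ 2)) (-(x0 ^ 2 + y1 ^ 2)) (-(x1 ^ 2 + y0 ^ 2)) (-(x1 ^ 2 + y1 ^ 2)) := by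
  intro l m p r hl hm hlm hp hr hpr
  have e1 : m = 1 - l := by linarith
  have e2 : r = 1 - p := by linarith
  subst e1 e2
  show _ ≤ -((l * x0 + (1 - l) * x1) ^ 2 + (p * y0 + (1 - p) * y1) ^ 2)
  nlinarith [mul_nonneg (mul_nonneg hl hm) (sq_nonneg (x1 - x0)),
    mul_nonneg (mul_nonneg hp hr) (sq_nonneg (y1 - y0))]

end RelEqN.Small.Box
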