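import Pool.Agent.Lib.MP_b9e19b_mp.Box.GTabF

set_option autoImplicit false

/-!
# The minimum of a combination of the table functions over a window of the grid
-/

namespace RelEqN.Small.Box

open Set K

/-- a cell containing a point between two nodes -/
lemma exists_cell {g : ℕ → ℝ} {a b : ℕ} {X : ℝ} (hab : a < b) (h1 : g a ≤ X) (h2 : X ≤ g b) :
    ∃ i, a ≤ i ∧ i < b ∧ g i ≤ X ∧ X ≤ g (i + 1) := by
  induction b with
  | zero => omega
  | succ b ih =>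
    by_cases hab' : a < b
    · rcases le_total X (g b) with h | h
      · obtain ⟨i, hi1, hi2, hi3, hi4⟩ := ih hab' h
        exact ⟨i, hi1, by omega, hi3, hi4⟩
      · exact ⟨b, by omega, by omega, h, h2⟩
    · have : a = b := by omega
      subst this
      exact ⟨a, le_rfl, by omega, h1, h2⟩

/-- the coordinates in a cell are at most the far end -/
lemma abs_le_cell {n G i : ℕ} (h0 : gx G 0 = 0) (hinc : ∀ a < n, gx G a < gx G (a + 1))
    (hi : i < 2 * n) {X : ℝ} (h1 : gr n G i ≤ X) (h2 : X ≤ gr n G (i + 1)) :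
    X ^ 2 ≤ ((gx G (ca n i + 1) * gx G (ca n i + 1) : ℕ) : ℝ) := by
  obtain ⟨ha, hc⟩ := gr_cell (G := G) h0 hi
  have hlt : (gx G (ca n i) : ℝ) ≤ gx G (ca n i + 1) := by exact_mod_cast (hinc _ ha).le
  have hn : (0 : ℝ) ≤ gx G (ca n i) := Nat.cast_nonneg _
  push_cast
  rcases hc with ⟨_, e1, e2, _⟩ | ⟨_, e1, e2, _, _⟩
  · rw [e1] at h1
    rw [e2] at h2
    nlinarith
  · rw [e1] at h1
    rw [e2] at h2
    nlinarith

/-- a combination of the ten functions and a linear function -/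
noncomputable def comb (cw cv cx cz cy cu cr cs ct cq l1 l2 X Y : ℝ) : ℝ :=
  cw * (2 ^ 49 * W (X ^ 2 + Y ^ 2)) + cv * -(2 ^ 49 * W (X ^ 2 + Y ^ 2))
    + cx * (2 ^ 37 * (X * W (X ^ 2 + Y ^ 2))) + cz * -(2 ^ 37 * (X * W (X ^ 2 + Y ^ 2)))
    + cy * (2 ^ 37 * (Y * W (X ^ 2 + Y ^ 2))) + cu * -(2 ^ 37 * (Y * W (X ^ 2 + Y ^ 2)))
    + cr * (2 ^ 25 * ((X ^ 2 + Y ^ 2) * W (X ^ 2 + Y ^ 2)))
    + cs * -(2 ^ 25 * ((X ^ 2 + Y ^ 2) * W (X ^ 2 + Y ^ 2)))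
    + ct * ((X ^ 2 + Y ^ 2) / 2 ^ 11) + cq * -((X ^ 2 + Y ^ 2) / 2 ^ 11)
    + (l1 * X + l2 * Y + 0)

/-- the combination of the table values at the lane `p` and the node `(X, Y)` -/
noncomputable def combT (T : Tbl) (cw cv cx cz cy cu cr cs ct cq l1 l2 X Y : ℝ) (p : ℕ) : ℝ :=
  cw * ((l32 T.w p : ℝ) - 2 ^ 17) + cv * ((l32 T.v p : ℝ) - 2 ^ 17)
    + cx * ((l32 T.x p : ℝ) - 2 ^ 16) + cz * ((l32 T.z p : ℝ) - 2 ^ 16)
    + cy * ((l32 T.y p : ℝ) - 2 ^ 16) + cu * ((l32 T.u p : ℝ) - 2 ^ 16)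
    + cr * ((l32 T.r p : ℝ) - 2 ^ 15) + cs * ((l32 T.s p : ℝ) - 2 ^ 15)
    + ct * ((l32 T.t p : ℝ) - 2 ^ 21) + cq * ((l32 T.q p : ℝ) - 2 ^ 21)
    + (l1 * X + l2 * Y + 0)

/-- one coordinate: a cell and weights, only nodes of the window have a nonzero weight -/
lemma exists_cell_weights {g : ℕ → ℝ} {a b n : ℕ} {X : ℝ} (hn : 0 < n) (hab : a ≤ b) (hb : b ≤ n)
    (h1 : g a ≤ X) (h2 : X ≤ g b) :
    ∃ i < n, ∃ l m : ℝ, 0 ≤ l ∧ 0 ≤ m ∧ l + m = 1 ∧ X = l * g i + m * g (i + 1) ∧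
      (l ≠ 0 → a ≤ i ∧ i ≤ b) ∧ (m ≠ 0 → a ≤ i + 1 ∧ i + 1 ≤ b) := by
  rcases Nat.eq_or_lt_of_le hab with h | h
  · subst h
    have hX : X = g a := le_antisymm h2 h1
    rcases Nat.eq_zero_or_pos a with ha | ha
    · exact ⟨a, by omega, 1, 0, by norm_num, le_refl _, by norm_num, by rw [hX]; ring,
        fun _ => ⟨le_rfl, le_rfl⟩, fun h => absurd rfl h⟩
    · refine ⟨a - 1, by omega, 0, 1, le_refl _, by norm_num, by norm_num, ?_,
        fun h => absurd rfl h, fun _ => ⟨by omega, by omega⟩⟩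
      rw [Nat.sub_add_cancel ha, hX]; ring
  · obtain ⟨i, hi1, hi2, hi3, hi4⟩ := exists_cell h h1 h2
    obtain ⟨l, m, hl, hm, hlm, he⟩ := exists_weights (show X ∈ Icc (g i) (g (i + 1)) from ⟨hi3, hi4⟩)
    exact ⟨i, by omega, l, m, hl, hm, hlm, he, fun _ => ⟨hi1, by omega⟩,
      fun _ => ⟨by omega, by omega⟩⟩

/-- the combination on one cell -/
lemma comb_cell {n S G i j : ℕ} {T : Tbl} (h : CellT n S G T i j)
    {cw cv cx cz cy cu cr cs ct cq l1 l2 m X Y : ℝ} (hw : 0 ≤ cw) (hv : 0 ≤ cv) (hx : 0 ≤ cx)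
    (hz : 0 ≤ cz) (hy : 0 ≤ cy) (hu : 0 ≤ cu) (hr : 0 ≤ cr) (hs : 0 ≤ cs) (ht : 0 ≤ ct)
    (hq : 0 ≤ cq)
    (hX : X ∈ Icc (gr n G i) (gr n G (i + 1))) (hY : Y ∈ Icc (gr n G j) (gr n G (j + 1)))
    (hm : ∀ c d : Bool, m ≤ combT T cw cv cx cz cy cu cr cs ct cq l1 l2 (gr n G (ix i c))
      (gr n G (ix j d)) (S * ix j d + ix i c)) :
    m ≤ comb cw cv cx cz cy cu cr cs ct cq l1 l2 X Y := by
  have hb := ((((((((((h.w.smul hw).add (h.v.smul hv)).add (h.x.smul hx)).add (h.z.smul hz)).add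
    (h.y.smul hy)).add (h.u.smul hu)).add (h.r.smul hr)).add (h.s.smul hs)).add
    (h.t.smul ht)).add (h.q.smul hq)).add (Bil.linear (x0 := gr n G i) (x1 := gr n G (i + 1))
      (y0 := gr n G j) (y1 := gr n G (j + 1)) l1 l2 0)
  exact hb.min_le (hm false false) (hm false true) (hm true false) (hm true true) hX hY

/-- **The minimum over a window.** -/
theorem grid_min {n S G rho : ℕ} {T : Tbl} (hG : gok n G = true)
    (hall : ∀ i < 2 * n, ∀ j < 2 * n, rho ≤ cF G (ca n i) (ca n j) → CellT n S G T i j)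
    {rho' : ℕ} (hrr : rho ≤ rho')
    {i0 i1 j0 j1 : ℕ} (hi : i0 < i1) (hi1 : i1 ≤ 2 * n) (hj : j0 < j1) (hj1 : j1 ≤ 2 * n)
    {cw cv cx cz cy cu cr cs ct cq l1 l2 m X Y : ℝ} (hw : 0 ≤ cw) (hv : 0 ≤ cv) (hx : 0 ≤ cx)
    (hz : 0 ≤ cz) (hy : 0 ≤ cy) (hu : 0 ≤ cu) (hr : 0 ≤ cr) (hs : 0 ≤ cs) (ht : 0 ≤ ct)
    (hq : 0 ≤ cq)
    (hX0 : gr n G i0 ≤ X) (hX1 : X ≤ gr n G i1) (hY0 : gr n G j0 ≤ Y) (hY1 : Y ≤ gr n G j1)
    (hrho : (rho' : ℝ) ≤ X ^ 2 + Y ^ 2)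
    (hm : ∀ i j : ℕ, ∀ c d : Bool, i0 ≤ i → i < i1 → j0 ≤ j → j < j1 →
      rho' ≤ cF G (ca n i) (ca n j) →
      m ≤ combT T cw cv cx cz cy cu cr cs ct cq l1 l2 (gr n G (ix i c))
      (gr n G (ix j d)) (S * ix j d + ix i c)) :
    m ≤ comb cw cv cx cz cy cu cr cs ct cq l1 l2 X Y := by
  obtain ⟨h0, hinc⟩ := gok_spec hG
  obtain ⟨i, a1, a2, a3, a4⟩ := exists_cell hi hX0 hX1
  obtain ⟨j, b1, b2, b3, b4⟩ := exists_cell hj hY0 hY1
  have hF : rho' ≤ cF G (ca n i) (ca n j) := by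
    have h1 := abs_le_cell h0 hinc (show i < 2 * n by omega) a3 a4
    have h2 := abs_le_cell h0 hinc (show j < 2 * n by omega) b3 b4
    have h3 : (rho' : ℝ) ≤ ((cF G (ca n i) (ca n j) : ℕ) : ℝ) := by
      unfold cF
      push_cast at h1 h2 ⊢
      linarith
    exact_mod_cast h3
  exact comb_cell (hall i (by omega) j (by omega) (hrr.trans hF)) hw hv hx hz hy hu hr hs ht hq
    ⟨a3, a4⟩ ⟨b3, b4⟩ (fun c d => hm i j c d a1 a2 b1 b2 hF)

/-- the node `(i, j)` belongs to a cell with far corner outside the disc -/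
def Mk (n G rho i j : ℕ) : Prop :=
  ∃ a < 2 * n, ∃ b < 2 * n, ∃ c d : Bool, i = ix a c ∧ j = ix b d ∧ rho ≤ cF G (ca n a) (ca n b)

/-- **The minimum over a window**, also for windows with one row or column. -/
theorem grid_min' {n S G rho : ℕ} {T : Tbl} (hn : 0 < n) (hG : gok n G = true)
    (hall : ∀ i < 2 * n, ∀ j < 2 * n, rho ≤ cF G (ca n i) (ca n j) → CellT n S G T i j)
    {rho' : ℕ} (hrr : rho ≤ rho')
    {i0 i1 j0 j1 : ℕ} (hi : i0 ≤ i1) (hi1 : i1 ≤ 2 * n) (hj : j0 ≤ j1) (hj1 : j1 ≤ 2 * n)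
    {cw cv cx cz cy cu cr cs ct cq l1 l2 m X Y : ℝ} (hw : 0 ≤ cw) (hv : 0 ≤ cv) (hx : 0 ≤ cx)
    (hz : 0 ≤ cz) (hy : 0 ≤ cy) (hu : 0 ≤ cu) (hr : 0 ≤ cr) (hs : 0 ≤ cs) (ht : 0 ≤ ct)
    (hq : 0 ≤ cq)
    (hX0 : gr n G i0 ≤ X) (hX1 : X ≤ gr n G i1) (hY0 : gr n G j0 ≤ Y) (hY1 : Y ≤ gr n G j1)
    (hrho : (rho' : ℝ) ≤ X ^ 2 + Y ^ 2)
    (hm : ∀ i j : ℕ, i0 ≤ i → i ≤ i1 → j0 ≤ j → j ≤ j1 → Mk n G rho' i j →
      m ≤ combT T cw cv cx cz cy cu cr cs ct cq l1 l2 (gr n G i) (gr n G j) (S * j + i)) :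
    m ≤ comb cw cv cx cz cy cu cr cs ct cq l1 l2 X Y := by
  obtain ⟨h0, hinc⟩ := gok_spec hG
  obtain ⟨i, hia, l, l', hl, hl', hll, hXe, hi3, hi4⟩ :=
    exists_cell_weights (show 0 < 2 * n by omega) hi hi1 hX0 hX1
  obtain ⟨j, hja, p, p', hp, hp', hpp, hYe, hj3, hj4⟩ :=
    exists_cell_weights (show 0 < 2 * n by omega) hj hj1 hY0 hY1
  have hmono : ∀ k < 2 * n, gr n G k ≤ gr n G (k + 1) := by
    intro k hk
    obtain ⟨ha, hc⟩ := gr_cell (G := G) h0 hk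
    have hlt : (gx G (ca n k) : ℝ) ≤ gx G (ca n k + 1) := by exact_mod_cast (hinc _ ha).le
    rcases hc with ⟨_, e1, e2, _⟩ | ⟨_, e1, e2, _, _⟩
    · rw [e1, e2]; exact hlt
    · rw [e1, e2]; linarith
  have hXi : gr n G i ≤ X ∧ X ≤ gr n G (i + 1) := by
    have h1 := hmono i hia
    have e : l = 1 - l' := by linarith
    rw [hXe, e]
    constructor <;> nlinarith
  have hYj : gr n G j ≤ Y ∧ Y ≤ gr n G (j + 1) := by
    have h1 := hmono j hja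
    have e : p = 1 - p' := by linarith
    rw [hYe, e]
    constructor <;> nlinarith
  have hF : rho' ≤ cF G (ca n i) (ca n j) := by
    have h1 := abs_le_cell h0 hinc hia hXi.1 hXi.2
    have h2 := abs_le_cell h0 hinc hja hYj.1 hYj.2
    have h3 : (rho' : ℝ) ≤ ((cF G (ca n i) (ca n j) : ℕ) : ℝ) := by
      unfold cF
      push_cast at h1 h2 ⊢
      linarith
    exact_mod_cast h3
  have h := hall i hia j hja (hrr.trans hF)
  have hb := ((((((((((h.w.smul hw).add (h.v.smul hv)).add (h.x.smul hx)).add (h.z.smul hz)).add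
    (h.y.smul hy)).add (h.u.smul hu)).add (h.r.smul hr)).add (h.s.smul hs)).add
    (h.t.smul ht)).add (h.q.smul hq)).add (Bil.linear (x0 := gr n G i) (x1 := gr n G (i + 1))
      (y0 := gr n G j) (y1 := gr n G (j + 1)) l1 l2 0)
  have h4 := hb l l' p p' hl hl' hll hp hp' hpp
  have h5 : m ≤ l * p * combT T cw cv cx cz cy cu cr cs ct cq l1 l2 (gr n G i) (gr n G j)
      (S * j + i) + l * p' * combT T cw cv cx cz cy cu cr cs ct cq l1 l2 (gr n G i)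
      (gr n G (j + 1)) (S * (j + 1) + i) + l' * p * combT T cw cv cx cz cy cu cr cs ct cq l1 l2
      (gr n G (i + 1)) (gr n G j) (S * j + (i + 1)) + l' * p' * combT T cw cv cx cz cy cu cr cs
      ct cq l1 l2 (gr n G (i + 1)) (gr n G (j + 1)) (S * (j + 1) + (i + 1)) := by
    have key : ∀ (w v : ℝ), 0 ≤ w → (w ≠ 0 → m ≤ v) → w * m ≤ w * v := by
      intro w v hw hv
      rcases eq_or_ne w 0 with h | h
      · rw [h]; simp
      · exact mul_le_mul_of_nonneg_left (hv h) hw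
    have k1 := key (l * p) _ (mul_nonneg hl hp) (fun h0 => hm i j
      (hi3 (left_ne_zero_of_mul h0)).1 (hi3 (left_ne_zero_of_mul h0)).2
      (hj3 (right_ne_zero_of_mul h0)).1 (hj3 (right_ne_zero_of_mul h0)).2
      ⟨i, hia, j, hja, false, false, rfl, rfl, hF⟩)
    have k2 := key (l * p') _ (mul_nonneg hl hp') (fun h0 => hm i (j + 1)
      (hi3 (left_ne_zero_of_mul h0)).1 (hi3 (left_ne_zero_of_mul h0)).2
      (hj4 (right_ne_zero_of_mul h0)).1 (hj4 (right_ne_zero_of_mul h0)).2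
      ⟨i, hia, j, hja, false, true, rfl, rfl, hF⟩)
    have k3 := key (l' * p) _ (mul_nonneg hl' hp) (fun h0 => hm (i + 1) j
      (hi4 (left_ne_zero_of_mul h0)).1 (hi4 (left_ne_zero_of_mul h0)).2
      (hj3 (right_ne_zero_of_mul h0)).1 (hj3 (right_ne_zero_of_mul h0)).2
      ⟨i, hia, j, hja, true, false, rfl, rfl, hF⟩)
    have k4 := key (l' * p') _ (mul_nonneg hl' hp') (fun h0 => hm (i + 1) (j + 1)
      (hi4 (left_ne_zero_of_mul h0)).1 (hi4 (left_ne_zero_of_mul h0)).2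
      (hj4 (right_ne_zero_of_mul h0)).1 (hj4 (right_ne_zero_of_mul h0)).2
      ⟨i, hia, j, hja, true, true, rfl, rfl, hF⟩)
    have e : l * p * m + l * p' * m + l' * p * m + l' * p' * m = m := by
      have : l * p * m + l * p' * m + l' * p * m + l' * p' * m = (l + l') * (p + p') * m := by ring
      rw [this, hll, hpp]; ring
    linarith
  refine le_trans h5 (le_trans (le_of_eq ?_) (le_trans h4 (le_of_eq ?_)))
  · simp only [ix, cond_true, cond_false, combT]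
  · rw [← hXe, ← hYe]; rfl

end RelEqN.Small.Box
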