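import Pool.Agent.Lib.MP_b9e19b_mp.Box.Cell

set_option autoImplicit false

/-!
# Interpolation on a cell: a function is at least the bilinear interpolation of lower bounds of its
values at the corners minus a bound for the second derivatives
-/

namespace RelEqN.Small.Box

open Set

/-- the chord bound with weights -/
lemma chord_interp {f f' f'' : ℝ → ℝ} {a b D : ℝ} (hD : 0 ≤ D)
    (h1 : ∀ x ∈ Icc a b, HasDerivAt f (f' x) x) (h2 : ∀ x ∈ Icc a b, HasDerivAt f' (f'' x) x)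
    (h3 : ∀ x ∈ Icc a b, f'' x ≤ D) {l m : ℝ} (hl : 0 ≤ l) (hm : 0 ≤ m) (hlm : l + m = 1)
    (hab : a ≤ b) : l * f a + m * f b - D * (b - a) ^ 2 / 8 ≤ f (l * a + m * b) := by
  have hsub : interior (Icc a b) ⊆ Icc a b := interior_subset
  have hq : ∀ x : ℝ, HasDerivAt (fun x : ℝ => D * x ^ 2 / 2) (D * x) x := by
    intro x
    exact (((hasDerivAt_pow 2 x).const_mul D).div_const 2).congr_deriv (by norm_num; ring)
  have hq' : ∀ x : ℝ, HasDerivAt (fun x : ℝ => D * x) D x := by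
    intro x
    simpa using (hasDerivAt_id x).const_mul D
  have hc : ConcaveOn ℝ (Icc a b) (fun x => f x - D * x ^ 2 / 2) := by
    apply concaveOn_of_hasDerivWithinAt2_nonpos (convex_Icc a b)
      (f' := fun x => f' x - D * x) (f'' := fun x => f'' x - D)
    · intro x hx
      exact ((h1 x hx).sub (hq x)).continuousAt.continuousWithinAt
    · intro x hx
      exact ((h1 x (hsub hx)).sub (hq x)).hasDerivWithinAt
    · intro x hx
      exact ((h2 x (hsub hx)).sub (hq' x)).hasDerivWithinAt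
    · intro x hx
      have := h3 x (hsub hx)
      linarith
  have hcc := hc.2 (left_mem_Icc.2 hab) (right_mem_Icc.2 hab) hl hm hlm
  simp only [smul_eq_mul] at hcc
  have e1 : l * a ^ 2 + m * b ^ 2 - (l * a + m * b) ^ 2 = l * m * (b - a) ^ 2 := by
    have hm' : m = 1 - l := by linarith
    rw [hm']; ring
  have hlm4 : l * m ≤ 1 / 4 := by
    have hm' : m = 1 - l := by linarith
    rw [hm']; nlinarith [sq_nonneg (l - 1 / 2)]
  have h5 : l * m * (b - a) ^ 2 ≤ 1 / 4 * (b - a) ^ 2 :=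
    mul_le_mul_of_nonneg_right hlm4 (sq_nonneg _)
  have h6 : D * (l * m * (b - a) ^ 2) ≤ D * (1 / 4 * (b - a) ^ 2) :=
    mul_le_mul_of_nonneg_left h5 hD
  rw [← e1] at h6
  nlinarith

/-- weights of a point of an interval -/
lemma exists_weights {a b x : ℝ} (hx : x ∈ Icc a b) :
    ∃ l m : ℝ, 0 ≤ l ∧ 0 ≤ m ∧ l + m = 1 ∧ x = l * a + m * b := by
  rcases eq_or_lt_of_le (hx.1.trans hx.2) with h | h
  · refine ⟨1, 0, by norm_num, le_refl _, by norm_num, ?_⟩
    have : x = a := le_antisymm (h ▸ hx.2) hx.1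
    rw [this]; ring
  · have hba : 0 < b - a := by linarith
    refine ⟨(b - x) / (b - a), (x - a) / (b - a), div_nonneg (by linarith [hx.2]) hba.le,
      div_nonneg (by linarith [hx.1]) hba.le, ?_, ?_⟩
    · rw [← add_div]; field_simp; ring
    · field_simp; ring

/-- **Bilinear interpolation on a cell** for a function of two variables with bounded second
derivatives in each variable. -/
theorem bilin_interp {g : ℝ → ℝ → ℝ} {D E x0 x1 y0 y1 : ℝ}
    (hx : ∀ y ∈ Icc y0 y1, ∀ l m : ℝ, 0 ≤ l → 0 ≤ m → l + m = 1 →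
      l * g x0 y + m * g x1 y - D * (x1 - x0) ^ 2 / 8 ≤ g (l * x0 + m * x1) y)
    (hy : ∀ x ∈ Icc x0 x1, ∀ l m : ℝ, 0 ≤ l → 0 ≤ m → l + m = 1 →
      l * g x y0 + m * g x y1 - E * (y1 - y0) ^ 2 / 8 ≤ g x (l * y0 + m * y1))
    {l m p r : ℝ} (hl : 0 ≤ l) (hm : 0 ≤ m) (hlm : l + m = 1) (hp : 0 ≤ p) (hr : 0 ≤ r)
    (hpr : p + r = 1) (h0x : x0 ≤ x1) (h0y : y0 ≤ y1) :
    l * p * g x0 y0 + l * r * g x0 y1 + m * p * g x1 y0 + m * r * g x1 y1
      - (D * (x1 - x0) ^ 2 / 8 + E * (y1 - y0) ^ 2 / 8)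
      ≤ g (l * x0 + m * x1) (p * y0 + r * y1) := by
  have hyy : p * y0 + r * y1 ∈ Icc y0 y1 := by
    constructor
    · calc y0 = (p + r) * y0 := by rw [hpr, one_mul]
        _ = p * y0 + r * y0 := by ring
        _ ≤ p * y0 + r * y1 := by gcongr
    · calc p * y0 + r * y1 ≤ p * y1 + r * y1 := by gcongr
        _ = (p + r) * y1 := by ring
        _ = y1 := by rw [hpr, one_mul]
  have h1 := hx _ hyy l m hl hm hlm
  have h2 := hy x0 (left_mem_Icc.2 h0x) p r hp hr hpr
  have h3 := hy x1 (right_mem_Icc.2 h0x) p r hp hr hpr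
  have h4 := mul_le_mul_of_nonneg_left h2 hl
  have h5 := mul_le_mul_of_nonneg_left h3 hm
  have e : l * (E * (y1 - y0) ^ 2 / 8) + m * (E * (y1 - y0) ^ 2 / 8)
      = E * (y1 - y0) ^ 2 / 8 := by
    rw [← add_mul, hlm, one_mul]
  nlinarith

end RelEqN.Small.Box
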