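import Pool.Agent.Lib.MP_b9e19b_mp.Small.Defs

set_option autoImplicit false

/-!
# Invariance of the necessary conditions under relabelling, rotations and reflections
-/

namespace RelEqN.Small.Box

open Finset

variable {N : ℕ}

/-! ### permutations -/

lemma wt_perm (q : Fin N → ℂ) (σ : Equiv.Perm (Fin N)) (j k : Fin N) :
    wt (q ∘ σ) j k = wt q (σ j) (σ k) := rfl

lemma wu_perm (q : Fin N → ℂ) (σ : Equiv.Perm (Fin N)) (j k : Fin N) :
    wu (q ∘ σ) j k = wu q (σ j) (σ k) := rfl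

lemma T_perm (q : Fin N → ℂ) (σ : Equiv.Perm (Fin N)) : T (q ∘ σ) = T q := by
  unfold T
  simp only [wt_perm]
  rw [Equiv.sum_comp σ (fun j => ∑ k, wt q j (σ k))]
  exact Finset.sum_congr rfl fun j _ => Equiv.sum_comp σ (fun k => wt q j k)

lemma dd_perm (q : Fin N → ℂ) (σ : Equiv.Perm (Fin N)) (j : Fin N) :
    dd (q ∘ σ) j = dd q (σ j) := by
  unfold dd
  simp only [wt_perm]
  exact Equiv.sum_comp σ (fun k => wt q (σ j) k)

lemma cc_perm (q : Fin N → ℂ) (σ : Equiv.Perm (Fin N)) (j : Fin N) :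
    cc (q ∘ σ) j = cc q (σ j) := by
  unfold cc
  simp only [wu_perm]
  exact Equiv.sum_comp σ (fun k => wu q (σ j) k)

lemma p4_perm (q : Fin N → ℂ) (σ : Equiv.Perm (Fin N)) : p4 (q ∘ σ) = p4 q := by
  unfold p4
  rw [T_perm]
  simp only [dd_perm, cc_perm, wt_perm]
  rw [Equiv.sum_comp σ (fun j => dd q j ^ 2), Equiv.sum_comp σ (fun j => ‖cc q j‖ ^ 2),
    Equiv.sum_comp σ (fun j => ∑ k, wt q j (σ k) ^ 2)]
  congr 2
  exact Finset.sum_congr rfl fun j _ => Equiv.sum_comp σ (fun k => wt q j k ^ 2)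

lemma sS_perm (q : Fin N → ℂ) (σ : Equiv.Perm (Fin N)) : sS (q ∘ σ) = sS q := by
  unfold sS; rw [T_perm]

lemma Hf_perm (q : Fin N → ℂ) (σ : Equiv.Perm (Fin N)) (ν : ℝ) (a b : Fin N → ℂ) :
    Hf (q ∘ σ) ν (a ∘ σ) (b ∘ σ) = Hf q ν a b := by
  unfold Hf
  simp only [wu_perm, wt_perm, Function.comp_apply]
  rw [Equiv.sum_comp σ (fun j => ‖a j‖ ^ 2), Equiv.sum_comp σ (fun j => ‖b j‖ ^ 2),
    Equiv.sum_comp σ (fun j => ∑ k, wt q j (σ k) * (‖a j - a (σ k)‖ ^ 2 + ‖b j - b (σ k)‖ ^ 2)),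
    Equiv.sum_comp σ (fun j => ∑ k, wu q j (σ k) * (star (a j - a (σ k)) * (b j - b (σ k))))]
  congr 2
  · congr 1
    refine Finset.sum_congr rfl fun j _ => ?_
    exact Equiv.sum_comp σ (fun k => wt q j k * (‖a j - a k‖ ^ 2 + ‖b j - b k‖ ^ 2))
  · congr 1
    refine Finset.sum_congr rfl fun j _ => ?_
    exact Equiv.sum_comp σ (fun k => wu q j k * (star (a j - a k) * (b j - b k)))

lemma CC_perm {q : Fin N → ℂ} (h : CC q) (σ : Equiv.Perm (Fin N)) : CC (q ∘ σ) := by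
  refine ⟨h.1.comp σ.injective, fun j => ?_⟩
  simp only [wt_perm, Function.comp_apply]
  rw [Equiv.sum_comp σ (fun k => (wt q (σ j) k : ℂ) * (q (σ j) - q k))]
  exact h.2 (σ j)

lemma Nec_perm {q : Fin N → ℂ} (h : Nec q) (σ : Equiv.Perm (Fin N)) : Nec (q ∘ σ) where
  isCC := CC_perm h.isCC σ
  tr := by rw [T_perm]; exact h.tr
  lo := by rw [sS_perm, p4_perm]; exact h.lo
  hi := by rw [sS_perm, p4_perm]; exact h.hi
  pos := by
    intro ν h0 h1 hs a b
    rw [sS_perm] at hs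
    have := h.pos ν h0 h1 hs (a ∘ σ.symm) (b ∘ σ.symm)
    rw [← Hf_perm q σ] at this
    have ea : (a ∘ σ.symm) ∘ σ = a := by ext j; simp
    have eb : (b ∘ σ.symm) ∘ σ = b := by ext j; simp
    rw [ea, eb] at this
    have sa : ∑ j, ‖(a ∘ σ.symm) j‖ ^ 2 = ∑ j, ‖a j‖ ^ 2 :=
      Equiv.sum_comp σ.symm (fun j => ‖a j‖ ^ 2)
    have sb : ∑ j, ‖(b ∘ σ.symm) j‖ ^ 2 = ∑ j, ‖b j‖ ^ 2 :=
      Equiv.sum_comp σ.symm (fun j => ‖b j‖ ^ 2)
    rw [sa, sb] at this
    exact this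

/-! ### rotations -/

lemma wt_rot (q : Fin N → ℂ) (u : ℂ) (hu : ‖u‖ = 1) (j k : Fin N) :
    wt (fun i => u * q i) j k = wt q j k := by
  unfold wt
  rw [← mul_sub, norm_mul, hu, one_mul]

lemma wu_rot (q : Fin N → ℂ) (u : ℂ) (hu : ‖u‖ = 1) (j k : Fin N) :
    wu (fun i => u * q i) j k = u ^ 2 * wu q j k := by
  unfold wu
  simp only
  rw [← mul_sub, norm_mul, hu, one_mul]
  ring

lemma T_rot (q : Fin N → ℂ) (u : ℂ) (hu : ‖u‖ = 1) : T (fun i => u * q i) = T q := by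
  unfold T; simp only [wt_rot q u hu]

lemma dd_rot (q : Fin N → ℂ) (u : ℂ) (hu : ‖u‖ = 1) (j : Fin N) :
    dd (fun i => u * q i) j = dd q j := by
  unfold dd; simp only [wt_rot q u hu]

lemma cc_rot (q : Fin N → ℂ) (u : ℂ) (hu : ‖u‖ = 1) (j : Fin N) :
    cc (fun i => u * q i) j = u ^ 2 * cc q j := by
  unfold cc; simp only [wu_rot q u hu]; rw [Finset.mul_sum]

lemma p4_rot (q : Fin N → ℂ) (u : ℂ) (hu : ‖u‖ = 1) : p4 (fun i => u * q i) = p4 q := by
  unfold p4
  rw [T_rot q u hu]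
  simp only [dd_rot q u hu, cc_rot q u hu, wt_rot q u hu, norm_mul, norm_pow, hu, one_pow, one_mul]

lemma sS_rot (q : Fin N → ℂ) (u : ℂ) (hu : ‖u‖ = 1) : sS (fun i => u * q i) = sS q := by
  unfold sS; rw [T_rot q u hu]

lemma Hf_rot (q : Fin N → ℂ) (u : ℂ) (hu : ‖u‖ = 1) (ν : ℝ) (a b : Fin N → ℂ) :
    Hf (fun i => u * q i) ν a b = Hf q ν (fun i => star u * a i) (fun i => u * b i) := by
  have hsu : ‖star u‖ = 1 := by rw [norm_star, hu]
  unfold Hf
  simp only [wt_rot q u hu, wu_rot q u hu, norm_mul, hsu, hu, one_mul, ← mul_sub]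
  congr 3
  refine Finset.sum_congr rfl fun j _ => Finset.sum_congr rfl fun k _ => ?_
  rw [star_mul, star_star]
  ring

lemma CC_rot {q : Fin N → ℂ} (h : CC q) (u : ℂ) (hu : ‖u‖ = 1) : CC (fun i => u * q i) := by
  have hu0 : u ≠ 0 := by
    intro h0; rw [h0, norm_zero] at hu; exact one_ne_zero hu.symm
  refine ⟨fun i j hij => h.1 (mul_left_cancel₀ hu0 hij), fun j => ?_⟩
  simp only [wt_rot q u hu]
  have e : ∀ k, (wt q j k : ℂ) * (u * q j - u * q k) = u * ((wt q j k : ℂ) * (q j - q k)) := by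
    intro k; ring
  simp only [e]
  rw [← Finset.mul_sum, h.2 j]

lemma Nec_rot {q : Fin N → ℂ} (h : Nec q) (u : ℂ) (hu : ‖u‖ = 1) : Nec (fun i => u * q i) where
  isCC := CC_rot h.isCC u hu
  tr := by rw [T_rot q u hu]; exact h.tr
  lo := by rw [sS_rot q u hu, p4_rot q u hu]; exact h.lo
  hi := by rw [sS_rot q u hu, p4_rot q u hu]; exact h.hi
  pos := by
    intro ν h0 h1 hs a b
    rw [sS_rot q u hu] at hs
    have := h.pos ν h0 h1 hs (fun i => star u * a i) (fun i => u * b i)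
    have hsu : ‖star u‖ = 1 := by rw [norm_star, hu]
    simp only [norm_mul, hsu, hu, one_mul] at this
    rw [Hf_rot q u hu]
    exact this

/-! ### complex conjugation -/

lemma wt_conj (q : Fin N → ℂ) (j k : Fin N) : wt (fun i => star (q i)) j k = wt q j k := by
  unfold wt; rw [← star_sub, norm_star]

lemma wu_conj (q : Fin N → ℂ) (j k : Fin N) :
    wu (fun i => star (q i)) j k = star (wu q j k) := by
  unfold wu
  simp only
  rw [← star_sub, norm_star]
  simp [star_mul, mul_comm]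

lemma T_conj (q : Fin N → ℂ) : T (fun i => star (q i)) = T q := by
  unfold T; simp only [wt_conj]

lemma dd_conj (q : Fin N → ℂ) (j : Fin N) : dd (fun i => star (q i)) j = dd q j := by
  unfold dd; simp only [wt_conj]

lemma cc_conj (q : Fin N → ℂ) (j : Fin N) : cc (fun i => star (q i)) j = star (cc q j) := by
  unfold cc; simp only [wu_conj]; rw [star_sum]

lemma p4_conj (q : Fin N → ℂ) : p4 (fun i => star (q i)) = p4 q := by
  unfold p4
  rw [T_conj]
  simp only [dd_conj, cc_conj, wt_conj, norm_star]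

lemma sS_conj (q : Fin N → ℂ) : sS (fun i => star (q i)) = sS q := by
  unfold sS; rw [T_conj]

lemma Hf_conj (q : Fin N → ℂ) (ν : ℝ) (a b : Fin N → ℂ) :
    Hf (fun i => star (q i)) ν a b = Hf q ν (fun i => star (a i)) (fun i => star (b i)) := by
  unfold Hf
  simp only [wt_conj, wu_conj, norm_star, ← star_sub]
  congr 2
  have : ∀ z w : ℂ, z = star w → z.re = w.re := by
    intro z w h; rw [h]; simp
  apply this
  rw [star_sum]
  refine Finset.sum_congr rfl fun j _ => ?_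
  rw [star_sum]
  refine Finset.sum_congr rfl fun k _ => ?_
  rw [star_mul, star_mul, star_star, star_star]
  ring

lemma CC_conj {q : Fin N → ℂ} (h : CC q) : CC (fun i => star (q i)) := by
  refine ⟨fun i j hij => h.1 (star_injective hij), fun j => ?_⟩
  simp only [wt_conj]
  have e : ∀ k, (wt q j k : ℂ) * (star (q j) - star (q k))
      = star ((wt q j k : ℂ) * (q j - q k)) := by
    intro k
    rw [star_mul, star_sub, mul_comm]
    congr 1
    exact (Complex.conj_ofReal _).symm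
  simp only [e]
  rw [← star_sum, h.2 j]

lemma Nec_conj {q : Fin N → ℂ} (h : Nec q) : Nec (fun i => star (q i)) where
  isCC := CC_conj h.isCC
  tr := by rw [T_conj]; exact h.tr
  lo := by rw [sS_conj, p4_conj]; exact h.lo
  hi := by rw [sS_conj, p4_conj]; exact h.hi
  pos := by
    intro ν h0 h1 hs a b
    rw [sS_conj] at hs
    have := h.pos ν h0 h1 hs (fun i => star (a i)) (fun i => star (b i))
    simp only [norm_star] at this
    rw [Hf_conj]
    exact this

end RelEqN.Small.Box
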