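import Pool.Agent.Lib.MP_b9e19b_mp.Box.Lanes

set_option autoImplicit false

/-!
# Packed lanes as functions

`Ln L A f B`: the lanes of `A` are the values of `f`, all at most `B < 2 ^ L`.
-/

namespace RelEqN.Small.Box

/-- the lanes of `A` are given by `f` and bounded by `B` -/
structure Ln (L A : ℕ) (f : ℕ → ℕ) (B : ℕ) : Prop where
  eq : ∀ i, lane L A i = f i
  le : ∀ i, f i ≤ B
  lt : B < 2 ^ L

namespace Ln

variable {L A A' : ℕ} {f f' : ℕ → ℕ} {B B' : ℕ}

lemma mono (h : Ln L A f B) (hB : B ≤ B') (hlt : B' < 2 ^ L) : Ln L A f B' :=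
  ⟨h.eq, fun i => (h.le i).trans hB, hlt⟩

lemma congr (h : Ln L A f B) (hf : ∀ i, f i = f' i) : Ln L A f' B :=
  ⟨fun i => (h.eq i).trans (hf i), fun i => (hf i) ▸ h.le i, h.lt⟩

lemma add (h : Ln L A f B) (h' : Ln L A' f' B') (hlt : B + B' < 2 ^ L) :
    Ln L (A + A') (fun i => f i + f' i) (B + B') := by
  refine ⟨fun i => ?_, fun i => Nat.add_le_add (h.le i) (h'.le i), hlt⟩
  rw [lane_add, h.eq, h'.eq]
  intro j _
  rw [h.eq, h'.eq]
  have := h.le j
  have := h'.le j
  omega

lemma mul (h : Ln L A f B) {c : ℕ} (hlt : c * B < 2 ^ L) :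
    Ln L (c * A) (fun i => c * f i) (c * B) := by
  refine ⟨fun i => ?_, fun i => Nat.mul_le_mul_left _ (h.le i), hlt⟩
  rw [lane_mul, h.eq]
  intro j _
  rw [h.eq]
  exact lt_of_le_of_lt (Nat.mul_le_mul_left _ (h.le j)) hlt

lemma mul' (h : Ln L A f B) {c : ℕ} (hlt : c * B < 2 ^ L) :
    Ln L (A * c) (fun i => c * f i) (c * B) := by
  rw [mul_comm A]
  exact h.mul hlt

lemma shift (h : Ln L A f B) (s : ℕ) : Ln L (A >>> (L * s)) (fun i => f (s + i)) B :=
  ⟨fun i => by rw [lane_shiftRight, h.eq], fun i => h.le _, h.lt⟩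

/-- masking with lanes which are full (on `P`) or empty -/
lemma mask (h : Ln L A f B) {m : ℕ} {P : ℕ → Prop} [DecidablePred P]
    (hm : ∀ i, lane L m i = if P i then 2 ^ L - 1 else 0) :
    Ln L (A &&& m) (fun i => if P i then f i else 0) B := by
  refine ⟨fun i => ?_, fun i => ?_, h.lt⟩
  · have := hm i
    by_cases hp : P i
    · rw [if_pos hp] at this ⊢
      rw [lane_mask_full this, h.eq]
    · rw [if_neg hp] at this ⊢
      rw [lane_mask_zero this]
  · show (if P i then f i else 0) ≤ B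
    split
    · exact h.le i
    · exact Nat.zero_le _

end Ln

/-- lanes of two blocks -/
lemma lane_append {L n a b : ℕ} (ha : a < 2 ^ (L * n)) (i : ℕ) :
    lane L (2 ^ (L * n) * b + a) i = if i < n then lane L a i else lane L b (i - n) := by
  apply Nat.eq_of_testBit_eq
  intro c
  rw [lane_testBit, Nat.testBit_two_pow_mul_add _ ha]
  by_cases hc : c < L
  · by_cases hi : i < n
    · have : L * i + c < L * n := by
        calc L * i + c < L * i + L := by omega
          _ = L * (i + 1) := by ring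
          _ ≤ L * n := Nat.mul_le_mul_left _ hi
      rw [if_pos this, if_pos hi, lane_testBit]
    · have h1 : L * n ≤ L * i := Nat.mul_le_mul_left _ (by omega)
      rw [if_neg (by omega), if_neg hi, lane_testBit, Nat.mul_sub]
      congr 2
      omega
  · by_cases hi : i < n
    · rw [if_pos hi, lane_testBit]; simp [hc]
    · rw [if_neg hi, lane_testBit]; simp [hc]

/-- a number with ones in the lanes `0, …, n - 1` -/
lemma lane_rep {L : ℕ} (hL : 0 < L) (n : ℕ) :
    ∃ R : ℕ, R * (2 ^ L - 1) = 2 ^ (L * n) - 1 ∧ R < 2 ^ (L * n) ∧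
      ∀ i, lane L R i = if i < n then 1 else 0 := by
  have h2 : 1 < 2 ^ L := Nat.one_lt_two_pow hL.ne'
  induction n with
  | zero =>
    refine ⟨0, by simp, by simp, fun i => by simp [lane]⟩
  | succ n ih =>
    obtain ⟨R, h1, h3, h4⟩ := ih
    have h5 : 1 ≤ 2 ^ (L * n) := Nat.one_le_two_pow
    have h6 : 2 ^ (L * (n + 1)) = 2 ^ (L * n) * 2 ^ L := by rw [mul_add, mul_one, pow_add]
    refine ⟨2 ^ (L * n) * 1 + R, ?_, ?_, fun i => ?_⟩
    · rw [add_mul, h1, mul_one, h6, Nat.mul_sub, mul_one]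
      have : 2 ^ (L * n) ≤ 2 ^ (L * n) * 2 ^ L := Nat.le_mul_of_pos_right _ (by positivity)
      omega
    · rw [h6]
      nlinarith
    · rw [lane_append h3, h4]
      have h7 : ∀ j, lane L 1 j = if j = 0 then 1 else 0 := by
        intro j
        rw [lane_eq_div]
        split_ifs with h
        · subst h
          rw [mul_zero, pow_zero, Nat.div_one, Nat.mod_eq_of_lt h2]
        · rw [Nat.div_eq_of_lt, Nat.zero_mod]
          exact Nat.one_lt_two_pow (Nat.mul_ne_zero hL.ne' h)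
      rw [h7]
      split_ifs <;> omega

/-- the lanes of the quotient `(2 ^ (L n) - 1) / (2 ^ L - 1)` -/
lemma lane_div_ones {L : ℕ} (hL : 0 < L) (n i : ℕ) :
    lane L ((2 ^ (L * n) - 1) / (2 ^ L - 1)) i = if i < n then 1 else 0 := by
  obtain ⟨R, h1, -, h3⟩ := lane_rep hL n
  have h2 : 1 < 2 ^ L := Nat.one_lt_two_pow hL.ne'
  rw [← h1, Nat.mul_div_cancel _ (by omega)]
  exact h3 i

end RelEqN.Small.Box
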