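import Pool.Agent.Lib.MP_b9e19b_mp.Box.LaneWin
import Pool.Agent.Lib.MP_b9e19b_mp.Box.GTabS

set_option autoImplicit false

/-!
# The window test of the lattice tables on the level of lanes
-/

namespace RelEqN.Small.Box

open K

/-- all lanes of `T` are at most `B` -/
def LB (T B : ℕ) : Prop := ∀ i, lane 32 T i ≤ B

/-- the high bits of all lanes vanish -/
lemma LB_of {T len b : ℕ} (hb : b ≤ 32) (h : T &&& (rep 32 len * (2 ^ 32 - 2 ^ b)) = 0)
    (hT : T < 2 ^ (32 * len)) : LB T (2 ^ b - 1) := by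
  intro i
  by_cases hi : i < len
  · have h0 : Ln 32 (rep 32 len) (fun i => if i < len then 1 else 0) 1 :=
      ⟨lane_of_rep (by norm_num) len, fun i => by split_ifs <;> omega, by norm_num⟩
    have h2 : (2 ^ 32 - 2 ^ b) * 1 < 2 ^ 32 := by
      have : 0 < 2 ^ b := by positivity
      omega
    have h1 := (h0.mul' h2).eq i
    simp only [if_pos hi, mul_one] at h1
    have h3 : lane 32 T i &&& (2 ^ 32 - 2 ^ b) = 0 := by
      rw [← h1, ← lane_land, h, lane_zero']
    have h4 := lane_lt 32 T i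
    by_contra hc
    push Not at hc
    have h5 : 2 ^ b ≤ lane 32 T i := by
      have : 0 < 2 ^ b := by positivity
      omega
    obtain ⟨c, hc1, hc2⟩ := Nat.exists_ge_and_testBit_of_ge_two_pow h5
    have hc3 : c < 32 := by
      by_contra hc3
      have : lane 32 T i < 2 ^ c := lt_of_lt_of_le h4 (Nat.pow_le_pow_right (by norm_num) (by omega))
      rw [Nat.testBit_lt_two_pow this] at hc2
      exact absurd hc2 (by simp)
    have h6 : (2 ^ 32 - 2 ^ b).testBit c = true := by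
      have e : 2 ^ 32 - 2 ^ b = 2 ^ b * (2 ^ (32 - b) - 1) := by
        rw [Nat.mul_sub, ← pow_add, mul_one]
        congr 2
        omega
      rw [e, Nat.testBit_two_pow_mul]
      simp only [ge_iff_le, hc1, decide_true, Bool.true_and]
      rw [Nat.testBit_two_pow_sub_one]
      simp only [decide_eq_true_eq]
      omega
    have h7 : (lane 32 T i &&& (2 ^ 32 - 2 ^ b)).testBit c = true := by
      rw [Nat.testBit_and, hc2, h6]; rfl
    rw [h3] at h7
    simp at h7
  · have : lane 32 T i = 0 := by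
      rw [lane_eq_div, Nat.div_eq_of_lt, Nat.zero_mod]
      exact lt_of_lt_of_le hT (Nat.pow_le_pow_right (by norm_num) (by omega))
    rw [this]
    exact Nat.zero_le _

lemma LB.Ln {T B : ℕ} (h : LB T B) (hB : B < 2 ^ 32) : Ln 32 T (lane 32 T) B :=
  ⟨fun _ => rfl, h, hB⟩

/-- the lanes of a table cut to a window -/
def cutw (T s m : ℕ) : ℕ := (T >>> s) &&& m

/-- a term of the sum -/
lemma cut_Ln {T B S nx ny s c : ℕ} (h : LB T B) (hS : 0 < S) (hx : nx ≤ S)
    (hc : c * B < 2 ^ 32) (hB : B < 2 ^ 32) :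
    Ln 32 (c * cutw T (32 * s) (rep 32 nx * rep (32 * S) ny * (2 ^ 32 - 1)))
      (fun i => c * (if InW S nx ny i then lane 32 T (s + i) else 0)) (c * B) :=
  (((h.Ln hB).shift s).mask (fun i => win_mask (by norm_num) hS hx i)).mul hc

/-- position of a node in the window -/
lemma win_pos {S i j i0 j0 i1 j1 : ℕ} (hi : i0 ≤ i) (hi1 : i ≤ i1) (hj : j0 ≤ j) (hj1 : j ≤ j1)
    (hS : i1 < S) :
    InW S (i1 - i0 + 1) (j1 - j0 + 1) (S * (j - j0) + (i - i0)) ∧
      S * j0 + i0 + (S * (j - j0) + (i - i0)) = S * j + i := by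
  have h1 : i - i0 < S := by omega
  have h2 : (S * (j - j0) + (i - i0)) % S = i - i0 := by
    rw [Nat.mul_add_mod, Nat.mod_eq_of_lt h1]
  have h3 : (S * (j - j0) + (i - i0)) / S = j - j0 := by
    rw [Nat.mul_add_div (by omega), Nat.div_eq_of_lt h1, add_zero]
  refine ⟨⟨by rw [h2]; omega, by rw [h3]; omega⟩, ?_⟩
  have h4 : S * j = S * j0 + S * (j - j0) := by
    rw [← mul_add]; congr 1; omega
  rw [h4]
  omega

/-- **The window test.** Seven tables with bounds of their lanes, coefficients, a constant, and a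
table for the mask. -/
theorem win_test {S i0 i1 j0 j1 : ℕ} (hi : i0 ≤ i1) (hi1 : i1 < S)
    {T1 T2 T3 T4 T5 T6 T7 TM B1 B2 B3 B4 B5 B6 B7 BM c1 c2 c3 c4 c5 c6 c7 c0 r : ℕ}
    (h1 : LB T1 B1) (h2 : LB T2 B2) (h3 : LB T3 B3) (h4 : LB T4 B4) (h5 : LB T5 B5)
    (h6 : LB T6 B6) (h7 : LB T7 B7) (hM : LB TM BM) (hBM : BM < 2 ^ 31)
    (hb1 : B1 < 2 ^ 32) (hb2 : B2 < 2 ^ 32) (hb3 : B3 < 2 ^ 32) (hb4 : B4 < 2 ^ 32)
    (hb5 : B5 < 2 ^ 32) (hb6 : B6 < 2 ^ 32) (hb7 : B7 < 2 ^ 32)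
    (hsum : c1 * B1 + (c2 * B2 + (c3 * B3 + (c4 * B4 + (c5 * B5 + (c6 * B6 + (c7 * B7 + c0))))))
      < 2 ^ 32) {O s m A M : ℕ}
    (hO : O = rep 32 (i1 - i0 + 1) * rep (32 * S) (j1 - j0 + 1)) (hs : s = 32 * (S * j0 + i0))
    (hm : m = O * (2 ^ 32 - 1))
    (hA : A = c1 * cutw T1 s m + (c2 * cutw T2 s m + (c3 * cutw T3 s m + (c4 * cutw T4 s m
      + (c5 * cutw T5 s m + (c6 * cutw T6 s m + (c7 * cutw T7 s m + c0 * O)))))))
    (hMM : M = (cutw TM s m + (2 ^ 31 - r) * O) &&& (O * 2 ^ 31))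
    (h : A &&& M = M) {i j : ℕ} (hii : i0 ≤ i) (hii1 : i ≤ i1) (hjj : j0 ≤ j) (hjj1 : j ≤ j1)
    (hr : r ≤ lane 32 TM (S * j + i)) :
    2 ^ 31 ≤ c1 * lane 32 T1 (S * j + i) + (c2 * lane 32 T2 (S * j + i)
      + (c3 * lane 32 T3 (S * j + i) + (c4 * lane 32 T4 (S * j + i)
      + (c5 * lane 32 T5 (S * j + i) + (c6 * lane 32 T6 (S * j + i)
      + (c7 * lane 32 T7 (S * j + i) + c0)))))) := by
  have hS : 0 < S := by omega
  have hx : i1 - i0 + 1 ≤ S := by omega
  obtain ⟨hw, hp⟩ := win_pos (S := S) hii hii1 hjj hjj1 hi1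
  set p := S * (j - j0) + (i - i0) with hpdef
  have hOL : Ln 32 O (fun i => if InW S (i1 - i0 + 1) (j1 - j0 + 1) i then 1 else 0) 1 := by
    rw [hO]
    exact win_Ln (by norm_num) hS hx
  have hc0 : c0 < 2 ^ 32 := by omega
  have l0 := hOL.mul (c := c0) (by omega)
  subst hs
  rw [hO] at hm
  subst hm
  have l7 := (cut_Ln (ny := j1 - j0 + 1) (s := S * j0 + i0) h7 hS hx (c := c7) (by omega)
    hb7).add l0 (by omega)
  have l6 := (cut_Ln (ny := j1 - j0 + 1) (s := S * j0 + i0) h6 hS hx (c := c6) (by omega)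
    hb6).add l7 (by omega)
  have l5 := (cut_Ln (ny := j1 - j0 + 1) (s := S * j0 + i0) h5 hS hx (c := c5) (by omega)
    hb5).add l6 (by omega)
  have l4 := (cut_Ln (ny := j1 - j0 + 1) (s := S * j0 + i0) h4 hS hx (c := c4) (by omega)
    hb4).add l5 (by omega)
  have l3 := (cut_Ln (ny := j1 - j0 + 1) (s := S * j0 + i0) h3 hS hx (c := c3) (by omega)
    hb3).add l4 (by omega)
  have l2 := (cut_Ln (ny := j1 - j0 + 1) (s := S * j0 + i0) h2 hS hx (c := c2) (by omega)
    hb2).add l3 (by omega)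
  have l1 := (cut_Ln (ny := j1 - j0 + 1) (s := S * j0 + i0) h1 hS hx (c := c1) (by omega)
    hb1).add l2 (by omega)
  rw [← hA] at l1
  have e1 := l1.eq p
  simp only [if_pos hw, hp, mul_one] at e1
  rw [← e1]
  have lM := ((((hM.Ln (by omega)).shift (S * j0 + i0)).mask
    (fun i => win_mask (ny := j1 - j0 + 1) (by norm_num) hS hx i)).add
    (hOL.mul (c := 2 ^ 31 - r) (by omega)) (by omega))
  have e2 := lM.eq p
  simp only [if_pos hw, hp, mul_one] at e2
  have lO := hOL.mul' (c := 2 ^ 31) (by norm_num)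
  have e3 := lO.eq p
  simp only [if_pos hw, mul_one] at e3
  have e4 : lane 32 M p = 2 ^ 31 := by
    rw [hMM, lane_land, e3]
    unfold cutw
    rw [e2]
    have h8 : lane 32 TM (S * j + i) ≤ BM := hM _
    have h9 : lane 32 TM (S * j + i) + (2 ^ 31 - r) = 2 ^ 31 + (lane 32 TM (S * j + i) - r) := by
      omega
    rw [h9]
    apply Nat.eq_of_testBit_eq
    intro c
    rw [Nat.testBit_and, Nat.testBit_two_pow]
    by_cases hc : 31 = c
    · subst hc
      rw [Nat.testBit_two_pow_add_eq, Nat.testBit_lt_two_pow (by omega)]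
      simp
    · simp [hc]
  exact top_of_land (L := 32) (by norm_num) h (by rw [e4])

end RelEqN.Small.Box
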