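import Pool.Agent.Lib.MP_b9e19b_mp.Box.LaneFn

set_option autoImplicit false

/-!
# The mask of a window
-/

namespace RelEqN.Small.Box

/-- ones at the distance `K` -/
def rep (K : ℕ) : ℕ → ℕ
  | 0 => 0
  | n + 1 => 2 ^ (K * n) * 1 + rep K n

lemma rep_lt {K : ℕ} (hK : 0 < K) (n : ℕ) : rep K n < 2 ^ (K * n) := by
  induction n with
  | zero => simp [rep]
  | succ n ih =>
    have h1 : 2 ^ (K * (n + 1)) = 2 ^ (K * n) * 2 ^ K := by rw [mul_add, mul_one, pow_add]
    have h2 : 2 ≤ 2 ^ K := by
      calc 2 = 2 ^ 1 := by norm_num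
        _ ≤ 2 ^ K := Nat.pow_le_pow_right (by norm_num) hK
    rw [rep, h1]
    nlinarith

lemma rep_add (K m n : ℕ) : rep K (m + n) = 2 ^ (K * m) * rep K n + rep K m := by
  induction n with
  | zero => simp [rep]
  | succ n ih =>
    rw [← add_assoc, rep, ih, rep, mul_add K m n, pow_add]
    ring

/-- cutting off the low part -/
lemma rep_shift {K : ℕ} (hK : 0 < K) (m n : ℕ) : rep K (m + n) >>> (K * m) = rep K n := by
  rw [rep_add, Nat.shiftRight_eq_div_pow, Nat.mul_add_div (by positivity),
    Nat.div_eq_of_lt (rep_lt hK m), add_zero]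

/-- the equation that characterises `rep` -/
lemma rep_mul {K : ℕ} (n : ℕ) : rep K n * (2 ^ K - 1) = 2 ^ (K * n) - 1 := by
  induction n with
  | zero => simp [rep]
  | succ n ih =>
    have h5 : 1 ≤ 2 ^ (K * n) := Nat.one_le_two_pow
    have h6 : 2 ^ (K * (n + 1)) = 2 ^ (K * n) * 2 ^ K := by rw [mul_add, mul_one, pow_add]
    rw [rep, add_mul, ih, mul_one, h6, Nat.mul_sub, mul_one]
    have : 2 ^ (K * n) ≤ 2 ^ (K * n) * 2 ^ K := Nat.le_mul_of_pos_right _ (by positivity)
    omega

lemma eq_rep {K n A : ℕ} (hK : 0 < K) (h : A * (2 ^ K - 1) = 2 ^ (K * n) - 1) :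
    A = rep K n := by
  have h2 : 1 < 2 ^ K := Nat.one_lt_two_pow hK.ne'
  apply Nat.eq_of_mul_eq_mul_right (show 0 < 2 ^ K - 1 by omega)
  rw [h, rep_mul]

lemma lane_zero' (L i : ℕ) : lane L 0 i = 0 := by unfold lane; simp

/-- lanes of a number repeated with the stride `S` -/
lemma lane_rep_mul {L S a n : ℕ} (hS : 0 < S) (ha : a < 2 ^ (L * S)) (i : ℕ) :
    lane L (a * rep (L * S) n) i = (if i / S < n then lane L a (i % S) else 0) ∧
      a * rep (L * S) n < 2 ^ (L * (S * n)) := by
  induction n with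
  | zero => simp [rep, lane_zero']
  | succ n ih =>
    have h1 : a * rep (L * S) (n + 1) = 2 ^ (L * (S * n)) * a + a * rep (L * S) n := by
      rw [rep, mul_add, ← mul_assoc L S n]; ring
    constructor
    · rw [h1, lane_append ih.2]
      by_cases hi : i < S * n
      · rw [if_pos hi, ih.1]
        have : i / S < n := Nat.div_lt_of_lt_mul hi
        rw [if_pos this, if_pos (by omega)]
      · rw [if_neg hi]
        by_cases h2 : i / S < n + 1
        · rw [if_pos h2]
          have h3 : i / S = n := by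
            have : n ≤ i / S := (Nat.le_div_iff_mul_le hS).2 (by rw [mul_comm]; omega)
            omega
          have h4 := Nat.div_add_mod i S
          rw [h3] at h4
          congr 1
          omega
        · rw [if_neg h2]
          have h3 : S * (n + 1) ≤ i := by
            rw [mul_comm]
            exact (Nat.le_div_iff_mul_le hS).1 (by omega)
          have h4 : S ≤ i - S * n := by
            rw [mul_add, mul_one] at h3
            omega
          rw [lane_eq_div, Nat.div_eq_of_lt, Nat.zero_mod]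
          calc a < 2 ^ (L * S) := ha
            _ ≤ 2 ^ (L * (i - S * n)) := Nat.pow_le_pow_right (by norm_num)
              (Nat.mul_le_mul_left _ h4)
    · rw [h1]
      have h2 : 2 ^ (L * (S * (n + 1))) = 2 ^ (L * (S * n)) * 2 ^ (L * S) := by
        rw [← pow_add]; congr 1; ring
      rw [h2]
      have h3 := ih.2
      have h4 : 2 ^ (L * (S * n)) * (a + 1) ≤ 2 ^ (L * (S * n)) * 2 ^ (L * S) :=
        Nat.mul_le_mul_left _ ha
      rw [mul_add, mul_one] at h4
      omega

/-- lanes of `rep` -/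
lemma lane_of_rep {L : ℕ} (hL : 0 < L) (n i : ℕ) :
    lane L (rep L n) i = if i < n then 1 else 0 := by
  induction n with
  | zero => simp [rep, lane_zero']
  | succ n ih =>
    have h2 : 1 < 2 ^ L := Nat.one_lt_two_pow hL.ne'
    rw [rep, lane_append (rep_lt hL n), ih]
    have h7 : ∀ j, lane L 1 j = if j = 0 then 1 else 0 := by
      intro j
      rw [lane_eq_div]
      split_ifs with h
      · subst h
        rw [mul_zero, pow_zero, Nat.div_one, Nat.mod_eq_of_lt h2]
      · rw [Nat.div_eq_of_lt, Nat.zero_mod]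
        exact Nat.one_lt_two_pow (Nat.mul_ne_zero hL.ne' h)
    rw [h7]
    split_ifs <;> omega

/-- a window: columns `< nx`, rows `< ny` -/
def InW (S nx ny i : ℕ) : Prop := i % S < nx ∧ i / S < ny

instance (S nx ny i : ℕ) : Decidable (InW S nx ny i) := by unfold InW; infer_instance

/-- **The ones of a window.** -/
lemma win_ones {L S nx ny : ℕ} (hL : 0 < L) (hS : 0 < S) (hx : nx ≤ S) (i : ℕ) :
    lane L (rep L nx * rep (L * S) ny) i = if InW S nx ny i then 1 else 0 := by
  have ha : rep L nx < 2 ^ (L * S) :=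
    lt_of_lt_of_le (rep_lt hL nx) (Nat.pow_le_pow_right (by norm_num) (Nat.mul_le_mul_left _ hx))
  rw [(lane_rep_mul hS ha i).1, lane_of_rep hL]
  unfold InW
  split_ifs <;> first | rfl | omega

lemma win_Ln {L S nx ny : ℕ} (hL : 0 < L) (hS : 0 < S) (hx : nx ≤ S) :
    Ln L (rep L nx * rep (L * S) ny) (fun i => if InW S nx ny i then 1 else 0) 1 where
  eq := win_ones hL hS hx
  le := fun i => by split_ifs <;> omega
  lt := Nat.one_lt_two_pow hL.ne'

/-- the mask of a window -/
lemma win_mask {L S nx ny : ℕ} (hL : 0 < L) (hS : 0 < S) (hx : nx ≤ S) (i : ℕ) :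
    lane L (rep L nx * rep (L * S) ny * (2 ^ L - 1)) i
      = if InW S nx ny i then 2 ^ L - 1 else 0 := by
  have h2 : 1 ≤ 2 ^ L := Nat.one_le_two_pow
  have h := (win_Ln (ny := ny) hL hS hx).mul' (c := 2 ^ L - 1) (by rw [mul_one]; omega)
  rw [h.eq]
  split_ifs <;> simp

end RelEqN.Small.Box
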