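import Pool.Agent.Lib.MP_b9e19b_mp.Box.Node

set_option autoImplicit false

/-!
# Soundness of the leaves and of the trees
-/

namespace RelEqN.Small.Box

open K Finset

/-! ### force leaves -/

lemma fld_lt_real (B v : ℕ) : fld B v < 65536 := fld_lt B v

/-- bound of a pair, first component -/
lemma pe_sound0 {N : ℕ} (hN : N ≤ 16) {x y : ℕ → ℝ} {EL EH rho : ℕ} (he : Ext N x y EL EH)
    (hr : 5000000 ≤ rho) {i k : ℕ} (hi : i < N) (hk : k < N) (hρ : (rho : ℝ) ≤ tt x y i k) :
    ((pe N rho EL EH 0 (32 * i) (32 * k) : ℕ) : ℝ)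
      ≤ 1125899906842624 + (N * ww x y i k - 8192) * (x i - x k) := by
  have h := pf_sound (N := N) (rho := rho) (A := fld EL (32 * i)) (B := fld EH (32 * i))
    (C := fld EL (32 * k)) (D := fld EH (32 * k)) (A' := fld EL (32 * i + 16))
    (B' := fld EH (32 * i + 16)) (C' := fld EL (32 * k + 16)) (D' := fld EH (32 * k + 16))
    (u := x i - x k) (v := y i - y k) hN (fld_lt _ _) (fld_lt _ _) (fld_lt _ _) (fld_lt _ _) hr
    (by linarith [he.xl i hi, he.xh k hk]) (by linarith [he.xh i hi, he.xl k hk])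
    (by linarith [he.yl i hi, he.yh k hk]) (by linarith [he.yh i hi, he.yl k hk]) hρ
  exact h

/-- bound of a pair, second component -/
lemma pe_sound1 {N : ℕ} (hN : N ≤ 16) {x y : ℕ → ℝ} {EL EH rho : ℕ} (he : Ext N x y EL EH)
    (hr : 5000000 ≤ rho) {i k : ℕ} (hi : i < N) (hk : k < N) (hρ : (rho : ℝ) ≤ tt x y i k) :
    ((pe N rho EL EH 16 (32 * i) (32 * k) : ℕ) : ℝ)
      ≤ 1125899906842624 + (N * ww x y i k - 8192) * (y i - y k) := by
  have e : (y i - y k) ^ 2 + (x i - x k) ^ 2 = tt x y i k := by unfold tt; ring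
  have h := pf_sound (N := N) (rho := rho) (A := fld EL (32 * i + 16)) (B := fld EH (32 * i + 16))
    (C := fld EL (32 * k + 16)) (D := fld EH (32 * k + 16)) (A' := fld EL (32 * i))
    (B' := fld EH (32 * i)) (C' := fld EL (32 * k)) (D' := fld EH (32 * k))
    (u := y i - y k) (v := x i - x k) hN (fld_lt _ _) (fld_lt _ _) (fld_lt _ _) (fld_lt _ _) hr
    (by linarith [he.yl i hi, he.yh k hk]) (by linarith [he.yh i hi, he.yl k hk])
    (by linarith [he.xl i hi, he.xh k hk]) (by linarith [he.xh i hi, he.xl k hk])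
    (by rw [e]; exact hρ)
  rw [e] at h
  exact h

/-- the pairs `(i, k)`, `b i`, `¬ b k` -/
def sl (N : ℕ) (b : ℕ → Bool) : List (ℕ × ℕ) :=
  ((List.range N).filter b).flatMap fun i => ((List.range N).filter fun k => !b k).map fun k =>
    (32 * i, 32 * k)

lemma list_filter_sum (N : ℕ) (b : ℕ → Bool) (f : ℕ → ℝ) :
    (((List.range N).filter b).map f).sum = ∑ i ∈ range N, if b i = true then f i else 0 := by
  induction N with
  | zero => simp
  | succ N ih =>
    rw [List.range_succ, List.filter_append, List.map_append, List.sum_append, ih,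
      Finset.sum_range_succ]
    congr 1
    by_cases h : b N = true
    · simp [h]
    · simp [h]

lemma list_flatMap_sum {α β : Type} (l : List α) (h : α → List β) (g : β → ℝ) :
    ((l.flatMap h).map g).sum = (l.map fun i => ((h i).map g).sum).sum := by
  induction l with
  | nil => simp
  | cons a l ih => simp [List.flatMap_cons, ih]

lemma sum_sl (N : ℕ) (b : ℕ → Bool) (g : ℕ × ℕ → ℝ) :
    ((sl N b).map g).sum = ∑ i ∈ (range N).filter (fun i => b i = true),
      ∑ k ∈ range N \ (range N).filter (fun i => b i = true), g (32 * i, 32 * k) := by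
  unfold sl
  rw [list_flatMap_sum, list_filter_sum, Finset.sum_filter]
  refine Finset.sum_congr rfl fun i _ => ?_
  split_ifs with h
  · rw [List.map_map, list_filter_sum, ← Finset.sum_filter]
    apply Finset.sum_congr
    · ext k
      simp only [mem_filter, mem_sdiff, mem_range]
      constructor
      · rintro ⟨h1, h2⟩
        refine ⟨h1, fun h3 => ?_⟩
        rw [h3.2] at h2
        exact absurd h2 (by simp)
      · rintro ⟨h1, h2⟩
        refine ⟨h1, ?_⟩
        rcases hb : b k with _ | _
        · rfl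
        · exact absurd ⟨h1, hb⟩ h2
    · intro k _; rfl
  · rfl

lemma length_prs (m w : ℕ) : (prs m w).length = m := by
  induction m generalizing w with
  | zero => rfl
  | succ m ih => simp [prs, ih]

/-- record number `s` of a table -/
def recd (F s : ℕ) : ℕ := Nat.land (Nat.shiftRight F (Nat.shiftLeft s 8))
  115792089237316195423570985008687907853269984665640564039457584007913129639935

/-- the table of the sets of bodies is correct -/
def GoodF (N F : ℕ) : Prop := ∀ s < 128,
  prs (Nat.land (recd F s) 255) (Nat.shiftRight (recd F s) 8) = if s < 2 ^ N then sl N s.testBit else []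

lemma mem_sl {N : ℕ} {b : ℕ → Bool} {p : ℕ × ℕ} (h : p ∈ sl N b) :
    ∃ i < N, ∃ k < N, b i = true ∧ b k = false ∧ p = (32 * i, 32 * k) := by
  unfold sl at h
  simp only [List.mem_flatMap, List.mem_filter, List.mem_range, List.mem_map] at h
  obtain ⟨i, ⟨hi, hbi⟩, k, ⟨hk, hbk⟩, hp⟩ := h
  refine ⟨i, hi, k, hk, hbi, ?_, hp.symm⟩
  simpa using hbk

lemma cast_list_sum {α : Type} (l : List α) (g : α → ℕ) :
    (((l.map g).sum : ℕ) : ℝ) = (l.map fun a => (g a : ℝ)).sum := by
  induction l with
  | nil => simp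
  | cons a l ih => simp [ih]

lemma list_sum_le {α : Type} (l : List α) (g h : α → ℝ) (H : ∀ a ∈ l, g a ≤ h a) :
    (l.map g).sum ≤ (l.map h).sum := by
  induction l with
  | nil => simp
  | cons a l ih =>
    simp only [List.map_cons, List.sum_cons]
    have h1 := H a (by simp)
    have h2 := ih fun b hb => H b (by simp [hb])
    linarith

lemma list_sum_const_add {α : Type} (l : List α) (c : ℝ) (h : α → ℝ) :
    (l.map fun a => c + h a).sum = l.length * c + (l.map h).sum := by
  induction l with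
  | nil => simp
  | cons a l ih =>
    simp only [List.map_cons, List.sum_cons, List.length_cons, ih]
    push_cast; ring

lemma ft_aux {N : ℕ} {x y z : ℕ → ℝ} {b : ℕ → Bool}
    (hf : ∀ i < N, ∑ k ∈ range N, (N * ww x y i k - 8192) * (z i - z k) = 0) (g : ℕ × ℕ → ℕ)
    (hg : ∀ i < N, ∀ k < N, i ≠ k → ((g (32 * i, 32 * k) : ℕ) : ℝ) ≤
      1125899906842624 + (N * ww x y i k - 8192) * (z i - z k))
    (h2 : (sl N b).length * 1125899906842624 + 1 ≤ ((sl N b).map g).sum) : False := by
  have h3 : ((((sl N b).length * 1125899906842624 + 1 : ℕ)) : ℝ)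
      ≤ ((((sl N b).map g).sum : ℕ) : ℝ) := Nat.cast_le.2 h2
  rw [cast_list_sum] at h3
  have h4 := list_sum_le (sl N b) (fun p => ((g p : ℕ) : ℝ))
    (fun p => 1125899906842624 + (fun p : ℕ × ℕ => (N * ww x y (p.1 / 32) (p.2 / 32) - 8192) *
      (z (p.1 / 32) - z (p.2 / 32))) p) (by
      intro p hp
      obtain ⟨i, hi, k, hk, hbi, hbk, rfl⟩ := mem_sl hp
      have hik : i ≠ k := by
        rintro rfl
        rw [hbi] at hbk; exact absurd hbk (by simp)
      have := hg i hi k hk hik
      simpa using this)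
  rw [list_sum_const_add] at h4
  have h5 := force_set hf ((range N).filter fun i => b i = true) (Finset.filter_subset _ _)
  have h7 := sum_sl N b (fun p : ℕ × ℕ => (N * ww x y (p.1 / 32) (p.2 / 32) - 8192) *
      (z (p.1 / 32) - z (p.2 / 32)))
  have h6 : ∑ i ∈ (range N).filter (fun i => b i = true),
      ∑ k ∈ range N \ (range N).filter (fun i => b i = true),
        (fun p : ℕ × ℕ => (N * ww x y (p.1 / 32) (p.2 / 32) - 8192) *
          (z (p.1 / 32) - z (p.2 / 32))) (32 * i, 32 * k) = 0 := by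
    rw [← h5]
    refine Finset.sum_congr rfl fun i _ => Finset.sum_congr rfl fun k _ => ?_
    simp only
    rw [Nat.mul_div_cancel_left i (by norm_num), Nat.mul_div_cancel_left k (by norm_num)]
  rw [h6] at h7
  rw [h7] at h4
  push_cast at h3
  linarith

/-- the force leaf -/
theorem ft_sound {N : ℕ} (hN : N ≤ 16) {x y : ℕ → ℝ} (h : Cfg N x y) {EL EH rho F : ℕ}
    (he : Ext N x y EL EH) (hr : 5000000 ≤ rho)
    (hρ : ∀ i < N, ∀ k < N, i ≠ k → (rho : ℝ) ≤ tt x y i k) (hF : GoodF N F) (s c : ℕ)
    (hs : s < 128) (hc : c = 0 ∨ c = 16) (H : ft N rho EL EH c (recd F s) = true) : False := by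
  have h1 := Nat.le_of_ble_eq_true H
  rw [fs_eq] at h1
  have hlen := length_prs (Nat.land (recd F s) 255) (Nat.shiftRight (recd F s) 8)
  have hl := hF s hs
  generalize prs (Nat.land (recd F s) 255) (Nat.shiftRight (recd F s) 8) = l at h1 hlen hl
  rw [← hlen] at h1
  have h2 : l.length * 1125899906842624 + 1 ≤ (l.map fun p => pe N rho EL EH c p.1 p.2).sum := by
    refine le_trans (le_of_eq ?_) h1
    show _ = (l.length <<< 50) + 1
    rw [Nat.shiftLeft_eq]
  clear h1 hlen
  split_ifs at hl with hsN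
  · subst hl
    rcases hc with rfl | rfl
    · exact ft_aux h.fx _ (fun i hi k hk hik => pe_sound0 hN he hr hi hk (hρ i hi k hk hik)) h2
    · exact ft_aux h.fy _ (fun i hi k hk hik => pe_sound1 hN he hr hi hk (hρ i hi k hk hik)) h2
  · subst hl
    simp at h2

/-! ### distance and trace leaves -/

/-- upper bound of the squared distance -/
lemma th_sound {N : ℕ} {x y : ℕ → ℝ} {EL EH : ℕ} (he : Ext N x y EL EH) {i k : ℕ} (hi : i < N)
    (hk : k < N) : tt x y i k ≤ ((th EL EH (32 * i) (32 * k) : ℕ) : ℝ) := by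
  have e : th EL EH (32 * i) (32 * k)
      = max (fld EH (32 * k) - fld EL (32 * i)) (fld EH (32 * i) - fld EL (32 * k))
        * max (fld EH (32 * k) - fld EL (32 * i)) (fld EH (32 * i) - fld EL (32 * k))
      + max (fld EH (32 * k + 16) - fld EL (32 * i + 16)) (fld EH (32 * i + 16) - fld EL (32 * k + 16))
        * max (fld EH (32 * k + 16) - fld EL (32 * i + 16))
          (fld EH (32 * i + 16) - fld EL (32 * k + 16)) := by
    rw [← mx_eq, ← mx_eq]; rfl
  rw [e]
  have key : ∀ (z : ℝ) (a b c d : ℕ), z ≤ (a : ℝ) - b → -((c : ℝ) - d) ≤ z →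
      z ^ 2 ≤ ((max (c - d) (a - b) * max (c - d) (a - b) : ℕ) : ℝ) := by
    intro z a b c d h1 h2
    have h3 : |z| ≤ ((max (c - d) (a - b) : ℕ) : ℝ) := by
      rw [Nat.cast_max, natsub, natsub]
      apply abs_le'.2
      constructor
      · exact h1.trans ((le_max_left _ _).trans (le_max_right _ _))
      · exact le_trans (by linarith) ((le_max_left ((c : ℝ) - d) 0).trans (le_max_left _ _))
    rw [Nat.cast_mul, ← sq, ← sq_abs z]
    gcongr
  unfold tt
  rw [Nat.cast_add]
  apply add_le_add
  · exact key _ _ _ _ _ (by linarith [he.xh i hi, he.xl k hk]) (by linarith [he.xl i hi, he.xh k hk])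
  · exact key _ _ _ _ _ (by linarith [he.yh i hi, he.yl k hk]) (by linarith [he.yl i hi, he.yh k hk])

lemma sum_allPairs (N : ℕ) (g : ℕ × ℕ → ℝ) :
    ((allPairs N).map g).sum = ∑ i ∈ range N, ∑ k ∈ range N,
      if i < k then g (32 * i, 32 * k) else 0 := by
  unfold allPairs
  rw [list_flatMap_sum]
  have e : (List.range N).map (fun i => (List.map g (((List.range N).filter fun k => i < k).map
      fun k => (32 * i, 32 * k))).sum)
      = ((List.range N).filter (fun _ => true)).map (fun i => (List.map g (((List.range N).filter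
        fun k => i < k).map fun k => (32 * i, 32 * k))).sum) := by simp
  rw [e, list_filter_sum]
  refine Finset.sum_congr rfl fun i _ => ?_
  rw [if_pos rfl, List.map_map, list_filter_sum]
  refine Finset.sum_congr rfl fun k _ => ?_
  simp

lemma Th_eq_pairs (N : ℕ) (x y : ℕ → ℝ) : Th N x y = 2 * ∑ i ∈ range N, ∑ k ∈ range N,
      if i < k then ww x y i k else 0 := by
  have h1 : ∑ i ∈ range N, ∑ k ∈ range N, (if k < i then ww x y i k else 0)
      = ∑ i ∈ range N, ∑ k ∈ range N, (if i < k then ww x y i k else 0) := by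
    rw [Finset.sum_comm]
    refine Finset.sum_congr rfl fun i _ => Finset.sum_congr rfl fun k _ => ?_
    rw [ww_comm]
  have h2 : Th N x y = ∑ i ∈ range N, ∑ k ∈ range N,
      ((if i < k then ww x y i k else 0) + (if k < i then ww x y i k else 0)) := by
    unfold Th
    refine Finset.sum_congr rfl fun i _ => Finset.sum_congr rfl fun k _ => ?_
    rcases lt_trichotomy i k with h | h | h
    · simp [h, not_lt.2 h.le]
    · subst h; simp [ww_self]
    · simp [h, not_lt.2 h.le]
  rw [h2]
  simp only [Finset.sum_add_distrib]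
  rw [h1]; ring

lemma mem_allPairs {N : ℕ} {p : ℕ × ℕ} (h : p ∈ allPairs N) :
    ∃ i < N, ∃ k < N, i < k ∧ p = (32 * i, 32 * k) := by
  unfold allPairs at h
  simp only [List.mem_flatMap, List.mem_filter, List.mem_range, List.mem_map] at h
  obtain ⟨i, hi, k, ⟨hk, hik⟩, hp⟩ := h
  exact ⟨i, hi, k, hk, by simpa using hik, hp.symm⟩

/-- the trace leaf -/
theorem ts_sound {N : ℕ} {x y : ℕ → ℝ} (h : Cfg N x y) {EL EH rho P w : ℕ}
    (he : Ext N x y EL EH) (hr : 5000000 ≤ rho)
    (hρ : ∀ i < N, ∀ k < N, i ≠ k → (rho : ℝ) ≤ tt x y i k) (hw : prs P w = allPairs N) :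
    ((2 * ts EL EH P w : ℕ) : ℝ) ≤ 8192 * (2 * N - 3) := by
  refine le_trans ?_ h.tr
  rw [ts_eq, hw, Nat.cast_mul, cast_list_sum, Th_eq_pairs]
  have h1 := list_sum_le (allPairs N) (fun p => ((wlo (th EL EH p.1 p.2) : ℕ) : ℝ))
    (fun p => ww x y (p.1 / 32) (p.2 / 32)) (by
      intro p hp
      obtain ⟨i, hi, k, hk, hik, rfl⟩ := mem_allPairs hp
      simp only
      rw [Nat.mul_div_cancel_left i (by norm_num), Nat.mul_div_cancel_left k (by norm_num)]
      apply tab.lo _ _ _ (th_sound he hi hk)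
      have := hρ i hi k hk hik.ne
      have h5 : (5000000 : ℝ) ≤ rho := by exact_mod_cast hr
      linarith)
  have h2 := sum_allPairs N (fun p => ww x y (p.1 / 32) (p.2 / 32))
  have h3 : ∑ i ∈ range N, ∑ k ∈ range N, (if i < k then (fun p : ℕ × ℕ =>
      ww x y (p.1 / 32) (p.2 / 32)) (32 * i, 32 * k) else 0)
      = ∑ i ∈ range N, ∑ k ∈ range N, if i < k then ww x y i k else 0 := by
    refine Finset.sum_congr rfl fun i _ => Finset.sum_congr rfl fun k _ => ?_
    simp only
    rw [Nat.mul_div_cancel_left i (by norm_num), Nat.mul_div_cancel_left k (by norm_num)]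
  rw [h2, h3] at h1
  push_cast
  linarith

end RelEqN.Small.Box
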