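import Pool.Agent.Lib.MP_b9e19b_mp.Box.Force

set_option autoImplicit false

/-!
# Boxes, and the soundness of the leaves (except `p4`)
-/

namespace RelEqN.Small.Box

open K Finset

/-- coordinate number `v` of a configuration -/
noncomputable def co (x y : ℕ → ℝ) (v : ℕ) : ℝ :=
  if v = 0 then x 1 else if v % 2 = 1 then x ((v + 3) / 2) + 32768 else y ((v + 2) / 2) + 32768

/-- the configuration lies in the box -/
def InBox (N Lo Hi : ℕ) (x y : ℕ → ℝ) : Prop :=
  ∀ v < 2 * N - 3, (fld Lo (16 * v) : ℝ) ≤ co x y v ∧ co x y v ≤ (fld Hi (16 * v) : ℝ)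

/-- the box contains no configuration -/
def NoCfg (N Lo Hi : ℕ) : Prop := ∀ x y : ℕ → ℝ, Cfg N x y → ¬ InBox N Lo Hi x y

lemma co_zero (x y : ℕ → ℝ) : co x y 0 = x 1 := by simp [co]

lemma co_x (x y : ℕ → ℝ) (k : ℕ) : co x y (2 * k + 1) = x (k + 2) + 32768 := by
  unfold co
  rw [if_neg (by omega), if_pos (by omega)]
  congr 2; omega

lemma co_y (x y : ℕ → ℝ) (k : ℕ) : co x y (2 * k + 2) = y (k + 2) + 32768 := by
  unfold co
  rw [if_neg (by omega), if_neg (by omega)]
  congr 2; omega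

/-- splitting a box -/
lemma nocfg_split {N Lo Hi c : ℕ} (v : ℕ) (hc : c < 65536)
    (h1 : NoCfg N Lo (setf Hi (16 * v) c)) (h2 : NoCfg N (setf Lo (16 * v) c) Hi) :
    NoCfg N Lo Hi := by
  intro x y hC hB
  rcases le_total (co x y v) c with h | h
  · refine h1 x y hC fun w hw => ⟨(hB w hw).1, ?_⟩
    rw [fld_setf _ _ hc]
    split_ifs with e
    · rw [e]; exact h
    · exact (hB w hw).2
  · refine h2 x y hC fun w hw => ⟨?_, (hB w hw).2⟩
    rw [fld_setf _ _ hc]
    split_ifs with e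
    · rw [e]; exact h
    · exact (hB w hw).1

/-! ### the extended box -/

lemma cfg_x1_lt {N : ℕ} {x y : ℕ → ℝ} (hN : 4 ≤ N) (hN7 : N ≤ 7) (h : Cfg N x y) :
    x 1 < 32767 := by
  have h1 := h.bd 1 (by omega) 1 (by norm_num)
  have h2 : (N : ℝ) ≤ 7 := by exact_mod_cast hN7
  have h0 : (4 : ℝ) ≤ N := by exact_mod_cast hN
  have h3 : x 1 ^ 2 ≤ 2 ^ 23 * (11 / 2 + 42) := by
    have : (N : ℝ) * (N - 1) ≤ 42 := by nlinarith
    nlinarith [sq_nonneg (y 1)]
  by_contra h4
  have h5 : (32767 : ℝ) ^ 2 ≤ x 1 ^ 2 := by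
    have := not_lt.1 h4
    gcongr
  norm_num at h3 h5
  linarith

lemma fld_pack (f0 f1 f2 f3 R : ℕ) (h0 : f0 < 65536) (h1 : f1 < 65536) (h2 : f2 < 65536)
    (h3 : f3 < 65536) :
    fld (f0 + (f1 * 65536 + (f2 * 4294967296 + (f3 * 281474976710656 + R * 18446744073709551616)))) 0
      = f0 ∧
    fld (f0 + (f1 * 65536 + (f2 * 4294967296 + (f3 * 281474976710656 + R * 18446744073709551616)))) 16
      = f1 ∧
    fld (f0 + (f1 * 65536 + (f2 * 4294967296 + (f3 * 281474976710656 + R * 18446744073709551616)))) 32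
      = f2 ∧
    fld (f0 + (f1 * 65536 + (f2 * 4294967296 + (f3 * 281474976710656 + R * 18446744073709551616)))) 48
      = f3 ∧
    ∀ w, fld (f0 + (f1 * 65536 + (f2 * 4294967296 + (f3 * 281474976710656 +
      R * 18446744073709551616)))) (64 + w) = fld R w := by
  simp only [fld_eq]
  refine ⟨?_, ?_, ?_, ?_, ?_⟩
  · rw [Nat.shiftRight_eq_div_pow]; norm_num; omega
  · rw [Nat.shiftRight_eq_div_pow]; norm_num; omega
  · rw [Nat.shiftRight_eq_div_pow]; norm_num; omega
  · rw [Nat.shiftRight_eq_div_pow]; norm_num; omega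
  · intro w
    rw [Nat.shiftRight_add, Nat.shiftRight_eq_div_pow _ 64]
    have : (f0 + (f1 * 65536 + (f2 * 4294967296 + (f3 * 281474976710656 +
        R * 18446744073709551616)))) / 2 ^ 64 = R := by norm_num; omega
    rw [this]

lemma ext1_eq (Lo Hi : ℕ) : ext1 Lo Hi = (32768 - fld Hi 0) + (32768 * 65536 +
    ((32768 + fld Lo 0) * 4294967296 + (32768 * 281474976710656 +
      (Lo >>> 16) * 18446744073709551616))) := by
  show (32768 - fld Hi 0) + (2147483648 + (((32768 + fld Lo 0) <<< 32) + (9223372036854775808 +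
      ((Lo >>> 16) <<< 64)))) = _
  rw [Nat.shiftLeft_eq, Nat.shiftLeft_eq]

lemma ext2_eq (Lo Hi : ℕ) : K.ext2 Lo Hi = (32768 - fld Lo 0) + (32768 * 65536 +
    ((32768 + min (fld Hi 0) 32767) * 4294967296 + (32768 * 281474976710656 +
      (Hi >>> 16) * 18446744073709551616))) := by
  rw [← mn_eq]
  show (32768 - fld Lo 0) + (2147483648 + (((32768 + mn (fld Hi 0) 32767) <<< 32) +
      (9223372036854775808 + ((Hi >>> 16) <<< 64)))) = _
  rw [Nat.shiftLeft_eq, Nat.shiftLeft_eq]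

lemma fld_shift (B w : ℕ) : fld (B >>> 16) w = fld B (16 + w) := by
  rw [fld_eq, fld_eq, Nat.shiftRight_add]

/-- the extended box -/
lemma ext_of_box {N : ℕ} (hN : 4 ≤ N) (hN7 : N ≤ 7) {x y : ℕ → ℝ} (h : Cfg N x y) {Lo Hi : ℕ}
    (hB : InBox N Lo Hi x y) : Ext N x y (K.ext1 Lo Hi) (K.ext2 Lo Hi) := by
  have hx1 := cfg_x1_lt hN hN7 h
  have hb0 := hB 0 (by omega)
  rw [co_zero, mul_zero] at hb0
  have hlo : fld Lo 0 < 32767 := by
    have : (fld Lo 0 : ℝ) < 32767 := lt_of_le_of_lt hb0.1 hx1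
    exact_mod_cast this
  obtain ⟨p0, p1, p2, p3, pw⟩ := fld_pack (32768 - fld Hi 0) 32768 (32768 + fld Lo 0) 32768
    (Lo >>> 16) (by omega) (by norm_num) (by omega) (by norm_num)
  obtain ⟨r0, r1, r2, r3, rw'⟩ := fld_pack (32768 - fld Lo 0) 32768
    (32768 + min (fld Hi 0) 32767) 32768 (Hi >>> 16) (by omega) (by norm_num) (by omega)
    (by norm_num)
  rw [← ext1_eq] at p0 p1 p2 p3 pw
  rw [← ext2_eq] at r0 r1 r2 r3 rw'
  have hcases : ∀ i < N, i = 0 ∨ i = 1 ∨ ∃ k, i = k + 2 ∧ k + 2 < N := by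
    intro i hi
    rcases i with _ | _ | k
    · left; rfl
    · right; left; rfl
    · right; right; exact ⟨k, rfl, hi⟩
  have hX : ∀ k, k + 2 < N → (fld Lo (16 * (2 * k + 1)) : ℝ) ≤ x (k + 2) + 32768 ∧
      x (k + 2) + 32768 ≤ (fld Hi (16 * (2 * k + 1)) : ℝ) := by
    intro k hk
    have := hB (2 * k + 1) (by omega)
    rwa [co_x] at this
  have hY : ∀ k, k + 2 < N → (fld Lo (16 * (2 * k + 2)) : ℝ) ≤ y (k + 2) + 32768 ∧
      y (k + 2) + 32768 ≤ (fld Hi (16 * (2 * k + 2)) : ℝ) := by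
    intro k hk
    have := hB (2 * k + 2) (by omega)
    rwa [co_y] at this
  constructor
  · intro i hi
    rcases hcases i hi with rfl | rfl | ⟨k, rfl, hk⟩
    · rw [mul_zero, p0, natsub, h.x0]
      apply max_le
      · push_cast; linarith [hb0.2]
      · linarith
    · rw [mul_one, p2]; push_cast; linarith [hb0.1]
    · rw [show 32 * (k + 2) = 64 + 32 * k by ring, pw, fld_shift,
        show 16 + 32 * k = 16 * (2 * k + 1) by ring]
      exact (hX k hk).1
  · intro i hi
    rcases hcases i hi with rfl | rfl | ⟨k, rfl, hk⟩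
    · rw [mul_zero, r0, natsub, h.x0]
      apply le_trans _ (le_max_left _ _)
      push_cast; linarith [hb0.1]
    · rw [mul_one, r2]; push_cast
      have : x 1 ≤ min ((fld Hi 0 : ℕ) : ℝ) 32767 := le_min hb0.2 hx1.le
      linarith
    · rw [show 32 * (k + 2) = 64 + 32 * k by ring, rw', fld_shift,
        show 16 + 32 * k = 16 * (2 * k + 1) by ring]
      exact (hX k hk).2
  · intro i hi
    rcases hcases i hi with rfl | rfl | ⟨k, rfl, hk⟩
    · rw [show 32 * 0 + 16 = 16 by norm_num, p1, h.y0]; norm_num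
    · rw [show 32 * 1 + 16 = 48 by norm_num, p3, h.y1]; norm_num
    · rw [show 32 * (k + 2) + 16 = 64 + (32 * k + 16) by ring, pw, fld_shift,
        show 16 + (32 * k + 16) = 16 * (2 * k + 2) by ring]
      exact (hY k hk).1
  · intro i hi
    rcases hcases i hi with rfl | rfl | ⟨k, rfl, hk⟩
    · rw [show 32 * 0 + 16 = 16 by norm_num, r1, h.y0]; norm_num
    · rw [show 32 * 1 + 16 = 48 by norm_num, r3, h.y1]; norm_num
    · rw [show 32 * (k + 2) + 16 = 64 + (32 * k + 16) by ring, rw', fld_shift,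
        show 16 + (32 * k + 16) = 16 * (2 * k + 2) by ring]
      exact (hY k hk).2

/-- the smallest distance -/
lemma rh_spec {N : ℕ} (hN : 4 ≤ N) (hN7 : N ≤ 7) {x y : ℕ → ℝ} (h : Cfg N x y) {Lo Hi : ℕ}
    (hB : InBox N Lo Hi x y) : 5000000 ≤ rh Lo ∧
      ∀ i < N, ∀ k < N, i ≠ k → ((rh Lo : ℕ) : ℝ) ≤ tt x y i k := by
  have e : rh Lo = max 5000000 (4 * (fld Lo 0 * fld Lo 0)) := by
    unfold rh
    rw [mx_eq]
    rfl
  rw [e]
  have hb0 := (hB 0 (by omega)).1
  rw [co_zero, mul_zero] at hb0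
  clear hB e
  generalize fld Lo 0 = f at hb0
  clear Lo Hi
  refine ⟨le_max_left _ _, ?_⟩
  have h0 := h.apos
  have h01 : (0 : ℝ) ≤ (f : ℝ) := Nat.cast_nonneg f
  -- a lower bound of `a`
  have ha : (5000000 : ℝ) ≤ (2 * x 1) ^ 2 := by
    by_contra hcon
    have hcon' := not_le.1 hcon
    -- w01 > 11/2 * 8192
    have hpos : (0 : ℝ) < (2 * x 1) ^ 2 := by positivity
    have hw : (11 / 2 * 8192 : ℝ) < ww x y 0 1 := by
      unfold ww
      have ht : tt x y 0 1 = (2 * x 1) ^ 2 := by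
        unfold tt; rw [h.x0, h.y0, h.y1]; ring
      rw [ht]
      have h5 : W 5000000 ≤ W ((2 * x 1) ^ 2) := W_anti hpos hcon'.le
      have h6 : (45500 : ℝ) ≤ 2 ^ 49 * W 5000000 := by
        apply le_W (by norm_num) (by norm_num)
        norm_num
      nlinarith
    have hT : 2 * ww x y 0 1 ≤ Th N x y := by
      unfold Th
      have hsub : ∑ i ∈ range N, ∑ k ∈ range N, ww x y i k
          ≥ (∑ k ∈ range N, ww x y 0 k) + ∑ k ∈ range N, ww x y 1 k := by
        rw [ge_iff_le, ← Finset.sum_pair (f := fun i => ∑ k ∈ range N, ww x y i k)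
          (show (0 : ℕ) ≠ 1 by norm_num)]
        apply Finset.sum_le_sum_of_subset_of_nonneg
        · intro i hi
          simp only [mem_insert, mem_singleton] at hi
          rw [mem_range]; omega
        · intro i _ _
          exact Finset.sum_nonneg fun k _ => ww_nonneg x y i k
      have h7 : ww x y 0 1 ≤ ∑ k ∈ range N, ww x y 0 k :=
        Finset.single_le_sum (f := fun k => ww x y 0 k) (fun k _ => ww_nonneg x y 0 k)
          (mem_range.2 (by omega))
      have h8 : ww x y 1 0 ≤ ∑ k ∈ range N, ww x y 1 k :=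
        Finset.single_le_sum (f := fun k => ww x y 1 k) (fun k _ => ww_nonneg x y 1 k)
          (mem_range.2 (by omega))
      have h9 := ww_comm x y 0 1
      linarith
    have hM := h.tr
    have h2 : (N : ℝ) ≤ 7 := by exact_mod_cast hN7
    linarith
  intro i hi k hk hik
  refine le_trans ?_ (h.clo i hi k hk hik)
  rw [Nat.cast_max]
  apply max_le
  · exact_mod_cast ha
  · push_cast
    nlinarith [hb0]

end RelEqN.Small.Box
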