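import Pool.Agent.Lib.MP_b9e19b_mp.Box.Cfg

set_option autoImplicit false

/-!
# The test with the fourth coefficient: bounds of `Ph` from bounds for every pair

`M = 2 N - 3`. The pair `(i, k)` contributes `20 w² - 196608 w`, the body `j` contributes
`d_j² + 9 |c_j|²`, where `d_j` is the sum of the weights at `j` and `c_j` the sum of `w u²`.
-/

namespace RelEqN.Small.Box

open Finset

/-! ### the identity -/

/-- a symmetric double sum with zero diagonal -/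
lemma sum_pairs_symm (N : ℕ) (f : ℕ → ℕ → ℝ) (hs : ∀ i k, f i k = f k i) (h0 : ∀ i, f i i = 0) :
    ∑ i ∈ range N, ∑ k ∈ range N, f i k = 2 * ∑ i ∈ range N, ∑ k ∈ range i, f i k := by
  induction N with
  | zero => simp
  | succ N ih =>
    rw [Finset.sum_range_succ, Finset.sum_range_succ (fun i => ∑ k ∈ range i, f i k),
      Finset.sum_range_succ (fun k => f N k)]
    have h1 : ∑ i ∈ range N, ∑ k ∈ range (N + 1), f i k
        = ∑ i ∈ range N, ∑ k ∈ range N, f i k + ∑ k ∈ range N, f N k := by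
      rw [← Finset.sum_add_distrib]
      refine Finset.sum_congr rfl fun i _ => ?_
      rw [Finset.sum_range_succ, hs i N]
    rw [h1, ih, h0 N]
    ring

/-- contribution of a pair -/
def ff (w : ℝ) : ℝ := 20 * w ^ 2 - 196608 * w

/-- sum of the weights at a body -/
noncomputable def dS (N : ℕ) (x y : ℕ → ℝ) (i : ℕ) : ℝ := ∑ k ∈ range N, ww x y i k

noncomputable def cRS (N : ℕ) (x y : ℕ → ℝ) (i : ℕ) : ℝ := ∑ k ∈ range N, wR x y i k

noncomputable def cIS (N : ℕ) (x y : ℕ → ℝ) (i : ℕ) : ℝ := ∑ k ∈ range N, wI x y i k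

lemma Ph_pairs (N : ℕ) (x y : ℕ → ℝ) :
    Ph N x y = 2 ^ 27 * (2 * N - 3) + ∑ i ∈ range N, ∑ k ∈ range i, ff (ww x y i k)
      + ∑ i ∈ range N, (dS N x y i ^ 2 + 9 * (cRS N x y i ^ 2 + cIS N x y i ^ 2)) := by
  have h1 := sum_pairs_symm N (fun i k => 10 * ww x y i k ^ 2 - 98304 * ww x y i k)
    (fun i k => by simp only [ww_comm x y i k]) (fun i => by simp only [ww_self]; norm_num)
  have h2 : ∑ i ∈ range N, ∑ k ∈ range N, (10 * ww x y i k ^ 2 - 98304 * ww x y i k)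
      = 10 * ∑ i ∈ range N, ∑ k ∈ range N, ww x y i k ^ 2 - 98304 * Th N x y := by
    unfold Th
    simp only [Finset.sum_sub_distrib, Finset.mul_sum]
  have h3 : 2 * ∑ i ∈ range N, ∑ k ∈ range i, (10 * ww x y i k ^ 2 - 98304 * ww x y i k)
      = ∑ i ∈ range N, ∑ k ∈ range i, ff (ww x y i k) := by
    rw [Finset.mul_sum]
    refine Finset.sum_congr rfl fun i _ => ?_
    rw [Finset.mul_sum]
    refine Finset.sum_congr rfl fun k _ => ?_
    unfold ff; ring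
  have h4 : ∑ i ∈ range N, (dS N x y i ^ 2 + 9 * (cRS N x y i ^ 2 + cIS N x y i ^ 2))
      = ∑ i ∈ range N, (∑ k ∈ range N, ww x y i k) ^ 2
        + 9 * ∑ i ∈ range N, ((∑ k ∈ range N, wR x y i k) ^ 2
          + (∑ k ∈ range N, wI x y i k) ^ 2) := by
    rw [Finset.mul_sum, ← Finset.sum_add_distrib]
    rfl
  unfold Ph
  rw [h4, ← h3, ← h1, h2]
  ring

lemma Th_pairs (N : ℕ) (x y : ℕ → ℝ) :
    Th N x y = 2 * ∑ i ∈ range N, ∑ k ∈ range i, ww x y i k :=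
  sum_pairs_symm N (ww x y) (ww_comm x y) (ww_self x y)

lemma wR_comm (x y : ℕ → ℝ) (i k : ℕ) : wR x y i k = wR x y k i := by
  unfold wR
  rw [ww_comm x y i k, tt_comm x y i k]
  ring

lemma wI_comm (x y : ℕ → ℝ) (i k : ℕ) : wI x y i k = wI x y k i := by
  unfold wI
  rw [ww_comm x y i k, tt_comm x y i k]
  ring

lemma wR_self (x y : ℕ → ℝ) (i : ℕ) : wR x y i i = 0 := by
  unfold wR; rw [ww_self, zero_mul]

lemma wI_self (x y : ℕ → ℝ) (i : ℕ) : wI x y i i = 0 := by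
  unfold wI; rw [ww_self, zero_mul]

/-! ### the function of a pair -/

/-- the quadratic function on an interval is at most its larger value at the end points -/
lemma ff_le_max {l h w : ℝ} (h1 : l ≤ w) (h2 : w ≤ h) : ff w ≤ max (ff l) (ff h) := by
  unfold ff
  by_contra hc
  rw [not_le, max_lt_iff] at hc
  obtain ⟨ha, hb⟩ := hc
  rcases eq_or_lt_of_le h1 with e | e
  · rw [e] at ha; exact lt_irrefl _ ha
  rcases eq_or_lt_of_le h2 with e' | e'
  · rw [e'] at hb; exact lt_irrefl _ hb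
  have h3 : 0 < (w - l) * (20 * (w + l) - 196608) := by nlinarith
  have h4 : (h - w) * (20 * (h + w) - 196608) < 0 := by nlinarith
  have h5 : 0 < 20 * (w + l) - 196608 := by
    by_contra hn
    have : (w - l) * (20 * (w + l) - 196608) ≤ 0 :=
      mul_nonpos_of_nonneg_of_nonpos (by linarith) (by linarith)
    linarith
  have h6 : 0 ≤ (h - w) * (20 * (h + w) - 196608) :=
    mul_nonneg (by linarith) (by linarith)
  linarith

/-- the global lower bound -/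
lemma ff_ge_glob (w : ℝ) : -483183821 ≤ ff w := by
  unfold ff
  nlinarith [sq_nonneg (40 * w - 196608)]

/-- lower bound away from the vertex -/
lemma ff_ge_min {l h : ℕ} {w : ℝ} (h1 : (l : ℝ) ≤ w) (h2 : w ≤ h) (hv : ¬ (l ≤ 4915 ∧ 4915 ≤ h)) :
    min (ff l) (ff h) ≤ ff w := by
  rcases Nat.lt_or_ge 4915 l with hl | hl
  · refine (min_le_left _ _).trans ?_
    have : (4916 : ℝ) ≤ l := by exact_mod_cast hl
    unfold ff
    nlinarith
  · have hh : h < 4915 := by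
      by_contra hn
      exact hv ⟨hl, by omega⟩
    refine (min_le_right _ _).trans ?_
    have : (h : ℝ) ≤ 4914 := by exact_mod_cast (by omega : h ≤ 4914)
    unfold ff
    nlinarith

/-! ### the weights of the angular parts -/

lemma w5_lo {w t : ℝ} {wl th : ℕ} (ht : 0 < t) (h1 : (wl : ℝ) ≤ w) (h2 : t ≤ th) :
    ((wl * 2 ^ 24 / th : ℕ) : ℝ) ≤ 2 ^ 24 * w / t := by
  have hth : (0 : ℝ) < th := lt_of_lt_of_le ht h2
  calc ((wl * 2 ^ 24 / th : ℕ) : ℝ) ≤ ((wl * 2 ^ 24 : ℕ) : ℝ) / th := Nat.cast_div_le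
    _ = 2 ^ 24 * (wl : ℝ) / th := by push_cast; ring
    _ ≤ 2 ^ 24 * w / t := by
      have hw : 0 ≤ w := le_trans (Nat.cast_nonneg _) h1
      gcongr

lemma w5_hi {w t : ℝ} {wh tl : ℕ} (htl : 0 < tl) (h1 : w ≤ wh) (h2 : (tl : ℝ) ≤ t) :
    2 ^ 24 * w / t ≤ ((wh * 2 ^ 24 / tl + 1 : ℕ) : ℝ) := by
  have htl' : (0 : ℝ) < tl := by exact_mod_cast htl
  have h3 : (wh * 2 ^ 24 : ℕ) < (wh * 2 ^ 24 / tl + 1) * tl := by
    have := Nat.lt_div_mul_add htl (a := wh * 2 ^ 24)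
    calc wh * 2 ^ 24 < wh * 2 ^ 24 / tl * tl + tl := this
      _ = _ := by ring
  have h4 : ((wh * 2 ^ 24 : ℕ) : ℝ) < ((wh * 2 ^ 24 / tl + 1 : ℕ) : ℝ) * (tl : ℝ) := by
    exact_mod_cast h3
  calc 2 ^ 24 * w / t ≤ 2 ^ 24 * (wh : ℝ) / tl := by gcongr
    _ ≤ _ := by
      rw [div_le_iff₀ htl']
      push_cast at h4 ⊢
      linarith

/-- upper bound of a product, signed second factor -/
def mulu (wl wh : ℕ) (a : ℤ) : ℤ :=
  if 0 ≤ a then (wh * a) / 2 ^ 24 + 1 else -((wl * (-a)) / 2 ^ 24)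

/-- lower bound of a product, signed second factor -/
def mull (wl wh : ℕ) (a : ℤ) : ℤ :=
  if 0 ≤ a then (wl * a) / 2 ^ 24 else -((wh * (-a)) / 2 ^ 24 + 1)

lemma int_div_le (a : ℤ) : ((a / 2 ^ 24 : ℤ) : ℝ) ≤ (a : ℝ) / 2 ^ 24 := by
  rw [le_div_iff₀ (by norm_num)]
  have h : (a / 2 ^ 24) * 2 ^ 24 ≤ a := Int.ediv_mul_le a (by norm_num)
  exact_mod_cast h

lemma lt_int_div (a : ℤ) : (a : ℝ) / 2 ^ 24 ≤ ((a / 2 ^ 24 : ℤ) : ℝ) + 1 := by
  rw [div_le_iff₀ (by norm_num)]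
  have h : a < (a / 2 ^ 24 + 1) * 2 ^ 24 := Int.lt_ediv_add_one_mul_self a (by norm_num)
  have h2 : (a : ℝ) < (((a / 2 ^ 24 + 1) * 2 ^ 24 : ℤ) : ℝ) := by exact_mod_cast h
  push_cast at h2 ⊢
  linarith

lemma le_mulu {wl wh : ℕ} {a : ℤ} {w D : ℝ} (h1 : (wl : ℝ) ≤ w) (h2 : w ≤ wh)
    (hD : D ≤ a) : w * D / 2 ^ 24 ≤ (mulu wl wh a : ℤ) := by
  have hw : 0 ≤ w := le_trans (Nat.cast_nonneg _) h1
  unfold mulu
  split_ifs with ha
  · have ha' : (0 : ℝ) ≤ a := by exact_mod_cast ha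
    have h3 : w * D ≤ wh * a := by
      calc w * D ≤ w * a := mul_le_mul_of_nonneg_left hD hw
        _ ≤ wh * a := mul_le_mul_of_nonneg_right h2 ha'
    have h4 := lt_int_div (wh * a)
    push_cast at h4 ⊢
    calc w * D / 2 ^ 24 ≤ (wh * a : ℝ) / 2 ^ 24 := by gcongr
      _ ≤ _ := h4
  · have ha' : (a : ℝ) ≤ 0 := by exact_mod_cast (by omega : a ≤ 0)
    have h3 : w * D ≤ wl * a := by
      calc w * D ≤ w * a := mul_le_mul_of_nonneg_left hD hw
        _ ≤ wl * a := mul_le_mul_of_nonpos_right h1 ha'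
    have h4 := int_div_le (wl * (-a))
    push_cast at h4 ⊢
    have h5 : w * D / 2 ^ 24 ≤ (wl * a : ℝ) / 2 ^ 24 := by gcongr
    have h6 : (wl * a : ℝ) / 2 ^ 24 = -((wl * (-a) : ℝ) / 2 ^ 24) := by ring
    linarith

lemma mull_le {wl wh : ℕ} {a : ℤ} {w D : ℝ} (h1 : (wl : ℝ) ≤ w) (h2 : w ≤ wh)
    (hD : (a : ℝ) ≤ D) : (mull wl wh a : ℤ) ≤ w * D / 2 ^ 24 := by
  have hw : 0 ≤ w := le_trans (Nat.cast_nonneg _) h1
  unfold mull
  split_ifs with ha
  · have ha' : (0 : ℝ) ≤ a := by exact_mod_cast ha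
    have h3 : wl * a ≤ w * D := by
      calc wl * a ≤ w * a := mul_le_mul_of_nonneg_right h1 ha'
        _ ≤ w * D := mul_le_mul_of_nonneg_left hD hw
    have h4 := int_div_le (wl * a)
    push_cast at h4 ⊢
    calc _ ≤ (wl * a : ℝ) / 2 ^ 24 := h4
      _ ≤ w * D / 2 ^ 24 := by gcongr
  · have ha' : (a : ℝ) ≤ 0 := by exact_mod_cast (by omega : a ≤ 0)
    have h3 : wh * a ≤ w * D := by
      calc wh * a ≤ w * a := mul_le_mul_of_nonpos_right h2 ha'
        _ ≤ w * D := mul_le_mul_of_nonneg_left hD hw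
    have h4 := lt_int_div (wh * (-a))
    push_cast at h4 ⊢
    have h5 : (wh * a : ℝ) / 2 ^ 24 ≤ w * D / 2 ^ 24 := by gcongr
    have h6 : (wh * a : ℝ) / 2 ^ 24 = -((wh * (-a) : ℝ) / 2 ^ 24) := by ring
    linarith

/-- the angular factors are bounded by one -/
lemma abs_wR_le (x y : ℕ → ℝ) (i k : ℕ) : |wR x y i k| ≤ ww x y i k := by
  unfold wR
  rw [abs_mul, abs_of_nonneg (ww_nonneg x y i k)]
  refine mul_le_of_le_one_right (ww_nonneg x y i k) ?_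
  have h0 : 0 ≤ tt x y i k := by unfold tt; positivity
  rw [abs_div, abs_of_nonneg h0]
  apply div_le_one_of_le₀ _ h0
  unfold tt
  rw [abs_le]
  constructor <;> nlinarith [sq_nonneg (x i - x k), sq_nonneg (y i - y k)]

lemma abs_wI_le (x y : ℕ → ℝ) (i k : ℕ) : |wI x y i k| ≤ ww x y i k := by
  unfold wI
  rw [abs_mul, abs_of_nonneg (ww_nonneg x y i k)]
  refine mul_le_of_le_one_right (ww_nonneg x y i k) ?_
  have h0 : 0 ≤ tt x y i k := by unfold tt; positivity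
  rw [abs_div, abs_of_nonneg h0]
  apply div_le_one_of_le₀ _ h0
  unfold tt
  rw [abs_le]
  constructor <;> nlinarith [sq_nonneg (x i - x k + (y i - y k)), sq_nonneg (x i - x k - (y i - y k))]

/-- bounds of `Re (w u²)` for a pair -/
lemma wR_bounds {x y : ℕ → ℝ} {i k : ℕ} {wl wh tl th : ℕ} {D0 D1 : ℤ} (htl : 0 < tl)
    (h1 : (wl : ℝ) ≤ ww x y i k) (h2 : ww x y i k ≤ wh) (h3 : (tl : ℝ) ≤ tt x y i k)
    (h4 : tt x y i k ≤ th) (hD0 : (D0 : ℝ) ≤ (x i - x k) ^ 2 - (y i - y k) ^ 2)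
    (hD1 : (x i - x k) ^ 2 - (y i - y k) ^ 2 ≤ D1) :
    ((max (mull (wl * 2 ^ 24 / th) (wh * 2 ^ 24 / tl + 1) D0) (-(wh : ℤ)) : ℤ) : ℝ)
        ≤ wR x y i k ∧
      wR x y i k ≤ ((min (mulu (wl * 2 ^ 24 / th) (wh * 2 ^ 24 / tl + 1) D1) (wh : ℤ) : ℤ) : ℝ) := by
  have htl' : (0 : ℝ) < tl := by exact_mod_cast htl
  have ht : 0 < tt x y i k := lt_of_lt_of_le htl' h3
  have hlo := w5_lo ht h1 h4
  have hhi := w5_hi htl h2 h3
  have e : wR x y i k = (2 ^ 24 * ww x y i k / tt x y i k) * ((x i - x k) ^ 2 - (y i - y k) ^ 2)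
      / 2 ^ 24 := by
    unfold wR; field_simp
  have ha := abs_le.1 (abs_wR_le x y i k)
  constructor
  · push_cast
    apply max_le
    · rw [e]; exact mull_le hlo hhi hD0
    · linarith [ha.1]
  · push_cast
    apply le_min
    · rw [e]; exact le_mulu hlo hhi hD1
    · linarith [ha.2]

/-- bounds of `Im (w u²)` for a pair -/
lemma wI_bounds {x y : ℕ → ℝ} {i k : ℕ} {wl wh tl th : ℕ} {P0 P1 : ℤ} (htl : 0 < tl)
    (h1 : (wl : ℝ) ≤ ww x y i k) (h2 : ww x y i k ≤ wh) (h3 : (tl : ℝ) ≤ tt x y i k)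
    (h4 : tt x y i k ≤ th) (hP0 : (P0 : ℝ) ≤ 2 * ((x i - x k) * (y i - y k)))
    (hP1 : 2 * ((x i - x k) * (y i - y k)) ≤ P1) :
    ((max (mull (wl * 2 ^ 24 / th) (wh * 2 ^ 24 / tl + 1) P0) (-(wh : ℤ)) : ℤ) : ℝ)
        ≤ wI x y i k ∧
      wI x y i k ≤ ((min (mulu (wl * 2 ^ 24 / th) (wh * 2 ^ 24 / tl + 1) P1) (wh : ℤ) : ℤ) : ℝ) := by
  have htl' : (0 : ℝ) < tl := by exact_mod_cast htl
  have ht : 0 < tt x y i k := lt_of_lt_of_le htl' h3
  have hlo := w5_lo ht h1 h4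
  have hhi := w5_hi htl h2 h3
  have e : wI x y i k = (2 ^ 24 * ww x y i k / tt x y i k) * (2 * ((x i - x k) * (y i - y k)))
      / 2 ^ 24 := by
    unfold wI; field_simp
  have ha := abs_le.1 (abs_wI_le x y i k)
  constructor
  · push_cast
    apply max_le
    · rw [e]; exact mull_le hlo hhi hP0
    · linarith [ha.1]
  · push_cast
    apply le_min
    · rw [e]; exact le_mulu hlo hhi hP1
    · linarith [ha.2]

/-- bounds of a product on a rectangle -/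
lemma prod_bounds {X0 X1 Y0 Y1 : ℤ} {u v : ℝ} (h1 : (X0 : ℝ) ≤ u) (h2 : u ≤ X1)
    (h3 : (Y0 : ℝ) ≤ v) (h4 : v ≤ Y1) :
    ((min (min (X0 * Y0) (X0 * Y1)) (min (X1 * Y0) (X1 * Y1)) : ℤ) : ℝ) ≤ u * v ∧
      u * v ≤ ((max (max (X0 * Y0) (X0 * Y1)) (max (X1 * Y0) (X1 * Y1)) : ℤ) : ℝ) := by
  push_cast
  constructor
  · -- first in `u`, then in `v`
    have hu : min ((X0 : ℝ) * v) (X1 * v) ≤ u * v := by
      rcases le_total 0 v with hv | hv
      · exact (min_le_left _ _).trans (mul_le_mul_of_nonneg_right h1 hv)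
      · exact (min_le_right _ _).trans (mul_le_mul_of_nonpos_right h2 hv)
    have hl : ∀ c : ℝ, min (c * (Y0 : ℝ)) (c * Y1) ≤ c * v := by
      intro c
      rcases le_total 0 c with hc | hc
      · exact (min_le_left _ _).trans (mul_le_mul_of_nonneg_left h3 hc)
      · exact (min_le_right _ _).trans (mul_le_mul_of_nonpos_left h4 hc)
    exact (min_le_min (hl _) (hl _)).trans hu
  · have hu : u * v ≤ max ((X0 : ℝ) * v) (X1 * v) := by
      rcases le_total 0 v with hv | hv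
      · exact (mul_le_mul_of_nonneg_right h2 hv).trans (le_max_right _ _)
      · exact (mul_le_mul_of_nonpos_right h1 hv).trans (le_max_left _ _)
    have hl : ∀ c : ℝ, c * v ≤ max (c * (Y0 : ℝ)) (c * Y1) := by
      intro c
      rcases le_total 0 c with hc | hc
      · exact (mul_le_mul_of_nonneg_left h4 hc).trans (le_max_right _ _)
      · exact (mul_le_mul_of_nonpos_left h3 hc).trans (le_max_left _ _)
    exact hu.trans (max_le_max (hl _) (hl _))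

/-! ### squares of intervals -/

/-- upper bound of the square -/
def squ (l h : ℤ) : ℤ := max (l * l) (h * h)

/-- lower bound of the square -/
def sql (l h : ℤ) : ℤ := if l ≤ 0 ∧ 0 ≤ h then 0 else min (l * l) (h * h)

lemma sq_le_squ {l h : ℤ} {c : ℝ} (h1 : (l : ℝ) ≤ c) (h2 : c ≤ h) : c ^ 2 ≤ (squ l h : ℤ) := by
  unfold squ
  push_cast
  rcases le_total 0 c with hc | hc
  · exact le_trans (by nlinarith) (le_max_right _ _)
  · exact le_trans (by nlinarith) (le_max_left _ _)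

lemma sql_le_sq {l h : ℤ} {c : ℝ} (h1 : (l : ℝ) ≤ c) (h2 : c ≤ h) : ((sql l h : ℤ) : ℝ) ≤ c ^ 2 := by
  unfold sql
  split_ifs with h0
  · push_cast; positivity
  · push_cast
    rcases lt_or_ge 0 l with hl | hl
    · have hl' : (0 : ℝ) < l := by exact_mod_cast hl
      exact (min_le_left _ _).trans (by nlinarith)
    · have hh : h < 0 := by
        by_contra hn
        exact h0 ⟨hl, not_lt.1 hn⟩
      have hh' : (h : ℝ) < 0 := by exact_mod_cast hh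
      exact (min_le_right _ _).trans (by nlinarith)

/-! ### the tests -/

/-- the upper bound of `Ph` is too small -/
theorem p4neg_sound {N : ℕ} {x y : ℕ → ℝ} (h : Cfg N x y) {up : ℤ} {sh : ℕ} (hN : 2 ≤ N)
    (hup : Ph N x y ≤ up) (hsh : ∑ i ∈ range N, ∑ k ∈ range i, ww x y i k ≤ sh)
    (ht : ((2 * N - 4 : ℕ) : ℤ) * up < 2 * ((8192 * (2 * N - 3) - 2 * sh : ℕ) : ℤ) ^ 2) :
    False := by
  have hlo := h.lo
  have htr := h.tr
  rw [Th_pairs] at hlo htr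
  set S := ∑ i ∈ range N, ∑ k ∈ range i, ww x y i k with hS
  have hN' : (2 : ℝ) ≤ N := by exact_mod_cast hN
  have e1 : ((2 * N - 4 : ℕ) : ℝ) = 2 * N - 4 := by
    rw [Nat.cast_sub (by omega)]; push_cast; ring
  have e2 : ((2 * N - 3 : ℕ) : ℝ) = 2 * N - 3 := by
    rw [Nat.cast_sub (by omega)]; push_cast; ring
  have h1 : ((2 * N - 4 : ℕ) : ℝ) * up < 2 * ((8192 * (2 * N - 3) - 2 * sh : ℕ) : ℝ) ^ 2 := by
    exact_mod_cast ht
  rw [e1] at h1
  have hs : ((8192 * (2 * N - 3) - 2 * sh : ℕ) : ℝ) ≤ 8192 * (2 * N - 3) - 2 * S := by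
    rcases le_total (2 * sh) (8192 * (2 * N - 3)) with hc | hc
    · rw [Nat.cast_sub hc]
      push_cast
      rw [e2]
      linarith
    · rw [Nat.sub_eq_zero_of_le hc]
      push_cast
      linarith
  have h2 : ((8192 * (2 * N - 3) - 2 * sh : ℕ) : ℝ) ^ 2 ≤ (8192 * (2 * N - 3) - 2 * S) ^ 2 := by
    gcongr
  have h3 : (2 * (N : ℝ) - 4) * Ph N x y ≤ (2 * N - 4) * up :=
    mul_le_mul_of_nonneg_left hup (by linarith)
  linarith

/-- the lower bound of `Ph` is too large -/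
theorem p4big_sound {N : ℕ} {x y : ℕ → ℝ} (h : Cfg N x y) {lo : ℤ} {sl : ℕ} (hN : 2 ≤ N)
    (hlo : (lo : ℝ) ≤ Ph N x y) (hsl : (sl : ℝ) ≤ ∑ i ∈ range N, ∑ k ∈ range i, ww x y i k)
    (ht : 2 * ((8192 * (2 * N - 3) - 2 * sl : ℕ) : ℤ) ^ 2 < lo) : False := by
  have hhi := h.hi
  have htr := h.tr
  rw [Th_pairs] at hhi htr
  set S := ∑ i ∈ range N, ∑ k ∈ range i, ww x y i k with hS
  have e2 : ((2 * N - 3 : ℕ) : ℝ) = 2 * N - 3 := by
    rw [Nat.cast_sub (by omega)]; push_cast; ring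
  have h1 : 2 * ((8192 * (2 * N - 3) - 2 * sl : ℕ) : ℝ) ^ 2 < lo := by exact_mod_cast ht
  have hs : 8192 * (2 * (N : ℝ) - 3) - 2 * S ≤ ((8192 * (2 * N - 3) - 2 * sl : ℕ) : ℝ) := by
    have hc : (2 * sl : ℕ) ≤ 8192 * (2 * N - 3) := by
      have : ((2 * sl : ℕ) : ℝ) ≤ ((8192 * (2 * N - 3) : ℕ) : ℝ) := by
        push_cast
        rw [e2]
        linarith
      exact_mod_cast this
    rw [Nat.cast_sub hc]
    push_cast
    rw [e2]
    linarith
  have h0 : 0 ≤ 8192 * (2 * (N : ℝ) - 3) - 2 * S := by linarith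
  have h2 : (8192 * (2 * (N : ℝ) - 3) - 2 * S) ^ 2
      ≤ ((8192 * (2 * N - 3) - 2 * sl : ℕ) : ℝ) ^ 2 := by gcongr
  linarith

/-! ### the bounds of `Ph` by sums -/

/-- integer form of `ff` -/
def ffz (w : ℕ) : ℤ := 20 * (w : ℤ) * w - 196608 * w

lemma ffz_cast (w : ℕ) : ((ffz w : ℤ) : ℝ) = ff w := by
  unfold ffz ff; push_cast; ring

/-- upper bound of the contribution of a pair -/
def fup (wl wh : ℕ) : ℤ := max (ffz wl) (ffz wh)

/-- lower bound of the contribution of a pair -/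
def flo (wl wh : ℕ) : ℤ := if wl ≤ 4915 ∧ 4915 ≤ wh then -483183821 else min (ffz wl) (ffz wh)

lemma le_fup {wl wh : ℕ} {w : ℝ} (h1 : (wl : ℝ) ≤ w) (h2 : w ≤ wh) : ff w ≤ (fup wl wh : ℤ) := by
  unfold fup
  push_cast
  rw [ffz_cast, ffz_cast]
  exact ff_le_max h1 h2

lemma flo_le {wl wh : ℕ} {w : ℝ} (h1 : (wl : ℝ) ≤ w) (h2 : w ≤ wh) :
    ((flo wl wh : ℤ) : ℝ) ≤ ff w := by
  unfold flo
  split_ifs with h
  · push_cast; exact ff_ge_glob w
  · push_cast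
    rw [ffz_cast, ffz_cast]
    exact ff_ge_min h1 h2 h

/-- the upper bound of `Ph` -/
def pUp (N : ℕ) (wl wh : ℕ → ℕ → ℕ) (rl rh il ih : ℕ → ℕ → ℤ) : ℤ :=
  2 ^ 27 * (2 * N - 3) + ∑ i ∈ range N, ∑ k ∈ range i, fup (wl i k) (wh i k)
    + ∑ i ∈ range N, (((∑ k ∈ range N, wh i k : ℕ) : ℤ) ^ 2
      + 9 * (squ (∑ k ∈ range N, rl i k) (∑ k ∈ range N, rh i k)
        + squ (∑ k ∈ range N, il i k) (∑ k ∈ range N, ih i k)))

/-- the lower bound of `Ph` -/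
def pLo (N : ℕ) (wl wh : ℕ → ℕ → ℕ) (rl rh il ih : ℕ → ℕ → ℤ) : ℤ :=
  2 ^ 27 * (2 * N - 3) + ∑ i ∈ range N, ∑ k ∈ range i, flo (wl i k) (wh i k)
    + ∑ i ∈ range N, (((∑ k ∈ range N, wl i k : ℕ) : ℤ) ^ 2
      + 9 * (sql (∑ k ∈ range N, rl i k) (∑ k ∈ range N, rh i k)
        + sql (∑ k ∈ range N, il i k) (∑ k ∈ range N, ih i k)))

variable {N : ℕ} {x y : ℕ → ℝ} {wl wh : ℕ → ℕ → ℕ} {rl rh il ih : ℕ → ℕ → ℤ}

theorem Ph_le_pUp
    (hw : ∀ i < N, ∀ k < N, (wl i k : ℝ) ≤ ww x y i k ∧ ww x y i k ≤ wh i k)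
    (hr : ∀ i < N, ∀ k < N, (rl i k : ℝ) ≤ wR x y i k ∧ wR x y i k ≤ rh i k)
    (hi : ∀ i < N, ∀ k < N, (il i k : ℝ) ≤ wI x y i k ∧ wI x y i k ≤ ih i k) :
    Ph N x y ≤ (pUp N wl wh rl rh il ih : ℤ) := by
  have hA : ∑ i ∈ range N, ∑ k ∈ range i, ff (ww x y i k)
      ≤ ((∑ i ∈ range N, ∑ k ∈ range i, fup (wl i k) (wh i k) : ℤ) : ℝ) := by
    push_cast
    refine Finset.sum_le_sum fun i hiN => Finset.sum_le_sum fun k hk => ?_
    have hiN := mem_range.1 hiN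
    have hk := mem_range.1 hk
    exact le_fup (hw i hiN k (by omega)).1 (hw i hiN k (by omega)).2
  have hB : ∑ i ∈ range N, (dS N x y i ^ 2 + 9 * (cRS N x y i ^ 2 + cIS N x y i ^ 2))
      ≤ ((∑ i ∈ range N, (((∑ k ∈ range N, wh i k : ℕ) : ℤ) ^ 2
      + 9 * (squ (∑ k ∈ range N, rl i k) (∑ k ∈ range N, rh i k)
        + squ (∑ k ∈ range N, il i k) (∑ k ∈ range N, ih i k))) : ℤ) : ℝ) := by
    rw [Int.cast_sum]
    refine Finset.sum_le_sum fun i hiN => ?_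
    have hd0 : 0 ≤ dS N x y i := Finset.sum_nonneg fun k _ => ww_nonneg x y i k
    have hd : dS N x y i ≤ (((∑ k ∈ range N, wh i k : ℕ) : ℤ) : ℝ) := by
      push_cast
      exact Finset.sum_le_sum fun k hk => (hw i (mem_range.1 hiN) k (mem_range.1 hk)).2
    have h1 : ((∑ k ∈ range N, rl i k : ℤ) : ℝ) ≤ cRS N x y i := by
      push_cast
      exact Finset.sum_le_sum fun k hk => (hr i (mem_range.1 hiN) k (mem_range.1 hk)).1
    have h2 : cRS N x y i ≤ ((∑ k ∈ range N, rh i k : ℤ) : ℝ) := by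
      push_cast
      exact Finset.sum_le_sum fun k hk => (hr i (mem_range.1 hiN) k (mem_range.1 hk)).2
    have h3 : ((∑ k ∈ range N, il i k : ℤ) : ℝ) ≤ cIS N x y i := by
      push_cast
      exact Finset.sum_le_sum fun k hk => (hi i (mem_range.1 hiN) k (mem_range.1 hk)).1
    have h4 : cIS N x y i ≤ ((∑ k ∈ range N, ih i k : ℤ) : ℝ) := by
      push_cast
      exact Finset.sum_le_sum fun k hk => (hi i (mem_range.1 hiN) k (mem_range.1 hk)).2
    have h5 := sq_le_squ h1 h2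
    have h6 := sq_le_squ h3 h4
    have h7 : dS N x y i ^ 2 ≤ (((∑ k ∈ range N, wh i k : ℕ) : ℤ) : ℝ) ^ 2 :=
      pow_le_pow_left₀ hd0 hd 2
    rw [Int.cast_add, Int.cast_pow, Int.cast_mul, Int.cast_add]
    have e9 : ((9 : ℤ) : ℝ) = 9 := by norm_num
    rw [e9]
    linarith
  have e : ((pUp N wl wh rl rh il ih : ℤ) : ℝ) = 2 ^ 27 * (2 * N - 3)
      + ((∑ i ∈ range N, ∑ k ∈ range i, fup (wl i k) (wh i k) : ℤ) : ℝ)
      + ((∑ i ∈ range N, (((∑ k ∈ range N, wh i k : ℕ) : ℤ) ^ 2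
      + 9 * (squ (∑ k ∈ range N, rl i k) (∑ k ∈ range N, rh i k)
        + squ (∑ k ∈ range N, il i k) (∑ k ∈ range N, ih i k))) : ℤ) : ℝ) := by
    unfold pUp
    rw [Int.cast_add, Int.cast_add]
    norm_num
  rw [Ph_pairs, e]
  linarith

theorem pLo_le_Ph
    (hw : ∀ i < N, ∀ k < N, (wl i k : ℝ) ≤ ww x y i k ∧ ww x y i k ≤ wh i k)
    (hr : ∀ i < N, ∀ k < N, (rl i k : ℝ) ≤ wR x y i k ∧ wR x y i k ≤ rh i k)
    (hi : ∀ i < N, ∀ k < N, (il i k : ℝ) ≤ wI x y i k ∧ wI x y i k ≤ ih i k) :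
    ((pLo N wl wh rl rh il ih : ℤ) : ℝ) ≤ Ph N x y := by
  have hA : ((∑ i ∈ range N, ∑ k ∈ range i, flo (wl i k) (wh i k) : ℤ) : ℝ)
      ≤ ∑ i ∈ range N, ∑ k ∈ range i, ff (ww x y i k) := by
    push_cast
    refine Finset.sum_le_sum fun i hiN => Finset.sum_le_sum fun k hk => ?_
    have hiN := mem_range.1 hiN
    have hk := mem_range.1 hk
    exact flo_le (hw i hiN k (by omega)).1 (hw i hiN k (by omega)).2
  have hB : ((∑ i ∈ range N, (((∑ k ∈ range N, wl i k : ℕ) : ℤ) ^ 2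
      + 9 * (sql (∑ k ∈ range N, rl i k) (∑ k ∈ range N, rh i k)
        + sql (∑ k ∈ range N, il i k) (∑ k ∈ range N, ih i k))) : ℤ) : ℝ)
      ≤ ∑ i ∈ range N, (dS N x y i ^ 2 + 9 * (cRS N x y i ^ 2 + cIS N x y i ^ 2)) := by
    rw [Int.cast_sum]
    refine Finset.sum_le_sum fun i hiN => ?_
    have hd0 : (0 : ℝ) ≤ (((∑ k ∈ range N, wl i k : ℕ) : ℤ) : ℝ) := by
      exact_mod_cast Nat.zero_le _
    have hd : (((∑ k ∈ range N, wl i k : ℕ) : ℤ) : ℝ) ≤ dS N x y i := by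
      push_cast
      exact Finset.sum_le_sum fun k hk => (hw i (mem_range.1 hiN) k (mem_range.1 hk)).1
    have h1 : ((∑ k ∈ range N, rl i k : ℤ) : ℝ) ≤ cRS N x y i := by
      push_cast
      exact Finset.sum_le_sum fun k hk => (hr i (mem_range.1 hiN) k (mem_range.1 hk)).1
    have h2 : cRS N x y i ≤ ((∑ k ∈ range N, rh i k : ℤ) : ℝ) := by
      push_cast
      exact Finset.sum_le_sum fun k hk => (hr i (mem_range.1 hiN) k (mem_range.1 hk)).2
    have h3 : ((∑ k ∈ range N, il i k : ℤ) : ℝ) ≤ cIS N x y i := by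
      push_cast
      exact Finset.sum_le_sum fun k hk => (hi i (mem_range.1 hiN) k (mem_range.1 hk)).1
    have h4 : cIS N x y i ≤ ((∑ k ∈ range N, ih i k : ℤ) : ℝ) := by
      push_cast
      exact Finset.sum_le_sum fun k hk => (hi i (mem_range.1 hiN) k (mem_range.1 hk)).2
    have h5 := sql_le_sq h1 h2
    have h6 := sql_le_sq h3 h4
    have h7 : (((∑ k ∈ range N, wl i k : ℕ) : ℤ) : ℝ) ^ 2 ≤ dS N x y i ^ 2 :=
      pow_le_pow_left₀ hd0 hd 2
    rw [Int.cast_add, Int.cast_pow, Int.cast_mul, Int.cast_add]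
    have e9 : ((9 : ℤ) : ℝ) = 9 := by norm_num
    rw [e9]
    linarith
  have e : ((pLo N wl wh rl rh il ih : ℤ) : ℝ) = 2 ^ 27 * (2 * N - 3)
      + ((∑ i ∈ range N, ∑ k ∈ range i, flo (wl i k) (wh i k) : ℤ) : ℝ)
      + ((∑ i ∈ range N, (((∑ k ∈ range N, wl i k : ℕ) : ℤ) ^ 2
      + 9 * (sql (∑ k ∈ range N, rl i k) (∑ k ∈ range N, rh i k)
        + sql (∑ k ∈ range N, il i k) (∑ k ∈ range N, ih i k))) : ℤ) : ℝ) := by
    unfold pLo
    rw [Int.cast_add, Int.cast_add]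
    norm_num
  rw [Ph_pairs, e]
  linarith

end RelEqN.Small.Box
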