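import Pool.Agent.Lib.MP_b9e19b_mp.Box.Chk

set_option autoImplicit false

/-!
# The external boxes of a certificate
-/

namespace RelEqN.Small.Box.K

/-- the element refers to another certificate -/
def isX (e : Nat) : Bool := Nat.beq (Nat.land e 3) 2

/-- its box -/
def dec (e : Nat) : Nat × Nat :=
  (Nat.land (Nat.shiftRight e 2)
    115792089237316195423570985008687907853269984665640564039457584007913129639935,
    Nat.shiftRight e 258)

/-- the boxes of the other certificates that are used -/
def exts (l : List Nat) : List (Nat × Nat) := (l.filter isX).map dec

end RelEqN.Small.Box.K
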