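import Pool.Agent.Lib.MP_b9e19b_mp.Box.Chk2
import Pool.Agent.Lib.MP_b9e19b_mp.Box.GLeafK

set_option autoImplicit false

/-!
# Kernel checker of the box search with the grid leaf
-/

namespace RelEqN.Small.Box.K

noncomputable section

/-- extended checker for `6` bodies -/
def chkG6 (l : List Nat) (Lo Hi : Nat) : Bool := chk2 gl9 6 15 F6 w6 l Lo Hi

/-- extended checker for `7` bodies -/
def chkG7 (l : List Nat) (Lo Hi : Nat) : Bool := chk2 gl9 7 21 F7 w7 l Lo Hi

end

end RelEqN.Small.Box.K
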