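import Pool.Agent.Lib.MP_b9e19b_mp.Box.PieceG
import Pool.Agent.Lib.MP_b9e19b_mp.Box.Tree2
import Pool.Agent.Lib.MP_b9e19b_mp.Box.GLeafT
import Pool.Agent.Lib.MP_b9e19b_mp.Box.GLatA

set_option autoImplicit false

/-!
# Soundness of one certificate with the grid leaf
-/

namespace RelEqN.Small.Box

open K

theorem gokA {N : ℕ} (h4 : 4 ≤ N) (h7 : N ≤ 7) : GOK gl9 N := by
  intro s Lo Hi H x y hC hB
  exact H (GLf.gl9_sound latA h4 h7 hC hB)

/-- soundness of one certificate, given the boxes it refers to -/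
theorem pieceG {N P F w : ℕ} (hG : Good N P F w) {l : List ℕ} {Lo Hi : ℕ} {L : List (ℕ × ℕ)}
    (H : K.chk2 gl9 N P F w l Lo Hi = true) (hx : exts l = L)
    (hL : ∀ p ∈ L, NoCfg N p.1 p.2) : NoCfg N Lo Hi :=
  piece2 hG (gokA hG.h4 hG.h7) H hx hL

theorem pieceG0 {N P F w : ℕ} (hG : Good N P F w) {l : List ℕ} {Lo Hi : ℕ}
    (H : K.chk2 gl9 N P F w l Lo Hi = true) (hx : exts l = []) : NoCfg N Lo Hi :=
  piece20 hG (gokA hG.h4 hG.h7) H hx

end RelEqN.Small.Box
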