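import Pool.Agent.Lib.MP_b9e19b_mp.Box.Goods
import Pool.Agent.Lib.MP_b9e19b_mp.Box.Piece

set_option autoImplicit false

/-!
# Soundness of one certificate
-/

namespace RelEqN.Small.Box

open K

/-- soundness of one certificate, given the boxes it refers to -/
theorem piece {N P F w : ℕ} (hG : Good N P F w) {l : List ℕ} {Lo Hi : ℕ} {L : List (ℕ × ℕ)}
    (H : K.chk N P F w l Lo Hi = true) (hx : exts l = L) (hL : ∀ p ∈ L, NoCfg N p.1 p.2) :
    NoCfg N Lo Hi := by
  apply chk_sound hG H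
  intro e he h2
  have h3 : dec e ∈ exts l := by
    unfold exts
    rw [List.mem_map]
    refine ⟨e, List.mem_filter.2 ⟨he, ?_⟩, rfl⟩
    unfold isX
    rw [h2]; rfl
  rw [hx] at h3
  exact hL _ h3

theorem piece0 {N P F w : ℕ} (hG : Good N P F w) {l : List ℕ} {Lo Hi : ℕ}
    (H : K.chk N P F w l Lo Hi = true) (hx : exts l = []) : NoCfg N Lo Hi :=
  piece hG H hx (by simp)

end RelEqN.Small.Box
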