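import Pool.Agent.Lib.MP_b9e19b_mp.Box.Node

set_option autoImplicit false

/-!
# The root boxes

Every configuration satisfies `N w_01 ≥ 1` (the closest pair has the largest weight and the virial
identity), `2 w_01 ≤ 2 N - 3`, and the other bodies are in a bounded region.
-/

namespace RelEqN.Small.Box

open Finset

namespace RootM

/-- the virial identity -/
lemma virial {N : ℕ} {x y : ℕ → ℝ} (h : Cfg N x y) :
    ∑ i ∈ range N, ∑ k ∈ range N, (N * ww x y i k - 8192) * tt x y i k = 0 := by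
  have h1 : ∑ i ∈ range N, ∑ k ∈ range N, (N * ww x y i k - 8192)
      * (x i * (x i - x k) + y i * (y i - y k)) = 0 := by
    refine Finset.sum_eq_zero fun i hi => ?_
    have hx := h.fx i (mem_range.1 hi)
    have hy := h.fy i (mem_range.1 hi)
    calc ∑ k ∈ range N, (N * ww x y i k - 8192) * (x i * (x i - x k) + y i * (y i - y k))
        = x i * ∑ k ∈ range N, (N * ww x y i k - 8192) * (x i - x k)
          + y i * ∑ k ∈ range N, (N * ww x y i k - 8192) * (y i - y k) := by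
          rw [Finset.mul_sum, Finset.mul_sum, ← Finset.sum_add_distrib]
          exact Finset.sum_congr rfl fun k _ => by ring
      _ = 0 := by rw [hx, hy]; ring
  have h2 : ∑ i ∈ range N, ∑ k ∈ range N, (N * ww x y i k - 8192)
      * (x k * (x k - x i) + y k * (y k - y i)) = 0 := by
    rw [Finset.sum_comm]
    rw [← h1]
    refine Finset.sum_congr rfl fun i _ => Finset.sum_congr rfl fun k _ => ?_
    rw [ww_comm x y k i]
  have h3 : ∑ i ∈ range N, ∑ k ∈ range N, (N * ww x y i k - 8192) * tt x y i k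
      = ∑ i ∈ range N, ∑ k ∈ range N, (N * ww x y i k - 8192)
          * (x i * (x i - x k) + y i * (y i - y k))
        + ∑ i ∈ range N, ∑ k ∈ range N, (N * ww x y i k - 8192)
          * (x k * (x k - x i) + y k * (y k - y i)) := by
    rw [← Finset.sum_add_distrib]
    refine Finset.sum_congr rfl fun i _ => ?_
    rw [← Finset.sum_add_distrib]
    refine Finset.sum_congr rfl fun k _ => ?_
    unfold tt
    ring
  rw [h3, h1, h2, add_zero]

lemma tt01 {N : ℕ} {x y : ℕ → ℝ} (h : Cfg N x y) : tt x y 0 1 = (2 * x 1) ^ 2 := by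
  unfold tt
  rw [h.x0, h.y0, h.y1]; ring

lemma tt_self (x y : ℕ → ℝ) (i : ℕ) : tt x y i i = 0 := by unfold tt; ring

/-- the closest pair has a large weight -/
theorem w01_ge {N : ℕ} (hN : 2 ≤ N) {x y : ℕ → ℝ} (h : Cfg N x y) : 8192 ≤ N * ww x y 0 1 := by
  by_contra hc
  rw [not_le] at hc
  have hx := h.apos
  have hpos : 0 < (2 * x 1) ^ 2 := by positivity
  have hterm : ∀ i < N, ∀ k < N, i ≠ k → (N * ww x y i k - 8192) * tt x y i k < 0 := by
    intro i hi k hk hik
    have ht := h.clo i hi k hk hik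
    have hw : ww x y i k ≤ ww x y 0 1 := by
      unfold ww
      have := W_anti hpos ht
      rw [tt01 h]
      linarith
    have hN0 : (0 : ℝ) ≤ N := Nat.cast_nonneg _
    have hNw : N * ww x y i k ≤ N * ww x y 0 1 := mul_le_mul_of_nonneg_left hw hN0
    exact mul_neg_of_neg_of_pos (by linarith) (by linarith)
  have hv := virial h
  have hlt : ∑ i ∈ range N, ∑ k ∈ range N, (N * ww x y i k - 8192) * tt x y i k < 0 := by
    have hle : ∀ i ∈ range N, ∑ k ∈ range N, (N * ww x y i k - 8192) * tt x y i k ≤ 0 := by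
      intro i hi
      refine Finset.sum_nonpos fun k hk => ?_
      by_cases hik : i = k
      · subst hik; rw [tt_self, mul_zero]
      · exact (hterm i (mem_range.1 hi) k (mem_range.1 hk) hik).le
    refine Finset.sum_neg' hle ⟨0, mem_range.2 (by omega), ?_⟩
    refine Finset.sum_neg' (fun k hk => ?_) ⟨1, mem_range.2 (by omega), ?_⟩
    · by_cases hik : 0 = k
      · subst hik; rw [tt_self, mul_zero]
      · exact (hterm 0 (by omega) k (mem_range.1 hk) hik).le
    · exact hterm 0 (by omega) 1 (by omega) (by norm_num)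
  linarith

/-- the closest pair and the trace -/
lemma w01_le {N : ℕ} (hN : 2 ≤ N) {x y : ℕ → ℝ} (h : Cfg N x y) :
    2 * ww x y 0 1 ≤ 8192 * (2 * N - 3) := by
  refine le_trans ?_ h.tr
  unfold Th
  have h0 : ww x y 0 1 ≤ ∑ k ∈ range N, ww x y 0 k :=
    Finset.single_le_sum (f := fun k => ww x y 0 k) (fun k _ => ww_nonneg x y 0 k)
      (mem_range.2 (by omega : 1 < N))
  have h1 : ww x y 1 0 ≤ ∑ k ∈ range N, ww x y 1 k :=
    Finset.single_le_sum (f := fun k => ww x y 1 k) (fun k _ => ww_nonneg x y 1 k)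
      (mem_range.2 (by omega : 0 < N))
  have h2 : ∑ k ∈ range N, ww x y 0 k + ∑ k ∈ range N, ww x y 1 k
      ≤ ∑ i ∈ range N, ∑ k ∈ range N, ww x y i k := by
    rw [← Finset.sum_pair (f := fun i => ∑ k ∈ range N, ww x y i k) (show (0 : ℕ) ≠ 1 by norm_num)]
    refine Finset.sum_le_sum_of_subset_of_nonneg ?_ ?_
    · intro i hi
      simp only [mem_insert, mem_singleton] at hi
      rcases hi with h | h <;> rw [h] <;> exact mem_range.2 (by omega)
    · intro i _ _
      exact Finset.sum_nonneg fun k _ => ww_nonneg x y i k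
  rw [ww_comm x y 1 0] at h1
  linarith

/-- the weight of the closest pair -/
lemma w01_eq {N : ℕ} {x y : ℕ → ℝ} (h : Cfg N x y) : ww x y 0 1 * x 1 ^ 3 = 2 ^ 46 := by
  have hx := h.apos
  unfold ww W
  rw [tt01 h, Real.sqrt_sq (by positivity)]
  field_simp

lemma x1_le {N : ℕ} (hN : 2 ≤ N) {x y : ℕ → ℝ} (h : Cfg N x y) {a1 : ℕ}
    (ha : N * 2 ^ 33 ≤ a1 ^ 3) : x 1 ≤ a1 := by
  have hx := h.apos
  have h1 := w01_ge hN h
  have h2 := w01_eq h
  have h3 : 8192 * x 1 ^ 3 ≤ N * 2 ^ 46 := by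
    calc 8192 * x 1 ^ 3 ≤ N * ww x y 0 1 * x 1 ^ 3 :=
          mul_le_mul_of_nonneg_right h1 (by positivity)
      _ = N * (ww x y 0 1 * x 1 ^ 3) := by ring
      _ = N * 2 ^ 46 := by rw [h2]
  have h4 : ((N * 2 ^ 33 : ℕ) : ℝ) ≤ ((a1 ^ 3 : ℕ) : ℝ) := by exact_mod_cast ha
  push_cast at h4
  have h5 : x 1 ^ 3 ≤ (a1 : ℝ) ^ 3 := by
    norm_num at h3 h4 ⊢
    linarith
  exact le_of_pow_le_pow_left₀ (by norm_num) (Nat.cast_nonneg _) h5

lemma le_x1 {N : ℕ} (hN : 2 ≤ N) {x y : ℕ → ℝ} (h : Cfg N x y) {a0 : ℕ}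
    (ha : a0 ^ 3 * (2 * N - 3) ≤ 2 ^ 34) : (a0 : ℝ) ≤ x 1 := by
  have hx := h.apos
  have h1 := w01_le hN h
  have h2 := w01_eq h
  have h3 : 2 * 2 ^ 46 ≤ 8192 * (2 * N - 3) * x 1 ^ 3 := by
    calc (2 : ℝ) * 2 ^ 46 = 2 * ww x y 0 1 * x 1 ^ 3 := by rw [← h2]; ring
      _ ≤ 8192 * (2 * N - 3) * x 1 ^ 3 := mul_le_mul_of_nonneg_right h1 (by positivity)
  have h4 : ((a0 ^ 3 * (2 * N - 3) : ℕ) : ℝ) ≤ ((2 ^ 34 : ℕ) : ℝ) := by exact_mod_cast ha
  rw [Nat.cast_mul, Nat.cast_sub (by omega)] at h4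
  push_cast at h4
  have hM : (0 : ℝ) < 2 * N - 3 := by
    have : (2 : ℝ) ≤ N := by exact_mod_cast hN
    linarith
  have h5 : (a0 : ℝ) ^ 3 ≤ x 1 ^ 3 := by
    by_contra hc
    rw [not_le] at hc
    have h6 : (2 * (N : ℝ) - 3) * x 1 ^ 3 < (2 * N - 3) * (a0 : ℝ) ^ 3 :=
      mul_lt_mul_of_pos_left hc hM
    norm_num at h3 h4
    linarith
  exact le_of_pow_le_pow_left₀ (by norm_num) hx.le h5

/-- the other bodies are bounded -/
lemma pos_le {N : ℕ} {x y : ℕ → ℝ} (h : Cfg N x y) {b : ℕ} {l : ℝ} (hl : 0 < l)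
    (hb : 2 ^ 23 * ((2 * (N : ℝ) - 3) / (2 * l ^ 2) + l * (N * (N - 1))) ≤ (b : ℝ) ^ 2)
    {k : ℕ} (hk : k < N) : |x k| ≤ b ∧ |y k| ≤ b := by
  have h1 := (h.bd k hk l hl).trans hb
  constructor
  · apply abs_le_of_sq_le_sq _ (Nat.cast_nonneg _)
    nlinarith [sq_nonneg (y k)]
  · apply abs_le_of_sq_le_sq _ (Nat.cast_nonneg _)
    nlinarith [sq_nonneg (x k)]

end RootM

open RootM

/-- a configuration with bounded coordinates is in the packed box -/
lemma root_of {N : ℕ} {x y : ℕ → ℝ} {a0 a1 b Lo Hi : ℕ} (ha0 : (a0 : ℝ) ≤ x 1)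
    (ha1 : x 1 ≤ a1) (hxy : ∀ k < N, |x k| ≤ b ∧ |y k| ≤ b)
    (hLo : ∀ v < 2 * N - 3, K.fld Lo (16 * v) + b ≤ if v = 0 then a0 + b else 32768)
    (hHi : ∀ v < 2 * N - 3, (if v = 0 then a1 else 32768 + b) ≤ K.fld Hi (16 * v)) :
    InBox N Lo Hi x y := by
  intro v hv
  have hl := hLo v hv
  have hh := hHi v hv
  rcases Nat.eq_zero_or_pos v with h0 | h0
  · subst h0
    rw [if_pos rfl] at hl hh
    rw [co_zero]
    have hl' : (K.fld Lo (16 * 0) : ℝ) ≤ a0 := by exact_mod_cast (by omega : K.fld Lo (16 * 0) ≤ a0)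
    have hh' : (a1 : ℝ) ≤ K.fld Hi (16 * 0) := by exact_mod_cast hh
    exact ⟨hl'.trans ha0, ha1.trans hh'⟩
  · rw [if_neg (by omega)] at hl hh
    have hl' : (K.fld Lo (16 * v) : ℝ) + b ≤ 32768 := by exact_mod_cast hl
    have hh' : (32768 : ℝ) + b ≤ K.fld Hi (16 * v) := by exact_mod_cast hh
    rcases Nat.even_or_odd' v with ⟨m, hm | hm⟩
    · obtain ⟨n, rfl⟩ : ∃ n, m = n + 1 := ⟨m - 1, by omega⟩
      have e : v = 2 * n + 2 := by omega
      have h1 := abs_le.1 (hxy (n + 2) (by omega)).2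
      rw [e, co_y, ← e]
      constructor <;> linarith [h1.1, h1.2]
    · have h1 := abs_le.1 (hxy (m + 2) (by omega)).1
      rw [hm, co_x, ← hm]
      constructor <;> linarith [h1.1, h1.2]

/-- root boxes (`N = 4`) -/
def lo4 : ℕ := 0x400040004000400004cc
def hi4 : ℕ := 0xc000c000c000c0000eb9

/-- root boxes (`N = 5`) -/
def lo5 : ℕ := 0x40004000400040004000400004cc
def hi5 : ℕ := 0xc000c000c000c000c000c0000eb9

/-- root boxes (`N = 6`) -/
def lo6 : ℕ := 0x4000400040004000400040004000400004cc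
def hi6 : ℕ := 0xc000c000c000c000c000c000c000c0000eb9

/-- root boxes (`N = 7`) -/
def lo7 : ℕ := 0x38003800380038003800380038003800380038000487
def hi7 : ℕ := 0xc800c800c800c800c800c800c800c800c800c8000f4f

theorem root4 {x y : ℕ → ℝ} (h : Cfg 4 x y) : InBox 4 lo4 hi4 x y :=
  root_of (a0 := 1228) (a1 := 3769) (b := 16384) (le_x1 (by norm_num) h (by norm_num))
    (x1_le (by norm_num) h (by norm_num))
    (fun k hk => pos_le h (l := 3 / 4) (by norm_num) (by norm_num) hk)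
    (by decide +kernel) (by decide +kernel)

theorem root5 {x y : ℕ → ℝ} (h : Cfg 5 x y) : InBox 5 lo5 hi5 x y :=
  root_of (a0 := 1228) (a1 := 3769) (b := 16384) (le_x1 (by norm_num) h (by norm_num))
    (x1_le (by norm_num) h (by norm_num))
    (fun k hk => pos_le h (l := 7 / 10) (by norm_num) (by norm_num) hk)
    (by decide +kernel) (by decide +kernel)

theorem root6 {x y : ℕ → ℝ} (h : Cfg 6 x y) : InBox 6 lo6 hi6 x y :=
  root_of (a0 := 1228) (a1 := 3769) (b := 16384) (le_x1 (by norm_num) h (by norm_num))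
    (x1_le (by norm_num) h (by norm_num))
    (fun k hk => pos_le h (l := 2 / 3) (by norm_num) (by norm_num) hk)
    (by decide +kernel) (by decide +kernel)

theorem root7 {x y : ℕ → ℝ} (h : Cfg 7 x y) : InBox 7 lo7 hi7 x y :=
  root_of (a0 := 1159) (a1 := 3919) (b := 18432) (le_x1 (by norm_num) h (by norm_num))
    (x1_le (by norm_num) h (by norm_num))
    (fun k hk => pos_le h (l := 16 / 25) (by norm_num) (by norm_num) hk)
    (by decide +kernel) (by decide +kernel)

end RelEqN.Small.Box
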