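import Pool.Agent.Lib.MP_b9e19b_mp.Box.Root

set_option autoImplicit false

/-!
# Seven bodies: the box for a small smallest distance
-/

namespace RelEqN.Small.Box

open Finset RootM

/-- the frame together with the configuration it comes from -/
theorem exists_cfg_clo (N : ℕ) (hN : 2 ≤ N) {q : Fin N → ℂ} (h : Nec q) :
    ∃ (x y : ℕ → ℝ) (q' : Fin N → ℂ), Cfg N x y ∧ Nec q' ∧
      ∀ j k, j ≠ k → x 1 / 2048 ≤ ‖q' j - q' k‖ := by
  obtain ⟨n, rfl⟩ : ∃ n, N = n + 2 := ⟨N - 2, by omega⟩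
  obtain ⟨a, q', h1, h2, h3, h4⟩ := exists_sorted h
  refine ⟨_, _, q', cfg_of_pre h1 h2 h3 h4, h1.nec, fun j k hjk => ?_⟩
  rw [cx_one h1]
  refine le_trans (le_of_eq ?_) (h1.clo j k hjk)
  ring

/-- the box with the smallest distance at most `4916 / 4096` -/
def hi7s : ℕ := 0xc800c800c800c800c800c800c800c800c800c800099a

theorem root7s {x y : ℕ → ℝ} (h : Cfg 7 x y) (hx : x 1 ≤ 2458) : InBox 7 lo7 hi7s x y :=
  root_of (a0 := 1159) (a1 := 2458) (b := 18432) (le_x1 (by norm_num) h (by norm_num))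
    (by exact_mod_cast hx)
    (fun k hk => pos_le h (l := 16 / 25) (by norm_num) (by norm_num) hk)
    (by decide +kernel) (by decide +kernel)

/-- **Seven bodies**, from the two parts. -/
theorem noNec7_of
    (hbig : ∀ q : Fin 7 → ℂ, Nec q → (∀ j k, j ≠ k → 6 / 5 ≤ ‖q j - q k‖) → False)
    (hsmall : NoCfg 7 lo7 hi7s) : NoNec 7 := by
  intro q hq
  obtain ⟨x, y, q', h, hq', hclo⟩ := exists_cfg_clo 7 (by norm_num) hq
  rcases le_total (x 1) 2458 with hx | hx
  · exact hsmall x y h (root7s h hx)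
  · refine hbig q' hq' fun j k hjk => le_trans ?_ (hclo j k hjk)
    rw [le_div_iff₀ (by norm_num)]
    linarith

end RelEqN.Small.Box
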