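import Pool.Agent.Lib.MP_b9e19b_mp.Box.LeafS

set_option autoImplicit false

/-!
# Soundness of the trees
-/

namespace RelEqN.Small.Box

open K Finset

/-- the `p4` leaves are sound -/
structure P4OK (N : ℕ) : Prop where
  neg : ∀ {x y : ℕ → ℝ}, Cfg N x y → ∀ {EL EH rho P w : ℕ}, Ext N x y EL EH → 5000000 ≤ rho →
    (∀ i < N, ∀ k < N, i ≠ k → (rho : ℝ) ≤ tt x y i k) → prs P w = allPairs N →
    pneg N rho EL EH P w = false
  big : ∀ {x y : ℕ → ℝ}, Cfg N x y → ∀ {EL EH rho P w : ℕ}, Ext N x y EL EH → 5000000 ≤ rho →
    (∀ i < N, ∀ k < N, i ≠ k → (rho : ℝ) ≤ tt x y i k) → prs P w = allPairs N →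
    pbig N rho EL EH P w = false

/-- the entries of the packed list of pairs -/
def GoodW (N w : ℕ) : Prop := ∀ j < 32,
  Nat.land (Nat.shiftRight w (Nat.shiftLeft j 4)) 65535 = 0 ∨
  ∃ i < N, ∃ k < N, i ≠ k ∧
    Nat.land (Nat.land (Nat.shiftRight w (Nat.shiftLeft j 4)) 65535) 255 = 32 * i ∧
    Nat.shiftRight (Nat.land (Nat.shiftRight w (Nat.shiftLeft j 4)) 65535) 8 = 32 * k

/-- everything that is needed about the tables for `N` bodies -/
structure Good (N P F w : ℕ) : Prop where
  h4 : 4 ≤ N
  h7 : N ≤ 7
  hF : GoodF N F
  hP : prs P w = allPairs N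
  hw : GoodW N w
  p4 : P4OK N

lemma beq_true {a b : ℕ} (h : Nat.beq a b = true) : a = b := Nat.eq_of_beq_eq_true h

lemma sm_eq (B m v : ℕ) : sm B m v = ∑ j ∈ range m, fld B (v + 32 * j) := by
  induction m generalizing v with
  | zero => rfl
  | succ m ih =>
    show fld B v + sm B m (v + 32) = _
    rw [ih, Finset.sum_range_succ', mul_zero, add_zero, add_comm]
    congr 1
    refine Finset.sum_congr rfl fun j _ => ?_
    congr 1; ring

variable {N P F w : ℕ}

lemma sum_test (hN : 4 ≤ N) {z : ℕ → ℝ} {Hi v : ℕ} (h0 : 0 ≤ ∑ k ∈ Ico 2 N, z k)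
    (h1 : ∀ k, k + 2 < N → z (k + 2) + 32768 ≤ (fld Hi (v + 32 * k) : ℝ))
    (H : sm Hi (N - 2) v + 1 ≤ (N - 2) * 32768) : False := by
  rw [sm_eq] at H
  have h2 : ((∑ j ∈ range (N - 2), fld Hi (v + 32 * j) + 1 : ℕ) : ℝ)
      ≤ (((N - 2) * 32768 : ℕ) : ℝ) := Nat.cast_le.2 H
  push_cast at h2
  have h3 : ∑ k ∈ Ico 2 N, z k = ∑ k ∈ range (N - 2), z (k + 2) := by
    rw [Finset.sum_Ico_eq_sum_range]
    exact Finset.sum_congr rfl fun k _ => by rw [add_comm]
  have h4 : ∑ k ∈ range (N - 2), (z (k + 2) + 32768)
      ≤ ∑ k ∈ range (N - 2), (fld Hi (v + 32 * k) : ℝ) :=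
    Finset.sum_le_sum fun k hk => h1 k (by rw [mem_range] at hk; omega)
  rw [Finset.sum_add_distrib, Finset.sum_const, card_range, nsmul_eq_mul] at h4
  linarith

/-- soundness of a leaf -/
theorem leaf_sound (hG : Good N P F w) {s Lo Hi : ℕ} (H : leaf N P F w s Lo Hi ≠ 0) :
    NoCfg N Lo Hi := by
  intro x y hC hB
  have hN := hG.h4
  have hN7 := hG.h7
  have hE := ext_of_box hN hN7 hC hB
  obtain ⟨hr, hρ⟩ := rh_spec hN hN7 hC hB
  unfold leaf at H
  beta_reduce at H
  rcases h1 : Nat.beq (Nat.land s 31) 1 with _ | _
  · rw [h1] at H
    rcases h2 : Nat.beq (Nat.land s 31) 2 with _ | _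
    · rw [h2] at H
      rcases h3 : Nat.beq (Nat.land s 31) 3 with _ | _
      · rw [h3] at H
        rcases h4 : Nat.beq (Nat.land s 31) 4 with _ | _
        · rw [h4] at H
          rcases h5 : Nat.beq (Nat.land s 31) 5 with _ | _
          · rw [h5] at H
            rcases h6 : Nat.beq (Nat.land s 31) 6 with _ | _
            · rw [h6] at H
              rcases h7 : Nat.beq (Nat.land s 31) 7 with _ | _
              · rw [h7] at H
                rcases h8 : Nat.beq (Nat.land s 31) 8 with _ | _
                · rw [h8] at H
                  exact H rfl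
                · rw [h8] at H
                  have H1 := Nat.le_of_ble_eq_true (sel_ne_zero H).1
                  have H2 := ts_sound hC hE hr hρ hG.hP
                  have H3 : (2 * N - 3) * 8192 + 1 ≤ 2 * ts (K.ext1 Lo Hi) (K.ext2 Lo Hi) P w := by
                    refine le_trans (le_of_eq ?_) H1
                    show _ = ((2 * N - 3) <<< 13) + 1
                    rw [Nat.shiftLeft_eq]
                  have H4 : (((2 * N - 3) * 8192 + 1 : ℕ) : ℝ)
                      ≤ ((2 * ts (K.ext1 Lo Hi) (K.ext2 Lo Hi) P w : ℕ) : ℝ) := Nat.cast_le.2 H3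
                  have e : ((2 * N - 3 : ℕ) : ℝ) = 2 * (N : ℝ) - 3 := by
                    rw [Nat.cast_sub (by omega)]; push_cast; ring
                  rw [Nat.cast_add, Nat.cast_mul, e] at H4
                  push_cast at H4 H2
                  linarith
              · rw [h7] at H
                have H1 := Nat.le_of_ble_eq_true (sel_ne_zero H).1
                refine sum_test hN hC.sy (v := 32) (Hi := Hi) ?_ ?_
                · intro k hk
                  have := (hB (2 * k + 2) (by omega)).2
                  rw [co_y, show 16 * (2 * k + 2) = 32 + 32 * k by ring] at this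
                  exact this
                · refine le_trans H1 (le_of_eq ?_)
                  show (N - 2) <<< 15 = _
                  rw [Nat.shiftLeft_eq]
            · rw [h6] at H
              have H1 := Nat.le_of_ble_eq_true (sel_ne_zero H).1
              refine sum_test hN hC.sx (v := 16) (Hi := Hi) ?_ ?_
              · intro k hk
                have := (hB (2 * k + 1) (by omega)).2
                rw [co_x, show 16 * (2 * k + 1) = 16 + 32 * k by ring] at this
                exact this
              · refine le_trans H1 (le_of_eq ?_)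
                show (N - 2) <<< 15 = _
                rw [Nat.shiftLeft_eq]
          · rw [h5] at H
            have H0 := sel_ne_zero H
            have H1 := Nat.le_of_ble_eq_true H0.1
            have H2 := Nat.le_of_ble_eq_true (sel_ne_zero H0.2).1
            generalize Nat.land (Nat.shiftRight s 5) 15 = k at H1 H2
            have H1' : k + 4 ≤ N := H1
            have H3 : fld Hi (16 * (2 * (k + 1) + 2)) + 1 ≤ fld Lo (16 * (2 * k + 2)) := by
              have e1 : 16 * (2 * (k + 1) + 2) = (k <<< 5) + 64 := by
                rw [Nat.shiftLeft_eq]; ring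
              have e2 : 16 * (2 * k + 2) = (k <<< 5) + 32 := by
                rw [Nat.shiftLeft_eq]; ring
              rw [e1, e2]
              exact H2
            have H4 : ((fld Hi (16 * (2 * (k + 1) + 2)) + 1 : ℕ) : ℝ)
                ≤ ((fld Lo (16 * (2 * k + 2)) : ℕ) : ℝ) := Nat.cast_le.2 H3
            rw [Nat.cast_add, Nat.cast_one] at H4
            have H5 := (hB (2 * (k + 1) + 2) (by omega)).2
            have H6 := (hB (2 * k + 2) (by omega)).1
            rw [co_y] at H5 H6
            have H7 := hC.srt (k + 2) (by omega) (by omega)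
            rw [show k + 2 + 1 = k + 1 + 2 by ring] at H7
            linarith
        · rw [h4] at H
          have H0 := sel_ne_zero H
          have H1 := Nat.le_of_ble_eq_true H0.1
          have H2 := Nat.le_of_ble_eq_true (sel_ne_zero H0.2).1
          have hj : Nat.land (Nat.shiftRight s 5) 31 < 32 := by
            have : Nat.land (Nat.shiftRight s 5) 31 = (Nat.shiftRight s 5) % 32 :=
              Nat.and_two_pow_sub_one_eq_mod _ 5
            rw [this]; exact Nat.mod_lt _ (by norm_num)
          rcases hG.hw _ hj with h0 | ⟨i, hi, k, hk, hik, ei, ek⟩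
          · rw [h0] at H1; exact absurd H1 (by norm_num)
          · rw [ei, ek] at H2
            have H3 : th (K.ext1 Lo Hi) (K.ext2 Lo Hi) (32 * i) (32 * k) + 1 ≤ rh Lo := H2
            have H4 : ((th (K.ext1 Lo Hi) (K.ext2 Lo Hi) (32 * i) (32 * k) + 1 : ℕ) : ℝ)
                ≤ ((rh Lo : ℕ) : ℝ) := Nat.cast_le.2 H3
            rw [Nat.cast_add, Nat.cast_one] at H4
            have H5 := th_sound hE hi hk
            have H6 := hρ i hi k hk hik
            linarith
      · rw [h3] at H
        have H1 := (sel_ne_zero H).1
        rw [hG.p4.big hC hE hr hρ hG.hP] at H1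
        exact absurd H1 (by simp)
    · rw [h2] at H
      have H1 := (sel_ne_zero H).1
      rw [hG.p4.neg hC hE hr hρ hG.hP] at H1
      exact absurd H1 (by simp)
  · rw [h1] at H
    have H1 := (sel_ne_zero H).1
    have hs : Nat.land (Nat.shiftRight s 6) 127 < 128 := by
      have : Nat.land (Nat.shiftRight s 6) 127 = (Nat.shiftRight s 6) % 128 :=
        Nat.and_two_pow_sub_one_eq_mod _ 7
      rw [this]; exact Nat.mod_lt _ (by norm_num)
    have hc : Nat.shiftLeft (Nat.land (Nat.shiftRight s 5) 1) 4 = 0 ∨
        Nat.shiftLeft (Nat.land (Nat.shiftRight s 5) 1) 4 = 16 := by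
      have : Nat.land (Nat.shiftRight s 5) 1 = (Nat.shiftRight s 5) % 2 :=
        Nat.and_two_pow_sub_one_eq_mod _ 1
      rw [this]
      rcases Nat.mod_two_eq_zero_or_one (Nat.shiftRight s 5) with h | h
      · left; rw [h]; rfl
      · right; rw [h]; rfl
    exact ft_sound (by omega) hC hE hr hρ hG.hF _ _ hs hc H1

lemma go_zero (d Lo Hi : ℕ) : go N P F w d 0 Lo Hi = 0 := by
  cases d <;> rfl

/-- soundness of a subtree -/
theorem go_sound (hG : Good N P F w) (d : ℕ) : ∀ {s Lo Hi : ℕ}, go N P F w d s Lo Hi ≠ 0 →
    NoCfg N Lo Hi := by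
  induction d with
  | zero => intro s Lo Hi H; exact absurd rfl H
  | succ d ih =>
    intro s Lo Hi H
    have e : go N P F w (d + 1) s Lo Hi = Bool.rec (motive := fun _ => ℕ)
        (leaf N P F w s Lo Hi)
        (go N P F w d (go N P F w d (Nat.shiftRight s 21) Lo
          (setf Hi (Nat.shiftLeft (Nat.sub (Nat.land s 31) 16) 4)
            (Nat.land (Nat.shiftRight s 5) 65535)))
          (setf Lo (Nat.shiftLeft (Nat.sub (Nat.land s 31) 16) 4)
            (Nat.land (Nat.shiftRight s 5) 65535)) Hi)
        (Nat.ble 16 (Nat.land s 31)) := rfl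
    rw [e] at H
    rcases h : Nat.ble 16 (Nat.land s 31) with _ | _
    · rw [h] at H
      exact leaf_sound hG H
    · rw [h] at H
      have hv : Nat.shiftLeft (Nat.sub (Nat.land s 31) 16) 4
          = 16 * (Nat.sub (Nat.land s 31) 16) := by
        show (_ <<< 4) = _
        rw [Nat.shiftLeft_eq]; ring
      have hc : Nat.land (Nat.shiftRight s 5) 65535 < 65536 := by
        rw [land_65535]; exact Nat.mod_lt _ (by norm_num)
      rw [hv] at H
      apply nocfg_split _ hc
      · apply ih (s := Nat.shiftRight s 21)
        intro h0
        apply H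
        show go N P F w d (go N P F w d (Nat.shiftRight s 21) Lo
          (setf Hi (16 * (Nat.sub (Nat.land s 31) 16)) (Nat.land (Nat.shiftRight s 5) 65535))) _ _ = 0
        rw [h0, go_zero]
      · exact ih H

/-! ### the upper part -/

/-- the fields of `Lo` only matter modulo `2^256` -/
lemma fld_land (Lo v : ℕ) (hv : v < 16) : fld (Nat.land Lo
    115792089237316195423570985008687907853269984665640564039457584007913129639935) (16 * v)
      = fld Lo (16 * v) := by
  apply Nat.eq_of_testBit_eq
  intro i
  rw [testBit_fld, testBit_fld]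
  have e : Nat.land Lo
    115792089237316195423570985008687907853269984665640564039457584007913129639935 = Lo % 2 ^ 256 :=
    Nat.and_two_pow_sub_one_eq_mod Lo 256
  rw [e, Nat.testBit_mod_two_pow]
  by_cases hi : i < 16
  · have : 16 * v + i < 256 := by omega
    simp [this]
  · simp [hi]

lemma nocfg_land (h7 : N ≤ 7) {Lo Hi : ℕ} (h : NoCfg N (Nat.land Lo
    115792089237316195423570985008687907853269984665640564039457584007913129639935) Hi) :
    NoCfg N Lo Hi := by
  intro x y hC hB
  refine h x y hC fun v hv => ?_
  rw [fld_land _ _ (by omega)]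
  exact hB v hv

/-- the external boxes of a certificate -/
def ExtOK (N : ℕ) (e : ℕ) : Prop := Nat.land e 3 = 2 →
  NoCfg N (Nat.land (Nat.shiftRight e 2)
    115792089237316195423570985008687907853269984665640564039457584007913129639935)
    (Nat.shiftRight e 258)

lemma goL_succ (d : ℕ) (e : ℕ) (rest : List ℕ) (Lo Hi : ℕ) :
    goL N P F w (d + 1) (e :: rest) Lo Hi =
      Bool.rec (motive := fun _ => List ℕ)
        (Bool.rec (motive := fun _ => List ℕ)
          (Bool.rec (motive := fun _ => List ℕ) []
            (Bool.rec (motive := fun _ => List ℕ) [] rest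
              (Nat.beq (Nat.shiftRight e 2) (Nat.add (Nat.shiftLeft Hi 256) (Nat.land Lo
                115792089237316195423570985008687907853269984665640564039457584007913129639935))))
            (Nat.beq (Nat.land e 3) 2))
          (Bool.rec (motive := fun _ => List ℕ) [] rest
            (Nat.beq (go N P F w 100 (Nat.shiftRight e 2) Lo Hi) 1))
          (Nat.beq (Nat.land e 3) 1))
        (goL N P F w d (goL N P F w d rest Lo (setf Hi
            (Nat.shiftLeft (Nat.land (Nat.shiftRight e 2) 15) 4)
              (Nat.land (Nat.shiftRight e 6) 65535)))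
          (setf Lo (Nat.shiftLeft (Nat.land (Nat.shiftRight e 2) 15) 4)
              (Nat.land (Nat.shiftRight e 6) 65535)) Hi)
        (Nat.beq (Nat.land e 3) 0) := rfl

lemma goL_nil (d Lo Hi : ℕ) : goL N P F w d [] Lo Hi = [] := by
  cases d <;> rfl

lemma goL_subset (d : ℕ) : ∀ (l : List ℕ) (Lo Hi : ℕ), goL N P F w d l Lo Hi ⊆ l := by
  induction d with
  | zero => intro l Lo Hi a ha; exact absurd ha (by simp [goL])
  | succ d ih =>
    intro l Lo Hi
    rcases l with _ | ⟨e, rest⟩
    · rw [goL_nil]; exact fun _ h => h
    · rw [goL_succ]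
      rcases h0 : Nat.beq (Nat.land e 3) 0 with _ | _
      · rcases h1 : Nat.beq (Nat.land e 3) 1 with _ | _
        · rcases h2 : Nat.beq (Nat.land e 3) 2 with _ | _
          · exact List.nil_subset _
          · rcases Nat.beq (Nat.shiftRight e 2) (Nat.add (Nat.shiftLeft Hi 256) (Nat.land Lo
              115792089237316195423570985008687907853269984665640564039457584007913129639935)) with _ | _
            · exact List.nil_subset _
            · exact List.subset_cons_self _ _
        · rcases Nat.beq (go N P F w 100 (Nat.shiftRight e 2) Lo Hi) 1 with _ | _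
          · exact List.nil_subset _
          · exact List.subset_cons_self _ _
      · exact fun a ha => List.subset_cons_self _ _ (ih _ _ _ (ih _ _ _ ha))

/-- soundness of the upper part of the tree -/
theorem goL_sound (hG : Good N P F w) (d : ℕ) : ∀ {l : List ℕ} {Lo Hi : ℕ},
    goL N P F w d l Lo Hi ≠ [] → (∀ e ∈ l, ExtOK N e) → NoCfg N Lo Hi := by
  induction d with
  | zero => intro l Lo Hi H; exact absurd rfl H
  | succ d ih =>
    intro l Lo Hi H hl
    rcases l with _ | ⟨e, rest⟩
    · exact absurd (goL_nil _ _ _) H
    · rw [goL_succ] at H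
      rcases h0 : Nat.beq (Nat.land e 3) 0 with _ | _
      · rw [h0] at H
        rcases h1 : Nat.beq (Nat.land e 3) 1 with _ | _
        · rw [h1] at H
          rcases h2 : Nat.beq (Nat.land e 3) 2 with _ | _
          · rw [h2] at H; exact absurd rfl H
          · rw [h2] at H
            rcases h3 : Nat.beq (Nat.shiftRight e 2) (Nat.add (Nat.shiftLeft Hi 256) (Nat.land Lo
              115792089237316195423570985008687907853269984665640564039457584007913129639935)) with _ | _
            · rw [h3] at H; exact absurd rfl H
            · have h4 := hl e (by simp) (beq_true h2)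
              have h5 := beq_true h3
              have eL : Nat.land Lo
                115792089237316195423570985008687907853269984665640564039457584007913129639935
                = Lo % 2 ^ 256 := Nat.and_two_pow_sub_one_eq_mod Lo 256
              have h6 : e >>> 2 = Hi * 2 ^ 256 + Lo % 2 ^ 256 := by
                rw [← eL, ← Nat.shiftLeft_eq]; exact h5
              have h7 : Nat.land (Nat.shiftRight e 2)
                  115792089237316195423570985008687907853269984665640564039457584007913129639935
                  = Nat.land Lo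
                115792089237316195423570985008687907853269984665640564039457584007913129639935 := by
                rw [eL]
                have : Nat.land (Nat.shiftRight e 2)
                  115792089237316195423570985008687907853269984665640564039457584007913129639935
                  = (e >>> 2) % 2 ^ 256 := Nat.and_two_pow_sub_one_eq_mod _ 256
                rw [this, h6, Nat.mul_comm, Nat.mul_add_mod, Nat.mod_mod]
              have h8 : Nat.shiftRight e 258 = Hi := by
                have : e >>> 258 = (e >>> 2) >>> 256 := by rw [← Nat.shiftRight_add]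
                show e >>> 258 = Hi
                rw [this, h6, Nat.shiftRight_eq_div_pow]
                have h9 : Lo % 2 ^ 256 < 2 ^ 256 := Nat.mod_lt _ (by positivity)
                rw [Nat.mul_comm, Nat.mul_add_div (by positivity), Nat.div_eq_of_lt h9, add_zero]
              rw [h7, h8] at h4
              exact nocfg_land hG.h7 h4
        · rw [h1] at H
          rcases h3 : Nat.beq (go N P F w 100 (Nat.shiftRight e 2) Lo Hi) 1 with _ | _
          · rw [h3] at H; exact absurd rfl H
          · exact go_sound hG 100 (by rw [beq_true h3]; norm_num)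
      · rw [h0] at H
        have hv : Nat.shiftLeft (Nat.land (Nat.shiftRight e 2) 15) 4
            = 16 * (Nat.land (Nat.shiftRight e 2) 15) := by
          show (_ <<< 4) = _
          rw [Nat.shiftLeft_eq]; ring
        have hc : Nat.land (Nat.shiftRight e 6) 65535 < 65536 := by
          rw [land_65535]; exact Nat.mod_lt _ (by norm_num)
        rw [hv] at H
        apply nocfg_split _ hc
        · apply ih (l := rest)
          · intro h5
            apply H
            show goL N P F w d (goL N P F w d rest Lo (setf Hi
              (16 * (Nat.land (Nat.shiftRight e 2) 15)) (Nat.land (Nat.shiftRight e 6) 65535))) _ _ = []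
            rw [h5, goL_nil]
          · exact fun a ha => hl a (by simp [ha])
        · apply ih H
          intro a ha
          have := goL_subset d _ _ _ ha
          exact hl a (by simp [this])

/-- soundness of a certificate -/
theorem chk_sound (hG : Good N P F w) {l : List ℕ} {Lo Hi : ℕ}
    (H : K.chk N P F w l Lo Hi = true) (hl : ∀ e ∈ l, ExtOK N e) : NoCfg N Lo Hi := by
  apply goL_sound hG 100 _ hl
  intro h
  unfold K.chk at H
  rw [h] at H
  exact absurd H (by decide)

end RelEqN.Small.Box
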